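import Pool.Agent.Lib.MP_391708_nt.MA.Defs

/-!
# Basic lemmas: norm, discs, rational ideals, conjugation, split primes
-/

set_option autoImplicit false
set_option linter.unusedVariables false
set_option linter.unusedSectionVars false

namespace Pool.Agent.Lib.MP391708.MA

open Finset Filter Topology NumberField
open scoped ComplexConjugate Classical

variable {K : Type} [Field K] [NumberField K]

/-! ## the norm -/

lemma nm_mul (x y : Gi K) : nm (x * y) = nm x * nm y := by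
  unfold nm; exact map_mul _ _ _

@[simp] lemma nm_zero : nm (0 : Gi K) = 0 := by
  unfold nm; exact map_zero _

@[simp] lemma nm_one : nm (1 : Gi K) = 1 := by
  unfold nm; exact map_one _

lemma nm_pow (z : Gi K) (n : ℕ) : nm (z ^ n) = nm z ^ n := by
  unfold nm; exact map_pow _ _ _

lemma nm_prod {ι : Type*} (s : Finset ι) (f : ι → Gi K) : nm (∏ i ∈ s, f i) = ∏ i ∈ s, nm (f i) := by
  unfold nm; exact map_prod _ _ _

lemma nm_eq_zero {z : Gi K} : nm z = 0 ↔ z = 0 := by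
  unfold nm
  exact Ideal.absNorm_eq_zero_iff

lemma nm_pos {z : Gi K} (h : z ≠ 0) : 0 < nm z := Nat.pos_of_ne_zero (fun h' => h (nm_eq_zero.1 h'))

lemma nm_posR {z : Gi K} (h : z ≠ 0) : (0 : ℝ) < nm z := by exact_mod_cast nm_pos h

lemma one_le_nm {z : Gi K} (h : z ≠ 0) : (1 : ℝ) ≤ nm z := by exact_mod_cast nm_pos h

lemma nm_dvd {x y : Gi K} (h : x ∣ y) : nm x ∣ nm y := by
  obtain ⟨c, rfl⟩ := h
  rw [nm_mul]; exact dvd_mul_right _ _

lemma nm_eq_one {z : Gi K} : nm z = 1 ↔ z = 1 := by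
  unfold nm
  rw [Ideal.absNorm_eq_one_iff, Ideal.one_eq_top]

lemma isUnit_iff_nm {z : Gi K} : IsUnit z ↔ nm z = 1 := by
  rw [nm_eq_one, Ideal.isUnit_iff, Ideal.one_eq_top]

lemma le_nm_of_dvd {x y : Gi K} (h : x ∣ y) (hy : y ≠ 0) : nm x ≤ nm y :=
  Nat.le_of_dvd (nm_pos hy) (nm_dvd h)

/-! ## finite sets -/

lemma mem_disc {x : ℝ} {z : Gi K} : z ∈ disc x ↔ z ≠ 0 ∧ (nm z : ℝ) ≤ x := by
  unfold disc
  rw [mem_filter, and_iff_right_of_imp]
  rintro ⟨h0, h⟩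
  have hx : 0 ≤ x := le_trans (by positivity) h
  have hn : nm z ≤ ⌊x⌋₊ := (Nat.le_floor_iff hx).2 h
  rw [Set.Finite.mem_toFinset]
  exact hn

lemma mem_ann {x x' : ℝ} {z : Gi K} : z ∈ ann x x' ↔ z ≠ 0 ∧ x < (nm z : ℝ) ∧ (nm z : ℝ) ≤ x' := by
  unfold ann
  rw [mem_filter, mem_disc]
  tauto

lemma ann_subset_disc (x x' : ℝ) : (ann x x' : Finset (Gi K)) ⊆ disc x' := filter_subset _ _

lemma disc_subset {x x' : ℝ} (h : x ≤ x') : (disc x : Finset (Gi K)) ⊆ disc x' := fun z hz => by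
  rw [mem_disc] at hz ⊢
  exact ⟨hz.1, hz.2.trans h⟩

lemma disc_empty {x : ℝ} (h : x < 1) : (disc x : Finset (Gi K)) = ∅ := by
  rw [eq_empty_iff_forall_notMem]
  intro z hz
  rw [mem_disc] at hz
  have := one_le_nm hz.1
  linarith [hz.2]

lemma disc_sdiff {x x' : ℝ} (h : x ≤ x') : (disc x' : Finset (Gi K)) \ disc x = ann x x' := by
  ext z
  rw [Finset.mem_sdiff, mem_disc, mem_disc, mem_ann]
  push Not
  tauto

lemma disc_union {x x' : ℝ} (h : x ≤ x') : (disc x' : Finset (Gi K)) = disc x ∪ ann x x' := by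
  rw [← disc_sdiff h, union_sdiff_of_subset (disc_subset h)]

lemma disc_disjoint (x x' : ℝ) : Disjoint (disc x : Finset (Gi K)) (ann x x') := by
  rw [disjoint_left]
  intro z h1 h2
  rw [mem_disc] at h1
  rw [mem_ann] at h2
  linarith [h1.2, h2.2.1]

/-- multiples of `D` in a disc -/
lemma disc_mul {D : Gi K} (hD : D ≠ 0) (x : ℝ) :
    (disc x).filter (fun z => D ∣ z) = (disc (x / nm D)).image (fun z => D * z) := by
  ext z
  rw [mem_filter, mem_disc, mem_image]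
  constructor
  · rintro ⟨⟨h1, h2⟩, w, rfl⟩
    refine ⟨w, ?_, rfl⟩
    rw [mem_disc]
    refine ⟨fun h => h1 (by rw [h, mul_zero]), ?_⟩
    rw [le_div_iff₀ (nm_posR hD)]
    rw [nm_mul] at h2
    push_cast at h2
    linarith
  · rintro ⟨w, hw, rfl⟩
    rw [mem_disc, le_div_iff₀ (nm_posR hD)] at hw
    refine ⟨⟨mul_ne_zero hD hw.1, ?_⟩, dvd_mul_right _ _⟩
    rw [nm_mul]
    push_cast
    linarith [hw.2]

lemma mul_left_injective' {D : Gi K} (hD : D ≠ 0) : Function.Injective (fun z : Gi K => D * z) :=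
  fun _ _ h => mul_left_cancel₀ hD h

/-! ## the sign function -/

lemma lam_eq_or [Sg] (z : Gi K) : lam z = 1 ∨ lam z = -1 := by
  unfold lam
  rcases gs_eq_or (nm z) with h | h <;> rw [h] <;> norm_num

lemma lam_sq [Sg] (z : Gi K) : lam z ^ 2 = 1 := by
  rcases lam_eq_or z with h | h <;> rw [h] <;> norm_num

lemma lam_mul [Sg] {x y : Gi K} (hx : x ≠ 0) (hy : y ≠ 0) : lam (x * y) = lam x * lam y := by
  unfold lam
  rw [nm_mul, gs_mul (nm_pos hx).ne' (nm_pos hy).ne', Int.cast_mul]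

lemma abs_lam [Sg] (z : Gi K) : |lam z| = 1 := by
  rcases lam_eq_or z with h | h <;> rw [h] <;> norm_num

lemma norm_lam [Sg] (z : Gi K) : ‖(lam z : ℂ)‖ = 1 := by
  rw [Complex.norm_real, Real.norm_eq_abs, abs_lam]

/-! ## rational ideals -/

@[simp] lemma rt_one : (rt 1 : Gi K) = 1 := by
  unfold rt
  rw [Nat.cast_one, Ideal.span_singleton_one, Ideal.one_eq_top]

@[simp] lemma rt_zero : (rt 0 : Gi K) = 0 := by
  unfold rt
  rw [Nat.cast_zero, Ideal.span_singleton_eq_bot.2 rfl, Ideal.zero_eq_bot]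

lemma rt_mul (m n : ℕ) : (rt (m * n) : Gi K) = rt m * rt n := by
  unfold rt
  rw [Ideal.span_singleton_mul_span_singleton, Nat.cast_mul]

lemma rt_pow (m n : ℕ) : (rt (m ^ n) : Gi K) = rt m ^ n := by
  unfold rt
  rw [Ideal.span_singleton_pow, Nat.cast_pow]

lemma rt_eq_zero {n : ℕ} : (rt n : Gi K) = 0 ↔ n = 0 := by
  unfold rt
  rw [Ideal.zero_eq_bot, Ideal.span_singleton_eq_bot, Nat.cast_eq_zero]

lemma rt_ne_zero {n : ℕ} (h : n ≠ 0) : (rt n : Gi K) ≠ 0 := fun h' => h (rt_eq_zero.1 h')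

lemma nm_rt [hK : IQ K] (n : ℕ) : nm (rt n : Gi K) = n ^ 2 := by
  unfold nm rt
  rw [Ideal.absNorm_span_singleton]
  have h1 : (Algebra.norm ℤ ((n : ℕ) : 𝓞 K)) = (n : ℤ) ^ 2 := by
    have h2 : ((n : ℕ) : 𝓞 K) = algebraMap ℤ (𝓞 K) (n : ℤ) := by simp
    rw [h2, Algebra.norm_algebraMap]
    congr 1
    rw [RingOfIntegers.rank]
    exact hK.deg
  rw [h1, Int.natAbs_pow, Int.natAbs_natCast]

lemma rt_dvd_rt [IQ K] {m n : ℕ} : (rt m : Gi K) ∣ rt n ↔ m ∣ n := by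
  constructor
  · intro h
    have := nm_dvd h
    rw [nm_rt, nm_rt] at this
    exact (Nat.pow_dvd_pow_iff two_ne_zero).1 this
  · rintro ⟨c, rfl⟩
    rw [rt_mul]; exact dvd_mul_right _ _

lemma rt_inj [IQ K] {m n : ℕ} (h : (rt m : Gi K) = rt n) : m = n :=
  Nat.dvd_antisymm (rt_dvd_rt.1 (dvd_of_eq h)) (rt_dvd_rt.1 (dvd_of_eq h.symm))

/-- `rt n ∣ z` in terms of elements -/
lemma rt_dvd_iff {n : ℕ} {z : Gi K} : rt n ∣ z ↔ ∀ x ∈ z, (n : 𝓞 K) ∣ x := by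
  unfold rt
  rw [Ideal.dvd_iff_le]
  constructor
  · intro h x hx
    exact Ideal.mem_span_singleton.1 (h hx)
  · intro h x hx
    exact Ideal.mem_span_singleton.2 (h x hx)

lemma rt_lcm_dvd {m n : ℕ} {z : Gi K} (h1 : rt m ∣ z) (h2 : rt n ∣ z) : rt (Nat.lcm m n) ∣ z := by
  rw [rt_dvd_iff] at *
  intro x hx
  obtain ⟨a, ha⟩ := h1 x hx
  obtain ⟨b, hb⟩ := h2 x hx
  rcases Nat.eq_zero_or_pos m with rfl | hm
  · simp only [Nat.cast_zero, zero_mul] at ha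
    rw [ha]; exact dvd_zero _
  obtain ⟨m', hm'⟩ := Nat.gcd_dvd_left m n
  obtain ⟨n', hn'⟩ := Nat.gcd_dvd_right m n
  have hg : 0 < Nat.gcd m n := Nat.gcd_pos_of_pos_left _ hm
  have hl : Nat.lcm m n = Nat.gcd m n * m' * n' := by
    have h3 := Nat.gcd_mul_lcm m n
    have h4 : Nat.gcd m n * Nat.lcm m n = Nat.gcd m n * (Nat.gcd m n * m' * n') := by
      rw [h3]
      calc m * n = (Nat.gcd m n * m') * (Nat.gcd m n * n') := congrArg₂ (· * ·) hm' hn'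
        _ = _ := by ring
    exact Nat.eq_of_mul_eq_mul_left hg h4
  -- Bezout
  have hbz : ((Nat.gcd m n : ℕ) : ℤ) = m * Nat.gcdA m n + n * Nat.gcdB m n := Nat.gcd_eq_gcd_ab m n
  have hbz' : (1 : ℤ) = m' * Nat.gcdA m n + n' * Nat.gcdB m n := by
    have hg' : ((Nat.gcd m n : ℕ) : ℤ) ≠ 0 := by exact_mod_cast hg.ne'
    have e1 : (m : ℤ) = (Nat.gcd m n : ℕ) * m' := by exact_mod_cast hm'
    have e2 : (n : ℤ) = (Nat.gcd m n : ℕ) * n' := by exact_mod_cast hn'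
    apply mul_left_cancel₀ hg'
    calc ((Nat.gcd m n : ℕ) : ℤ) * 1 = m * Nat.gcdA m n + n * Nat.gcdB m n := by rw [mul_one]; exact hbz
      _ = (Nat.gcd m n : ℕ) * m' * Nat.gcdA m n + (Nat.gcd m n : ℕ) * n' * Nat.gcdB m n := by
          rw [← e1, ← e2]
      _ = _ := by ring
  have hO : (1 : 𝓞 K) = m' * (Nat.gcdA m n : 𝓞 K) + n' * (Nat.gcdB m n : 𝓞 K) := by
    have := congrArg (Int.cast : ℤ → 𝓞 K) hbz'
    push_cast at this
    exact this
  rw [hl]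
  have em : (m : 𝓞 K) = (Nat.gcd m n : 𝓞 K) * m' := by exact_mod_cast congrArg (Nat.cast : ℕ → 𝓞 K) hm'
  have en : (n : 𝓞 K) = (Nat.gcd m n : 𝓞 K) * n' := by exact_mod_cast congrArg (Nat.cast : ℕ → 𝓞 K) hn'
  refine ⟨(Nat.gcdA m n : 𝓞 K) * b + (Nat.gcdB m n : 𝓞 K) * a, ?_⟩
  calc x = x * 1 := (mul_one x).symm
    _ = m' * (Nat.gcdA m n : 𝓞 K) * x + n' * (Nat.gcdB m n : 𝓞 K) * x := by rw [hO]; ring
    _ = m' * (Nat.gcdA m n : 𝓞 K) * (n * b) + n' * (Nat.gcdB m n : 𝓞 K) * (m * a) := by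
        conv_lhs => rw [show m' * (Nat.gcdA m n : 𝓞 K) * x = m' * (Nat.gcdA m n : 𝓞 K) * (n * b) by rw [← hb]]
        rw [show (n' : 𝓞 K) * (Nat.gcdB m n : 𝓞 K) * x = n' * (Nat.gcdB m n : 𝓞 K) * (m * a) by
          conv_lhs => rw [ha]]
    _ = _ := by
        rw [em, en]; push_cast; ring

/-! ## conjugation -/

lemma dvd_rt_nm {z : Gi K} : z ∣ rt (nm z) := by
  unfold rt nm
  rw [Ideal.dvd_iff_le, Ideal.span_singleton_le_iff_mem]
  exact Ideal.absNorm_mem z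

lemma mul_cj {z : Gi K} (hz : z ≠ 0) : z * cj z = rt (nm z) := by
  have h : ∃ z' : Gi K, z * z' = rt (nm z) ∧ z ≠ 0 := by
    obtain ⟨w, hw⟩ := (dvd_rt_nm : z ∣ rt (nm z))
    exact ⟨w, hw.symm, hz⟩
  unfold cj
  rw [dif_pos h]
  exact h.choose_spec.1

@[simp] lemma cj_zero : cj (0 : Gi K) = 0 := by
  unfold cj
  rw [dif_neg]
  rintro ⟨z', h, h'⟩
  exact h' rfl

lemma cj_ne_zero {z : Gi K} (hz : z ≠ 0) : cj z ≠ 0 := by
  intro h
  have h1 := mul_cj hz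
  rw [h, mul_zero] at h1
  exact rt_ne_zero (nm_pos hz).ne' h1.symm

lemma cj_eq_zero {z : Gi K} : cj z = 0 ↔ z = 0 := by
  constructor
  · intro h
    by_contra h'
    exact cj_ne_zero h' h
  · rintro rfl; exact cj_zero

lemma cj_unique {z z' : Gi K} (hz : z ≠ 0) (h : z * z' = rt (nm z)) : z' = cj z := by
  apply mul_left_cancel₀ hz
  rw [h, mul_cj hz]

@[simp] lemma cj_one : cj (1 : Gi K) = 1 := by
  symm
  apply cj_unique one_ne_zero
  rw [nm_one, rt_one, one_mul]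

lemma nm_cj [IQ K] (z : Gi K) : nm (cj z) = nm z := by
  rcases eq_or_ne z 0 with rfl | hz
  · rw [cj_zero]
  have h := congrArg nm (mul_cj hz)
  rw [nm_mul, nm_rt, sq] at h
  exact Nat.eq_of_mul_eq_mul_left (nm_pos hz) h

lemma cj_mul (x y : Gi K) : cj (x * y) = cj x * cj y := by
  rcases eq_or_ne x 0 with rfl | hx
  · rw [zero_mul, cj_zero, zero_mul]
  rcases eq_or_ne y 0 with rfl | hy
  · rw [mul_zero, cj_zero, mul_zero]
  symm
  apply cj_unique (mul_ne_zero hx hy)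
  rw [nm_mul, rt_mul, ← mul_cj hx, ← mul_cj hy]
  ring

lemma cj_cj [IQ K] (z : Gi K) : cj (cj z) = z := by
  rcases eq_or_ne z 0 with rfl | hz
  · rw [cj_zero, cj_zero]
  symm
  apply cj_unique (cj_ne_zero hz)
  rw [nm_cj, mul_comm, mul_cj hz]

lemma cj_inj [IQ K] : Function.Injective (cj : Gi K → Gi K) := fun x y h => by
  rw [← cj_cj x, h, cj_cj]

lemma cj_rt [IQ K] (n : ℕ) : cj (rt n : Gi K) = rt n := by
  rcases Nat.eq_zero_or_pos n with rfl | hn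
  · rw [rt_zero, cj_zero]
  symm
  apply cj_unique (rt_ne_zero hn.ne')
  rw [nm_rt, ← rt_mul, sq]

lemma cj_dvd [IQ K] {x y : Gi K} : cj x ∣ cj y ↔ x ∣ y := by
  constructor
  · rintro ⟨c, hc⟩
    refine ⟨cj c, ?_⟩
    have := congrArg cj hc
    rwa [cj_mul, cj_cj, cj_cj] at this
  · rintro ⟨c, rfl⟩
    rw [cj_mul]; exact dvd_mul_right _ _

lemma cj_prod {ι : Type*} (s : Finset ι) (f : ι → Gi K) : cj (∏ i ∈ s, f i) = ∏ i ∈ s, cj (f i) := by
  induction s using Finset.induction_on with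
  | empty => rw [prod_empty, prod_empty, cj_one]
  | insert a s ha ih => rw [prod_insert ha, prod_insert ha, cj_mul, ih]

/-! ## split primes -/

lemma prime_of_nm_prime {z : Gi K} (h : (nm z).Prime) : Prime z := by
  have hz : z ≠ 0 := by
    rintro rfl
    rw [nm_zero] at h
    exact Nat.not_prime_zero h
  have h1 : z.IsPrime := Ideal.isPrime_of_irreducible_absNorm (by exact h.prime.irreducible)
  exact Ideal.prime_of_isPrime hz h1

lemma mem_GP {P Q : ℝ} {z : Gi K} : z ∈ GP P Q ↔ (nm z).Prime ∧ cj z ≠ z ∧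
    P < (nm z : ℝ) ∧ (nm z : ℝ) ≤ Q := by
  unfold GP
  rw [mem_filter, mem_disc]
  constructor
  · rintro ⟨⟨_, h1⟩, h2, h3, h4⟩
    exact ⟨h2, h3, h4, h1⟩
  · rintro ⟨h2, h3, h4, h1⟩
    refine ⟨⟨?_, h1⟩, h2, h3, h4⟩
    rintro rfl
    rw [nm_zero] at h2
    exact Nat.not_prime_zero h2

lemma GP_ne_zero {P Q : ℝ} {z : Gi K} (h : z ∈ GP P Q) : z ≠ 0 := by
  rw [mem_GP] at h
  rintro rfl
  rw [nm_zero] at h
  exact Nat.not_prime_zero h.1

lemma GP_prime {P Q : ℝ} {z : Gi K} (h : z ∈ GP P Q) : Prime z :=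
  prime_of_nm_prime (mem_GP.1 h).1

/-- divisibility of prime ideals of prime norm is equality -/
lemma eq_of_dvd_of_nm_prime {z z' : Gi K} (h : (nm z).Prime) (h' : (nm z').Prime) (hd : z ∣ z') :
    z' = z := by
  obtain ⟨u, hu⟩ := hd
  have h1 : nm z * nm u = nm z' := by rw [hu, nm_mul]
  have h2 : nm u = 1 := by
    have h3 := (Nat.prime_mul_iff.1 (h1 ▸ h'))
    rcases h3 with ⟨_, h4⟩ | ⟨_, h4⟩
    · exact h4
    · exact absurd (h4 ▸ h) Nat.not_prime_one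
  rw [nm_eq_one.1 h2, mul_one] at hu
  exact hu

lemma GP_eq_of_dvd {P Q P' Q' : ℝ} {z z' : Gi K} (h : z ∈ GP P Q) (h' : z' ∈ GP P' Q')
    (hd : z ∣ z') : z' = z :=
  eq_of_dvd_of_nm_prime (mem_GP.1 h).1 (mem_GP.1 h').1 hd

/-- distinct primes dividing `x` -/
lemma mul_dvd_of_prime {z z' x : Gi K} (hz : Prime z) (h : ¬ z ∣ z') (h1 : z ∣ x) (h2 : z' ∣ x) :
    z * z' ∣ x := by
  obtain ⟨c, rfl⟩ := h2
  rcases hz.dvd_or_dvd h1 with h3 | h3
  · exact absurd h3 h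
  · rw [mul_comm]
    exact mul_dvd_mul_left _ h3

lemma GP_not_dvd {P Q P' Q' : ℝ} {z z' : Gi K} (h : z ∈ GP P Q) (h' : z' ∈ GP P' Q')
    (hne : z ≠ z') : ¬ z ∣ z' := fun hd => hne (GP_eq_of_dvd h h' hd).symm

lemma GP_mul_dvd {P Q P' Q' : ℝ} {z z' x : Gi K} (h : z ∈ GP P Q) (h' : z' ∈ GP P' Q')
    (hne : z ≠ z') : z * z' ∣ x ↔ z ∣ x ∧ z' ∣ x := by
  constructor
  · intro hd
    exact ⟨(dvd_mul_right _ _).trans hd, (dvd_mul_left _ _).trans hd⟩
  · rintro ⟨h1, h2⟩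
    exact mul_dvd_of_prime (GP_prime h) (GP_not_dvd h h' hne) h1 h2

lemma cj_mem_GP [IQ K] {P Q : ℝ} {z : Gi K} (h : z ∈ GP P Q) : cj z ∈ GP P Q := by
  rw [mem_GP] at h ⊢
  rw [nm_cj, cj_cj]
  exact ⟨h.1, fun h' => h.2.1 h'.symm, h.2.2⟩

lemma GP_mul_cj {P Q : ℝ} {z : Gi K} (h : z ∈ GP P Q) : z * cj z = rt (nm z) :=
  mul_cj (GP_ne_zero h)

/-- two primes of the same norm are equal or conjugate -/
lemma eq_or_of_nm_eq [IQ K] {P Q P' Q' : ℝ} {x y : Gi K} (hx : x ∈ GP P Q) (hy : y ∈ GP P' Q')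
    (h : nm x = nm y) : y = x ∨ y = cj x := by
  have h1 : y ∣ x * cj x := by
    rw [GP_mul_cj hx, h]; exact dvd_rt_nm
  rcases (GP_prime hy).dvd_or_dvd h1 with h2 | h2
  · left; exact (GP_eq_of_dvd hy hx h2).symm
  · right; exact (GP_eq_of_dvd hy (cj_mem_GP hx) h2).symm

lemma card_GP_nm [IQ K] {P Q : ℝ} (p : ℕ) :
    ((GP P Q : Finset (Gi K)).filter (fun π => nm π = p)).card ≤ 2 := by
  rcases ((GP P Q : Finset (Gi K)).filter (fun π => nm π = p)).eq_empty_or_nonempty with h | ⟨x, hx⟩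
  · rw [h]; simp
  · rw [mem_filter] at hx
    have : (GP P Q : Finset (Gi K)).filter (fun π => nm π = p) ⊆ {x, cj x} := by
      intro y hy
      rw [mem_filter] at hy
      rw [mem_insert, mem_singleton]
      exact eq_or_of_nm_eq hx.1 hy.1 (hx.2.trans hy.2.symm)
    exact (card_le_card this).trans card_le_two

end Pool.Agent.Lib.MP391708.MA
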