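import Pool.Agent.Lib.MP_391708_nt.MA.Basic

/-!
# Basic lemmas, second part: content, primitive ideals, parallel ideals, characters
-/

set_option autoImplicit false
set_option linter.unusedVariables false
set_option linter.unusedSectionVars false

namespace Pool.Agent.Lib.MP391708.MA

open Finset Filter Topology NumberField
open scoped ComplexConjugate Classical

variable {K : Type} [Field K] [NumberField K]

/-! ## the content -/

/-- the content: the largest natural number dividing `z` (`0` for the zero ideal) -/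
noncomputable def ct (z : Gi K) : ℕ :=
  if z = 0 then 0 else ((Icc 1 (nm z)).filter (fun n => rt n ∣ z)).lcm id

@[simp] lemma ct_zero : ct (0 : Gi K) = 0 := if_pos rfl

lemma rt_ct_dvd (z : Gi K) : rt (ct z) ∣ z := by
  rcases eq_or_ne z 0 with rfl | hz
  · rw [ct_zero, rt_zero]
  unfold ct
  rw [if_neg hz]
  have key : ∀ s : Finset ℕ, (∀ n ∈ s, rt n ∣ z) → rt (s.lcm id) ∣ z := by
    intro s
    induction s using Finset.induction_on with
    | empty => intro _; rw [Finset.lcm_empty, rt_one]; exact one_dvd _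
    | insert a s ha ih =>
      intro h
      rw [Finset.lcm_insert]
      exact rt_lcm_dvd (h a (mem_insert_self _ _)) (ih (fun n hn => h n (mem_insert_of_mem hn)))
  exact key _ (fun n hn => (mem_filter.1 hn).2)

lemma ct_pos {z : Gi K} (h : z ≠ 0) : 0 < ct z := by
  unfold ct
  rw [if_neg h, Nat.pos_iff_ne_zero, Ne, Finset.lcm_eq_zero_iff]
  rintro ⟨x, hx, h0⟩
  have : x ∈ Icc 1 (nm z) := (mem_filter.1 hx).1
  rw [mem_Icc] at this
  simp only [id] at h0
  omega

/-- the natural numbers dividing `z` are the divisors of the content -/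
lemma rt_dvd_iff_ct [IQ K] {z : Gi K} (hz : z ≠ 0) {n : ℕ} : rt n ∣ z ↔ n ∣ ct z := by
  constructor
  · intro h
    have hn : n ≠ 0 := by
      rintro rfl
      rw [rt_zero] at h
      exact hz (zero_dvd_iff.1 h)
    have h1 : n ^ 2 ≤ nm z := by
      have := le_nm_of_dvd h hz
      rwa [nm_rt] at this
    have h2 : n ≤ nm z := le_trans (by nlinarith [Nat.pos_of_ne_zero hn]) h1
    unfold ct
    rw [if_neg hz]
    exact Finset.dvd_lcm (f := id)
      (mem_filter.2 ⟨mem_Icc.2 ⟨Nat.pos_of_ne_zero hn, h2⟩, h⟩)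
  · rintro ⟨c, hc⟩
    have h1 := rt_ct_dvd z
    rw [hc, rt_mul] at h1
    exact (dvd_mul_right _ _).trans h1

lemma ct_sq_le [IQ K] {z : Gi K} (hz : z ≠ 0) : ct z ^ 2 ≤ nm z := by
  have := le_nm_of_dvd (rt_ct_dvd z) hz
  rwa [nm_rt] at this

lemma prim_iff [IQ K] {z : Gi K} : prim z ↔ z ≠ 0 ∧ ct z = 1 := by
  constructor
  · rintro ⟨hz, h⟩
    refine ⟨hz, ?_⟩
    by_contra hne
    have h1 := ct_pos hz
    exact h (ct z) (by omega) (rt_ct_dvd z)
  · rintro ⟨hz, h⟩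
    refine ⟨hz, fun n hn hd => ?_⟩
    rw [rt_dvd_iff_ct hz, h, Nat.dvd_one] at hd
    omega

lemma prim_ne_zero {z : Gi K} (h : prim z) : z ≠ 0 := h.1

lemma ct_prim [IQ K] {z : Gi K} (h : prim z) : ct z = 1 := (prim_iff.1 h).2

@[simp] lemma prim_one [IQ K] : prim (1 : Gi K) := by
  refine ⟨one_ne_zero, fun n hn h => ?_⟩
  have := nm_dvd h
  rw [nm_rt, nm_one, Nat.dvd_one] at this
  nlinarith

lemma ct_smul [IQ K] (g : ℕ) (z : Gi K) : ct (rt g * z) = g * ct z := by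
  rcases eq_or_ne z 0 with rfl | hz
  · rw [mul_zero, ct_zero, mul_zero]
  rcases Nat.eq_zero_or_pos g with rfl | hg
  · rw [rt_zero, zero_mul, ct_zero, zero_mul]
  have hgz : rt g * z ≠ 0 := mul_ne_zero (rt_ne_zero hg.ne') hz
  apply Nat.dvd_antisymm
  · -- the content is a multiple of `g`
    obtain ⟨c, hc⟩ : g ∣ ct (rt g * z) := (rt_dvd_iff_ct hgz).1 (dvd_mul_right _ _)
    have h1 := rt_ct_dvd (rt g * z)
    rw [hc, rt_mul] at h1
    have h2 : rt c ∣ z := (mul_dvd_mul_iff_left (rt_ne_zero hg.ne')).1 h1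
    rw [hc]
    exact Nat.mul_dvd_mul_left _ ((rt_dvd_iff_ct hz).1 h2)
  · rw [← rt_dvd_iff_ct hgz, rt_mul]
    exact mul_dvd_mul_left _ (rt_ct_dvd z)

/-- decomposition by the content -/
lemma ct_decomp [IQ K] {z : Gi K} (h : z ≠ 0) : ∃ z0 : Gi K, prim z0 ∧ z = rt (ct z) * z0 := by
  obtain ⟨z0, h0⟩ := rt_ct_dvd z
  have hz0 : z0 ≠ 0 := by
    rintro rfl
    rw [mul_zero] at h0
    exact h h0
  refine ⟨z0, prim_iff.2 ⟨hz0, ?_⟩, h0⟩
  have h1 : ct z = ct z * ct z0 := by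
    conv_lhs => rw [h0]
    rw [ct_smul]
  have h2 : ct z * 1 = ct z * ct z0 := by rw [mul_one]; exact h1
  exact (Nat.eq_of_mul_eq_mul_left (ct_pos h) h2).symm

lemma prim_of_dvd {x y : Gi K} (h : x ∣ y) (hy : prim y) : prim x := by
  obtain ⟨c, rfl⟩ := h
  refine ⟨left_ne_zero_of_mul hy.1, fun n hn hd => hy.2 n hn (hd.mul_right _)⟩

lemma prim_of_mul_left {x y : Gi K} (h : prim (x * y)) : prim y := prim_of_dvd (dvd_mul_left _ _) h

lemma prim_of_mul_right {x y : Gi K} (h : prim (x * y)) : prim x := prim_of_dvd (dvd_mul_right _ _) h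

lemma prim_cj [IQ K] {z : Gi K} (h : prim z) : prim (cj z) := by
  refine ⟨cj_ne_zero h.1, fun n hn hd => h.2 n hn ?_⟩
  rw [← cj_dvd, cj_rt]
  exact hd

lemma ct_cj [IQ K] (z : Gi K) : ct (cj z) = ct z := by
  rcases eq_or_ne z 0 with rfl | hz
  · rw [cj_zero]
  apply Nat.dvd_antisymm
  · rw [← rt_dvd_iff_ct hz, ← cj_dvd, cj_rt]; exact rt_ct_dvd _
  · rw [← rt_dvd_iff_ct (cj_ne_zero hz), ← cj_rt, cj_dvd]; exact rt_ct_dvd _

/-- the decomposition `rt g * w`, `w` primitive, is unique -/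
lemma core_eq [IQ K] {w w' : Gi K} {g g' : ℕ} (hg : 0 < g) (hw : prim w) (hw' : prim w')
    (h : rt g * w = rt g' * w') : g = g' ∧ w = w' := by
  have h1 := congrArg ct h
  rw [ct_smul, ct_smul, ct_prim hw, ct_prim hw', mul_one, mul_one] at h1
  subst h1
  exact ⟨rfl, mul_left_cancel₀ (rt_ne_zero hg.ne') h⟩

/-- a prime dividing a rational ideal -/
lemma dvd_rt_iff [IQ K] {P Q : ℝ} {π : Gi K} (h : π ∈ GP P Q) {n : ℕ} : π ∣ rt n ↔ nm π ∣ n := by
  constructor
  · intro hd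
    have h1 := nm_dvd hd
    rw [nm_rt] at h1
    exact (mem_GP.1 h).1.dvd_of_dvd_pow h1
  · rintro ⟨c, rfl⟩
    rw [rt_mul]
    exact dvd_rt_nm.mul_right _

/-- the content after multiplication by a split prime -/
lemma ct_GP_mul [IQ K] {P Q : ℝ} {π : Gi K} (hπ : π ∈ GP P Q) (z : Gi K) :
    ct (π * z) ≤ ct z * (if cj π ∣ z then nm π else 1) := by
  rcases eq_or_ne z 0 with rfl | hz
  · rw [mul_zero, ct_zero]; exact Nat.zero_le _
  obtain ⟨z0, hz0, hz1⟩ := ct_decomp hz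
  have hπ0 := GP_ne_zero hπ
  have hπp := (mem_GP.1 hπ).1
  have e1 : π * z = rt (ct z) * (π * z0) := by
    conv_lhs => rw [hz1]
    ring
  rw [e1, ct_smul]
  apply Nat.mul_le_mul_left
  have hπz : π * z0 ≠ 0 := mul_ne_zero hπ0 hz0.1
  have h1 : rt (ct (π * z0)) ∣ π * z0 := rt_ct_dvd _
  have h2 : ct (π * z0) ∣ nm π := by
    have h3 : rt (ct (π * z0)) ∣ rt (nm π) * z0 := by
      have : rt (ct (π * z0)) ∣ cj π * (π * z0) := h1.mul_left _
      rwa [← mul_assoc, mul_comm (cj π) π, mul_cj hπ0] at this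
    rw [rt_dvd_iff_ct (mul_ne_zero (rt_ne_zero (nm_pos hπ0).ne') hz0.1), ct_smul, ct_prim hz0,
      mul_one] at h3
    exact h3
  rcases (Nat.dvd_prime hπp).1 h2 with h3 | h3
  · rw [h3]
    split_ifs
    · exact hπp.one_lt.le
    · exact le_rfl
  · have h4 : cj π ∣ z := by
      rw [h3, ← mul_cj hπ0] at h1
      have h5 : cj π ∣ z0 := (mul_dvd_mul_iff_left hπ0).1 h1
      rw [hz1]
      exact h5.mul_left _
    rw [if_pos h4, h3]

/-- `π m` is primitive iff `m` is and the conjugate of `π` does not divide `m` -/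
lemma prim_GP_mul [IQ K] {P Q : ℝ} {π : Gi K} (hπ : π ∈ GP P Q) {m : Gi K} :
    prim (π * m) ↔ prim m ∧ ¬ cj π ∣ m := by
  constructor
  · intro h
    refine ⟨prim_of_mul_left h, fun hd => ?_⟩
    obtain ⟨c, rfl⟩ := hd
    refine h.2 (nm π) (mem_GP.1 hπ).1.two_le ?_
    rw [← mul_assoc, mul_cj (GP_ne_zero hπ)]
    exact dvd_mul_right _ _
  · rintro ⟨h1, h2⟩
    rw [prim_iff]
    refine ⟨mul_ne_zero (GP_ne_zero hπ) h1.1, ?_⟩
    have h3 := ct_GP_mul hπ m
    rw [if_neg h2, ct_prim h1, mul_one] at h3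
    have h4 := ct_pos (mul_ne_zero (GP_ne_zero hπ) h1.1)
    omega

/-! ## parallel ideals -/

lemma par_symm {z z' : Gi K} (h : par z z') : par z' z := by
  obtain ⟨h1, h2, n, n', hn, hn', he⟩ := h
  exact ⟨h2, h1, n', n, hn', hn, he.symm⟩

lemma par_refl {z : Gi K} (h : z ≠ 0) : par z z := ⟨h, h, 1, 1, one_pos, one_pos, rfl⟩

lemma par_trans {x y z : Gi K} (h : par x y) (h' : par y z) : par x z := by
  obtain ⟨h1, h2, n, n', hn, hn', he⟩ := h
  obtain ⟨h3, h4, m, m', hm, hm', he'⟩ := h'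
  refine ⟨h1, h4, m * n, n' * m', Nat.mul_pos hm hn, Nat.mul_pos hn' hm', ?_⟩
  rw [rt_mul, rt_mul, mul_assoc, he, mul_left_comm, he', ← mul_assoc]

lemma par_mul_left {a x y : Gi K} (ha : a ≠ 0) : par (a * x) (a * y) ↔ par x y := by
  constructor
  · rintro ⟨h1, h2, n, n', hn, hn', he⟩
    refine ⟨right_ne_zero_of_mul h1, right_ne_zero_of_mul h2, n, n', hn, hn', ?_⟩
    apply mul_left_cancel₀ ha
    calc a * (rt n * x) = rt n * (a * x) := by ring
      _ = rt n' * (a * y) := he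
      _ = a * (rt n' * y) := by ring
  · rintro ⟨h1, h2, n, n', hn, hn', he⟩
    refine ⟨mul_ne_zero ha h1, mul_ne_zero ha h2, n, n', hn, hn', ?_⟩
    calc rt n * (a * x) = a * (rt n * x) := by ring
      _ = a * (rt n' * y) := by rw [he]
      _ = rt n' * (a * y) := by ring

lemma par_rt_mul {g : ℕ} (hg : 0 < g) {z : Gi K} (hz : z ≠ 0) : par (rt g * z) z :=
  ⟨mul_ne_zero (rt_ne_zero hg.ne') hz, hz, 1, g, one_pos, hg, by rw [rt_one, one_mul]⟩

/-- two primitive parallel ideals are equal -/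
lemma eq_of_par_of_prim [IQ K] {z z' : Gi K} (h : prim z) (h' : prim z') (hp : par z z') :
    z = z' := by
  obtain ⟨_, _, n, n', hn, hn', he⟩ := hp
  exact (core_eq hn h h' he).2

/-- an ideal parallel to a primitive one is a multiple -/
lemma eq_ct_mul_of_par [IQ K] {z z' : Gi K} (h' : prim z') (hp : par z z') :
    z = rt (ct z) * z' := by
  have hz := hp.1
  obtain ⟨z0, hz0, hz1⟩ := ct_decomp hz
  have h1 : par z0 z' := by
    refine par_trans (par_symm ?_) hp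
    have := par_rt_mul (ct_pos hz) hz0.1
    rwa [← hz1] at this
  rw [← eq_of_par_of_prim hz0 h' h1]
  exact hz1

/-- the parallel ideals have the same primitive part -/
lemma par_iff [IQ K] {z z' : Gi K} : par z z' ↔ ∃ (g g' : ℕ) (w : Gi K), 0 < g ∧ 0 < g' ∧ prim w ∧
    z = rt g * w ∧ z' = rt g' * w := by
  constructor
  · intro h
    obtain ⟨w, hw, he⟩ := ct_decomp h.2.1
    have h1 : par z w := par_trans h (by
      have := par_rt_mul (ct_pos h.2.1) hw.1
      rwa [← he] at this)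
    exact ⟨ct z, ct z', w, ct_pos h.1, ct_pos h.2.1, hw, eq_ct_mul_of_par hw h1, he⟩
  · rintro ⟨g, g', w, hg, hg', hw, rfl, rfl⟩
    exact par_trans (par_rt_mul hg hw.1) (par_symm (par_rt_mul hg' hw.1))

/-! ## classes -/

lemma cls_of_ne_zero {z : Gi K} (h : z ≠ 0) :
    cls z = ClassGroup.mk0 ⟨z, mem_nonZeroDivisors_of_ne_zero h⟩ := dif_pos h

lemma cls_mul {x y : Gi K} (hx : x ≠ 0) (hy : y ≠ 0) : cls (x * y) = cls x * cls y := by
  rw [cls_of_ne_zero hx, cls_of_ne_zero hy, cls_of_ne_zero (mul_ne_zero hx hy), ← map_mul]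
  rfl

lemma cls_span {v : 𝓞 K} (hv : v ≠ 0) : cls (Ideal.span {v} : Gi K) = 1 := by
  have h : (Ideal.span {v} : Gi K) ≠ 0 := by
    rw [Ideal.zero_eq_bot, Ne, Ideal.span_singleton_eq_bot]; exact hv
  rw [cls_of_ne_zero h, ClassGroup.mk0_eq_one_iff]
  exact ⟨v, rfl⟩

lemma cls_eq_one {z : Gi K} (hz : z ≠ 0) : cls z = 1 ↔ ∃ v : 𝓞 K, v ≠ 0 ∧ z = Ideal.span {v} := by
  constructor
  · intro h
    rw [cls_of_ne_zero hz, ClassGroup.mk0_eq_one_iff] at h
    obtain ⟨v, hv⟩ := h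
    refine ⟨v, ?_, hv⟩
    rintro rfl
    apply hz
    change z = _ at hv
    rw [hv, Ideal.zero_eq_bot]
    exact Ideal.span_singleton_eq_bot.2 rfl
  · rintro ⟨v, hv, rfl⟩
    exact cls_span hv

lemma cls_rt {n : ℕ} (hn : 0 < n) : cls (rt n : Gi K) = 1 := by
  unfold rt
  apply cls_span
  exact_mod_cast hn.ne'

@[simp] lemma cls_one : cls (1 : Gi K) = 1 := by
  rw [← rt_one]; exact cls_rt one_pos

lemma cls_eq_of_par {z z' : Gi K} (h : par z z') : cls z = cls z' := by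
  obtain ⟨h1, h2, n, n', hn, hn', he⟩ := h
  have := congrArg cls he
  rwa [cls_mul (rt_ne_zero hn.ne') h1, cls_mul (rt_ne_zero hn'.ne') h2, cls_rt hn, cls_rt hn',
    one_mul, one_mul] at this

/-! ## directions -/

section

variable (D : Dir K)

lemma Dir.ne_zero {z : Gi K} (h : z ≠ 0) : D.f z ≠ 0 := by
  intro h'
  have := D.norm z h
  rw [h', norm_zero] at this
  exact zero_ne_one this

lemma Dir.rt {n : ℕ} (hn : 0 < n) : D.f (MA.rt n) = 1 := by
  unfold MA.rt
  rw [D.prin _ (by exact_mod_cast hn.ne')]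
  have : dr D.σ ((n : ℕ) : 𝓞 K) = 1 := by
    unfold dr
    have h1 : D.σ (((n : ℕ) : 𝓞 K) : K) = (n : ℂ) := by
      simp
    rw [h1, Complex.norm_natCast]
    push_cast
    exact div_self (by exact_mod_cast hn.ne')
  rw [this, one_pow]

lemma Dir.eq_of_par {z z' : Gi K} (h : par z z') : D.f z = D.f z' := by
  obtain ⟨h1, h2, n, n', hn, hn', he⟩ := h
  have := congrArg D.f he
  rwa [D.mul, D.mul, D.rt hn, D.rt hn', one_mul, one_mul] at this

/-! ## characters -/

lemma xi_mul (κ : Kp K) {x y : Gi K} (hx : x ≠ 0) (hy : y ≠ 0) :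
    xi D κ (x * y) = xi D κ x * xi D κ y := by
  unfold xi
  rw [cls_mul hx hy, D.mul, mul_zpow, ofMul_mul, AddChar.map_add_eq_mul]
  ring

lemma norm_xi (κ : Kp K) {z : Gi K} (h : z ≠ 0) : ‖xi D κ z‖ = 1 := by
  unfold xi
  rw [norm_mul, norm_zpow, D.norm z h, one_zpow, mul_one]
  exact AddChar.norm_apply κ.1 _

lemma norm_xi_le (κ : Kp K) {z : Gi K} (h : z ≠ 0) : ‖xi D κ z‖ ≤ 1 := (norm_xi D κ h).le

lemma xi_ne_zero (κ : Kp K) {z : Gi K} (h : z ≠ 0) : xi D κ z ≠ 0 := by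
  intro h'
  have := norm_xi D κ h
  rw [h', norm_zero] at this
  exact zero_ne_one this

lemma xi_add (κ κ' : Kp K) {z : Gi K} (h : z ≠ 0) : xi D (κ + κ') z = xi D κ z * xi D κ' z := by
  unfold xi
  rw [Prod.fst_add, Prod.snd_add, zpow_add₀ (D.ne_zero h), AddChar.add_apply]
  ring

@[simp] lemma xi_zero (z : Gi K) : xi D 0 z = 1 := by
  unfold xi
  simp

lemma conj_xi (κ : Kp K) {z : Gi K} (h : z ≠ 0) : conj (xi D κ z) = xi D (-κ) z := by
  have h1 : xi D κ z * xi D (-κ) z = 1 := by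
    rw [← xi_add D κ (-κ) h, add_neg_cancel, xi_zero]
  have h2 : xi D κ z * conj (xi D κ z) = 1 := by
    rw [Complex.mul_conj, Complex.normSq_eq_norm_sq, norm_xi D κ h]; simp
  exact mul_left_cancel₀ (xi_ne_zero D κ h) (h2.trans h1.symm)

lemma xi_sub (κ κ' : Kp K) {z : Gi K} (h : z ≠ 0) :
    xi D (κ - κ') z = xi D κ z * conj (xi D κ' z) := by
  rw [conj_xi D κ' h, ← xi_add D κ (-κ') h, sub_eq_add_neg]

@[simp] lemma xi_one (κ : Kp K) : xi D κ 1 = 1 := by
  unfold xi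
  rw [cls_one, D.one]
  simp

lemma xi_rt (κ : Kp K) {n : ℕ} (hn : 0 < n) : xi D κ (MA.rt n) = 1 := by
  unfold xi
  rw [cls_rt hn, D.rt hn]
  simp

lemma xi_eq_of_par (κ : Kp K) {z z' : Gi K} (h : par z z') : xi D κ z = xi D κ z' := by
  unfold xi
  rw [cls_eq_of_par h, D.eq_of_par h]

lemma xi_two_mul (κ : Kp K) {z : Gi K} (h : z ≠ 0) : xi D (κ + κ) z = xi D κ z ^ 2 := by
  rw [xi_add D κ κ h, sq]

/-- a character with nonzero frequency vanishes at `0` -/
lemma xi_at_zero {κ : Kp K} (h : κ.2 ≠ 0) : xi D κ 0 = 0 := by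
  unfold xi
  rw [D.zero, zero_zpow _ h, mul_zero]

/-- nonzero frequencies give completely multiplicative functions -/
lemma CM_xi {κ : Kp K} (h : κ.2 ≠ 0) : CM (xi D κ) where
  zero := xi_at_zero D h
  one := xi_one D κ
  mul := by
    intro x y
    rcases eq_or_ne x 0 with rfl | hx
    · rw [zero_mul, xi_at_zero D h, zero_mul]
    rcases eq_or_ne y 0 with rfl | hy
    · rw [mul_zero, xi_at_zero D h, mul_zero]
    exact xi_mul D κ hx hy
  le := by
    intro z
    rcases eq_or_ne z 0 with rfl | hz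
    · rw [xi_at_zero D h, norm_zero]; exact zero_le_one
    · exact norm_xi_le D κ hz

lemma mem_IK {Z : ℕ} {κ : Kp K} : κ ∈ IK K Z ↔ |κ.2| ≤ Z := by
  unfold IK
  rw [mem_product, mem_Icc, abs_le]
  simp

/-! ## relations between the sums -/

lemma MM_eq [Sg] {x x' : ℝ} (h : x ≤ x') (κ : Kp K) :
    MM D x x' κ = SS D κ x' - SS D κ x := by
  unfold MM SS
  rw [disc_union h, filter_union, sum_union]
  · ring
  · exact Finset.disjoint_filter_filter (disc_disjoint x x')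

end

end Pool.Agent.Lib.MP391708.MA
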