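import Pool.Agent.Lib.MP_391708_nt.MA.Spec

/-!
# CLS: the ideals of a class are the points of a lattice modulo units
-/

set_option autoImplicit false

namespace Pool.Agent.Lib.MP391708.MA

open Finset Filter Topology NumberField
open scoped ComplexConjugate Classical

namespace ClsM

variable {K : Type} [Field K] [NumberField K]

theorem card_place [IQ K] : Fintype.card (InfinitePlace K) = 1 := by
  have := IQ.cx (K := K)
  have h1 := IsTotallyComplex.finrank K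
  have h2 : Module.finrank ℚ K = 2 := IQ.deg
  have h3 := InfinitePlace.card_eq_nrRealPlaces_add_nrComplexPlaces K
  have h4 := IsTotallyComplex.nrRealPlaces_eq_zero K
  omega

/-- `|σ x|² = |N x|` -/
theorem norm_sq [IQ K] (σ : K →+* ℂ) (x : K) :
    ‖σ x‖ ^ 2 = ((|Algebra.norm ℚ x| : ℚ) : ℝ) := by
  have := IQ.cx (K := K)
  have h := InfinitePlace.prod_eq_abs_norm x
  obtain ⟨w, hw⟩ := Fintype.card_eq_one_iff.mp (card_place (K := K))
  have h1 : (Finset.univ : Finset (InfinitePlace K)) = {InfinitePlace.mk σ} := by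
    ext v
    simp only [Finset.mem_univ, Finset.mem_singleton, true_iff]
    rw [hw v, hw (InfinitePlace.mk σ)]
  rw [h1, Finset.prod_singleton, IsTotallyComplex.mult_eq, InfinitePlace.apply] at h
  rw [h]

/-- `|σ v|²` is the norm of the ideal generated by `v` -/
theorem norm_sq_int [IQ K] (σ : K →+* ℂ) (v : 𝓞 K) :
    ‖σ (v : K)‖ ^ 2 = (Ideal.absNorm (Ideal.span {v}) : ℝ) := by
  rw [norm_sq, Ideal.absNorm_span_singleton, ← Algebra.coe_norm_int]
  rw [Nat.cast_natAbs]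
  push_cast
  rfl

theorem sigma_ne [IQ K] (σ : K →+* ℂ) (v : 𝓞 K) (hv : v ≠ 0) : σ (v : K) ≠ 0 := by
  rw [map_ne_zero]
  exact_mod_cast hv

/-- all units are roots of unity -/
theorem torsion_top [IQ K] (u : (𝓞 K)ˣ) : u ∈ Units.torsion K := by
  rw [Units.mem_torsion]
  intro w
  have h := norm_sq w.embedding (u : K)
  have h1 : |Algebra.norm ℚ (u : K)| = 1 := by
    have h2 := Algebra.coe_norm_int (K := K) (u : 𝓞 K)
    have h3 : IsUnit (Algebra.norm ℤ (u : 𝓞 K)) := u.isUnit.map (Algebra.norm ℤ)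
    have h4 := Int.isUnit_iff_abs_eq.mp h3
    rw [← h2]
    exact_mod_cast h4
  rw [h1] at h
  have h5 : w (u : K) = ‖w.embedding (u : K)‖ := (InfinitePlace.norm_embedding_eq w _).symm
  rw [h5]
  have h6 : (0 : ℝ) ≤ ‖w.embedding (u : K)‖ := norm_nonneg _
  push_cast at h
  nlinarith [h]

/-! ## Areas -/

/-- the oriented area -/
noncomputable def ar (e f : ℂ) : ℝ := (conj e * f).im

theorem ar_comb (e f : ℂ) (a b c d : ℤ) :
    ar ((a : ℂ) * e + (b : ℂ) * f) ((c : ℂ) * e + (d : ℂ) * f) =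
      ((a * d - b * c : ℤ) : ℝ) * ar e f := by
  unfold ar
  simp [Complex.mul_im, Complex.mul_re]
  ring

theorem ar_swap (e f : ℂ) : ar f e = -ar e f := by
  unfold ar
  simp [Complex.mul_im]
  ring

theorem ar_basis_ne [IQ K] (σ : K →+* ℂ) (b : Module.Basis (Fin 2) ℤ (𝓞 K)) :
    ar (σ (b 0 : K)) (σ (b 1 : K)) ≠ 0 := by
  intro h0
  have hcx := IQ.cx (K := K)
  have he : σ (b 0 : K) ≠ 0 := sigma_ne σ _ (b.ne_zero 0)
  generalize hedef : σ (b 0 : K) = e at h0 he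
  generalize hfdef : σ (b 1 : K) = f at h0
  obtain ⟨r, hr⟩ : ∃ r : ℝ, f = (r : ℂ) * e := by
    refine ⟨(f / e).re, ?_⟩
    have h1 : (f / e).im = 0 := by
      have h2 : f / e = (conj e * f) / ((Complex.normSq e : ℝ) : ℂ) := by
        rw [Complex.normSq_eq_conj_mul_self]
        have hce : conj e ≠ 0 := by simpa using he
        field_simp
      rw [h2, Complex.div_ofReal_im]
      unfold ar at h0
      rw [h0]
      simp
    have h3 : ((f / e).re : ℂ) = f / e := by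
      apply Complex.ext <;> simp [h1]
    rw [h3]
    field_simp
  have hv : ∀ v : 𝓞 K, ∃ t : ℝ, σ (v : K) = (t : ℂ) * e := by
    intro v
    have h1 := b.sum_repr v
    rw [Fin.sum_univ_two] at h1
    refine ⟨(b.repr v 0 : ℝ) + (b.repr v 1 : ℝ) * r, ?_⟩
    have h2 : σ (v : K) = (b.repr v 0 : ℂ) * e + (b.repr v 1 : ℂ) * f := by
      conv_lhs => rw [← h1]
      simp [← hedef, ← hfdef]
    rw [h2, hr]
    push_cast
    ring
  have he' : e.im = 0 := by
    obtain ⟨t, ht⟩ := hv 1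
    have h1 : (1 : ℂ) = (t : ℂ) * e := by simpa using ht
    have ht0 : t ≠ 0 := by
      rintro rfl
      simp at h1
    have h2 := congrArg Complex.im h1
    simp at h2
    tauto
  have hreal : ∀ k : K, (σ k).im = 0 := by
    intro k
    obtain ⟨x, y, -, hk⟩ := IsFractionRing.div_surjective (A := 𝓞 K) k
    obtain ⟨t, ht⟩ := hv x
    obtain ⟨t', ht'⟩ := hv y
    have h1 : σ k = ((t / t' : ℝ) : ℂ) := by
      rw [← hk, map_div₀]
      have h2 : σ (algebraMap (𝓞 K) K x) = (t : ℂ) * e := ht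
      have h3 : σ (algebraMap (𝓞 K) K y) = (t' : ℂ) * e := ht'
      rw [h2, h3, mul_div_mul_right _ _ he]
      push_cast
      rfl
    rw [h1]
    simp
  refine IsTotallyComplex.complexEmbedding_not_isReal σ ?_
  rw [ComplexEmbedding.isReal_iff]
  ext k
  rw [ComplexEmbedding.conjugate_coe_eq]
  exact Complex.conj_eq_iff_im.mpr (hreal k)

theorem exists_basis [IQ K] : Nonempty (Module.Basis (Fin 2) ℤ (𝓞 K)) := by
  have h : Module.finrank ℤ (𝓞 K) = 2 := by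
    rw [RingOfIntegers.rank]
    exact IQ.deg
  exact ⟨Module.finBasisOfFinrankEq ℤ (𝓞 K) h⟩

theorem ar_ideal [IQ K] (σ : K →+* ℂ) (b : Module.Basis (Fin 2) ℤ (𝓞 K)) (J : Ideal (𝓞 K))
    (bJ : Module.Basis (Fin 2) ℤ J) :
    |ar (σ ((bJ 0 : 𝓞 K) : K)) (σ ((bJ 1 : 𝓞 K) : K))| =
      (Ideal.absNorm J : ℝ) * |ar (σ (b 0 : K)) (σ (b 1 : K))| := by
  have h := Ideal.natAbs_det_basis_change b J bJ
  rw [Module.Basis.det_apply, Matrix.det_fin_two] at h
  simp only [Module.Basis.toMatrix_apply, Function.comp_apply] at h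
  have hc : ∀ i, σ ((bJ i : 𝓞 K) : K) = (b.repr (bJ i) 0 : ℂ) * σ (b 0 : K) +
      (b.repr (bJ i) 1 : ℂ) * σ (b 1 : K) := by
    intro i
    have h1 := b.sum_repr (bJ i : 𝓞 K)
    rw [Fin.sum_univ_two] at h1
    conv_lhs => rw [← h1]
    simp
  rw [hc 0, hc 1, ar_comb, abs_mul, ← h, Nat.cast_natAbs]
  congr 1
  rw [← Int.cast_abs]
  congr 2
  ring

/-! ## The points of an ideal -/

theorem cls_mul {z z' : Gi K} (hz : z ≠ 0) (hz' : z' ≠ 0) : cls (z * z') = cls z * cls z' := by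
  unfold cls
  rw [dif_pos hz, dif_pos hz', dif_pos (mul_ne_zero hz hz'), ← map_mul]
  rfl

theorem cls_span {v : 𝓞 K} (hv : v ≠ 0) : cls (Ideal.span {v} : Gi K) = 1 := by
  have h : (Ideal.span {v} : Gi K) ≠ 0 := by
    rw [Ideal.zero_eq_bot, Ne, Ideal.span_singleton_eq_bot]
    exact hv
  unfold cls
  rw [dif_pos h, ClassGroup.mk0_eq_one_iff]
  exact ⟨⟨v, rfl⟩⟩

theorem exists_gen {z : Gi K} (hz : z ≠ 0) (h : cls z = 1) :
    ∃ v : 𝓞 K, v ≠ 0 ∧ z = Ideal.span {v} := by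
  unfold cls at h
  rw [dif_pos hz, ClassGroup.mk0_eq_one_iff] at h
  obtain ⟨v, hv⟩ := h.principal
  have hv' : z = Ideal.span {v} := hv
  refine ⟨v, ?_, hv'⟩
  rintro rfl
  apply hz
  rw [hv', Ideal.zero_eq_bot, Ideal.span_singleton_eq_bot]

theorem exists_cls (c : Cl K) : ∃ J : Gi K, J ≠ 0 ∧ cls J = c := by
  obtain ⟨J, hJ⟩ := ClassGroup.mk0_surjective c
  have h0 : (J : Gi K) ≠ 0 := nonZeroDivisors.ne_zero J.2
  refine ⟨J, h0, ?_⟩
  unfold cls
  rw [dif_pos h0]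
  exact hJ

/-- the point with coordinates `p` -/
noncomputable def vv {J : Ideal (𝓞 K)} (b : Module.Basis (Fin 2) ℤ J) (p : ℤ × ℤ) : 𝓞 K :=
  (p.1 : 𝓞 K) * (b 0 : 𝓞 K) + (p.2 : 𝓞 K) * (b 1 : 𝓞 K)

theorem vv_eq {J : Ideal (𝓞 K)} (b : Module.Basis (Fin 2) ℤ J) (p : ℤ × ℤ) :
    vv b p = ((b.equivFun.symm ![p.1, p.2] : J) : 𝓞 K) := by
  simp [vv, Module.Basis.equivFun_symm_apply, Fin.sum_univ_two]

theorem vv_mem {J : Ideal (𝓞 K)} (b : Module.Basis (Fin 2) ℤ J) (p : ℤ × ℤ) : vv b p ∈ J := by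
  rw [vv_eq]
  exact (b.equivFun.symm ![p.1, p.2]).2

theorem vv_inj {J : Ideal (𝓞 K)} (b : Module.Basis (Fin 2) ℤ J) {p q : ℤ × ℤ}
    (h : vv b p = vv b q) : p = q := by
  rw [vv_eq, vv_eq] at h
  have h1 := b.equivFun.symm.injective (Subtype.ext h)
  have h2 := congrFun h1 0
  have h3 := congrFun h1 1
  exact Prod.ext (by simpa using h2) (by simpa using h3)

theorem vv_surj {J : Ideal (𝓞 K)} (b : Module.Basis (Fin 2) ℤ J) {v : 𝓞 K} (hv : v ∈ J) :
    ∃ p, vv b p = v := by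
  refine ⟨(b.equivFun ⟨v, hv⟩ 0, b.equivFun ⟨v, hv⟩ 1), ?_⟩
  rw [vv_eq]
  have h : (![b.equivFun ⟨v, hv⟩ 0, b.equivFun ⟨v, hv⟩ 1] : Fin 2 → ℤ) = b.equivFun ⟨v, hv⟩ := by
    ext i
    fin_cases i <;> rfl
  simp only [h, LinearEquiv.symm_apply_apply]

theorem vv_ne {J : Ideal (𝓞 K)} (b : Module.Basis (Fin 2) ℤ J) {p : ℤ × ℤ} (hp : p ≠ 0) :
    vv b p ≠ 0 := by
  intro h
  apply hp
  apply vv_inj b
  rw [h]
  simp [vv]

/-- the ideals `z` with `J z` generated by `v`: the points `p` with `(v_p) = J z` are counted by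
the units -/
theorem card_fibre [IQ K] {J : Gi K} (b : Module.Basis (Fin 2) ℤ J) (z : Gi K)
    (hJ : J ≠ 0) (hz : z ≠ 0) (hc : cls J * cls z = 1) (T : Finset (ℤ × ℤ))
    (hT : ∀ p, p ∈ T ↔ Ideal.span {vv b p} = J * z) : T.card = Units.torsionOrder K := by
  rw [← cls_mul hJ hz] at hc
  obtain ⟨v, hv0, hv⟩ := exists_gen (mul_ne_zero hJ hz) hc
  have hvJ : ∀ u : (𝓞 K)ˣ, ∃ p, vv b p = (u : 𝓞 K) * v := by
    intro u
    apply vv_surj
    apply Ideal.mul_mem_left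
    have h1 : v ∈ J * z := by
      rw [hv]
      exact Ideal.mem_span_singleton_self v
    have h2 : J * z ≤ J := Ideal.mul_le_left
    exact h2 h1
  choose co hco using hvJ
  have hmem : ∀ u : (𝓞 K)ˣ, co u ∈ T := by
    intro u
    have h1 : Associated v ((u : 𝓞 K) * v) := ⟨u, mul_comm _ _⟩
    rw [hT, hco, hv, Ideal.span_singleton_eq_span_singleton]
    exact h1.symm
  have hbij : Function.Bijective (fun u : Units.torsion K => (⟨co u.1, hmem u.1⟩ : T)) := by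
    constructor
    · intro u u' h
      have h1 : co u.1 = co u'.1 := congrArg Subtype.val h
      have h2 := congrArg (vv b) h1
      rw [hco, hco] at h2
      have h3 := mul_right_cancel₀ hv0 h2
      exact Subtype.ext (Units.ext h3)
    · rintro ⟨p, hp⟩
      rw [hT, hv, Ideal.span_singleton_eq_span_singleton] at hp
      obtain ⟨u, hu⟩ := hp.symm
      refine ⟨⟨u, torsion_top u⟩, ?_⟩
      apply Subtype.ext
      apply vv_inj b
      simp only [hco]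
      rw [← hu, mul_comm]
  have h := Nat.card_eq_of_bijective _ hbij
  rw [Units.torsionOrder, h, Nat.card_eq_fintype_card, Fintype.card_coe]

/-- CLS for one class -/
theorem main [IQ K] (D : Dir K) {J : Gi K} (hJ : J ≠ 0) (b : Module.Basis (Fin 2) ℤ J)
    (c : Cl K) (hc : cls J * c = 1) (e₁ e₂ : ℂ)
    (h₁ : e₁ = D.σ ((b 0 : 𝓞 K) : K) / ((Real.sqrt (nm J) : ℝ) : ℂ))
    (h₂ : e₂ = D.σ ((b 1 : 𝓞 K) : K) / ((Real.sqrt (nm J) : ℝ) : ℂ)) (x : ℝ)
    (S : Finset (ℤ × ℤ)) (hS : IsL e₁ e₂ x S) (F : ℂ → ℂ) :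
    (Units.torsionOrder K : ℂ) *
        ∑ z ∈ ((disc x : Finset (Gi K))).filter (fun z => cls z = c), F (D.f z) =
      ∑ p ∈ S, F ((D.f J)⁻¹ * (lt e₁ e₂ p / ((‖lt e₁ e₂ p‖ : ℝ) : ℂ)) ^
        Units.torsionOrder K) := by
  have hN : 0 < (nm J : ℝ) := by
    have h1 : nm J ≠ 0 := by
      unfold nm
      rw [Ne, Ideal.absNorm_eq_zero_iff]
      exact hJ
    exact_mod_cast Nat.pos_of_ne_zero h1
  have hs : 0 < Real.sqrt (nm J) := Real.sqrt_pos.mpr hN
  have hlt : ∀ p, lt e₁ e₂ p = D.σ (vv b p : K) / ((Real.sqrt (nm J) : ℝ) : ℂ) := by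
    intro p
    have h3 : D.σ (vv b p : K) = (p.1 : ℂ) * D.σ ((b 0 : 𝓞 K) : K) +
        (p.2 : ℂ) * D.σ ((b 1 : 𝓞 K) : K) := by
      simp [vv]
    rw [lt, h₁, h₂, h3]
    ring
  have hlt2 : ∀ p, ‖lt e₁ e₂ p‖ ^ 2 = (nm (Ideal.span {vv b p} : Gi K) : ℝ) / nm J := by
    intro p
    rw [hlt, norm_div, div_pow, norm_sq_int, Complex.norm_real, Real.norm_eq_abs, abs_of_pos hs,
      Real.sq_sqrt hN.le]
    rfl
  have hdr : ∀ p, lt e₁ e₂ p / ((‖lt e₁ e₂ p‖ : ℝ) : ℂ) = dr D.σ (vv b p) := by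
    intro p
    rw [hlt, dr, norm_div, Complex.norm_real, Real.norm_eq_abs, abs_of_pos hs]
    push_cast
    rw [div_div_div_cancel_right₀]
    exact_mod_cast hs.ne'
  have hex : ∀ p, ∃ z : Gi K, Ideal.span {vv b p} = J * z := by
    intro p
    exact Ideal.dvd_span_singleton.mpr (vv_mem b p)
  choose g hg using hex
  have hg0 : ∀ p, p ≠ 0 → g p ≠ 0 := by
    intro p hp h
    have h1 := hg p
    rw [h, mul_zero, Ideal.zero_eq_bot, Ideal.span_singleton_eq_bot] at h1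
    exact vv_ne b hp h1
  have hgn : ∀ p, ‖lt e₁ e₂ p‖ ^ 2 = (nm (g p) : ℝ) := by
    intro p
    rw [hlt2, hg]
    unfold nm at hN ⊢
    rw [map_mul]
    push_cast
    field_simp
  have hgc : ∀ p, p ≠ 0 → cls (g p) = c := by
    intro p hp
    have h1 := cls_span (vv_ne b hp)
    rw [hg, cls_mul hJ (hg0 p hp), ← hc] at h1
    exact mul_left_cancel h1
  have hgf : ∀ p, p ≠ 0 → D.f (g p) = (D.f J)⁻¹ * dr D.σ (vv b p) ^ Units.torsionOrder K := by
    intro p hp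
    have h1 := D.prin (vv b p) (vv_ne b hp)
    rw [hg, D.mul] at h1
    have h2 : D.f J ≠ 0 := by
      intro h3
      have h4 := D.norm J hJ
      rw [h3] at h4
      simp at h4
    rw [← h1]
    field_simp
  have hdisc : ∀ z : Gi K, z ∈ disc x ↔ z ≠ 0 ∧ (nm z : ℝ) ≤ x := by
    intro z
    unfold disc
    rw [Finset.mem_filter, Set.Finite.mem_toFinset]
    constructor
    · rintro ⟨-, h⟩
      exact h
    · intro h
      refine ⟨?_, h⟩
      exact Nat.le_floor h.2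
  have hmaps : ∀ p ∈ S, g p ∈ (disc x : Finset (Gi K)).filter (fun z => cls z = c) := by
    intro p hp
    obtain ⟨hp0, hpx⟩ := (hS p).mp hp
    rw [Finset.mem_filter, hdisc]
    rw [hgn] at hpx
    exact ⟨⟨hg0 p hp0, hpx⟩, hgc p hp0⟩
  have hsum : ∑ p ∈ S, F ((D.f J)⁻¹ * (lt e₁ e₂ p / ((‖lt e₁ e₂ p‖ : ℝ) : ℂ)) ^
        Units.torsionOrder K) = ∑ p ∈ S, F (D.f (g p)) := by
    apply Finset.sum_congr rfl
    intro p hp
    rw [hdr, hgf p ((hS p).mp hp).1]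
  rw [hsum, ← Finset.sum_fiberwise_of_maps_to hmaps, Finset.mul_sum]
  apply Finset.sum_congr rfl
  intro z hz
  rw [Finset.mem_filter, hdisc] at hz
  obtain ⟨⟨hz0, hzx⟩, hzc⟩ := hz
  have h1 : ∑ p ∈ S with g p = z, F (D.f (g p)) = ∑ p ∈ S with g p = z, F (D.f z) := by
    apply Finset.sum_congr rfl
    intro p hp
    rw [(Finset.mem_filter.mp hp).2]
  rw [h1, Finset.sum_const, nsmul_eq_mul, card_fibre b z hJ hz0 (by rw [hzc, hc])]
  intro p
  rw [Finset.mem_filter]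
  constructor
  · rintro ⟨-, h⟩
    rw [hg, h]
  · intro h
    have h2 : g p = z := by
      have h3 := hg p
      rw [h] at h3
      exact (mul_left_cancel₀ hJ h3).symm
    have hp0 : p ≠ 0 := by
      rintro rfl
      have h3 : vv b (0 : ℤ × ℤ) = 0 := by simp [vv]
      rw [h3] at h
      have h4 : (Ideal.span {(0 : 𝓞 K)} : Gi K) = 0 := by simp
      rw [h4] at h
      exact mul_ne_zero hJ hz0 h.symm
    exact ⟨(hS p).mpr ⟨hp0, by rw [hgn, h2]; exact hzx⟩, h2⟩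

end ClsM

theorem specCls {K : Type} [Field K] [NumberField K] [IQ K] (D : Dir K) : SpecCls K D := by
  obtain ⟨u⟩ := ClsM.exists_basis (K := K)
  refine ⟨|ClsM.ar (D.σ (u 0 : K)) (D.σ (u 1 : K))|, abs_pos.mpr (ClsM.ar_basis_ne D.σ u), ?_⟩
  intro c
  obtain ⟨J, hJ, hJc⟩ := ClsM.exists_cls (K := K) c⁻¹
  have hc : cls J * c = 1 := by rw [hJc]; simp
  have hN : 0 < (nm J : ℝ) := by
    have h1 : nm J ≠ 0 := by
      unfold nm
      rw [Ne, Ideal.absNorm_eq_zero_iff]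
      exact hJ
    exact_mod_cast Nat.pos_of_ne_zero h1
  have hs : 0 < Real.sqrt (nm J) := Real.sqrt_pos.mpr hN
  -- a basis with positive orientation
  obtain ⟨b, hb⟩ : ∃ b : Module.Basis (Fin 2) ℤ J,
      0 ≤ ClsM.ar (D.σ ((b 0 : 𝓞 K) : K)) (D.σ ((b 1 : 𝓞 K) : K)) := by
    have b : Module.Basis (Fin 2) ℤ J := Ideal.selfBasis u J hJ
    rcases le_total 0 (ClsM.ar (D.σ ((b 0 : 𝓞 K) : K)) (D.σ ((b 1 : 𝓞 K) : K))) with h | h
    · exact ⟨b, h⟩
    · refine ⟨b.reindex (Equiv.swap 0 1), ?_⟩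
      have h0 : (b.reindex (Equiv.swap 0 1)) 0 = b 1 := by simp
      have h1 : (b.reindex (Equiv.swap 0 1)) 1 = b 0 := by simp
      rw [h0, h1, ClsM.ar_swap]
      linarith
  refine ⟨D.σ ((b 0 : 𝓞 K) : K) / ((Real.sqrt (nm J) : ℝ) : ℂ),
    D.σ ((b 1 : 𝓞 K) : K) / ((Real.sqrt (nm J) : ℝ) : ℂ), (D.f J)⁻¹, ?_, ?_, ?_⟩
  · rw [norm_inv, D.norm J hJ, inv_one]
  · have h1 := ClsM.ar_ideal D.σ u J b
    rw [abs_of_nonneg hb] at h1
    have h2 : (conj (D.σ ((b 0 : 𝓞 K) : K) / ((Real.sqrt (nm J) : ℝ) : ℂ)) *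
        (D.σ ((b 1 : 𝓞 K) : K) / ((Real.sqrt (nm J) : ℝ) : ℂ))) =
        (conj (D.σ ((b 0 : 𝓞 K) : K)) * D.σ ((b 1 : 𝓞 K) : K)) / ((nm J : ℝ) : ℂ) := by
      rw [map_div₀, Complex.conj_ofReal, div_mul_div_comm, ← Complex.ofReal_mul,
        Real.mul_self_sqrt hN.le]
    rw [h2, Complex.div_ofReal_im]
    unfold ClsM.ar at h1 ⊢
    rw [h1]
    unfold nm at hN ⊢
    field_simp
  · intro x S hS F
    exact ClsM.main D hJ b c hc _ _ rfl rfl x S hS F

end Pool.Agent.Lib.MP391708.MA
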