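import Pool.Agent.Lib.MP_391708_nt.MA.Isl
import Pool.Agent.Lib.MP_391708_nt.MA.Basic2

/-!
# COUNT and TYPE: ideals in discs, sums of nontrivial characters

`specCount`, `specType` from `SpecCls`, `SpecLatC`, `SpecLatT`.
-/

set_option autoImplicit false

namespace Pool.Agent.Lib.MP391708.MA

open Finset Filter Topology NumberField
open scoped ComplexConjugate Classical

variable {K : Type} [Field K] [NumberField K]

/-- the number of units is positive -/
lemma tor_pos : (0 : ℝ) < NumberField.Units.torsionOrder K := by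
  exact_mod_cast NumberField.Units.torsionOrder_pos K

/-- a sum over a disc, class by class -/
lemma sum_disc_cls (x : ℝ) (F : Gi K → ℂ) :
    ∑ z ∈ disc x, F z = ∑ c : Cl K, ∑ z ∈ (disc x).filter (fun z => cls z = c), F z :=
  (Finset.sum_fiberwise _ _ _).symm

/-- the number of ideals of a class in a disc -/
theorem card_cls {D : Dir K} (hC : SpecCls K D) (hL : SpecLatC) :
    ∃ ρ C : ℝ, 0 < ρ ∧ 0 < C ∧ ∀ Y : ℝ, 0 ≤ Y → ∀ c : Cl K,
      |(((disc Y : Finset (Gi K)).filter (fun z => cls z = c)).card : ℝ) - ρ * Y| ≤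
        C * (Real.sqrt Y + 1) := by
  obtain ⟨V, hV, hcl⟩ := hC
  have hw : (0 : ℝ) < NumberField.Units.torsionOrder K := tor_pos
  have key : ∀ c : Cl K, ∃ C : ℝ, 0 < C ∧ ∀ Y : ℝ, 0 ≤ Y →
      |(((disc Y : Finset (Gi K)).filter (fun z => cls z = c)).card : ℝ) -
        Real.pi / (V * NumberField.Units.torsionOrder K) * Y| ≤ C * (Real.sqrt Y + 1) := by
    intro c
    obtain ⟨e₁, e₂, δ, _, hV2, hS⟩ := hcl c
    have hpos : 0 < (conj e₁ * e₂).im := by rw [hV2]; exact hV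
    obtain ⟨C, hC0, hCC⟩ := hL e₁ e₂ hpos
    refine ⟨C / NumberField.Units.torsionOrder K, div_pos hC0 hw, fun Y hY => ?_⟩
    obtain ⟨S, hSS⟩ := exists_isL hpos Y
    have h1 := hS Y S hSS (fun _ => 1)
    have h2 := hCC Y S hY hSS
    simp only [Finset.sum_const, nsmul_eq_mul, mul_one] at h1
    have h3 : (NumberField.Units.torsionOrder K : ℝ) *
        (((disc Y : Finset (Gi K)).filter (fun z => cls z = c)).card : ℝ) = (S.card : ℝ) := by
      exact_mod_cast h1
    rw [hV2, ← h3] at h2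
    have h4 : (NumberField.Units.torsionOrder K : ℝ) *
        (((disc Y : Finset (Gi K)).filter (fun z => cls z = c)).card : ℝ) -
          Real.pi * Y / V = (NumberField.Units.torsionOrder K : ℝ) *
        ((((disc Y : Finset (Gi K)).filter (fun z => cls z = c)).card : ℝ) -
        Real.pi / (V * NumberField.Units.torsionOrder K) * Y) := by
      field_simp
    rw [h4, abs_mul, abs_of_pos hw] at h2
    have h5 : C / (NumberField.Units.torsionOrder K : ℝ) * (Real.sqrt Y + 1) =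
        C * (Real.sqrt Y + 1) / (NumberField.Units.torsionOrder K : ℝ) := by ring
    rw [h5, le_div_iff₀ hw, mul_comm]
    exact h2
  choose C hC0 hCC using key
  refine ⟨Real.pi / (V * NumberField.Units.torsionOrder K), ∑ c, C c,
    div_pos Real.pi_pos (mul_pos hV hw), ?_, fun Y hY c => ?_⟩
  · exact Finset.sum_pos (fun c _ => hC0 c) ⟨1, Finset.mem_univ _⟩
  · refine (hCC c Y hY).trans (mul_le_mul_of_nonneg_right ?_ (by positivity))
    exact Finset.single_le_sum (f := C) (fun c _ => (hC0 c).le) (Finset.mem_univ c)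

/-- COUNT -/
theorem specCount {D : Dir K} (hC : SpecCls K D) (hL : SpecLatC) : SpecCount K := by
  obtain ⟨ρ, C, hρ, hC0, h⟩ := card_cls hC hL
  have hh : (0 : ℝ) < Fintype.card (Cl K) := by
    exact_mod_cast Fintype.card_pos
  refine ⟨Fintype.card (Cl K) * ρ, Fintype.card (Cl K) * C, mul_pos hh hρ, mul_pos hh hC0,
    fun Y hY => ?_⟩
  have h1 : ((disc Y : Finset (Gi K)).card : ℝ) =
      ∑ c : Cl K, (((disc Y : Finset (Gi K)).filter (fun z => cls z = c)).card : ℝ) := by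
    have := Finset.card_eq_sum_card_fiberwise (s := (disc Y : Finset (Gi K)))
      (t := (Finset.univ : Finset (Cl K))) (f := cls) (fun z _ => Finset.mem_coe.2 (Finset.mem_univ _))
    rw [this]
    push_cast
    rfl
  have h2 : ((disc Y : Finset (Gi K)).card : ℝ) - Fintype.card (Cl K) * ρ * Y =
      ∑ c : Cl K, ((((disc Y : Finset (Gi K)).filter (fun z => cls z = c)).card : ℝ) - ρ * Y) := by
    rw [Finset.sum_sub_distrib, ← h1, Finset.sum_const, Finset.card_univ, nsmul_eq_mul]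
    ring
  rw [h2]
  refine (Finset.abs_sum_le_sum_abs _ _).trans ?_
  refine (Finset.sum_le_sum (fun c _ => h Y hY c)).trans ?_
  rw [Finset.sum_const, Finset.card_univ, nsmul_eq_mul, mul_assoc]

/-- the sum of a character of frequency `0` -/
theorem sum_xi_zero {D : Dir K} (hC : SpecCls K D) (hL : SpecLatC) :
    ∃ C : ℝ, 0 < C ∧ ∀ κ : Kp K, κ ≠ 0 → κ.2 = 0 → ∀ Y : ℝ, 0 ≤ Y →
      ‖∑ z ∈ disc Y, xi D κ z‖ ≤ C * (Real.sqrt Y + 1) := by
  obtain ⟨ρ, C, hρ, hC0, h⟩ := card_cls hC hL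
  have hh : (0 : ℝ) < Fintype.card (Cl K) := by
    exact_mod_cast Fintype.card_pos
  refine ⟨Fintype.card (Cl K) * C, mul_pos hh hC0, fun κ hκ hκ2 Y hY => ?_⟩
  have hκ1 : κ.1 ≠ 0 := fun h1 => hκ (Prod.ext h1 hκ2)
  have hsum : ∑ c : Cl K, κ.1 (Additive.ofMul c) = 0 := by
    have := AddChar.sum_eq_zero_iff_ne_zero.2 hκ1
    rw [← this]
    exact Fintype.sum_equiv Additive.ofMul _ _ (fun _ => rfl)
  have h1 : ∑ z ∈ disc Y, xi D κ z = ∑ c : Cl K, κ.1 (Additive.ofMul c) *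
      (((((disc Y : Finset (Gi K)).filter (fun z => cls z = c)).card : ℝ) - ρ * Y : ℝ) : ℂ) := by
    have h2 : ∀ c : Cl K, κ.1 (Additive.ofMul c) *
      (((((disc Y : Finset (Gi K)).filter (fun z => cls z = c)).card : ℝ) - ρ * Y : ℝ) : ℂ) =
        (∑ z ∈ (disc Y).filter (fun z => cls z = c), xi D κ z) -
          κ.1 (Additive.ofMul c) * ((ρ * Y : ℝ) : ℂ) := by
      intro c
      have h3 : ∑ z ∈ (disc Y).filter (fun z => cls z = c), xi D κ z =
          ∑ z ∈ (disc Y : Finset (Gi K)).filter (fun z => cls z = c), κ.1 (Additive.ofMul c) := by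
        refine Finset.sum_congr rfl (fun z hz => ?_)
        have h4 := (Finset.mem_filter.1 hz).2
        simp only [xi, hκ2, zpow_zero, mul_one, h4]
      rw [h3, Finset.sum_const, nsmul_eq_mul]
      push_cast
      ring
    rw [Finset.sum_congr rfl (fun c _ => h2 c), Finset.sum_sub_distrib, ← Finset.sum_mul, hsum,
      zero_mul, sub_zero, ← sum_disc_cls]
  rw [h1]
  refine (norm_sum_le _ _).trans ?_
  refine (Finset.sum_le_sum (g := fun _ => C * (Real.sqrt Y + 1)) (fun c _ => ?_)).trans ?_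
  · rw [norm_mul, AddChar.norm_apply, one_mul, Complex.norm_real, Real.norm_eq_abs]
    exact h Y hY c
  · rw [Finset.sum_const, Finset.card_univ, nsmul_eq_mul, mul_assoc]

/-- the sums of the characters of nonzero frequency over a class -/
theorem sum_xi_cls {D : Dir K} (hC : SpecCls K D) (hT : SpecLatT) {A : ℝ} (hA : 1 ≤ A) (c : Cl K) :
    ∃ b : ℝ, 0 < b ∧ b < 1 ∧ ∀ᶠ x : ℝ in atTop, ∀ κ : Kp K, κ.2 ≠ 0 → |(κ.2 : ℝ)| ≤ x ^ A →
      ‖∑ z ∈ (disc x).filter (fun z => cls z = c), xi D κ z‖ ≤ x ^ (1 - b) := by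
  obtain ⟨V, hV, hcl⟩ := hC
  have hw : (0 : ℝ) < NumberField.Units.torsionOrder K := tor_pos
  have hw1 : (1 : ℝ) ≤ NumberField.Units.torsionOrder K := by
    exact_mod_cast NumberField.Units.torsionOrder_pos K
  have hw0 : ((NumberField.Units.torsionOrder K : ℕ) : ℤ) ≠ 0 := by
    exact_mod_cast NumberField.Units.torsionOrder_ne_zero K
  obtain ⟨e₁, e₂, δ, hδ, hV2, hS⟩ := hcl c
  have hpos : 0 < (conj e₁ * e₂).im := by rw [hV2]; exact hV
  obtain ⟨b, hb0, hb1, hb⟩ := hT e₁ e₂ hpos (A + 1) (by linarith)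
  refine ⟨b, hb0, hb1, ?_⟩
  filter_upwards [hb, eventually_ge_atTop (NumberField.Units.torsionOrder K : ℝ),
    eventually_ge_atTop (1 : ℝ)] with x hx hxw hx1 κ hκ2 hκA
  have hx0 : 0 < x := lt_of_lt_of_le one_pos hx1
  obtain ⟨S, hSS⟩ := exists_isL hpos x
  have h1 := hS x S hSS (fun u => u ^ κ.2)
  have h2 := hx (((NumberField.Units.torsionOrder K : ℕ) : ℤ) * κ.2) (mul_ne_zero hw0 hκ2) (by
    rw [Real.rpow_add hx0, Real.rpow_one, mul_comm (x ^ A) x]
    push_cast
    rw [abs_mul, abs_of_pos hw]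
    exact mul_le_mul hxw hκA (abs_nonneg _) hx0.le) S hSS
  have h3 : ∑ z ∈ (disc x).filter (fun z => cls z = c), xi D κ z =
      κ.1 (Additive.ofMul c) * ∑ z ∈ (disc x).filter (fun z => cls z = c), D.f z ^ κ.2 := by
    rw [Finset.mul_sum]
    refine Finset.sum_congr rfl (fun z hz => ?_)
    have h4 := (Finset.mem_filter.1 hz).2
    simp only [xi, h4]
  have h4 : ∑ p ∈ S, (δ * (lt e₁ e₂ p / ((‖lt e₁ e₂ p‖ : ℝ) : ℂ)) ^
      NumberField.Units.torsionOrder K) ^ κ.2 =
      δ ^ κ.2 * ∑ p ∈ S, (lt e₁ e₂ p / ((‖lt e₁ e₂ p‖ : ℝ) : ℂ)) ^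
        (((NumberField.Units.torsionOrder K : ℕ) : ℤ) * κ.2) := by
    rw [Finset.mul_sum]
    refine Finset.sum_congr rfl (fun p _ => ?_)
    rw [mul_zpow, zpow_mul, zpow_natCast]
  beta_reduce at h1
  rw [h4] at h1
  have h5 : (NumberField.Units.torsionOrder K : ℝ) *
      ‖∑ z ∈ (disc x).filter (fun z => cls z = c), D.f z ^ κ.2‖ ≤ x ^ (1 - b) := by
    have h6 := congrArg norm h1
    rw [norm_mul, norm_mul, norm_zpow, hδ, one_zpow, one_mul, Complex.norm_natCast] at h6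
    rw [h6]
    exact h2
  rw [h3, norm_mul, AddChar.norm_apply, one_mul]
  refine le_trans ?_ h5
  exact le_mul_of_one_le_left (norm_nonneg _) hw1

/-- TYPE -/
theorem specType {D : Dir K} (hC : SpecCls K D) (hL : SpecLatC) (hT : SpecLatT) :
    SpecType K D := by
  intro A hA
  obtain ⟨C, hC0, hz⟩ := sum_xi_zero hC hL
  choose b hb0 hb1 hb using fun c : Cl K => sum_xi_cls hC hT hA c
  obtain ⟨c₀, _, hmin⟩ := Finset.exists_min_image (Finset.univ : Finset (Cl K)) b
    ⟨1, Finset.mem_univ _⟩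
  have hb' : ∀ᶠ x : ℝ in atTop, ∀ c : Cl K, ∀ κ : Kp K, κ.2 ≠ 0 → |(κ.2 : ℝ)| ≤ x ^ A →
      ‖∑ z ∈ (disc x).filter (fun z => cls z = c), xi D κ z‖ ≤ x ^ (1 - b c) :=
    Filter.eventually_all.2 hb
  set s : ℝ := min (b c₀ / 2) (1 / 4) with hs
  have hs0 : 0 < s := lt_min (by linarith [hb0 c₀]) (by norm_num)
  have hs1 : s ≤ b c₀ / 2 := min_le_left _ _
  have hs2 : s ≤ 1 / 4 := min_le_right _ _
  have hbig : ∀ᶠ x : ℝ in atTop, (Fintype.card (Cl K) : ℝ) + 2 * C ≤ x ^ s :=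
    (tendsto_rpow_atTop hs0).eventually_ge_atTop _
  refine ⟨s, hs0, by linarith, ?_⟩
  filter_upwards [hb', hbig, eventually_ge_atTop (1 : ℝ)] with x hx hxs hx1 κ hκ hκA
  have hx0 : 0 < x := lt_of_lt_of_le one_pos hx1
  have hcard : (0 : ℝ) ≤ Fintype.card (Cl K) := Nat.cast_nonneg _
  by_cases h2 : κ.2 = 0
  · refine (hz κ hκ h2 x hx0.le).trans ?_
    have h3 : (1 : ℝ) ≤ Real.sqrt x := by
      rw [Real.one_le_sqrt]; exact hx1
    have h4 : C * (Real.sqrt x + 1) ≤ 2 * C * Real.sqrt x := by nlinarith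
    refine h4.trans ?_
    have h5 : 2 * C * Real.sqrt x ≤ x ^ s * Real.sqrt x :=
      mul_le_mul_of_nonneg_right (by linarith) (Real.sqrt_nonneg _)
    refine h5.trans ?_
    rw [Real.sqrt_eq_rpow, ← Real.rpow_add hx0]
    exact Real.rpow_le_rpow_of_exponent_le hx1 (by linarith)
  · rw [sum_disc_cls]
    refine (norm_sum_le _ _).trans ?_
    have h3 : ∀ c ∈ (Finset.univ : Finset (Cl K)),
        ‖∑ z ∈ (disc x).filter (fun z => cls z = c), xi D κ z‖ ≤ x ^ (1 - b c₀) := by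
      intro c hc
      refine (hx c κ h2 hκA).trans ?_
      exact Real.rpow_le_rpow_of_exponent_le hx1 (by linarith [hmin c hc])
    refine (Finset.sum_le_sum h3).trans ?_
    rw [Finset.sum_const, Finset.card_univ, nsmul_eq_mul]
    have h5 : (Fintype.card (Cl K) : ℝ) * x ^ (1 - b c₀) ≤ x ^ s * x ^ (1 - b c₀) :=
      mul_le_mul_of_nonneg_right (by linarith) (Real.rpow_nonneg hx0.le _)
    refine h5.trans ?_
    rw [← Real.rpow_add hx0]
    exact Real.rpow_le_rpow_of_exponent_le hx1 (by linarith)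

end Pool.Agent.Lib.MP391708.MA
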