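import Pool.Agent.Lib.MP_391708_nt.MA.Defs
import Pool.Agent.Lib.MP_391708_nt.MR.Spec

/-!
# Exact statements of the modules (Matomäki–Radziwiłł for ideals)

A module proves `theorem specXxx ... : SpecXxx ...` in its own file `MA/<Name>.lean`, namespace
`Pool.Agent.Lib.MP391708.MA`, possibly from other `Spec`s (hypotheses).  `MR.SpecLad`,
`MR.SpecLandau`, `MR.SpecVDC` are reused as they are (theorems `MR.specLad`, `MR.specLandau`,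
`MR.specVDC`).
-/

set_option autoImplicit false

namespace Pool.Agent.Lib.MP391708.MA

open Finset Filter Topology NumberField
open scoped ComplexConjugate Classical

/-! ## Lattices in the plane (no number fields) -/

/-- `x e₁ + y e₂` -/
noncomputable def lt (e₁ e₂ : ℂ) (p : ℤ × ℤ) : ℂ := (p.1 : ℂ) * e₁ + (p.2 : ℂ) * e₂

/-- `S` is the set of the nonzero lattice points with `|z|² ≤ Y` -/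
def IsL (e₁ e₂ : ℂ) (Y : ℝ) (S : Finset (ℤ × ℤ)) : Prop :=
  ∀ p : ℤ × ℤ, p ∈ S ↔ p ≠ 0 ∧ ‖lt e₁ e₂ p‖ ^ 2 ≤ Y

/-- LATC: lattice points in discs -/
def SpecLatC : Prop := ∀ e₁ e₂ : ℂ, 0 < (conj e₁ * e₂).im → ∃ C : ℝ, 0 < C ∧
  ∀ (Y : ℝ) (S : Finset (ℤ × ℤ)), 0 ≤ Y → IsL e₁ e₂ Y S →
    |(S.card : ℝ) - Real.pi * Y / (conj e₁ * e₂).im| ≤ C * (Real.sqrt Y + 1)

/-- LATT (from `MR.SpecVDC`): sums of `(z/|z|)^k` over the lattice points in discs, for `k` up to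
a power (as `MR.SpecType`) -/
def SpecLatT : Prop := ∀ e₁ e₂ : ℂ, 0 < (conj e₁ * e₂).im → ∀ A : ℝ, 1 ≤ A →
  ∃ c : ℝ, 0 < c ∧ c < 1 ∧ ∀ᶠ x : ℝ in atTop, ∀ k : ℤ, k ≠ 0 → |(k : ℝ)| ≤ x ^ A →
    ∀ S : Finset (ℤ × ℤ), IsL e₁ e₂ x S →
      ‖∑ p ∈ S, (lt e₁ e₂ p / ((‖lt e₁ e₂ p‖ : ℝ) : ℂ)) ^ k‖ ≤ x ^ (1 - c)

/-! ## Number fields -/

section

variable (K : Type) [Field K] [NumberField K] (D : Dir K)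

/-- EXT: there is a direction -/
def SpecExt : Prop := Nonempty (Dir K)

/-- CLS: the ideals of a class are the points of a lattice modulo units; all lattices have the
same covolume -/
def SpecCls : Prop := ∃ V : ℝ, 0 < V ∧ ∀ c : Cl K, ∃ e₁ e₂ δ : ℂ, ‖δ‖ = 1 ∧
  (conj e₁ * e₂).im = V ∧ ∀ (x : ℝ) (S : Finset (ℤ × ℤ)), IsL e₁ e₂ x S → ∀ F : ℂ → ℂ,
    (NumberField.Units.torsionOrder K : ℂ) *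
        ∑ z ∈ ((disc x : Finset (Gi K))).filter (fun z => cls z = c), F (D.f z) =
      ∑ p ∈ S, F (δ * (lt e₁ e₂ p / ((‖lt e₁ e₂ p‖ : ℝ) : ℂ)) ^
        NumberField.Units.torsionOrder K)

/-- SEP: different directions in a class are separated -/
def SpecSep : Prop := ∃ c : ℝ, 0 < c ∧ ∀ z z' : Gi K, z ≠ 0 → z' ≠ 0 → cls z = cls z' →
  ¬ par z z' → c / Real.sqrt ((nm z : ℝ) * nm z') ≤ ‖D.f z - D.f z'‖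

/-- COUNT (from CLS, LATC) -/
def SpecCount : Prop := ∃ ρ C : ℝ, 0 < ρ ∧ 0 < C ∧ ∀ Y : ℝ, 0 ≤ Y →
  |((disc Y : Finset (Gi K)).card : ℝ) - ρ * Y| ≤ C * (Real.sqrt Y + 1)

/-- TYPE (from CLS, LATC, LATT): nontrivial characters -/
def SpecType : Prop := ∀ A : ℝ, 1 ≤ A → ∃ c : ℝ, 0 < c ∧ c < 1 ∧
  ∀ᶠ x : ℝ in atTop, ∀ κ : Kp K, κ ≠ 0 → |(κ.2 : ℝ)| ≤ x ^ A →
    ‖∑ z ∈ disc x, xi D κ z‖ ≤ x ^ (1 - c)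

/-- LSG (from SEP): the large sieve -/
def SpecLSG : Prop := ∃ C : ℝ, 0 < C ∧ ∀ (S : Finset (Gi K)) (a : Gi K → ℂ) (Y : ℝ) (Z : ℕ),
  1 ≤ Y → (∀ z ∈ S, z ≠ 0 ∧ (nm z : ℝ) ≤ Y) →
    ∑ κ ∈ IK K Z, ‖∑ z ∈ S, a z * xi D κ z‖ ^ 2 ≤
      C * (Z + Y) * ∑ z ∈ S, ∑ z' ∈ S.filter (fun z' => par z z'), ‖a z‖ * ‖a z'‖

/-- TK (from COUNT): Turán–Kubilius -/
def SpecTK : Prop := ∃ C : ℝ, 0 < C ∧ ∀ P Q Y Y' : ℝ, 1 ≤ P → P ≤ Q → 0 ≤ Y → Y ≤ Y' → 1 ≤ Y' →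
  ∑ z ∈ (ann Y Y' : Finset (Gi K)), ((om P Q z : ℝ) - WW K P Q) ^ 2 ≤
    C * ((Y' - Y) * (WW K P Q + 1) + Q ^ 2 * Real.sqrt Y')

/-- PG: prime sums -/
def SpecPG : Prop :=
  (∃ C : ℝ, ∀ P Q : ℝ, 3 ≤ P → P ≤ Q →
    |WW K P Q - (Real.log (Real.log Q) - Real.log (Real.log P))| ≤ C) ∧
  (∃ C : ℝ, 0 < C ∧ ∀ x : ℝ, 2 ≤ x → WW K x (Real.exp 1 * x) ≤ C / Real.log x) ∧
  (∃ C : ℝ, 0 < C ∧ ∀ x : ℝ, 2 ≤ x →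
    ((GP 0 x : Finset (Gi K)).card : ℝ) ≤ C * x / Real.log x)

/-! ## The ladder -/

/-- DEC (from LSG, TK, COUNT): the decomposition at a stage. -/
def SpecDec [Sg] : Prop := ∃ C : ℝ, 0 < C ∧ ∀ (h P Q X X' : ℝ) (Z : ℕ),
  1 ≤ h → 2 ≤ P → P ≤ Q → Q ^ 10 ≤ X → X ≤ X' → X' ≤ 4 * X → 1 ≤ WW K P Q →
    ∑ κ ∈ IK K Z, ‖MM D X X' κ - (1 / (WW K P Q : ℂ)) * ∑ v ∈ VV h P Q, QQ D h P Q v κ *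
        MM D (X * Real.exp (-(v / h))) (X' * Real.exp (-(v / h))) κ‖ ^ 2 ≤
      C * (Z + X) * X * (1 / WW K P Q + 1 / h + X ^ (-(1 / 10) : ℝ))

/-- MOM (from LSG, COUNT): moments. -/
def SpecMom : Prop := ∃ C : ℝ, 1 ≤ C ∧ ∀ (Y Y' N : ℝ) (l Z : ℕ) (E S : Finset (Gi K))
  (b a : Gi K → ℂ), C ≤ Y → Y ≤ Y' → Y' ≤ Real.exp 2 * Y → 1 ≤ N → E ⊆ GP Y Y' →
  (∀ z, ‖b z‖ ≤ 1) → (∀ z, ‖a z‖ ≤ 1) → (∀ m ∈ S, prim m ∧ Y' ^ l * nm m ≤ N) →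
    ∑ κ ∈ IK K Z, ‖(∑ π ∈ E, b π * xi D κ π) ^ l * ∑ m ∈ S, a m * xi D κ m‖ ^ 2 ≤
      C ^ (l + 1) * (l.factorial : ℝ) ^ 2 * (Z + N) * N

/-- LADDER (from DEC, MOM, `MR.SpecLad`, PG): outside a small set `U` of frequencies the sums
are small in mean square. -/
def SpecLadder [Sg] : Prop := ∀ c₁ η ε : ℝ, 0 < c₁ → 0 < η → η ≤ 1 → 0 < ε →
  ∃ H₀ : ℝ, ∀ H : ℝ, H₀ ≤ H → ∀ᶠ X : ℝ in atTop, ∃ U : Finset (Kp K),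
    (∀ κ ∈ U, |(κ.2 : ℝ)| ≤ X) ∧ (U.card : ℝ) ≤ X ^ c₁ ∧
    ∑ κ ∈ IK K ⌊X / H⌋₊ \ U, ‖MM D X ((1 + η) ^ 2 * X) κ‖ ^ 2 ≤ ε * X ^ 2

/-! ## The top scale -/

/-- UP (from TYPE, COUNT, TK, PG): Halász–Montgomery on sparse sets of frequencies. -/
def SpecUp [Sg] : Prop := ∃ c₀ C d₀ : ℝ, 0 < c₀ ∧ 0 < C ∧ 0 < d₀ ∧
  ∀ d : ℝ, 0 < d → d ≤ d₀ → ∀ᶠ X : ℝ in atTop, ∀ U : Finset (Kp K),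
    (∀ κ ∈ U, |(κ.2 : ℝ)| ≤ X) → (U.card : ℝ) ≤ X ^ c₀ →
    (∀ x : ℝ, Real.sqrt X ≤ x → x ≤ 4 * X → ∑ κ ∈ U, ‖SS D κ x‖ ^ 2 ≤ C * x ^ 2) ∧
    (∀ x x' : ℝ, Real.sqrt X ≤ x → x ≤ x' → x' ≤ 4 * X →
      ∑ κ ∈ U, ‖SS D κ x' - SS D κ x‖ ^ 2 ≤ C * ((x' - x) ^ 2 + X ^ (-c₀) * x' ^ 2)) ∧
    (∀ x : ℝ, Real.sqrt X ≤ x → x ≤ 4 * X →
      ∑ κ ∈ U, ‖SS D κ x - (1 / (WW K (X ^ (d ^ 2)) (X ^ d) : ℂ)) *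
          ∑ π ∈ GP (X ^ (d ^ 2)) (X ^ d), (lam π : ℂ) * xi D κ π * SS D κ (x / nm π)‖ ^ 2 ≤
        C * x ^ 2 / WW K (X ^ (d ^ 2)) (X ^ d))

/-- OS (from `MR.SpecLandau`, PG, COUNT): the one-sided bound for twisted prime sums. -/
def SpecOS : Prop := ∃ C : ℝ, ∀ T d : ℝ, 0 < T → 0 < d → d ≤ 1 / 2 →
  ∃ θ : ℝ, 0 < θ ∧ ∀ c : ℝ, 0 < c → c < 1 → ∀ᶠ X : ℝ in atTop, ∀ G : Gi K → ℂ, CM G →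
    (∀ x : ℝ, X ^ θ ≤ x → ‖∑ z ∈ disc x, G z‖ ≤ x ^ (1 - c)) →
    ∀ t : ℝ, |t| ≤ T →
      (∑ π ∈ (GP (X ^ (d ^ 2)) (X ^ d) : Finset (Gi K)),
        G π * ((nm π : ℕ) : ℂ) ^ (-1 - Complex.I * (t : ℂ))).re ≤ C

/-- LOWER (from TYPE, OS, PG): the twisted sums of `g ξ_κ` are not close to `W`, nonzero
frequencies. -/
def SpecLower [Sg] : Prop := ∃ c : ℝ, 0 < c ∧ ∀ T : ℝ, 0 < T →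
  ∃ d₁ : ℝ, 0 < d₁ ∧ ∀ d : ℝ, 0 < d → d ≤ d₁ → ∀ᶠ X : ℝ in atTop, ∀ κ : Kp K, κ.2 ≠ 0 →
    |(κ.2 : ℝ)| ≤ X → ∀ t : ℝ, |t| ≤ T →
      c * WW K (X ^ (d ^ 2)) (X ^ d) ≤ ‖(WW K (X ^ (d ^ 2)) (X ^ d) : ℂ) -
        ∑ π ∈ GP (X ^ (d ^ 2)) (X ^ d),
          (lam π : ℂ) * xi D κ π * ((nm π : ℕ) : ℂ) ^ (-1 - Complex.I * (t : ℂ))‖

/-- TOP (from UP, PLAN, LOWER, PG): the sparse set of frequencies. -/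
def SpecTop [Sg] : Prop := ∃ c₁ : ℝ, 0 < c₁ ∧ ∀ ε : ℝ, 0 < ε →
  ∀ᶠ X : ℝ in atTop, ∀ U : Finset (Kp K), (∀ κ ∈ U, κ.2 ≠ 0 ∧ |(κ.2 : ℝ)| ≤ X) →
    (U.card : ℝ) ≤ X ^ c₁ → ∀ x : ℝ, X ≤ x → x ≤ 4 * X →
      ∑ κ ∈ U, ‖SS D κ x‖ ^ 2 ≤ ε * X ^ 2

/-! ## Conclusion -/

/-- MRK (from LADDER, TOP). -/
def SpecMRk [Sg] : Prop := ∀ η ε : ℝ, 0 < η → η ≤ 1 → 0 < ε →
  ∃ H₀ : ℝ, ∀ H : ℝ, H₀ ≤ H → ∀ᶠ X : ℝ in atTop,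
    ∑ κ ∈ (IK K ⌊X / H⌋₊).filter (fun κ => κ.2 ≠ 0), ‖MM D X ((1 + η) ^ 2 * X) κ‖ ^ 2 ≤
      ε * X ^ 2

/-- MRC (from MRK): wide annuli. -/
def SpecMRC [Sg] : Prop := ∀ B ε : ℝ, 1 < B → 0 < ε →
  ∃ H₀ : ℝ, ∀ H : ℝ, H₀ ≤ H → ∀ᶠ X : ℝ in atTop,
    ∑ κ ∈ (IK K ⌊X / H⌋₊).filter (fun κ => κ.2 ≠ 0), ‖MM D X (B * X) κ‖ ^ 2 ≤ ε * X ^ 2

end

/-- PLAN: discrete Plancherel (pure analysis; as `MR.SpecPlan`, for all index types). -/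
def SpecPlan : Prop := ∀ (α β : Type) (c ε : ℝ), 0 < c → 0 < ε → ∃ T₀ τ₀ : ℝ, 0 < T₀ ∧ 0 < τ₀ ∧
  ∀ τ : ℝ, 0 < τ → τ ≤ τ₀ → ∃ ρ : ℝ, 0 < ρ ∧ ∃ N₀ : ℕ,
  ∀ (U : Finset α) (F : α → ℝ → ℂ) (E : Finset β) (w lg : β → ℝ) (g : α → β → ℂ)
    (a Λ D : ℝ) (N : ℕ), N₀ ≤ N → 0 < D → 0 ≤ Λ → Λ ≤ ρ * N → E.Nonempty →
    (∀ i ∈ E, 0 < w i ∧ 0 ≤ lg i ∧ lg i ≤ Λ) → (∀ k i, ‖g k i‖ ≤ 1) →
    (∀ y : ℝ, a - Λ - 1 ≤ y → y ≤ a + N * τ + 1 → ∑ k ∈ U, ‖F k y‖ ^ 2 ≤ D) →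
    (∀ y y' : ℝ, a - Λ - 1 ≤ y → y ≤ y' → y' ≤ y + 1 → y' ≤ a + N * τ + 1 →
      ∑ k ∈ U, ‖F k y' - F k y‖ ^ 2 ≤ D * ((y' - y) ^ 2 + ρ)) →
    (∀ y : ℝ, a ≤ y → y ≤ a + N * τ →
      ∑ k ∈ U, ‖F k y - (1 / ((∑ i ∈ E, w i : ℝ) : ℂ)) *
        ∑ i ∈ E, (w i : ℂ) * g k i * F k (y - lg i)‖ ^ 2 ≤ D * ρ) →
    (∀ k ∈ U, ∀ t : ℝ, |t| ≤ T₀ → c * (∑ i ∈ E, w i) ≤
      ‖((∑ i ∈ E, w i : ℝ) : ℂ) -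
        ∑ i ∈ E, (w i : ℂ) * g k i * Complex.exp (-(Complex.I * t * lg i))‖) →
    ∑ n ∈ range N, ∑ k ∈ U, ‖F k (a + n * τ)‖ ^ 2 ≤ ε * D * N

/-! ## The interface to group S (no number fields) -/

/-- the form `x² + b x y + c y²` -/
def qn (b c : ℤ) (p : ℤ × ℤ) : ℤ := p.1 ^ 2 + b * p.1 * p.2 + c * p.2 ^ 2

/-- PRIN: the sign function at the norms of the principal elements does not correlate with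
directions (all nonzero frequencies up to `X / H`).  `τ` is the root of `τ² = b τ - c` in the upper
half plane, `|x + y τ|² = qn b c`. -/
def Prin [Sg] (b c : ℤ) (τ : ℂ) : Prop := ∀ B ε : ℝ, 1 < B → 0 < ε →
  ∃ H₀ : ℝ, ∀ H : ℝ, H₀ ≤ H → ∀ᶠ X : ℝ in atTop, ∀ S : Finset (ℤ × ℤ),
    (∀ p : ℤ × ℤ, p ∈ S ↔ Int.gcd p.1 p.2 = 1 ∧ X < (qn b c p : ℝ) ∧ (qn b c p : ℝ) ≤ B * X) →
    ∑ k ∈ (Icc (-(⌊X / H⌋₊ : ℤ)) ⌊X / H⌋₊).filter (fun k => k ≠ 0),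
      ‖∑ p ∈ S, ((gs (qn b c p).natAbs : ℤ) : ℂ) *
        (lt 1 τ p / ((‖lt 1 τ p‖ : ℝ) : ℂ)) ^ k‖ ^ 2 ≤ ε * X ^ 2

/-- PRIN for a field with the integral basis `1, ω` (from MRC; if `k` is not a multiple of the
number `w` of units, the sum over `S` is `0` by multiplication with a unit of order `w`). -/
def SpecPrin [Sg] (K : Type) [Field K] [NumberField K] : Prop :=
  ∀ (ω : 𝓞 K) (b c : ℤ) (D : Dir K), SpecMRC K D → ω ^ 2 = (b : 𝓞 K) * ω - (c : 𝓞 K) →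
    (∀ v : 𝓞 K, ∃ x y : ℤ, v = (x : 𝓞 K) + (y : 𝓞 K) * ω) → b ^ 2 < 4 * c →
    0 < (D.σ (ω : K)).im → Prin b c (D.σ (ω : K))

/-- FIELD: the field and its integral basis for a given `a`. -/
def SpecField : Prop := ∀ a : ℕ, 0 < a → ∃ (K : Type) (_ : Field K) (_ : NumberField K),
  IQ K ∧ ∃ (ω : 𝓞 K) (b c g : ℤ), 0 < g ∧ g ^ 2 * (4 * c - b ^ 2) = 4 * (a : ℤ) ∧
    ω ^ 2 = (b : 𝓞 K) * ω - (c : 𝓞 K) ∧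
    ∀ v : 𝓞 K, ∃ x y : ℤ, v = (x : 𝓞 K) + (y : 𝓞 K) * ω

/-- **The result of MA**: for every `a ≥ 1` a form of determinant `a` (content `g`) with PRIN. -/
def SpecMA [Sg] : Prop := ∀ a : ℕ, 0 < a → ∃ (b c g : ℤ) (τ : ℂ), 0 < g ∧
  g ^ 2 * (4 * c - b ^ 2) = 4 * (a : ℤ) ∧ 0 < τ.im ∧
    τ ^ 2 = (b : ℂ) * τ - (c : ℂ) ∧ Prin b c τ

end Pool.Agent.Lib.MP391708.MA
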