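import Pool.Agent.Lib.MP_391708_nt.MA.Basic2
import Pool.Agent.Lib.MP_391708_nt.MA.Spec

/-!
# DEC: the decomposition at a stage
-/

set_option autoImplicit false

namespace Pool.Agent.Lib.MP391708.MA

open Finset Filter Topology NumberField
open scoped ComplexConjugate Classical

variable [Sg] {K : Type} [Field K] [NumberField K]

namespace DecAux

/-- the index of the cell -/
noncomputable def vv (h : ℝ) (π : Gi K) : ℕ := ⌊h * Real.log (nm π)⌋₊

/-- the range of the cofactors -/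
noncomputable def Sv (h X X' : ℝ) (π : Gi K) : Finset (Gi K) :=
  (ann (X * Real.exp (-(vv h π / h))) (X' * Real.exp (-(vv h π / h)))).filter prim

/-- the primes dividing `z` with a cofactor in the range -/
noncomputable def RR (h P Q X X' : ℝ) (z : Gi K) : Finset (Gi K) :=
  (GP P Q).filter (fun π => z ∈ (Sv h X X' π).image (fun m => π * m))

lemma mem_RR {h P Q X X' : ℝ} {z π : Gi K} :
    π ∈ RR h P Q X X' z ↔ π ∈ GP P Q ∧ ∃ m ∈ Sv h X X' π, π * m = z := by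
  unfold RR
  rw [mem_filter, mem_image]

lemma one_le_rho {h : ℝ} (hh : 1 ≤ h) {π : Gi K} (hπ : π ≠ 0) :
    1 ≤ nm π * Real.exp (-(vv h π / h)) := by
  have hh0 : 0 < h := by linarith
  have hn : (1 : ℝ) ≤ nm π := one_le_nm hπ
  have h3 : ((vv h π : ℕ) : ℝ) ≤ h * Real.log (nm π) :=
    Nat.floor_le (mul_nonneg hh0.le (Real.log_nonneg hn))
  have h4 : (vv h π : ℝ) / h ≤ Real.log (nm π) := by
    rw [div_le_iff₀ hh0]; linarith
  have h5 : Real.exp (-Real.log (nm π)) ≤ Real.exp (-(vv h π / h)) :=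
    Real.exp_le_exp.2 (by linarith)
  rw [Real.exp_neg, Real.exp_log (by linarith)] at h5
  calc (1 : ℝ) = nm π * (nm π : ℝ)⁻¹ := (mul_inv_cancel₀ (by linarith)).symm
    _ ≤ _ := mul_le_mul_of_nonneg_left h5 (by linarith)

lemma rho_le {h : ℝ} (hh : 1 ≤ h) {π : Gi K} (hπ : π ≠ 0) :
    nm π * Real.exp (-(vv h π / h)) ≤ Real.exp (1 / h) := by
  have hh0 : 0 < h := by linarith
  have hn : (1 : ℝ) ≤ nm π := one_le_nm hπ
  have h3 : h * Real.log (nm π) < (vv h π : ℝ) + 1 := Nat.lt_floor_add_one _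
  have h4 : Real.log (nm π) ≤ (vv h π : ℝ) / h + 1 / h := by
    rw [← add_div, le_div_iff₀ hh0]; linarith
  calc (nm π : ℝ) * Real.exp (-(vv h π / h))
      = Real.exp (Real.log (nm π)) * Real.exp (-(vv h π / h)) := by
        rw [Real.exp_log (by linarith)]
    _ = Real.exp (Real.log (nm π) - vv h π / h) := by rw [← Real.exp_add]; congr 1
    _ ≤ _ := Real.exp_le_exp.2 (by linarith)

lemma mem_Sv {h X X' : ℝ} {π m : Gi K} (hπ : π ≠ 0) :
    m ∈ Sv h X X' π ↔ prim m ∧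
      X * (nm π * Real.exp (-(vv h π / h))) < nm (π * m) ∧
      (nm (π * m) : ℝ) ≤ X' * (nm π * Real.exp (-(vv h π / h))) := by
  unfold Sv
  rw [mem_filter, mem_ann, nm_mul]
  push_cast
  have hn : (0 : ℝ) < nm π := nm_posR hπ
  set E := Real.exp (-(vv h π / h)) with hE
  constructor
  · rintro ⟨⟨h1, h2, h3⟩, h4⟩
    refine ⟨h4, ?_, ?_⟩
    · calc X * (nm π * E) = nm π * (X * E) := by ring
        _ < nm π * nm m := mul_lt_mul_of_pos_left h2 hn
    · calc (nm π : ℝ) * nm m ≤ nm π * (X' * E) := mul_le_mul_of_nonneg_left h3 hn.le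
        _ = _ := by ring
  · rintro ⟨h4, h2, h3⟩
    refine ⟨⟨prim_ne_zero h4, ?_, ?_⟩, h4⟩
    · apply lt_of_mul_lt_mul_left _ hn.le
      calc (nm π : ℝ) * (X * E) = X * (nm π * E) := by ring
        _ < _ := h2
    · apply le_of_mul_le_mul_left _ hn
      calc (nm π : ℝ) * nm m ≤ X' * (nm π * E) := h3
        _ = _ := by ring

lemma RR_range {h P Q X X' : ℝ} (hh : 1 ≤ h) (hX : 0 < X) (hX' : 0 < X') {z π : Gi K}
    (hπ : π ∈ RR h P Q X X' z) : X < nm z ∧ (nm z : ℝ) ≤ X' * Real.exp (1 / h) := by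
  rw [mem_RR] at hπ
  obtain ⟨h1, m, hm, rfl⟩ := hπ
  have h0 := GP_ne_zero h1
  rw [mem_Sv h0] at hm
  have h2 := one_le_rho hh h0
  have h3 := rho_le hh h0
  constructor
  · refine lt_of_le_of_lt ?_ hm.2.1
    nlinarith
  · refine hm.2.2.trans ?_
    exact mul_le_mul_of_nonneg_left h3 hX'.le

lemma RR_subset {h P Q X X' : ℝ} {z : Gi K} : (RR h P Q X X' z).card ≤ om P Q z := by
  unfold om
  apply card_le_card
  intro π hπ
  rw [mem_RR] at hπ
  obtain ⟨h1, m, _, rfl⟩ := hπ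
  rw [mem_filter]
  exact ⟨h1, dvd_mul_right _ _⟩

lemma RR_eq {h P Q X X' : ℝ} (hh : 1 ≤ h) (hX : 0 < X) (hX' : 0 < X') {z : Gi K} (hz : prim z)
    (h1 : X * Real.exp (1 / h) < nm z) (h2 : (nm z : ℝ) ≤ X') :
    (RR h P Q X X' z).card = om P Q z := by
  unfold om
  congr 1
  ext π
  rw [mem_RR, mem_filter]
  constructor
  · rintro ⟨h3, m, _, rfl⟩
    exact ⟨h3, dvd_mul_right _ _⟩
  · rintro ⟨h3, m, rfl⟩
    refine ⟨h3, m, ?_, rfl⟩
    have h0 := GP_ne_zero h3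
    rw [mem_Sv h0]
    have h4 := one_le_rho hh h0
    have h5 := rho_le hh h0
    refine ⟨prim_of_mul_left hz, lt_of_le_of_lt ?_ h1, h2.trans ?_⟩
    · exact mul_le_mul_of_nonneg_left h5 hX.le
    · nlinarith

/-! ## the identity -/

/-- the coefficients -/
noncomputable def ee (h P Q X X' : ℝ) (z : Gi K) : ℂ :=
  (lam z : ℂ) * ((if z ∈ (ann X X').filter prim then 1 else 0) -
    ((RR h P Q X X' z).card : ℂ) / (WW K P Q : ℂ))

lemma identity (D : Dir K) {h P Q X X' Y : ℝ} (hh : 1 ≤ h) (hP : 1 ≤ P)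
    (hX : 0 < X) (hX' : 0 < X') (hY : X' * Real.exp (1 / h) ≤ Y) (κ : Kp K) :
    MM D X X' κ - (1 / (WW K P Q : ℂ)) * ∑ v ∈ VV h P Q, QQ D h P Q v κ *
        MM D (X * Real.exp (-(v / h))) (X' * Real.exp (-(v / h))) κ =
      ∑ z ∈ disc Y, ee h P Q X X' z * xi D κ z := by
  have hX'Y : X' ≤ Y := by
    refine le_trans ?_ hY
    have : 1 ≤ Real.exp (1 / h) := Real.one_le_exp (by positivity)
    nlinarith
  -- step 1
  have h1 : ∑ v ∈ VV h P Q, QQ D h P Q v κ *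
        MM D (X * Real.exp (-(v / h))) (X' * Real.exp (-(v / h))) κ =
      ∑ π ∈ GP P Q, ∑ m ∈ Sv h X X' π, (lam (π * m) : ℂ) * xi D κ (π * m) := by
    have hmaps : ∀ π ∈ (GP P Q : Finset (Gi K)), vv h π ∈ VV h P Q := by
      intro π hπ
      rw [mem_GP] at hπ
      unfold vv VV
      rw [mem_Icc]
      have hP0 : 0 < P := by linarith
      have hn : 0 < (nm π : ℝ) := by linarith [hπ.2.2.1]
      constructor
      · apply Nat.floor_le_floor
        apply mul_le_mul_of_nonneg_left _ (by linarith)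
        exact Real.log_le_log hP0 hπ.2.2.1.le
      · apply Nat.floor_le_floor
        apply mul_le_mul_of_nonneg_left _ (by linarith)
        exact Real.log_le_log hn hπ.2.2.2
    rw [← sum_fiberwise_of_maps_to hmaps]
    apply sum_congr rfl
    intro v _
    unfold QQ MM
    rw [sum_mul_sum]
    apply sum_congr rfl
    intro π hπ
    unfold cell at hπ
    rw [mem_filter] at hπ
    have hv : vv h π = v := hπ.2
    have hSv : Sv h X X' π =
        (ann (X * Real.exp (-(v / h))) (X' * Real.exp (-(v / h)))).filter prim := by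
      unfold Sv
      rw [hv]
    rw [hSv]
    apply sum_congr rfl
    intro m hm
    rw [mem_filter] at hm
    rw [lam_mul (GP_ne_zero hπ.1) (prim_ne_zero hm.2), xi_mul D κ (GP_ne_zero hπ.1) (prim_ne_zero hm.2)]
    push_cast
    ring
  -- step 2
  have h2 : ∀ π ∈ GP P Q, ∑ m ∈ Sv h X X' π, (lam (π * m) : ℂ) * xi D κ (π * m) =
      ∑ z ∈ disc Y, if z ∈ (Sv h X X' π).image (fun m => π * m) then (lam z : ℂ) * xi D κ z
        else 0 := by
    intro π hπ
    have h0 := GP_ne_zero hπ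
    rw [← sum_filter]
    have h3 : (disc Y).filter (fun z => z ∈ (Sv h X X' π).image (fun m => π * m)) =
        (Sv h X X' π).image (fun m => π * m) := by
      ext z
      rw [mem_filter, and_iff_right_iff_imp]
      intro hz
      rw [mem_image] at hz
      obtain ⟨m, hm, rfl⟩ := hz
      have h4 : π ∈ RR h P Q X X' (π * m) := mem_RR.2 ⟨hπ, m, hm, rfl⟩
      have h5 := RR_range hh hX hX' h4
      rw [mem_disc]
      refine ⟨?_, h5.2.trans hY⟩
      rw [mem_Sv h0] at hm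
      exact mul_ne_zero h0 (prim_ne_zero hm.1)
    rw [h3, sum_image]
    intro x _ y _ hxy
    exact mul_left_cancel₀ h0 hxy
  have h3 : ∑ v ∈ VV h P Q, QQ D h P Q v κ *
        MM D (X * Real.exp (-(v / h))) (X' * Real.exp (-(v / h))) κ =
      ∑ z ∈ disc Y, ((RR h P Q X X' z).card : ℂ) * ((lam z : ℂ) * xi D κ z) := by
    rw [h1, sum_congr rfl h2, sum_comm]
    apply sum_congr rfl
    intro z _
    rw [← sum_filter, sum_const, nsmul_eq_mul]
    congr 2
  have h4 : MM D X X' κ = ∑ z ∈ disc Y,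
      (if z ∈ (ann X X').filter prim then 1 else 0) * ((lam z : ℂ) * xi D κ z) := by
    unfold MM
    simp_rw [ite_mul, one_mul, zero_mul]
    rw [← sum_filter]
    congr 1
    ext z
    rw [mem_filter, mem_filter]
    constructor
    · intro hz
      exact ⟨disc_subset hX'Y (ann_subset_disc _ _ hz.1), mem_filter.2 hz⟩
    · exact fun hz => mem_filter.1 hz.2
  rw [h3, h4, mul_sum, ← sum_sub_distrib]
  apply sum_congr rfl
  intro z _
  unfold ee
  ring

/-! ## the primitive part -/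

lemma norm_ee_le {h P Q X X' : ℝ} (z : Gi K) :
    ‖ee h P Q X X' z‖ ≤ |(if z ∈ (ann X X').filter prim then (1 : ℝ) else 0) -
      ((RR h P Q X X' z).card : ℝ) / WW K P Q| := by
  unfold ee
  rw [norm_mul]
  have h1 : ((if z ∈ (ann X X').filter prim then (1 : ℂ) else 0) -
      ((RR h P Q X X' z).card : ℂ) / (WW K P Q : ℂ)) =
      (((if z ∈ (ann X X').filter prim then (1 : ℝ) else 0) -
      ((RR h P Q X X' z).card : ℝ) / WW K P Q : ℝ) : ℂ) := by
    split_ifs <;> push_cast <;> ring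
  rw [norm_lam, one_mul, h1, Complex.norm_real, Real.norm_eq_abs]

/-- the Turán–Kubilius function -/
noncomputable def uu (P Q : ℝ) (z : Gi K) : ℝ := ((om P Q z : ℝ) / WW K P Q - 1) ^ 2

lemma uu_nonneg (P Q : ℝ) (z : Gi K) : 0 ≤ uu P Q z := sq_nonneg _

lemma prim_le {h P Q X X' : ℝ} (hh : 1 ≤ h) (hX : 0 < X)
    (hX' : 0 < X') (hW : 1 ≤ WW K P Q) {z : Gi K} (hz : prim z) :
    ‖ee h P Q X X' z‖ ^ 2 ≤ (if z ∈ ann X X' then uu P Q z else 0) +
      (if z ∈ ann X (X * Real.exp (1 / h)) then 8 + 2 * uu P Q z else 0) +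
      (if z ∈ ann X' (X' * Real.exp (1 / h)) then 8 + 2 * uu P Q z else 0) := by
  have hz0 := prim_ne_zero hz
  have hW0 : 0 < WW K P Q := by linarith
  have hu := uu_nonneg P Q z
  have hn1 : 0 ≤ (if z ∈ ann X X' then uu P Q z else 0) := by split_ifs <;> linarith
  have hn2 : 0 ≤ (if z ∈ ann X (X * Real.exp (1 / h)) then 8 + 2 * uu P Q z else 0) := by
    split_ifs <;> linarith
  have hn3 : 0 ≤ (if z ∈ ann X' (X' * Real.exp (1 / h)) then 8 + 2 * uu P Q z else 0) := by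
    split_ifs <;> linarith
  have hr0 : 0 ≤ ((RR h P Q X X' z).card : ℝ) / WW K P Q := by positivity
  have hr1 : ((RR h P Q X X' z).card : ℝ) / WW K P Q ≤ (om P Q z : ℝ) / WW K P Q := by
    apply div_le_div_of_nonneg_right _ hW0.le
    exact_mod_cast RR_subset
  have hbase := norm_ee_le (h := h) (P := P) (Q := Q) (X := X) (X' := X') z
  set r := ((RR h P Q X X' z).card : ℝ) / WW K P Q with hr
  set o := (om P Q z : ℝ) / WW K P Q with ho
  have hue : uu P Q z = (o - 1) ^ 2 := rfl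
  have hmem : z ∈ (ann X X').filter prim ↔ z ∈ ann X X' := by
    rw [mem_filter]; exact ⟨fun h => h.1, fun h => ⟨h, hz⟩⟩
  simp only [hmem] at hbase
  by_cases hc0 : (RR h P Q X X' z) = ∅
  · -- no cofactor
    have hr' : r = 0 := by rw [hr, hc0]; simp
    rw [hr', sub_zero] at hbase
    by_cases h1 : z ∈ ann X X'
    · rw [if_pos h1] at hbase ⊢
      by_cases h2 : (nm z : ℝ) ≤ X * Real.exp (1 / h)
      · have h3 : z ∈ ann X (X * Real.exp (1 / h)) := mem_ann.2 ⟨hz0, (mem_ann.1 h1).2.1, h2⟩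
        rw [if_pos h3]
        rw [abs_one] at hbase
        have h11 : ‖ee h P Q X X' z‖ ^ 2 ≤ 1 := pow_le_one₀ (norm_nonneg _) hbase
        linarith
      · have h4 := RR_eq (h := h) (P := P) (Q := Q) hh hX hX' hz (not_le.1 h2) (mem_ann.1 h1).2.2
        have h5 : o = 0 := by rw [ho, ← h4, hc0]; simp
        rw [abs_one] at hbase
        have h10 : uu P Q z = 1 := by rw [hue, h5]; norm_num
        have h11 : ‖ee h P Q X X' z‖ ^ 2 ≤ 1 := pow_le_one₀ (norm_nonneg _) hbase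
        linarith
    · rw [if_neg h1] at hbase
      have h5 : ‖ee h P Q X X' z‖ = 0 := le_antisymm (by simpa using hbase) (norm_nonneg _)
      have h6 : ‖ee h P Q X X' z‖ ^ 2 = 0 := by rw [h5]; norm_num
      linarith
  · obtain ⟨π, hπ⟩ := Finset.nonempty_iff_ne_empty.2 hc0
    obtain ⟨g1, g2⟩ := RR_range hh hX hX' hπ
    have hkey : ∀ i : ℝ, 0 ≤ i → i ≤ 1 → |i - r| ^ 2 ≤ 8 + 2 * uu P Q z := by
      intro i hi0 hi1
      have h6 : |i - r| ≤ 2 + |o - 1| := by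
        rw [abs_le]
        have := le_abs_self (o - 1)
        have := abs_nonneg (o - 1)
        constructor <;> linarith
      have h7 := abs_nonneg (i - r)
      rw [hue, ← sq_abs (o - 1)]
      have := abs_nonneg (o - 1)
      nlinarith [sq_nonneg (|o - 1| - 2)]
    by_cases h1 : z ∈ ann X X'
    · rw [if_pos h1] at hbase ⊢
      by_cases h2 : (nm z : ℝ) ≤ X * Real.exp (1 / h)
      · have h3 : z ∈ ann X (X * Real.exp (1 / h)) := mem_ann.2 ⟨hz0, (mem_ann.1 h1).2.1, h2⟩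
        rw [if_pos h3]
        have h8 := hkey 1 zero_le_one le_rfl
        have h9 : ‖ee h P Q X X' z‖ ^ 2 ≤ |1 - r| ^ 2 := by gcongr
        linarith
      · have h4 := RR_eq (h := h) (P := P) (Q := Q) hh hX hX' hz (not_le.1 h2) (mem_ann.1 h1).2.2
        have h5 : r = o := by rw [ho, hr, h4]
        have h9 : ‖ee h P Q X X' z‖ ^ 2 ≤ |1 - r| ^ 2 := by gcongr
        rw [h5, sq_abs] at h9
        have h10 : (1 - o) ^ 2 = (o - 1) ^ 2 := by ring
        linarith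
    · rw [if_neg h1] at hbase
      have h3 : X' < nm z := by
        by_contra hcon
        exact h1 (mem_ann.2 ⟨hz0, g1, not_lt.1 hcon⟩)
      have h4 : z ∈ ann X' (X' * Real.exp (1 / h)) := mem_ann.2 ⟨hz0, h3, g2⟩
      rw [if_pos h4]
      have h8 := hkey 0 le_rfl zero_le_one
      have h9 : ‖ee h P Q X X' z‖ ^ 2 ≤ |0 - r| ^ 2 := by gcongr
      linarith

lemma sum_prim_le {h P Q X X' Y : ℝ} (hh : 1 ≤ h) (hX : 0 < X)
    (hX' : 0 < X') (hW : 1 ≤ WW K P Q) :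
    ∑ z ∈ (disc Y : Finset (Gi K)).filter prim, ‖ee h P Q X X' z‖ ^ 2 ≤
      ∑ z ∈ (ann X X' : Finset (Gi K)), uu P Q z +
      ∑ z ∈ (ann X (X * Real.exp (1 / h)) : Finset (Gi K)), (8 + 2 * uu P Q z) +
      ∑ z ∈ (ann X' (X' * Real.exp (1 / h)) : Finset (Gi K)), (8 + 2 * uu P Q z) := by
  have h1 : ∑ z ∈ (disc Y : Finset (Gi K)).filter prim, ‖ee h P Q X X' z‖ ^ 2 ≤
      ∑ z ∈ (disc Y : Finset (Gi K)).filter prim, ((if z ∈ ann X X' then uu P Q z else 0) +
      (if z ∈ ann X (X * Real.exp (1 / h)) then 8 + 2 * uu P Q z else 0) +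
      (if z ∈ ann X' (X' * Real.exp (1 / h)) then 8 + 2 * uu P Q z else 0)) := by
    apply sum_le_sum
    intro z hz
    rw [mem_filter] at hz
    exact prim_le hh hX hX' hW hz.2
  refine h1.trans ?_
  rw [sum_add_distrib, sum_add_distrib]
  have h2 : ∀ (A : Finset (Gi K)) (f : Gi K → ℝ), (∀ z, 0 ≤ f z) →
      ∑ z ∈ (disc Y : Finset (Gi K)).filter prim, (if z ∈ A then f z else 0) ≤ ∑ z ∈ A, f z := by
    intro A f hf
    rw [← sum_filter]
    apply sum_le_sum_of_subset_of_nonneg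
    · intro z hz
      exact (mem_filter.1 hz).2
    · exact fun z _ _ => hf z
  have hu : ∀ z : Gi K, 0 ≤ 8 + 2 * uu P Q z := fun z => by linarith [uu_nonneg P Q z]
  have a1 := h2 (ann X X') (uu P Q) (uu_nonneg P Q)
  have a2 := h2 (ann X (X * Real.exp (1 / h))) _ hu
  have a3 := h2 (ann X' (X' * Real.exp (1 / h))) _ hu
  linarith

/-- Turán–Kubilius for `uu` -/
lemma sum_uu_le {CT : ℝ} (hCT : 0 < CT)
    (hT : ∀ P Q Y Y' : ℝ, 1 ≤ P → P ≤ Q → 0 ≤ Y → Y ≤ Y' → 1 ≤ Y' →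
      ∑ z ∈ (ann Y Y' : Finset (Gi K)), ((om P Q z : ℝ) - WW K P Q) ^ 2 ≤
        CT * ((Y' - Y) * (WW K P Q + 1) + Q ^ 2 * Real.sqrt Y'))
    {P Q Y Y' : ℝ} (hP : 1 ≤ P) (hPQ : P ≤ Q) (hY : 0 ≤ Y) (hYY : Y ≤ Y') (hY1 : 1 ≤ Y')
    (hW : 1 ≤ WW K P Q) :
    ∑ z ∈ (ann Y Y' : Finset (Gi K)), uu P Q z ≤ CT * ((Y' - Y) * (2 / WW K P Q) + Q ^ 2 * Real.sqrt Y') := by
  have hW0 : 0 < WW K P Q := by linarith
  have h1 : ∑ z ∈ (ann Y Y' : Finset (Gi K)), uu P Q z =
      (∑ z ∈ (ann Y Y' : Finset (Gi K)), ((om P Q z : ℝ) - WW K P Q) ^ 2) / WW K P Q ^ 2 := by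
    rw [sum_div]
    apply sum_congr rfl
    intro z _
    unfold uu
    rw [div_sub_one hW0.ne', div_pow]
  rw [h1, div_le_iff₀ (by positivity)]
  refine (hT P Q Y Y' hP hPQ hY hYY hY1).trans ?_
  rw [mul_assoc]
  apply mul_le_mul_of_nonneg_left _ hCT.le
  have h2 : (Y' - Y) * (WW K P Q + 1) ≤ (Y' - Y) * (2 / WW K P Q) * WW K P Q ^ 2 := by
    have : (Y' - Y) * (2 / WW K P Q) * WW K P Q ^ 2 = (Y' - Y) * (2 * WW K P Q) := by
      field_simp
    rw [this]
    apply mul_le_mul_of_nonneg_left _ (by linarith)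
    linarith
  have h3 : Q ^ 2 * Real.sqrt Y' ≤ Q ^ 2 * Real.sqrt Y' * WW K P Q ^ 2 := by
    have : 0 ≤ Q ^ 2 * Real.sqrt Y' := by positivity
    have h4 : 1 ≤ WW K P Q ^ 2 := one_le_pow₀ hW
    nlinarith
  linarith

/-- elements of an annulus -/
lemma card_ann_le {ρ CN : ℝ} (hN : ∀ Y : ℝ, 0 ≤ Y →
      |((disc Y : Finset (Gi K)).card : ℝ) - ρ * Y| ≤ CN * (Real.sqrt Y + 1))
    {Y Y' : ℝ} (hY : 0 ≤ Y) (hYY : Y ≤ Y') (hCN : 0 < CN) :
    ((ann Y Y' : Finset (Gi K)).card : ℝ) ≤ ρ * (Y' - Y) + 2 * CN * (Real.sqrt Y' + 1) := by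
  have h1 := (abs_le.1 (hN Y hY)).1
  have h2 := (abs_le.1 (hN Y' (hY.trans hYY))).2
  have h3 : ((ann Y Y' : Finset (Gi K)).card : ℝ) =
      (disc Y' : Finset (Gi K)).card - (disc Y : Finset (Gi K)).card := by
    rw [disc_union hYY, card_union_of_disjoint (disc_disjoint Y Y')]
    push_cast; ring
  have h4 : Real.sqrt Y ≤ Real.sqrt Y' := Real.sqrt_le_sqrt hYY
  have h5 : CN * (Real.sqrt Y + 1) ≤ CN * (Real.sqrt Y' + 1) := by gcongr
  rw [h3]
  linarith

/-- elements of a disc -/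
lemma card_disc_le {ρ CN : ℝ} (hρ : 0 < ρ) (hCN : 0 < CN) (hN : ∀ Y : ℝ, 0 ≤ Y →
      |((disc Y : Finset (Gi K)).card : ℝ) - ρ * Y| ≤ CN * (Real.sqrt Y + 1))
    {Y : ℝ} (hY : 0 ≤ Y) : ((disc Y : Finset (Gi K)).card : ℝ) ≤ (ρ + 2 * CN) * Y := by
  rcases lt_or_ge Y 1 with h | h
  · rw [disc_empty h, card_empty, Nat.cast_zero]
    positivity
  · have h1 := (abs_le.1 (hN Y hY)).2
    have h2 : Real.sqrt Y ≤ Y := by
      rw [Real.sqrt_le_left (by linarith)]
      nlinarith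
    nlinarith

/-! ## the part which is not primitive -/

lemma cn_spec [IQ K] {z : Gi K} (hz : z ≠ 0) : 0 < ct z ∧
    ∃ w : Gi K, prim w ∧ z = rt (ct z) * w :=
  ⟨ct_pos hz, ct_decomp hz⟩

lemma nm_core [IQ K] {w : Gi K} {g : ℕ} : (nm (rt g * w) : ℝ) = (g : ℝ) ^ 2 * nm w := by
  rw [nm_mul, nm_rt]
  push_cast
  rfl

lemma par_core [IQ K] {w w' : Gi K} {g g' : ℕ} (hg : 0 < g) (hg' : 0 < g') (hw : prim w)
    (hw' : prim w') (hp : par (rt g * w) (rt g' * w')) : w = w' :=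
  eq_of_par_of_prim hw hw' (par_trans (par_symm (par_rt_mul hg hw.1))
    (par_trans hp (par_rt_mul hg' hw'.1)))

/-- a nonprimitive product has content `N(π)` -/
lemma cn_of_RR [IQ K] {h P Q X X' : ℝ} {z π : Gi K} (hz : ¬ prim z)
    (hπ : π ∈ RR h P Q X X' z) : ct z = nm π := by
  rw [mem_RR] at hπ
  obtain ⟨h1, m, hm, rfl⟩ := hπ
  have h0 := GP_ne_zero h1
  rw [mem_Sv h0] at hm
  have hmp : prim m := hm.1
  have hp := (mem_GP.1 h1).1
  have h2 : ct (π * m) ∣ nm π := by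
    have h3 : rt (ct (π * m)) ∣ rt (nm π) * m := by
      have h4 : rt (ct (π * m)) ∣ cj π * (π * m) := (rt_ct_dvd (π * m)).mul_left _
      rwa [← mul_assoc, mul_comm (cj π) π, mul_cj h0] at h4
    rw [rt_dvd_iff_ct (mul_ne_zero (rt_ne_zero (nm_pos h0).ne') hmp.1), ct_smul, ct_prim hmp,
      mul_one] at h3
    exact h3
  rcases (Nat.dvd_prime hp).1 h2 with h3 | h3
  · exact absurd (prim_iff.2 ⟨mul_ne_zero h0 hmp.1, h3⟩) hz
  · exact h3

lemma nonprim_norm_le [IQ K] {h P Q X X' : ℝ} (hW : 1 ≤ WW K P Q) {z : Gi K}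
    (hz : ¬ prim z) : ‖ee h P Q X X' z‖ ≤ 2 / WW K P Q := by
  have h1 := norm_ee_le (h := h) (P := P) (Q := Q) (X := X) (X' := X') z
  have h2 : z ∉ (ann X X').filter prim := fun h => hz (mem_filter.1 h).2
  rw [if_neg h2, zero_sub, abs_neg, abs_of_nonneg (by positivity)] at h1
  refine h1.trans ?_
  apply div_le_div_of_nonneg_right _ (by linarith)
  have h3 : (RR h P Q X X' z).card ≤ 2 := by
    refine le_trans (card_le_card ?_) (card_GP_nm (P := P) (Q := Q) (ct z))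
    intro π hπ
    rw [mem_filter]
    exact ⟨(mem_RR.1 hπ).1, (cn_of_RR hz hπ).symm⟩
  exact_mod_cast h3

/-- the support of the nonprimitive part -/
noncomputable def NN (K : Type) [Field K] [NumberField K] (h P Q X X' Y : ℝ) :
    Finset (Gi K) :=
  (disc Y).filter (fun z => ¬ prim z ∧ (RR h P Q X X' z).Nonempty)

lemma mem_NN {h P Q X X' Y : ℝ} {z : Gi K} : z ∈ NN K h P Q X X' Y ↔
    z ∈ disc Y ∧ ¬ prim z ∧ (RR h P Q X X' z).Nonempty := by
  unfold NN
  rw [mem_filter]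

lemma ee_eq_zero {h P Q X X' Y : ℝ} {z : Gi K} (hz : z ∈ disc Y) (hz' : ¬ prim z)
    (hN : z ∉ NN K h P Q X X' Y) : ee h P Q X X' z = 0 := by
  have h1 : RR h P Q X X' z = ∅ := by
    by_contra hcon
    exact hN (mem_NN.2 ⟨hz, hz', Finset.nonempty_iff_ne_empty.2 hcon⟩)
  have h2 : z ∉ (ann X X').filter prim := fun h => hz' (mem_filter.1 h).2
  unfold ee
  rw [if_neg h2, h1]
  simp

/-- the number of parallel elements of the support -/
lemma card_par_le [IQ K] {h P Q X X' Y : ℝ} (hh : 1 ≤ h) (hX : 0 < X) (hX' : 0 < X')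
    (hY : Y < 16 * X) {z : Gi K} (hz : z ∈ NN K h P Q X X' Y) :
    ((NN K h P Q X X' Y).filter (fun z' => par z z')).card ≤ 4 * ct z := by
  have hz0 : z ≠ 0 := (mem_disc.1 (mem_NN.1 hz).1).1
  obtain ⟨hg, w, hw, e1⟩ := cn_spec hz0
  have hzX : X < nm z := by
    obtain ⟨π, hπ⟩ := (mem_NN.1 hz).2.2
    exact (RR_range hh hX hX' hπ).1
  have hcore : ∀ z' ∈ (NN K h P Q X X' Y).filter (fun z' => par z z'), z' = rt (ct z') * w := by
    intro z' hz'
    rw [mem_filter] at hz'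
    obtain ⟨hg', w', hw', e1'⟩ := cn_spec (mem_disc.1 (mem_NN.1 hz'.1).1).1
    have hpar := hz'.2
    rw [e1, e1'] at hpar
    have hww := par_core hg hg' hw hw' hpar
    rw [hww]
    exact e1'
  have hmaps : ∀ z' ∈ (NN K h P Q X X' Y).filter (fun z' => par z z'),
      ct z' ∈ range (4 * ct z) := by
    intro z' hz'
    have e2 := hcore z' hz'
    rw [mem_filter] at hz'
    have hz'd := mem_disc.1 (mem_NN.1 hz'.1).1
    rw [mem_range]
    by_contra hcon
    push Not at hcon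
    have h3 : (nm z : ℝ) = (ct z : ℝ) ^ 2 * nm w := by
      have h := nm_core (w := w) (g := ct z)
      rw [← e1] at h
      exact h
    have h4 : (nm z' : ℝ) = (ct z' : ℝ) ^ 2 * nm w := by
      have h := nm_core (w := w) (g := ct z')
      rw [← e2] at h
      exact h
    have h5 : (4 * (ct z : ℝ)) ≤ ct z' := by exact_mod_cast hcon
    have h6 : (0 : ℝ) < nm w := nm_posR hw.1
    have h7 : (0 : ℝ) < ct z := by exact_mod_cast hg
    have h8 : 16 * (ct z : ℝ) ^ 2 ≤ (ct z' : ℝ) ^ 2 := by nlinarith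
    have h9 : 16 * (nm z : ℝ) ≤ nm z' := by
      rw [h3, h4]
      nlinarith
    linarith [hz'd.2]
  have hinj : Set.InjOn ct ((NN K h P Q X X' Y).filter (fun z' => par z z') : Set (Gi K)) := by
    intro z₁ hz₁ z₂ hz₂ h12
    rw [mem_coe] at hz₁ hz₂
    rw [hcore z₁ hz₁, hcore z₂ hz₂, h12]
  calc ((NN K h P Q X X' Y).filter (fun z' => par z z')).card
      ≤ (range (4 * ct z)).card := card_le_card_of_injOn ct hmaps hinj
    _ = 4 * ct z := card_range _

/-- elements with a given content -/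
lemma card_cn_le [IQ K] {C : ℝ} (hC : ∀ Y : ℝ, 0 ≤ Y → ((disc Y : Finset (Gi K)).card : ℝ) ≤ C * Y)
    {Y : ℝ} (hY : 0 ≤ Y) {p : ℕ} (hp : 0 < p) :
    (((disc Y : Finset (Gi K)).filter (fun z => ct z = p)).card : ℝ) ≤
      C * (Y / (p : ℝ) ^ 2) := by
  have hp0 : (0 : ℝ) < p := by exact_mod_cast hp
  have hsub : (disc Y : Finset (Gi K)).filter (fun z => ct z = p) ⊆
      (disc (Y / (p : ℝ) ^ 2)).image (fun w => rt p * w) := by
    intro z hz
    rw [mem_filter] at hz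
    obtain ⟨hzd, hzc⟩ := hz
    rw [mem_disc] at hzd
    obtain ⟨hg, w, hw, e1⟩ := cn_spec hzd.1
    rw [hzc] at e1
    rw [mem_image]
    refine ⟨w, ?_, e1.symm⟩
    rw [mem_disc]
    refine ⟨hw.1, ?_⟩
    rw [le_div_iff₀ (by positivity)]
    have h3 := nm_core (w := w) (g := p)
    rw [← e1] at h3
    linarith [hzd.2]
  have h1 : (((disc Y : Finset (Gi K)).filter (fun z => ct z = p)).card : ℝ) ≤
      ((disc (Y / (p : ℝ) ^ 2) : Finset (Gi K)).card : ℝ) := by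
    exact_mod_cast (card_le_card hsub).trans card_image_le
  exact h1.trans (hC _ (by positivity))

lemma sum_cn_le [IQ K] {C : ℝ}
    (hC : ∀ Y : ℝ, 0 ≤ Y → ((disc Y : Finset (Gi K)).card : ℝ) ≤ C * Y)
    {h P Q X X' Y : ℝ} (hY : 0 ≤ Y) :
    ∑ z ∈ NN K h P Q X X' Y, (ct z : ℝ) ≤ C * Y * WW K P Q := by
  have h1 : ∀ z ∈ NN K h P Q X X' Y, (ct z : ℝ) ≤
      ∑ π ∈ (GP P Q : Finset (Gi K)), if ct z = nm π then (nm π : ℝ) else 0 := by
    intro z hz
    obtain ⟨π, hπ⟩ := (mem_NN.1 hz).2.2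
    have h2 := cn_of_RR (mem_NN.1 hz).2.1 hπ
    refine le_trans (le_of_eq ?_) (single_le_sum
      (f := fun π => if ct z = nm π then (nm π : ℝ) else 0)
      (fun i _ => by split_ifs <;> positivity) (mem_RR.1 hπ).1)
    rw [if_pos h2, h2]
  refine (sum_le_sum h1).trans ?_
  rw [sum_comm]
  unfold WW
  rw [mul_sum]
  apply sum_le_sum
  intro π hπ
  have hn : 0 < nm π := nm_pos (GP_ne_zero hπ)
  have hn' : (0 : ℝ) < nm π := by exact_mod_cast hn
  rw [← sum_filter, sum_const, nsmul_eq_mul]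
  have h3 : ((NN K h P Q X X' Y).filter (fun z => ct z = nm π)).card ≤
      ((disc Y : Finset (Gi K)).filter (fun z => ct z = nm π)).card := by
    apply card_le_card
    intro z hz
    rw [mem_filter] at hz ⊢
    exact ⟨(mem_NN.1 hz.1).1, hz.2⟩
  have h4 : (((NN K h P Q X X' Y).filter (fun z => ct z = nm π)).card : ℝ) ≤
      C * (Y / (nm π : ℝ) ^ 2) := by
    refine le_trans ?_ (card_cn_le hC hY hn)
    exact_mod_cast h3
  calc _ ≤ C * (Y / (nm π : ℝ) ^ 2) * nm π := mul_le_mul_of_nonneg_right h4 hn'.le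
    _ = C * Y * (1 / nm π) := by field_simp

/-- the nonprimitive part of the large sieve bound -/
lemma nonprim_pairs_le [IQ K] {C : ℝ}
    (hC : ∀ Y : ℝ, 0 ≤ Y → ((disc Y : Finset (Gi K)).card : ℝ) ≤ C * Y)
    {h P Q X X' Y : ℝ} (hh : 1 ≤ h) (hX : 0 < X)
    (hX' : 0 < X') (hW : 1 ≤ WW K P Q) (hY0 : 0 ≤ Y) (hY : Y < 16 * X) :
    ∑ z ∈ NN K h P Q X X' Y, ∑ z' ∈ (NN K h P Q X X' Y).filter (fun z' => par z z'),
      ‖ee h P Q X X' z‖ * ‖ee h P Q X X' z'‖ ≤ 16 * C * Y / WW K P Q := by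
  have hW0 : 0 < WW K P Q := by linarith
  calc ∑ z ∈ NN K h P Q X X' Y, ∑ z' ∈ (NN K h P Q X X' Y).filter (fun z' => par z z'),
      ‖ee h P Q X X' z‖ * ‖ee h P Q X X' z'‖
      ≤ ∑ z ∈ NN K h P Q X X' Y, (4 * (ct z : ℝ)) * (2 / WW K P Q * (2 / WW K P Q)) := by
        apply sum_le_sum
        intro z hz
        have h1 : ∀ z' ∈ (NN K h P Q X X' Y).filter (fun z' => par z z'),
            ‖ee h P Q X X' z‖ * ‖ee h P Q X X' z'‖ ≤ 2 / WW K P Q * (2 / WW K P Q) := by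
          intro z' hz'
          rw [mem_filter] at hz'
          apply mul_le_mul (nonprim_norm_le hW (mem_NN.1 hz).2.1)
            (nonprim_norm_le hW (mem_NN.1 hz'.1).2.1) (norm_nonneg _) (by positivity)
        refine (sum_le_card_nsmul _ _ _ h1).trans ?_
        rw [nsmul_eq_mul]
        apply mul_le_mul_of_nonneg_right _ (by positivity)
        exact_mod_cast card_par_le hh hX hX' hY hz
    _ = 16 / WW K P Q ^ 2 * ∑ z ∈ NN K h P Q X X' Y, (ct z : ℝ) := by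
        rw [mul_sum]
        apply sum_congr rfl
        intro z _
        field_simp
        ring
    _ ≤ 16 / WW K P Q ^ 2 * (C * Y * WW K P Q) :=
        mul_le_mul_of_nonneg_left (sum_cn_le hC hY0) (by positivity)
    _ = 16 * C * Y / WW K P Q := by
        field_simp

lemma edge_le {ρ CT CN : ℝ} (hρ : 0 < ρ) (hCT : 0 < CT) (hCN : 0 < CN)
    (hT : ∀ P Q Y Y' : ℝ, 1 ≤ P → P ≤ Q → 0 ≤ Y → Y ≤ Y' → 1 ≤ Y' →
      ∑ z ∈ (ann Y Y' : Finset (Gi K)), ((om P Q z : ℝ) - WW K P Q) ^ 2 ≤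
        CT * ((Y' - Y) * (WW K P Q + 1) + Q ^ 2 * Real.sqrt Y'))
    (hN : ∀ Y : ℝ, 0 ≤ Y →
      |((disc Y : Finset (Gi K)).card : ℝ) - ρ * Y| ≤ CN * (Real.sqrt Y + 1))
    {h P Q X x R : ℝ} (hh : 1 ≤ h) (hP : 1 ≤ P) (hPQ : P ≤ Q) (hW : 1 ≤ WW K P Q)
    (hX1 : 1 ≤ X) (hx : X ≤ x) (hx4 : x ≤ 4 * X)
    (hR1 : Q ^ 2 * Real.sqrt X ≤ R) (hR2 : Real.sqrt X ≤ R) :
    ∑ z ∈ (ann x (x * Real.exp (1 / h)) : Finset (Gi K)), (8 + 2 * uu P Q z) ≤
      (64 * ρ + 32 * CT) * (X / h) + (80 * CN + 8 * CT) * R := by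
  have hh0 : 0 < h := by linarith
  have hx0 : 0 < x := by linarith
  have hi0 : 0 ≤ 1 / h := by positivity
  have hi1 : 1 / h ≤ 1 := by rw [div_le_one hh0]; exact hh
  have he1 : 1 ≤ Real.exp (1 / h) := Real.one_le_exp hi0
  have he2 : Real.exp (1 / h) - 1 ≤ 2 * (1 / h) := by
    have h1 := Real.abs_exp_sub_one_le (x := 1 / h) (by rw [abs_of_nonneg hi0]; exact hi1)
    rw [abs_of_nonneg (by linarith), abs_of_nonneg hi0] at h1
    exact h1
  have he3 : Real.exp (1 / h) ≤ 3 := by linarith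
  have hlen : x * Real.exp (1 / h) - x ≤ 8 * (X / h) := by
    calc x * Real.exp (1 / h) - x = x * (Real.exp (1 / h) - 1) := by ring
      _ ≤ (4 * X) * (2 * (1 / h)) := by
        apply mul_le_mul hx4 he2 (by linarith) (by linarith)
      _ = _ := by ring
  have hlen0 : x ≤ x * Real.exp (1 / h) := by nlinarith
  have hsq : Real.sqrt (x * Real.exp (1 / h)) ≤ 4 * Real.sqrt X := by
    have h1 : x * Real.exp (1 / h) ≤ 16 * X := by nlinarith
    calc Real.sqrt (x * Real.exp (1 / h)) ≤ Real.sqrt (16 * X) := Real.sqrt_le_sqrt h1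
      _ = 4 * Real.sqrt X := by
        rw [Real.sqrt_mul (by norm_num), show (16 : ℝ) = 4 ^ 2 by norm_num,
          Real.sqrt_sq (by norm_num)]
  have hs1 : 1 ≤ Real.sqrt X := by rw [Real.one_le_sqrt]; exact hX1
  rw [sum_add_distrib, ← mul_sum, sum_const, nsmul_eq_mul]
  have h1 := card_ann_le hN hx0.le hlen0 hCN
  have h2 := sum_uu_le hCT hT hP hPQ hx0.le hlen0 (by linarith) hW
  have h3 : (x * Real.exp (1 / h) - x) * (2 / WW K P Q) ≤ 16 * (X / h) := by
    have h4 : 2 / WW K P Q ≤ 2 := by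
      rw [div_le_iff₀ (by linarith)]; linarith
    calc _ ≤ (8 * (X / h)) * 2 := by
          apply mul_le_mul hlen h4 (by positivity) (by positivity)
      _ = _ := by ring
  have h5 : Q ^ 2 * Real.sqrt (x * Real.exp (1 / h)) ≤ 4 * R := by
    calc _ ≤ Q ^ 2 * (4 * Real.sqrt X) := mul_le_mul_of_nonneg_left hsq (sq_nonneg _)
      _ = 4 * (Q ^ 2 * Real.sqrt X) := by ring
      _ ≤ _ := by linarith
  have h6 : 2 * CN * (Real.sqrt (x * Real.exp (1 / h)) + 1) ≤ 10 * CN * R := by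
    calc _ ≤ 2 * CN * (5 * R) := mul_le_mul_of_nonneg_left (by linarith) (by linarith)
      _ = _ := by ring
  have h7 : CT * ((x * Real.exp (1 / h) - x) * (2 / WW K P Q) +
      Q ^ 2 * Real.sqrt (x * Real.exp (1 / h))) ≤ CT * (16 * (X / h) + 4 * R) :=
    mul_le_mul_of_nonneg_left (by linarith) hCT.le
  have h8 : ρ * (x * Real.exp (1 / h) - x) ≤ ρ * (8 * (X / h)) :=
    mul_le_mul_of_nonneg_left hlen hρ.le
  linarith

end DecAux

open DecAux in
theorem specDec {K : Type} [Field K] [NumberField K] [IQ K] (D : Dir K)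
    (hLSG : SpecLSG K D) (hTK : SpecTK K) (hC : SpecCount K) : SpecDec K D := by
  obtain ⟨CL, hCL, hL⟩ := hLSG
  obtain ⟨CT, hCT, hT⟩ := hTK
  obtain ⟨ρ, CN, hρ, hCN, hN⟩ := hC
  have hdisc : ∀ Y : ℝ, 0 ≤ Y → ((disc Y : Finset (Gi K)).card : ℝ) ≤ (ρ + 2 * CN) * Y :=
    fun Y hY => card_disc_le hρ hCN hN hY
  refine ⟨2 * CL * 16 * (72 * CT + 128 * ρ + 160 * CN + 256 * (ρ + 2 * CN)), by positivity, ?_⟩
  intro h P Q X X' Z hh hP hPQ hQX hXX' hX'4 hW
  have hQ2 : 2 ≤ Q := by linarith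
  have hX1 : 1 ≤ X := by
    have : (1 : ℝ) ≤ Q ^ 10 := one_le_pow₀ (by linarith)
    linarith
  have hX0 : 0 < X := by linarith
  have hX'0 : 0 < X' := by linarith
  have hh0 : 0 < h := by linarith
  have hW0 : 0 < WW K P Q := by linarith
  set Y := 4 * Real.exp 1 * X with hY
  have he4 : Real.exp 1 < 4 := by
    have := Real.exp_one_lt_d9
    linarith
  have he1 : 1 ≤ Real.exp 1 := Real.one_le_exp zero_le_one
  have hY16 : Y < 16 * X := by rw [hY]; nlinarith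
  have hY1 : 1 ≤ Y := by rw [hY]; nlinarith
  have hY0 : 0 ≤ Y := by linarith
  have hXe : X' * Real.exp (1 / h) ≤ Y := by
    have h1 : Real.exp (1 / h) ≤ Real.exp 1 := by
      apply Real.exp_le_exp.2
      rw [div_le_one hh0]; exact hh
    have h2 : 0 < Real.exp (1 / h) := Real.exp_pos _
    calc X' * Real.exp (1 / h) ≤ 4 * X * Real.exp 1 := by
          apply mul_le_mul hX'4 h1 h2.le (by linarith)
      _ = Y := by rw [hY]; ring
  -- the tenth root
  set t := X ^ ((1 : ℝ) / 10) with ht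
  have ht0 : 0 < t := Real.rpow_pos_of_pos hX0 _
  have ht1 : 1 ≤ t := Real.one_le_rpow hX1 (by norm_num)
  have ht10 : t ^ 10 = X := by
    rw [ht, ← Real.rpow_natCast, ← Real.rpow_mul hX0.le]
    norm_num
  have hti : X ^ (-(1 / 10) : ℝ) = t⁻¹ := by
    rw [ht, Real.rpow_neg hX0.le]
  have hsqrt : Real.sqrt X = t ^ 5 := by
    rw [← ht10, show t ^ 10 = (t ^ 5) ^ 2 by ring, Real.sqrt_sq (by positivity)]
  have hQt : Q ≤ t := by
    rw [← ht10] at hQX
    exact le_of_pow_le_pow_left₀ (by norm_num) ht0.le hQX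
  set R := X * X ^ (-(1 / 10) : ℝ) with hR
  have hRt : R = t ^ 9 := by
    rw [hR, hti]
    nth_rewrite 1 [← ht10]
    field_simp
  have hR1 : Q ^ 2 * Real.sqrt X ≤ R := by
    rw [hRt, hsqrt]
    calc Q ^ 2 * t ^ 5 ≤ t ^ 2 * t ^ 5 := by gcongr
      _ = t ^ 7 := by ring
      _ ≤ t ^ 9 := pow_le_pow_right₀ ht1 (by norm_num)
  have hR2 : Real.sqrt X ≤ R := by
    rw [hRt, hsqrt]
    exact pow_le_pow_right₀ ht1 (by norm_num)
  have hR0 : 0 ≤ R := by rw [hRt]; positivity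
  -- the two parts
  set e : Gi K → ℂ := ee h P Q X X' with he
  set A : Finset (Gi K) := (disc Y).filter prim with hA
  set N : Finset (Gi K) := NN K h P Q X X' Y with hNN
  have hid : ∀ κ : Kp K, MM D X X' κ - (1 / (WW K P Q : ℂ)) * ∑ v ∈ VV h P Q, QQ D h P Q v κ *
        MM D (X * Real.exp (-(v / h))) (X' * Real.exp (-(v / h))) κ =
      ∑ z ∈ A, e z * xi D κ z + ∑ z ∈ N, e z * xi D κ z := by
    intro κ
    rw [identity D hh (by linarith) hX0 hX'0 hXe κ]
    rw [← sum_filter_add_sum_filter_not (disc Y) prim]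
    congr 1
    symm
    apply sum_subset
    · intro z hz
      rw [hNN, mem_NN] at hz
      rw [mem_filter]
      exact ⟨hz.1, hz.2.1⟩
    · intro z hz hzN
      rw [mem_filter] at hz
      have h1 : e z = 0 := ee_eq_zero hz.1 hz.2 hzN
      rw [h1, zero_mul]
  have hLA := hL A e Y Z hY1 (fun z hz => by
    rw [hA, mem_filter, mem_disc] at hz
    exact hz.1)
  have hLN := hL N e Y Z hY1 (fun z hz => by
    rw [hNN, mem_NN, mem_disc] at hz
    exact hz.1)
  have hAA : ∑ z ∈ A, ∑ z' ∈ A.filter (fun z' => par z z'), ‖e z‖ * ‖e z'‖ ≤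
      ∑ z ∈ A, ‖e z‖ ^ 2 := by
    apply sum_le_sum
    intro z hz
    have hsub : A.filter (fun z' => par z z') ⊆ {z} := by
      intro z' hz'
      rw [mem_filter] at hz'
      rw [mem_singleton]
      rw [hA, mem_filter] at hz hz'
      exact (eq_of_par_of_prim hz.2 hz'.1.2 hz'.2).symm
    refine (sum_le_sum_of_subset_of_nonneg hsub fun _ _ _ => by positivity).trans ?_
    rw [sum_singleton, sq]
  have hA1 := sum_prim_le (Y := Y) hh hX0 hX'0 hW
  have hS1 : ∑ z ∈ (ann X X' : Finset (Gi K)), uu P Q z ≤ CT * (6 * (X / WW K P Q) + 4 * R) := by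
    refine (sum_uu_le hCT hT (by linarith) hPQ hX0.le hXX' (by linarith) hW).trans ?_
    apply mul_le_mul_of_nonneg_left _ hCT.le
    have h1 : (X' - X) * (2 / WW K P Q) ≤ 6 * (X / WW K P Q) := by
      calc (X' - X) * (2 / WW K P Q) ≤ (3 * X) * (2 / WW K P Q) :=
            mul_le_mul_of_nonneg_right (by linarith) (by positivity)
        _ = _ := by ring
    have h2 : Real.sqrt X' ≤ 2 * Real.sqrt X := by
      calc Real.sqrt X' ≤ Real.sqrt (4 * X) := Real.sqrt_le_sqrt hX'4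
        _ = 2 * Real.sqrt X := by
          rw [Real.sqrt_mul (by norm_num), show (4 : ℝ) = 2 ^ 2 by norm_num,
            Real.sqrt_sq (by norm_num)]
    have h3 : Q ^ 2 * Real.sqrt X' ≤ 4 * R := by
      calc _ ≤ Q ^ 2 * (2 * Real.sqrt X) := mul_le_mul_of_nonneg_left h2 (sq_nonneg _)
        _ = 2 * (Q ^ 2 * Real.sqrt X) := by ring
        _ ≤ _ := by linarith
    linarith
  have hS2 := edge_le hρ hCT hCN hT hN (X := X) (x := X) (R := R) hh (by linarith : 1 ≤ P) hPQ hW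
    hX1 le_rfl (by linarith) hR1 hR2
  have hS3 := edge_le hρ hCT hCN hT hN (X := X) (x := X') (R := R) hh (by linarith : 1 ≤ P) hPQ hW
    hX1 hXX' hX'4 hR1 hR2
  have hpairs := nonprim_pairs_le hdisc (h := h) (P := P) (Q := Q) hh hX0 hX'0 hW hY0 hY16
  have hXW : 0 ≤ X / WW K P Q := by positivity
  have hXh : 0 ≤ X / h := by positivity
  set B := (72 * CT + 128 * ρ + 160 * CN + 256 * (ρ + 2 * CN)) * (X / WW K P Q + X / h + R) with hB
  have htot : ∑ z ∈ A, ‖e z‖ ^ 2 + 16 * (ρ + 2 * CN) * Y / WW K P Q ≤ B := by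
    have h1 : 16 * (ρ + 2 * CN) * Y / WW K P Q ≤ 256 * (ρ + 2 * CN) * (X / WW K P Q) := by
      calc 16 * (ρ + 2 * CN) * Y / WW K P Q ≤ 16 * (ρ + 2 * CN) * (16 * X) / WW K P Q := by
            apply div_le_div_of_nonneg_right _ hW0.le
            exact mul_le_mul_of_nonneg_left hY16.le (by positivity)
        _ = _ := by ring
    have h2 : ∑ z ∈ A, ‖e z‖ ^ 2 ≤ CT * (6 * (X / WW K P Q) + 4 * R) +
        ((64 * ρ + 32 * CT) * (X / h) + (80 * CN + 8 * CT) * R) +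
        ((64 * ρ + 32 * CT) * (X / h) + (80 * CN + 8 * CT) * R) := by
      refine hA1.trans ?_
      linarith
    have g1 := mul_nonneg hCT.le hXW
    have g2 := mul_nonneg hCT.le hXh
    have g3 := mul_nonneg hCT.le hR0
    have g4 := mul_nonneg hCN.le hXW
    have g5 := mul_nonneg hCN.le hXh
    have g6 := mul_nonneg hCN.le hR0
    have g7 := mul_nonneg hρ.le hXW
    have g8 := mul_nonneg hρ.le hXh
    have g9 := mul_nonneg hρ.le hR0
    have h3 : CT * (6 * (X / WW K P Q) + 4 * R) +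
        ((64 * ρ + 32 * CT) * (X / h) + (80 * CN + 8 * CT) * R) +
        ((64 * ρ + 32 * CT) * (X / h) + (80 * CN + 8 * CT) * R) +
        256 * (ρ + 2 * CN) * (X / WW K P Q) ≤ B := by
      rw [hB]
      generalize X / WW K P Q = a at *
      generalize X / h = b at *
      linarith
    linarith
  have hB0 : 0 ≤ B := by positivity
  -- conclusion
  have hfin : ∑ κ ∈ IK K Z, ‖∑ z ∈ A, e z * xi D κ z + ∑ z ∈ N, e z * xi D κ z‖ ^ 2 ≤
      2 * (CL * (Z + Y) * B) := by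
    calc _ ≤ ∑ κ ∈ IK K Z, (2 * ‖∑ z ∈ A, e z * xi D κ z‖ ^ 2 +
          2 * ‖∑ z ∈ N, e z * xi D κ z‖ ^ 2) := by
          apply sum_le_sum
          intro κ _
          have h1 := norm_add_le (∑ z ∈ A, e z * xi D κ z) (∑ z ∈ N, e z * xi D κ z)
          have h2 : ‖∑ z ∈ A, e z * xi D κ z + ∑ z ∈ N, e z * xi D κ z‖ ^ 2 ≤
            (‖∑ z ∈ A, e z * xi D κ z‖ + ‖∑ z ∈ N, e z * xi D κ z‖) ^ 2 := by gcongr
          nlinarith [sq_nonneg (‖∑ z ∈ A, e z * xi D κ z‖ - ‖∑ z ∈ N, e z * xi D κ z‖)]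
      _ = 2 * ∑ κ ∈ IK K Z, ‖∑ z ∈ A, e z * xi D κ z‖ ^ 2 +
          2 * ∑ κ ∈ IK K Z, ‖∑ z ∈ N, e z * xi D κ z‖ ^ 2 := by
          rw [sum_add_distrib, mul_sum, mul_sum]
      _ ≤ 2 * (CL * (Z + Y) * ∑ z ∈ A, ‖e z‖ ^ 2) +
          2 * (CL * (Z + Y) * (16 * (ρ + 2 * CN) * Y / WW K P Q)) := by
          have hc : 0 ≤ CL * (Z + Y) := by positivity
          have h1 := hLA.trans (mul_le_mul_of_nonneg_left hAA hc)
          have h2 := hLN.trans (mul_le_mul_of_nonneg_left hpairs hc)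
          linarith
      _ = 2 * (CL * (Z + Y) * (∑ z ∈ A, ‖e z‖ ^ 2 + 16 * (ρ + 2 * CN) * Y / WW K P Q)) := by ring
      _ ≤ _ := by
          have hc : 0 ≤ CL * (Z + Y) := by positivity
          have := mul_le_mul_of_nonneg_left htot hc
          linarith
  simp_rw [hid]
  refine hfin.trans ?_
  have h1 : (Z : ℝ) + Y ≤ 16 * (Z + X) := by
    have : (0 : ℝ) ≤ Z := Nat.cast_nonneg _
    linarith
  have h2 : CL * (Z + Y) * B ≤ CL * (16 * (Z + X)) * B :=
    mul_le_mul_of_nonneg_right (mul_le_mul_of_nonneg_left h1 hCL.le) hB0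
  calc 2 * (CL * (Z + Y) * B) ≤ 2 * (CL * (16 * (Z + X)) * B) := by linarith
    _ = _ := by
      rw [hB, hR]
      ring

end Pool.Agent.Lib.MP391708.MA
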