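import Pool.Agent.Lib.MP_391708_nt.MA.Sg

/-!
# Matomäki–Radziwiłł for the sign functions `g(N z)` of ideals in thin sectors: definitions

Input of the theorem on the values `n² + a`, every `a ≥ 1` (MP_391708_nt).  `K` is an imaginary
quadratic field, `Gi K` the ideals of its ring of integers (`0` is the zero ideal).
-/

set_option autoImplicit false

namespace Pool.Agent.Lib.MP391708.MA

open Finset Filter Topology NumberField
open scoped ComplexConjugate Classical

/-- imaginary quadratic fields -/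
class IQ (K : Type) [Field K] [NumberField K] : Prop where
  deg : Module.finrank ℚ K = 2
  cx : NumberField.IsTotallyComplex K

section

variable (K : Type) [Field K] [NumberField K]

/-- the ideals of the ring of integers -/
abbrev Gi := Ideal (𝓞 K)

/-- the class group -/
abbrev Cl := ClassGroup (𝓞 K)

/-- the indices of the characters: a character of the class group and a frequency -/
abbrev Kp := AddChar (Additive (Cl K)) ℂ × ℤ

end

variable {K : Type} [Field K] [NumberField K]

/-- the norm -/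
noncomputable def nm (z : Gi K) : ℕ := Ideal.absNorm z

/-- the sign function at the norm -/
noncomputable def lam [Sg] (z : Gi K) : ℝ := ((gs (nm z) : ℤ) : ℝ)

/-- the class of a nonzero ideal (`1` for the zero ideal) -/
noncomputable def cls (z : Gi K) : Cl K :=
  if h : z ≠ 0 then ClassGroup.mk0 ⟨z, mem_nonZeroDivisors_of_ne_zero h⟩ else 1

/-- the ideal generated by a natural number -/
noncomputable def rt (n : ℕ) : Gi K := Ideal.span {(n : 𝓞 K)}

/-- primitive: no rational integer `≥ 2` divides `z` -/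
def prim (z : Gi K) : Prop := z ≠ 0 ∧ ∀ n : ℕ, 2 ≤ n → ¬ rt n ∣ z

/-- rational multiples of each other -/
def par (z z' : Gi K) : Prop :=
  z ≠ 0 ∧ z' ≠ 0 ∧ ∃ n n' : ℕ, 0 < n ∧ 0 < n' ∧ rt n * z = rt n' * z'

/-- the nonzero ideals `z` with `nm z ≤ x` -/
noncomputable def disc (x : ℝ) : Finset (Gi K) :=
  ((Ideal.finite_setOfPred_absNorm_le (S := 𝓞 K) ⌊x⌋₊).toFinset).filter
    (fun z => z ≠ 0 ∧ (nm z : ℝ) ≤ x)

/-- `x < nm z ≤ x'` -/
noncomputable def ann (x x' : ℝ) : Finset (Gi K) := (disc x').filter (fun z => x < (nm z : ℝ))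

/-- the conjugate ideal: `z * cj z = rt (nm z)` -/
noncomputable def cj (z : Gi K) : Gi K :=
  if h : ∃ z' : Gi K, z * z' = rt (nm z) ∧ z ≠ 0 then h.choose else 0

/-- the split prime ideals of degree one with norm in `(P, Q]` -/
noncomputable def GP (P Q : ℝ) : Finset (Gi K) :=
  (disc Q).filter (fun z => (nm z).Prime ∧ cj z ≠ z ∧ P < (nm z : ℝ))

/-- `∑ 1/N(π)` -/
noncomputable def WW (K : Type) [Field K] [NumberField K] (P Q : ℝ) : ℝ :=
  ∑ π ∈ (GP P Q : Finset (Gi K)), 1 / (nm π : ℝ)

/-- number of primes of `GP P Q` dividing `z` -/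
noncomputable def om (P Q : ℝ) (z : Gi K) : ℕ := ((GP P Q).filter (fun π => π ∣ z)).card

/-- the direction of an algebraic integer -/
noncomputable def dr (σ : K →+* ℂ) (v : 𝓞 K) : ℂ :=
  σ (v : K) / ((‖σ (v : K)‖ : ℝ) : ℂ)

/-- a direction for ideals: a completely multiplicative function of absolute value one, equal to
`(σ v / |σ v|) ^ w` at the principal ideals, where `w` is the number of units -/
structure Dir (K : Type) [Field K] [NumberField K] where
  σ : K →+* ℂ
  f : Gi K → ℂ
  zero : f 0 = 0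
  one : f 1 = 1
  mul : ∀ x y, f (x * y) = f x * f y
  norm : ∀ x, x ≠ 0 → ‖f x‖ = 1
  prin : ∀ v : 𝓞 K, v ≠ 0 → f (Ideal.span {v}) = dr σ v ^ NumberField.Units.torsionOrder K

/-- the character with index `κ` -/
noncomputable def xi (D : Dir K) (κ : Kp K) (z : Gi K) : ℂ :=
  κ.1 (Additive.ofMul (cls z)) * D.f z ^ κ.2

/-- the indices with frequency in `[-Z, Z]` -/
noncomputable def IK (K : Type) [Field K] [NumberField K] (Z : ℕ) : Finset (Kp K) :=
  Finset.univ ×ˢ Icc (-(Z : ℤ)) Z

/-- sum over primitive `z` with norm in `(Y, Y']` -/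
noncomputable def MM [Sg] (D : Dir K) (Y Y' : ℝ) (κ : Kp K) : ℂ :=
  ∑ m ∈ (ann Y Y').filter prim, (lam m : ℂ) * xi D κ m

/-- sum over primitive `z` with norm at most `x` -/
noncomputable def SS [Sg] (D : Dir K) (κ : Kp K) (x : ℝ) : ℂ :=
  ∑ m ∈ (disc x).filter prim, (lam m : ℂ) * xi D κ m

/-- the primes `π` of `GP P Q` with `v ≤ h log N(π) < v + 1` -/
noncomputable def cell (h P Q : ℝ) (v : ℕ) : Finset (Gi K) :=
  (GP P Q).filter (fun π => ⌊h * Real.log (nm π)⌋₊ = v)

/-- the prime sum over a cell -/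
noncomputable def QQ [Sg] (D : Dir K) (h P Q : ℝ) (v : ℕ) (κ : Kp K) : ℂ :=
  ∑ π ∈ cell h P Q v, (lam π : ℂ) * xi D κ π

/-- the range of `v` -/
noncomputable def VV (h P Q : ℝ) : Finset ℕ := Icc ⌊h * Real.log P⌋₊ ⌊h * Real.log Q⌋₊

/-- completely multiplicative functions bounded by one -/
structure CM (G : Gi K → ℂ) : Prop where
  zero : G 0 = 0
  one : G 1 = 1
  mul : ∀ x y, G (x * y) = G x * G y
  le : ∀ z, ‖G z‖ ≤ 1

end Pool.Agent.Lib.MP391708.MA
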