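import Pool.Agent.Lib.MP_391708_nt.MA.Spec

/-!
# EXT: every embedding gives a direction
-/

set_option autoImplicit false

namespace Pool.Agent.Lib.MP391708.MA

open NumberField

/-- the circle is divisible -/
noncomputable local instance divCircle : DivisibleBy (Additive Circle) ℤ where
  div x n := if n = 0 then 0 else
    Circle.expHom ((Complex.arg ((Additive.toMul x : Circle) : ℂ)) / n)
  div_zero x := by simp
  div_cancel {n} x hn := by
    have hn' : (n : ℝ) ≠ 0 := by exact_mod_cast hn
    rw [if_neg hn, ← map_zsmul, zsmul_eq_mul, mul_div_cancel₀ _ hn']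
    exact congrArg Additive.ofMul (Circle.exp_arg _)

/-- characters into the circle extend along a homomorphism, if they are trivial on its kernel -/
lemma ext_char {H G : Type} [CommGroup H] [CommGroup G] (T : H →* G) (φ : H →* Circle)
    (h : T.ker ≤ φ.ker) : ∃ ψ : G →* Circle, ∀ x, ψ (T x) = φ x := by
  have hB : Module.Baer ℤ (Additive Circle) := Module.Baer.of_divisible _
  obtain ⟨ψ, hψ⟩ := hB.extension_property_addMonoidHom
    (MonoidHom.toAdditive (QuotientGroup.kerLift T))
    (fun x y hxy => QuotientGroup.kerLift_injective T hxy)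
    (MonoidHom.toAdditive (QuotientGroup.lift T.ker φ h))
  refine ⟨MonoidHom.toAdditive.symm ψ, fun x => ?_⟩
  have := DFunLike.congr_fun hψ (Additive.ofMul (QuotientGroup.mk x : H ⧸ T.ker))
  exact congrArg Additive.toMul this

variable {K : Type} [Field K] [NumberField K]

/-- the direction of a nonzero element -/
noncomputable def ang (σ : K →+* ℂ) : Kˣ →* Circle where
  toFun x := ⟨σ x / ((‖σ (x : K)‖ : ℝ) : ℂ), by
    have h : σ (x : K) ≠ 0 := (map_ne_zero σ).mpr x.ne_zero
    have h' : ‖σ (x : K)‖ ≠ 0 := norm_ne_zero_iff.mpr h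
    rw [Submonoid.unitSphere, Submonoid.mem_mk]
    simp [h']⟩
  map_one' := by
    ext
    simp
  map_mul' x y := by
    ext
    simp only [Units.val_mul, map_mul, norm_mul, Circle.coe_mul]
    push_cast
    rw [div_mul_div_comm]

omit [NumberField K] in
lemma ang_coe (σ : K →+* ℂ) (x : Kˣ) : ((ang σ x : Circle) : ℂ) = σ x / ((‖σ (x : K)‖ : ℝ) : ℂ) :=
  rfl

/-- the units are roots of unity -/
lemma unit_pow [hK : IQ K] (u : (𝓞 K)ˣ) : u ^ Units.torsionOrder K = 1 := by
  have := hK.cx
  have hf := hK.deg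
  have h1 : InfinitePlace.nrRealPlaces K = 0 := IsTotallyComplex.nrRealPlaces_eq_zero K
  have h2 : Module.finrank ℚ K = 2 * InfinitePlace.nrComplexPlaces K := IsTotallyComplex.finrank K
  have h3 : Fintype.card (InfinitePlace K) = 1 := by
    rw [InfinitePlace.card_eq_nrRealPlaces_add_nrComplexPlaces]
    omega
  have hu : u ∈ Units.torsion K := by
    rw [Units.mem_torsion]
    intro w
    have h4 := InfinitePlace.prod_eq_abs_norm (u : K)
    have h5 : |Algebra.norm ℚ (u : K)| = 1 := by
      have := Units.norm K u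
      exact this
    rw [h5] at h4
    have : Subsingleton (InfinitePlace K) := Fintype.card_le_one_iff_subsingleton.mp h3.le
    have h6 : ∏ w' : InfinitePlace K, w' (u : K) ^ w'.mult = w (u : K) ^ w.mult := by
      rw [Fintype.prod_subsingleton _ w]
    rw [h6] at h4
    have h7 : w (u : K) ^ w.mult = 1 := by rw [h4]; norm_num
    have h8 : 0 ≤ w (u : K) := apply_nonneg _ _
    exact (pow_eq_one_iff_of_nonneg h8 (InfinitePlace.mult_pos.ne')).mp h7
  have h9 : (⟨u, hu⟩ : Units.torsion K) ^ Nat.card (Units.torsion K) = 1 := pow_card_eq_one'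
  exact congrArg Subtype.val h9

/-- **EXT** for a given embedding -/
theorem exists_dir [hK : IQ K] (σ : K →+* ℂ) : ∃ D : Dir K, D.σ = σ := by
  classical
  set w := Units.torsionOrder K with hw
  let φ : Kˣ →* Circle := (powMonoidHom w).comp (ang σ)
  have hker : (toPrincipalIdeal (𝓞 K) K).ker ≤ φ.ker := by
    intro x hx
    rw [MonoidHom.mem_ker, toPrincipalIdeal_eq_iff, Units.val_one,
      ← FractionalIdeal.spanSingleton_one, FractionalIdeal.spanSingleton_eq_spanSingleton] at hx
    obtain ⟨u, hu⟩ := hx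
    have hu' := unit_pow u
    have hx1 : (x : K) ^ w = 1 := by
      have h1 : ((u : 𝓞 K) : K) * (x : K) = 1 := by
        rw [← hu, Units.smul_def, Algebra.smul_def]
      have h2 : ((u : 𝓞 K) : K) ^ w = 1 := by
        have := congrArg (fun t : (𝓞 K)ˣ => ((t : 𝓞 K) : K)) hu'
        simpa using this
      have h3 := congrArg (fun t => t ^ w) h1
      simp only [mul_pow, h2, one_mul, one_pow] at h3
      exact h3
    rw [MonoidHom.mem_ker]
    have h4 : x ^ w = 1 := Units.ext (by simpa using hx1)
    change (ang σ x) ^ w = 1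
    rw [← map_pow, h4, map_one]
  obtain ⟨ψ, hψ⟩ := ext_char (toPrincipalIdeal (𝓞 K) K) φ hker
  let f : Gi K → ℂ := fun z => if h : z ≠ 0 then
    ((ψ (FractionalIdeal.mk0 K ⟨z, mem_nonZeroDivisors_of_ne_zero h⟩) : Circle) : ℂ) else 0
  refine ⟨⟨σ, f, ?_, ?_, ?_, ?_, ?_⟩, rfl⟩
  · simp [f]
  · have h1 : (⟨(1 : Gi K), mem_nonZeroDivisors_of_ne_zero one_ne_zero⟩ :
        nonZeroDivisors (Ideal (𝓞 K))) = 1 := rfl
    simp only [f, ne_eq, one_ne_zero, not_false_eq_true, dif_pos, h1, map_one]
    simp
  · intro x y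
    by_cases hx : x = 0
    · simp [f, hx]
    · by_cases hy : y = 0
      · simp [f, hy]
      · have hxy : x * y ≠ 0 := mul_ne_zero hx hy
        simp only [f, ne_eq, hx, hy, hxy, not_false_eq_true, dif_pos]
        rw [← Circle.coe_mul, ← map_mul, ← map_mul]
        rfl
  · intro x hx
    simp only [f, ne_eq, hx, not_false_eq_true, dif_pos]
    exact Circle.norm_coe _
  · intro v hv
    have hs : Ideal.span {v} ≠ (0 : Gi K) := by
      rw [Ideal.zero_eq_bot, Ne, Ideal.span_singleton_eq_bot]; exact hv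
    have hv' : (v : K) ≠ 0 := by
      intro h; exact hv (by exact_mod_cast h)
    simp only [f, ne_eq, hs, not_false_eq_true, dif_pos]
    have h1 : FractionalIdeal.mk0 K ⟨Ideal.span {v}, mem_nonZeroDivisors_of_ne_zero hs⟩ =
        toPrincipalIdeal (𝓞 K) K (Units.mk0 (v : K) hv') := by
      symm
      rw [toPrincipalIdeal_eq_iff]
      simp only [Units.val_mk0, FractionalIdeal.coe_mk0]
      rw [FractionalIdeal.coeIdeal_span_singleton]
    rw [h1, hψ]
    change (((ang σ (Units.mk0 (v : K) hv')) ^ w : Circle) : ℂ) = _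
    rw [Circle.coe_pow, ang_coe]
    rfl

theorem specExt [IQ K] : SpecExt K := by
  obtain ⟨σ⟩ : Nonempty (K →+* ℂ) := inferInstance
  obtain ⟨D, -⟩ := exists_dir σ
  exact ⟨D⟩

end Pool.Agent.Lib.MP391708.MA
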