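import Pool.Agent.Lib.MP_391708_nt.MA.Spec

/-!
# MA: FIELD, the field `ℚ(√-a)` and its integral basis
-/

set_option autoImplicit false

namespace Pool.Agent.Lib.MP391708.MA

open NumberField Polynomial

/-- `X² + a` is irreducible -/
theorem field_irr (a : ℕ) (ha : 0 < a) : Irreducible (X ^ 2 + C (a : ℚ) : ℚ[X]) := by
  have hdeg : (X ^ 2 + C (a : ℚ) : ℚ[X]).natDegree = 2 := by
    compute_degree!
  have hne : (X ^ 2 + C (a : ℚ) : ℚ[X]) ≠ 0 := by
    intro h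
    rw [h] at hdeg
    simp at hdeg
  rw [Polynomial.irreducible_iff_roots_eq_zero_of_degree_le_three (by omega) (by omega)]
  rw [Multiset.eq_zero_iff_forall_notMem]
  intro x hx
  rw [Polynomial.mem_roots hne, Polynomial.IsRoot.def] at hx
  simp at hx
  have : (0 : ℚ) < a := by exact_mod_cast ha
  nlinarith [sq_nonneg x]

/-- the field -/
theorem field_exists (a : ℕ) (ha : 0 < a) : ∃ (K : Type) (_ : Field K) (_ : NumberField K),
    Module.finrank ℚ K = 2 ∧ ∃ t : K, t ^ 2 = -(a : K) := by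
  have hi := field_irr a ha
  have hdeg : (X ^ 2 + C (a : ℚ) : ℚ[X]).natDegree = 2 := by
    compute_degree!
  have : Fact (Irreducible (X ^ 2 + C (a : ℚ) : ℚ[X])) := ⟨hi⟩
  have hne : (X ^ 2 + C (a : ℚ) : ℚ[X]) ≠ 0 := hi.ne_zero
  let f : ℚ[X] := X ^ 2 + C (a : ℚ)
  have : FiniteDimensional ℚ (AdjoinRoot f) := (AdjoinRoot.powerBasis hne).finite
  have : NumberField (AdjoinRoot f) := 
    { to_charZero := charZero_of_injective_algebraMap (algebraMap ℚ (AdjoinRoot f)).injective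
      to_finiteDimensional := inferInstance }
  refine ⟨AdjoinRoot f, inferInstance, inferInstance, ?_, AdjoinRoot.root f, ?_⟩
  · rw [(AdjoinRoot.powerBasis hne).finrank, AdjoinRoot.powerBasis_dim, hdeg]
  · have h := AdjoinRoot.eval₂_root f
    simp only [f, eval₂_add, eval₂_pow, eval₂_X, eval₂_C] at h
    have h2 : (AdjoinRoot.of f) (a : ℚ) = (a : AdjoinRoot f) := map_natCast _ a
    rw [h2] at h
    exact eq_neg_of_add_eq_zero_left h

theorem field_cx {K : Type} [Field K] [NumberField K] (a : ℕ) (ha : 0 < a) (t : K)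
    (ht : t ^ 2 = -(a : K)) : NumberField.IsTotallyComplex K := by
  refine ⟨fun v => ?_⟩
  rw [← InfinitePlace.not_isReal_iff_isComplex]
  intro hv
  have h1 := InfinitePlace.isReal_iff.1 hv
  have h2 := congrArg v.embedding ht
  rw [map_pow, map_neg, map_natCast] at h2
  have h3 : ((ComplexEmbedding.IsReal.embedding h1 t : ℝ) : ℂ) = v.embedding t := by
    exact ComplexEmbedding.IsReal.coe_embedding_apply h1 t
  rw [← h3] at h2
  have h4 : (ComplexEmbedding.IsReal.embedding h1 t : ℝ) ^ 2 = -(a : ℝ) := by exact_mod_cast h2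
  have : (0 : ℝ) < a := by exact_mod_cast ha
  nlinarith [sq_nonneg (ComplexEmbedding.IsReal.embedding h1 t : ℝ)]

/-- `1` is part of an integral basis -/
theorem field_basis (K : Type) [Field K] [NumberField K] (hK : Module.finrank ℚ K = 2) :
    ∃ ω : 𝓞 K, (∀ v : 𝓞 K, ∃ x y : ℤ, v = (x : 𝓞 K) + (y : 𝓞 K) * ω) ∧
      ∀ m n : ℤ, (m : 𝓞 K) + (n : 𝓞 K) * ω = 0 → m = 0 ∧ n = 0 := by
  have hr : Module.finrank ℤ (𝓞 K) = 2 := (RingOfIntegers.rank K).trans hK
  let B : Module.Basis (Fin 2) ℤ (𝓞 K) := Module.finBasisOfFinrankEq ℤ (𝓞 K) hr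
  have hex : ∀ v : 𝓞 K, v = (B.repr v 0 : 𝓞 K) * B 0 + (B.repr v 1 : 𝓞 K) * B 1 := by
    intro v
    have h := B.sum_repr v
    rw [Fin.sum_univ_two] at h
    simp only [zsmul_eq_mul] at h
    exact h.symm
  have huniq : ∀ m n : ℤ, (m : 𝓞 K) * B 0 + (n : 𝓞 K) * B 1 = 0 → m = 0 ∧ n = 0 := by
    intro m n h
    have h1 : B.repr (m • B 0 + n • B 1) = 0 := by
      rw [zsmul_eq_mul, zsmul_eq_mul, h, map_zero]
    rw [map_add, map_zsmul, map_zsmul, B.repr_self, B.repr_self] at h1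
    have h2 := DFunLike.congr_fun h1 0
    have h3 := DFunLike.congr_fun h1 1
    simp at h2 h3
    exact ⟨h2, h3⟩
  set p : ℤ := B.repr 1 0 with hp
  set q : ℤ := B.repr 1 1 with hq
  have h1 : (1 : 𝓞 K) = (p : 𝓞 K) * B 0 + (q : 𝓞 K) * B 1 := hex 1
  have hco : IsCoprime p q := by
    rw [Int.isCoprime_iff_gcd_eq_one]
    obtain ⟨p', hp'⟩ := Int.gcd_dvd_left p q
    obtain ⟨q', hq'⟩ := Int.gcd_dvd_right p q
    set d : ℤ := (Int.gcd p q : ℤ) with hd
    have h2 : (1 : 𝓞 K) = (d : 𝓞 K) * ((p' : 𝓞 K) * B 0 + (q' : 𝓞 K) * B 1) := by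
      rw [h1, hp', hq']
      push_cast
      ring
    set u : 𝓞 K := (p' : 𝓞 K) * B 0 + (q' : 𝓞 K) * B 1 with hu
    have h3 : B 0 = d • (u * B 0) := by
      rw [zsmul_eq_mul, ← mul_assoc, ← h2, one_mul]
    have h4 := congrArg (fun v => B.repr v 0) h3
    simp only [map_zsmul, B.repr_self] at h4
    have h5 : (1 : ℤ) = d * (B.repr (u * B 0)) 0 := by
      simpa using h4
    have h6 : d ∣ 1 := ⟨_, h5⟩
    have h7 : (Int.gcd p q : ℤ) ∣ 1 := h6
    have h8 := Int.eq_one_of_dvd_one (by positivity) h7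
    exact_mod_cast h8
  obtain ⟨s, r, hsr⟩ := hco
  refine ⟨(-r : ℤ) * B 0 + (s : ℤ) * B 1, ?_, ?_⟩
  · intro v
    refine ⟨B.repr v 0 * s + B.repr v 1 * r, B.repr v 1 * p - B.repr v 0 * q, ?_⟩
    have hsr' : (s : 𝓞 K) * p + r * q = 1 := by exact_mod_cast congrArg (Int.cast : ℤ → 𝓞 K) hsr
    have hv := hex v
    set m : ℤ := B.repr v 0
    set n : ℤ := B.repr v 1
    rw [hv]
    push_cast
    linear_combination (-(m : 𝓞 K) * B 0 - (n : 𝓞 K) * B 1) * hsr' - ((m : 𝓞 K) * s + n * r) * h1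
  · intro m n h
    have h2 : ((m * p - n * r : ℤ) : 𝓞 K) * B 0 + ((m * q + n * s : ℤ) : 𝓞 K) * B 1 = 0 := by
      rw [← h]
      push_cast
      linear_combination -(m : 𝓞 K) * h1
    obtain ⟨h3, h4⟩ := huniq _ _ h2
    have h5 : m = 0 := by
      linear_combination (-m) * hsr + s * h3 + r * h4
    have h6 : n = 0 := by
      linear_combination (-n) * hsr - q * h3 + p * h4
    exact ⟨h5, h6⟩


theorem specField : SpecField := by
  intro a ha
  obtain ⟨K, hF, hN, hdeg, t, ht⟩ := field_exists a ha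
  refine ⟨K, hF, hN, ⟨hdeg, field_cx a ha t ht⟩, ?_⟩
  obtain ⟨ω, hω, hun⟩ := field_basis K hdeg
  -- `√-a` is an integer
  have hint : IsIntegral ℤ t := by
    refine ⟨X ^ 2 + C (a : ℤ), ?_, ?_⟩
    · monicity!
    · simp [ht]
  obtain ⟨θ, hθ⟩ : ∃ θ : 𝓞 K, θ ^ 2 = -(a : 𝓞 K) := by
    refine ⟨⟨t, hint⟩, ?_⟩
    apply RingOfIntegers.ext
    simpa using ht
  obtain ⟨x, y, hxy⟩ := hω θ
  obtain ⟨u, b, hub⟩ := hω (ω ^ 2)
  have h1 : ((x ^ 2 + y ^ 2 * u + a : ℤ) : 𝓞 K) + ((2 * x * y + y ^ 2 * b : ℤ) : 𝓞 K) * ω = 0 := by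
    have h2 := hθ
    rw [hxy] at h2
    push_cast
    linear_combination h2 - (y : 𝓞 K) ^ 2 * hub
  obtain ⟨h3, h4⟩ := hun _ _ h1
  have ha' : (0 : ℤ) < a := by exact_mod_cast ha
  have hy : y ≠ 0 := by
    rintro rfl
    nlinarith [sq_nonneg x]
  have h5 : 2 * x + y * b = 0 := by
    have : y * (2 * x + y * b) = 0 := by linear_combination h4
    exact (mul_eq_zero.1 this).resolve_left hy
  refine ⟨ω, b, -u, |y|, abs_pos.2 hy, ?_, ?_, hω⟩
  · rw [sq_abs]
    linear_combination (-4) * h3 + (2 * x - y * b) * h5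
  · rw [hub]
    push_cast
    ring

end Pool.Agent.Lib.MP391708.MA
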