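import Pool.Agent.Lib.MP_391708_nt.MA.Spec

/-!
# Lattice points in discs: finiteness

`exists_isL`: there is a finite set `S` with `IsL e₁ e₂ Y S`; `IsL.unique`: it is unique.
-/

set_option autoImplicit false

namespace Pool.Agent.Lib.MP391708.MA

open Finset
open scoped ComplexConjugate

lemma lt_im₁ (e₁ e₂ : ℂ) (p : ℤ × ℤ) :
    (conj e₁ * lt e₁ e₂ p).im = (p.2 : ℝ) * (conj e₁ * e₂).im := by
  simp only [lt, Complex.mul_im, Complex.conj_re, Complex.conj_im, Complex.add_re, Complex.add_im,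
    Complex.mul_re, Complex.intCast_re, Complex.intCast_im]
  ring

lemma lt_im₂ (e₁ e₂ : ℂ) (p : ℤ × ℤ) :
    (conj (lt e₁ e₂ p) * e₂).im = (p.1 : ℝ) * (conj e₁ * e₂).im := by
  simp only [lt, Complex.mul_im, Complex.conj_re, Complex.conj_im, Complex.add_re, Complex.add_im,
    Complex.mul_re, Complex.intCast_re, Complex.intCast_im]
  ring

lemma lt_snd_le (e₁ e₂ : ℂ) (p : ℤ × ℤ) :
    |(p.2 : ℝ)| * |(conj e₁ * e₂).im| ≤ ‖e₁‖ * ‖lt e₁ e₂ p‖ := by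
  rw [← abs_mul, ← lt_im₁]
  refine (Complex.abs_im_le_norm _).trans ?_
  rw [norm_mul, RCLike.norm_conj]

lemma lt_fst_le (e₁ e₂ : ℂ) (p : ℤ × ℤ) :
    |(p.1 : ℝ)| * |(conj e₁ * e₂).im| ≤ ‖lt e₁ e₂ p‖ * ‖e₂‖ := by
  rw [← abs_mul, ← lt_im₂]
  refine (Complex.abs_im_le_norm _).trans ?_
  rw [norm_mul, RCLike.norm_conj]

/-- the lattice points in a disc: a finite set -/
theorem finite_isL {e₁ e₂ : ℂ} (h : 0 < (conj e₁ * e₂).im) (Y : ℝ) :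
    {p : ℤ × ℤ | p ≠ 0 ∧ ‖lt e₁ e₂ p‖ ^ 2 ≤ Y}.Finite := by
  set V := (conj e₁ * e₂).im with hV
  set R : ℝ := (‖e₁‖ + ‖e₂‖) * Real.sqrt Y / V with hR
  refine Set.Finite.subset ((Finset.Icc (-⌈R⌉) ⌈R⌉) ×ˢ (Finset.Icc (-⌈R⌉) ⌈R⌉)).finite_toSet ?_
  intro p hp
  obtain ⟨_, hp2⟩ := hp
  have hn : ‖lt e₁ e₂ p‖ ≤ Real.sqrt Y := Real.le_sqrt_of_sq_le hp2
  have hs : 0 ≤ Real.sqrt Y := Real.sqrt_nonneg Y
  have h1 : |(p.1 : ℝ)| ≤ R := by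
    rw [hR, le_div_iff₀ h]
    have := lt_fst_le e₁ e₂ p
    rw [← hV, abs_of_pos h] at this
    refine this.trans ?_
    have h3 : ‖lt e₁ e₂ p‖ * ‖e₂‖ ≤ Real.sqrt Y * ‖e₂‖ :=
      mul_le_mul_of_nonneg_right hn (norm_nonneg _)
    nlinarith [norm_nonneg e₁, mul_nonneg (norm_nonneg e₁) hs]
  have h2 : |(p.2 : ℝ)| ≤ R := by
    rw [hR, le_div_iff₀ h]
    have := lt_snd_le e₁ e₂ p
    rw [← hV, abs_of_pos h] at this
    refine this.trans ?_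
    have h3 : ‖e₁‖ * ‖lt e₁ e₂ p‖ ≤ ‖e₁‖ * Real.sqrt Y :=
      mul_le_mul_of_nonneg_left hn (norm_nonneg _)
    nlinarith [norm_nonneg e₂, mul_nonneg (norm_nonneg e₂) hs]
  have key : ∀ n : ℤ, |(n : ℝ)| ≤ R → -⌈R⌉ ≤ n ∧ n ≤ ⌈R⌉ := by
    intro n hn
    have hc : R ≤ (⌈R⌉ : ℝ) := Int.le_ceil R
    have h4 : |n| ≤ ⌈R⌉ := by
      have : ((|n| : ℤ) : ℝ) ≤ (⌈R⌉ : ℝ) := by
        rw [Int.cast_abs]
        exact hn.trans hc
      exact_mod_cast this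
    exact abs_le.1 h4
  simp only [coe_product, coe_Icc, Set.mem_prod, Set.mem_Icc]
  exact ⟨key _ h1, key _ h2⟩

/-- the set of the lattice points in a disc exists -/
theorem exists_isL {e₁ e₂ : ℂ} (h : 0 < (conj e₁ * e₂).im) (Y : ℝ) :
    ∃ S : Finset (ℤ × ℤ), IsL e₁ e₂ Y S := by
  refine ⟨(finite_isL h Y).toFinset, fun p => ?_⟩
  rw [Set.Finite.mem_toFinset]
  rfl

/-- it is unique -/
theorem IsL.unique {e₁ e₂ : ℂ} {Y : ℝ} {S S' : Finset (ℤ × ℤ)} (h : IsL e₁ e₂ Y S)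
    (h' : IsL e₁ e₂ Y S') : S = S' := by
  ext p
  rw [h p, h' p]

/-- the coordinates of a lattice point determine it -/
theorem lt_ne_zero {e₁ e₂ : ℂ} (h : 0 < (conj e₁ * e₂).im) {p : ℤ × ℤ} (hp : p ≠ 0) :
    lt e₁ e₂ p ≠ 0 := by
  intro h0
  have h1 := lt_im₁ e₁ e₂ p
  have h2 := lt_im₂ e₁ e₂ p
  rw [h0] at h1 h2
  simp only [mul_zero, Complex.zero_im, map_zero, zero_mul] at h1 h2
  apply hp
  ext
  · have : (p.1 : ℝ) = 0 := by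
      rcases mul_eq_zero.1 h2.symm with h3 | h3
      · exact h3
      · exact absurd h3 h.ne'
    exact_mod_cast this
  · have : (p.2 : ℝ) = 0 := by
      rcases mul_eq_zero.1 h1.symm with h3 | h3
      · exact h3
      · exact absurd h3 h.ne'
    exact_mod_cast this

end Pool.Agent.Lib.MP391708.MA
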