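import Pool.Agent.Lib.MP_391708_nt.MR.Defs
import Pool.Agent.Lib.MP_391708_nt.H20.LS

/-!
# The large sieve for directions of complex numbers with separated cross products

`lsg`: for points `f i` of the plane with `‖f i‖² ≤ Y` whose pairwise cross products are `0` or at
least `δ` in absolute value (e.g. the points of a lattice of covolume `δ`),
`∑_{|k| ≤ K} |∑ᵢ aᵢ dirc (f i)^k|² ≤ C (K + Y/δ) ∑ᵢ ∑_{j : same direction} |aᵢ| |aⱼ|`.
-/

set_option autoImplicit false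

namespace Pool.Agent.Lib.MP391708.MA

open Finset
open scoped ComplexConjugate
open Pool.Agent.Lib.MP_391708_nt.H20 (ee)
open Pool.Agent.Lib.MP391708.MR (IK)

/-- direction of a complex number -/
noncomputable def dirc (u : ℂ) : ℂ := u / ((‖u‖ : ℝ) : ℂ)

/-- cross product -/
def crs (u v : ℂ) : ℝ := u.re * v.im - u.im * v.re

/-- the point `v.1 + v.2 ω` -/
noncomputable def zl (om : ℂ) (v : ℤ × ℤ) : ℂ := (v.1 : ℂ) + (v.2 : ℂ) * om

lemma dirc_eq_exp {u : ℂ} (h : u ≠ 0) : dirc u = Complex.exp (Complex.arg u * Complex.I) := by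
  unfold dirc
  have h1 := Complex.norm_mul_exp_arg_mul_I u
  have h2 : ((‖u‖ : ℝ) : ℂ) ≠ 0 := by exact_mod_cast (norm_ne_zero_iff.2 h)
  rw [div_eq_iff h2, mul_comm, h1]

lemma norm_dirc {u : ℂ} (h : u ≠ 0) : ‖dirc u‖ = 1 := by
  rw [dirc_eq_exp h, Complex.norm_exp_ofReal_mul_I]

lemma arg_dirc {u : ℂ} (h : u ≠ 0) : Complex.arg (dirc u) = Complex.arg u := by
  have h1 : 0 < ‖u‖⁻¹ := inv_pos.2 (norm_pos_iff.2 h)
  have h2 : dirc u = ((‖u‖⁻¹ : ℝ) : ℂ) * u := by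
    unfold dirc
    push_cast
    rw [div_eq_inv_mul]
  rw [h2, Complex.arg_real_mul u h1]

lemma dirc_mul (u v : ℂ) : dirc (u * v) = dirc u * dirc v := by
  unfold dirc
  rw [norm_mul]
  push_cast
  rw [mul_div_mul_comm]

lemma dirc_zpow_mul (u v : ℂ) (k : ℤ) : dirc (u * v) ^ k = dirc u ^ k * dirc v ^ k := by
  rw [dirc_mul, mul_zpow]

lemma crs_eq (u v : ℂ) : crs u v = ‖u‖ * ‖v‖ * Real.sin (Complex.arg v - Complex.arg u) := by
  have h1 := Complex.norm_mul_cos_arg u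
  have h2 := Complex.norm_mul_sin_arg u
  have h3 := Complex.norm_mul_cos_arg v
  have h4 := Complex.norm_mul_sin_arg v
  unfold crs
  rw [Real.sin_sub, ← h1, ← h2, ← h3, ← h4]
  ring

/-- separation of directions -/
lemma arg_sep {u v : ℂ} (hu : u ≠ 0) (hv : v ≠ 0) (hne : dirc u ≠ dirc v) {Y δ : ℝ} (hδ : 0 < δ)
    (hY : δ ≤ Y) (h : ‖u‖ ^ 2 ≤ Y) (h' : ‖v‖ ^ 2 ≤ Y) (hc : crs u v = 0 ∨ δ ≤ |crs u v|) (k : ℤ) :
    δ / (2 * Real.pi * Y) ≤
      |Complex.arg u / (2 * Real.pi) - Complex.arg v / (2 * Real.pi) - k| := by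
  by_contra hcon
  push Not at hcon
  have hY0 : 0 < Y := lt_of_lt_of_le hδ hY
  have hpi := Real.pi_pos
  set A := Complex.arg u with hA
  set A' := Complex.arg v with hA'
  set x : ℝ := A - A' - k * (2 * Real.pi) with hx
  have hxe : A / (2 * Real.pi) - A' / (2 * Real.pi) - k = x / (2 * Real.pi) := by
    rw [hx]; field_simp
  have hxY : |x| < δ / Y := by
    rw [hxe, abs_div, abs_of_pos (by positivity : (0 : ℝ) < 2 * Real.pi)] at hcon
    rw [div_lt_div_iff₀ (by positivity) (by positivity)] at hcon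
    rw [lt_div_iff₀ (by positivity)]
    nlinarith [hcon, hpi]
  have hx1 : |x| < 1 := lt_of_lt_of_le hxY (by rw [div_le_one hY0]; exact hY)
  have hn0 : 0 < ‖u‖ * ‖v‖ := mul_pos (norm_pos_iff.2 hu) (norm_pos_iff.2 hv)
  have hn : ‖u‖ * ‖v‖ ≤ Y := by nlinarith [sq_nonneg (‖u‖ - ‖v‖)]
  have hsin : Real.sin (A - A') = Real.sin x := by
    rw [hx, Real.sin_sub_int_mul_two_pi]
  have hcr : crs u v = -(‖u‖ * ‖v‖ * Real.sin x) := by
    rw [crs_eq, ← hA, ← hA', ← hsin, ← neg_sub A A', Real.sin_neg]; ring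
  have habs : |crs u v| = ‖u‖ * ‖v‖ * |Real.sin x| := by
    rw [hcr, abs_neg, abs_mul, abs_of_pos hn0]
  have hlt : |crs u v| < δ := by
    rw [habs]
    calc _ ≤ ‖u‖ * ‖v‖ * |x| := by
          apply mul_le_mul_of_nonneg_left _ hn0.le
          exact Real.abs_sin_le_abs
      _ ≤ Y * |x| := by
          apply mul_le_mul_of_nonneg_right hn (abs_nonneg _)
      _ < Y * (δ / Y) := by
          apply mul_lt_mul_of_pos_left hxY hY0
      _ = δ := by field_simp
  have h0 : crs u v = 0 := by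
    rcases hc with hc | hc
    · exact hc
    · exact absurd hlt (not_lt.2 hc)
  have hs0 : Real.sin x = 0 := by
    rw [hcr, neg_eq_zero, mul_eq_zero] at h0
    rcases h0 with h0 | h0
    · exact absurd h0 hn0.ne'
    · exact h0
  have hx0 : x = 0 := by
    rw [abs_lt] at hx1
    exact (Real.sin_eq_zero_iff_of_lt_of_lt (by linarith [Real.pi_gt_three, hx1.1])
      (by linarith [Real.pi_gt_three, hx1.2])).1 hs0
  apply hne
  rw [dirc_eq_exp hu, dirc_eq_exp hv, ← hA, ← hA']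
  have : A = A' + k * (2 * Real.pi) := by
    have : A - A' - k * (2 * Real.pi) = 0 := hx ▸ hx0
    linarith
  rw [this]
  rw [Complex.exp_eq_exp_iff_exists_int]
  refine ⟨k, ?_⟩
  push_cast
  ring

/-- dual large sieve for separated directions -/
lemma ls_dual : ∃ C : ℝ, 0 < C ∧ ∀ (R : Finset ℂ) (A : ℂ → ℂ) (T : ℝ) (K : ℕ), 1 ≤ T →
    (∀ z ∈ R, ‖z‖ = 1) → (∀ z ∈ R, ∀ z' ∈ R, z ≠ z' → ∀ k : ℤ, 1 / (2 * Real.pi * T) ≤
      |Complex.arg z / (2 * Real.pi) - Complex.arg z' / (2 * Real.pi) - k|) →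
      ∑ k ∈ IK K, ‖∑ z ∈ R, A z * z ^ k‖ ^ 2 ≤ C * (K + T) * ∑ z ∈ R, ‖A z‖ ^ 2 := by
  obtain ⟨C, hC, hls⟩ := Pool.Agent.Lib.MP_391708_nt.H20.ls
  refine ⟨C * 10, by positivity, ?_⟩
  intro R A Y K hY hR hsep
  have hpi := Real.pi_pos
  have hpi4 := Real.pi_lt_four
  set turn : ℂ → ℝ := fun z => Complex.arg z / (2 * Real.pi) with hturn
  have hpow : ∀ z ∈ R, ∀ k : ℤ, z ^ k = ee (k * turn z) := by
    intro z hz k
    have h1 := Complex.norm_mul_exp_arg_mul_I z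
    rw [hR z hz, Complex.ofReal_one, one_mul] at h1
    conv_lhs => rw [← h1]
    rw [← Complex.exp_int_mul, ee, hturn]
    congr 1
    have : (Real.pi : ℂ) ≠ 0 := by exact_mod_cast Real.pi_ne_zero
    push_cast
    field_simp
  set S : ℤ → ℂ := fun k => ∑ z ∈ R, A z * z ^ k with hS
  set T : ℝ := ∑ k ∈ IK K, ‖S k‖ ^ 2 with hT
  have hT0 : 0 ≤ T := Finset.sum_nonneg fun _ _ => sq_nonneg _
  set B : ℝ := ∑ z ∈ R, ‖A z‖ ^ 2 with hB
  have hB0 : 0 ≤ B := Finset.sum_nonneg fun _ _ => sq_nonneg _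
  set D : ℂ → ℂ := fun z => ∑ k ∈ IK K, conj (S k) * z ^ k with hD
  have hTD : (T : ℂ) = ∑ z ∈ R, A z * D z := by
    rw [hT]
    push_cast
    have : ∀ k ∈ IK K, ((‖S k‖ : ℂ)) ^ 2 = ∑ z ∈ R, A z * (conj (S k) * z ^ k) := by
      intro k _
      have h1 : ((‖S k‖ : ℂ)) ^ 2 = conj (S k) * S k := by
        rw [mul_comm, Complex.mul_conj, Complex.normSq_eq_norm_sq]; push_cast; ring
      rw [h1, hS]
      simp only
      rw [Finset.mul_sum]
      refine Finset.sum_congr rfl fun z _ => by ring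
    rw [Finset.sum_congr rfl this, Finset.sum_comm]
    refine Finset.sum_congr rfl fun z _ => ?_
    rw [hD]
    simp only
    rw [Finset.mul_sum]
  have hDb : ∑ z ∈ R, ‖D z‖ ^ 2 ≤ C * 10 * (K + Y) * T := by
    have h1 := hls ℂ R turn (2 * K + 1) (1 / (2 * Real.pi * Y)) (by positivity)
      (fun i hi j hj hij k => hsep i hi j hj hij k)
      (fun n => conj (S (n - K)))
    have e1 : ∀ F : ℤ → ℂ, ∑ n ∈ range (2 * K + 1), F (n - K) = ∑ k ∈ IK K, F k := by
      intro F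
      apply Finset.sum_bij (fun (n : ℕ) _ => ((n : ℤ) - K))
      · intro n hn
        rw [mem_range] at hn
        unfold IK
        rw [mem_Icc]
        constructor <;> omega
      · intro n _ n' _ h
        omega
      · intro k hk
        unfold IK at hk
        rw [mem_Icc] at hk
        refine ⟨(k + K).toNat, ?_, ?_⟩
        · rw [mem_range]; omega
        · omega
      · intro n _; rfl
    have e1' : ∀ F : ℤ → ℝ, ∑ n ∈ range (2 * K + 1), F (n - K) = ∑ k ∈ IK K, F k := by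
      intro F
      apply Finset.sum_bij (fun (n : ℕ) _ => ((n : ℤ) - K))
      · intro n hn
        rw [mem_range] at hn
        unfold IK
        rw [mem_Icc]
        constructor <;> omega
      · intro n _ n' _ h
        omega
      · intro k hk
        unfold IK at hk
        rw [mem_Icc] at hk
        refine ⟨(k + K).toNat, ?_, ?_⟩
        · rw [mem_range]; omega
        · omega
      · intro n _; rfl
    have e2 : ∑ n ∈ range (2 * K + 1), ‖conj (S (n - K))‖ ^ 2 = T := by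
      rw [hT, ← e1' (fun k => ‖S k‖ ^ 2)]
      refine Finset.sum_congr rfl fun n _ => ?_
      rw [RCLike.norm_conj]
    have e3 : ∀ z ∈ R, ‖D z‖ = ‖∑ n ∈ range (2 * K + 1), conj (S (n - K)) * ee (n * turn z)‖ := by
      intro z hz
      have h3 : D z = ee (-(K * turn z)) *
          ∑ n ∈ range (2 * K + 1), conj (S (n - K)) * ee (n * turn z) := by
        rw [hD]
        simp only
        rw [← e1 (fun k => conj (S k) * z ^ k), Finset.mul_sum]
        refine Finset.sum_congr rfl fun n _ => ?_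
        rw [hpow z hz]
        have : ee (((n - K : ℤ) : ℝ) * turn z) = ee (-(K * turn z)) * ee (n * turn z) := by
          unfold ee
          rw [← Complex.exp_add]
          congr 1
          push_cast
          ring
        rw [this]
        ring
      rw [h3, norm_mul]
      have : ‖ee (-(K * turn z))‖ = 1 := by
        unfold ee
        have : (2 * Real.pi * Complex.I * ((-(K * turn z) : ℝ) : ℂ)) =
          ((2 * Real.pi * (-(K * turn z)) : ℝ) : ℂ) * Complex.I := by push_cast; ring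
        rw [this, Complex.norm_exp_ofReal_mul_I]
      rw [this, one_mul]
    rw [Finset.sum_congr rfl (fun z hz => by rw [e3 z hz])]
    refine h1.trans ?_
    rw [e2]
    apply mul_le_mul_of_nonneg_right _ hT0
    rw [show C * 10 * ((K : ℝ) + Y) = C * (10 * ((K : ℝ) + Y)) by ring]
    apply mul_le_mul_of_nonneg_left _ hC.le
    push_cast
    rw [one_div_one_div]
    have hK : (0 : ℝ) ≤ K := Nat.cast_nonneg K
    nlinarith
  -- Cauchy-Schwarz
  have hcs : T ^ 2 ≤ B * (C * 10 * (K + Y) * T) := by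
    have h1 : T ≤ ∑ z ∈ R, ‖A z‖ * ‖D z‖ := by
      have : ‖(T : ℂ)‖ ≤ ∑ z ∈ R, ‖A z‖ * ‖D z‖ := by
        rw [hTD]
        refine (norm_sum_le _ _).trans ?_
        refine Finset.sum_le_sum fun z _ => ?_
        rw [norm_mul]
      rwa [Complex.norm_real, Real.norm_eq_abs, abs_of_nonneg hT0] at this
    calc T ^ 2 ≤ (∑ z ∈ R, ‖A z‖ * ‖D z‖) ^ 2 := by
          apply pow_le_pow_left₀ hT0 h1
      _ ≤ (∑ z ∈ R, ‖A z‖ ^ 2) * ∑ z ∈ R, ‖D z‖ ^ 2 := Finset.sum_mul_sq_le_sq_mul_sq _ _ _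
      _ ≤ B * (C * 10 * (K + Y) * T) := by
          apply mul_le_mul_of_nonneg_left hDb hB0
  rcases hT0.eq_or_lt with h0 | h0
  · rw [← h0]
    have hK : (0 : ℝ) ≤ K := Nat.cast_nonneg K
    positivity
  · have : T * T ≤ (C * 10 * (K + Y) * B) * T := by nlinarith [hcs]
    exact le_of_mul_le_mul_right this h0

open Classical in
/-- **Large sieve for directions.** -/
theorem lsg : ∃ C : ℝ, 0 < C ∧ ∀ {ι : Type*} (S : Finset ι) (f a : ι → ℂ) (δ Y : ℝ) (K : ℕ),
    0 < δ → δ ≤ Y → (∀ i ∈ S, f i ≠ 0 ∧ ‖f i‖ ^ 2 ≤ Y) →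
    (∀ i ∈ S, ∀ j ∈ S, crs (f i) (f j) = 0 ∨ δ ≤ |crs (f i) (f j)|) →
      ∑ k ∈ IK K, ‖∑ i ∈ S, a i * dirc (f i) ^ k‖ ^ 2 ≤
        C * (K + Y / δ) *
          ∑ i ∈ S, ∑ j ∈ S.filter (fun j => dirc (f j) = dirc (f i)), ‖a i‖ * ‖a j‖ := by
  obtain ⟨C, hC, hls⟩ := ls_dual
  refine ⟨C, hC, ?_⟩
  intro ι S f a δ Y K hδ hY hS hcr
  have hY0 : 0 < Y := lt_of_lt_of_le hδ hY
  set rep : ι → ℂ := fun i => dirc (f i) with hrep
  set R := S.image rep with hR
  set A : ℂ → ℂ := fun r => ∑ i ∈ S.filter (fun i => rep i = r), a i with hA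
  have hR1 : ∀ r ∈ R, ‖r‖ = 1 := by
    intro r hr
    rw [hR, mem_image] at hr
    obtain ⟨i, hi, rfl⟩ := hr
    exact norm_dirc (hS i hi).1
  have hsep : ∀ z ∈ R, ∀ z' ∈ R, z ≠ z' → ∀ k : ℤ, 1 / (2 * Real.pi * (Y / δ)) ≤
      |Complex.arg z / (2 * Real.pi) - Complex.arg z' / (2 * Real.pi) - k| := by
    intro z hz z' hz' hne k
    rw [hR, mem_image] at hz hz'
    obtain ⟨i, hi, rfl⟩ := hz
    obtain ⟨j, hj, rfl⟩ := hz'
    have h1 := arg_sep (hS i hi).1 (hS j hj).1 hne hδ hY (hS i hi).2 (hS j hj).2 (hcr i hi j hj) k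
    simp only [hrep]
    rw [arg_dirc (hS i hi).1, arg_dirc (hS j hj).1]
    refine le_trans (le_of_eq ?_) h1
    field_simp
  have h1 : ∀ k : ℤ, ∑ i ∈ S, a i * dirc (f i) ^ k = ∑ r ∈ R, A r * r ^ k := by
    intro k
    rw [← Finset.sum_fiberwise_of_maps_to (s := S) (t := R) (g := rep)
      (fun z hz => mem_image_of_mem _ hz)]
    refine Finset.sum_congr rfl fun r _ => ?_
    rw [hA]
    simp only
    rw [Finset.sum_mul]
    refine Finset.sum_congr rfl fun z hz => ?_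
    rw [mem_filter] at hz
    rw [← hz.2]
  have h2 : ∑ r ∈ R, ‖A r‖ ^ 2 ≤
      ∑ i ∈ S, ∑ j ∈ S.filter (fun j => dirc (f j) = dirc (f i)), ‖a i‖ * ‖a j‖ := by
    have h3 : ∀ r ∈ R, ‖A r‖ ^ 2 ≤ ∑ i ∈ S.filter (fun z => rep z = r),
        ∑ j ∈ S.filter (fun j => dirc (f j) = dirc (f i)), ‖a i‖ * ‖a j‖ := by
      intro r _
      have h4 : ‖A r‖ ≤ ∑ z ∈ S.filter (fun z => rep z = r), ‖a z‖ := norm_sum_le _ _
      calc ‖A r‖ ^ 2 ≤ (∑ z ∈ S.filter (fun z => rep z = r), ‖a z‖) ^ 2 := by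
            apply pow_le_pow_left₀ (norm_nonneg _) h4
        _ = ∑ z ∈ S.filter (fun z => rep z = r), ∑ z' ∈ S.filter (fun z => rep z = r),
            ‖a z‖ * ‖a z'‖ := by
            rw [sq, Finset.sum_mul_sum]
        _ ≤ _ := by
            refine Finset.sum_le_sum fun z hz => ?_
            apply Finset.sum_le_sum_of_subset_of_nonneg
            · intro z' hz'
              rw [mem_filter] at hz hz' ⊢
              exact ⟨hz'.1, hz'.2.trans hz.2.symm⟩
            · intro z' _ _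
              positivity
    refine (Finset.sum_le_sum h3).trans ?_
    rw [Finset.sum_fiberwise_of_maps_to (s := S) (t := R) (g := rep)
      (fun z hz => mem_image_of_mem _ hz)
      (fun i => ∑ j ∈ S.filter (fun j => dirc (f j) = dirc (f i)), ‖a i‖ * ‖a j‖)]
  have hK : (0 : ℝ) ≤ K := Nat.cast_nonneg K
  calc ∑ k ∈ IK K, ‖∑ i ∈ S, a i * dirc (f i) ^ k‖ ^ 2
      = ∑ k ∈ IK K, ‖∑ r ∈ R, A r * r ^ k‖ ^ 2 := by
        refine Finset.sum_congr rfl fun k _ => by rw [h1 k]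
    _ ≤ C * (K + Y / δ) * ∑ r ∈ R, ‖A r‖ ^ 2 :=
        hls R A (Y / δ) K (by rw [le_div_iff₀ hδ]; linarith) hR1 hsep
    _ ≤ _ := by
        apply mul_le_mul_of_nonneg_left h2
        positivity

/-! ## Lattices -/

lemma crs_zl (om : ℂ) (v w : ℤ × ℤ) :
    crs (zl om v) (zl om w) = ((v.1 * w.2 - v.2 * w.1 : ℤ) : ℝ) * om.im := by
  unfold crs zl
  simp
  ring

lemma crs_zl_sep {om : ℂ} (hom : 0 < om.im) (v w : ℤ × ℤ) :
    crs (zl om v) (zl om w) = 0 ∨ om.im ≤ |crs (zl om v) (zl om w)| := by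
  rw [crs_zl]
  rcases eq_or_ne (v.1 * w.2 - v.2 * w.1) 0 with h | h
  · left; rw [h]; simp
  · right
    rw [abs_mul, abs_of_pos hom]
    have : (1 : ℝ) ≤ |((v.1 * w.2 - v.2 * w.1 : ℤ) : ℝ)| := by
      exact_mod_cast Int.one_le_abs h
    nlinarith

lemma zl_ne_zero {om : ℂ} (hom : 0 < om.im) {v : ℤ × ℤ} (hv : v ≠ 0) : zl om v ≠ 0 := by
  intro h
  apply hv
  have h2 : ((v.2 : ℤ) : ℝ) * om.im = 0 := by
    have := congrArg Complex.im h
    unfold zl at this
    simpa using this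
  have h3 : v.2 = 0 := by
    rcases mul_eq_zero.1 h2 with h | h
    · exact_mod_cast h
    · exact absurd h hom.ne'
  have h4 : v.1 = 0 := by
    unfold zl at h
    rw [h3] at h
    simpa using h
  exact Prod.ext h4 h3

open Classical in
/-- LSG for the lattice `ℤ + ℤ ω` -/
theorem lsg_zl (om : ℂ) (hom : 0 < om.im) : ∃ C : ℝ, 0 < C ∧ ∀ (S : Finset (ℤ × ℤ))
    (a : ℤ × ℤ → ℂ) (Y : ℝ) (K : ℕ), 1 ≤ Y → (∀ v ∈ S, v ≠ 0 ∧ ‖zl om v‖ ^ 2 ≤ Y) →
      ∑ k ∈ IK K, ‖∑ v ∈ S, a v * dirc (zl om v) ^ k‖ ^ 2 ≤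
        C * (K + Y) *
          ∑ v ∈ S, ∑ w ∈ S.filter (fun w => dirc (zl om w) = dirc (zl om v)), ‖a v‖ * ‖a w‖ := by
  obtain ⟨C, hC, h⟩ := lsg
  set δ := min 1 om.im with hδdef
  have hδ : 0 < δ := lt_min one_pos hom
  have hδ1 : δ ≤ 1 := min_le_left _ _
  refine ⟨C / δ, by positivity, ?_⟩
  intro S a Y K hY hS
  have h1 := h S (zl om) a δ Y K hδ (hδ1.trans hY) (fun v hv => ⟨zl_ne_zero hom (hS v hv).1,
    (hS v hv).2⟩) (fun v _ w _ => by
      rcases crs_zl_sep hom v w with h | h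
      · exact Or.inl h
      · exact Or.inr ((min_le_right _ _).trans h))
  refine h1.trans ?_
  apply mul_le_mul_of_nonneg_right
  · rw [show C / δ * (K + Y) = C * (K / δ + Y / δ) by ring]
    apply mul_le_mul_of_nonneg_left _ hC.le
    have : (K : ℝ) ≤ K / δ := by
      rw [le_div_iff₀ hδ]
      nlinarith [Nat.cast_nonneg (α := ℝ) K]
    linarith
  · exact Finset.sum_nonneg fun _ _ => Finset.sum_nonneg fun _ _ => by positivity

end Pool.Agent.Lib.MP391708.MA
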