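import Pool.Agent.Lib.MP_391708_nt.MA.Sep
import Pool.Agent.Lib.MP_391708_nt.MA.Basic2
import Pool.Agent.Lib.MP_391708_nt.MA.LatS

/-!
# LSG: the large sieve for the characters `ξ_κ`
-/

set_option autoImplicit false

namespace Pool.Agent.Lib.MP391708.MA

open Finset Filter Topology NumberField
open scoped ComplexConjugate Classical

namespace LSGM

variable {K : Type} [Field K] [NumberField K]

/-- points of the unit circle at distance `≥ c / Y` have arguments at distance `≥ c / Y` -/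
theorem arg_dist {u v : ℂ} (hu : ‖u‖ = 1) (hv : ‖v‖ = 1) {d : ℝ} (hd : d ≤ ‖u - v‖) (k : ℤ) :
    d / (2 * Real.pi) ≤
      |Complex.arg u / (2 * Real.pi) - Complex.arg v / (2 * Real.pi) - k| := by
  have hpi := Real.pi_pos
  set A := Complex.arg u with hA
  set B := Complex.arg v with hB
  have hu' : u = Complex.exp ((A : ℝ) * Complex.I) := by
    have h1 := Complex.norm_mul_exp_arg_mul_I u
    rw [hu, Complex.ofReal_one, one_mul] at h1
    exact h1.symm
  have hv' : v = Complex.exp (((B + k * (2 * Real.pi) : ℝ) : ℂ) * Complex.I) := by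
    have h1 := Complex.norm_mul_exp_arg_mul_I v
    rw [hv, Complex.ofReal_one, one_mul] at h1
    rw [← h1, ← hB, Complex.exp_eq_exp_iff_exists_int]
    refine ⟨-k, ?_⟩
    push_cast
    ring
  have h1 : ‖u - v‖ ≤ |A - (B + k * (2 * Real.pi))| := by
    rw [hu', hv']
    have h2 := Real.norm_exp_I_mul_ofReal_sub_one_le (x := A - (B + k * (2 * Real.pi)))
    have h3 : Complex.exp ((A : ℝ) * Complex.I) -
        Complex.exp (((B + k * (2 * Real.pi) : ℝ) : ℂ) * Complex.I) =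
        Complex.exp (((B + k * (2 * Real.pi) : ℝ) : ℂ) * Complex.I) *
          (Complex.exp (Complex.I * ((A - (B + k * (2 * Real.pi)) : ℝ) : ℂ)) - 1) := by
      rw [mul_sub, mul_one, ← Complex.exp_add]
      congr 2
      push_cast
      ring
    rw [h3, norm_mul, Complex.norm_exp_ofReal_mul_I, one_mul]
    simpa using h2
  have h4 : A / (2 * Real.pi) - B / (2 * Real.pi) - k =
      (A - (B + k * (2 * Real.pi))) / (2 * Real.pi) := by
    field_simp
    ring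
  rw [h4, abs_div, abs_of_pos (by positivity : (0 : ℝ) < 2 * Real.pi)]
  exact div_le_div_of_nonneg_right (hd.trans h1) (by positivity)

/-- the large sieve in one class -/
theorem one_class (D : Dir K) (hSep : SpecSep K D) :
    ∃ C : ℝ, 0 < C ∧ ∀ (S : Finset (Gi K)) (a : Gi K → ℂ) (Y : ℝ) (Z : ℕ) (c : Cl K),
      1 ≤ Y → (∀ z ∈ S, z ≠ 0 ∧ (nm z : ℝ) ≤ Y) →
      ∑ k ∈ Icc (-(Z : ℤ)) Z, ‖∑ z ∈ S.filter (fun z => cls z = c), a z * D.f z ^ k‖ ^ 2 ≤
        C * (Z + Y) * ∑ z ∈ S.filter (fun z => cls z = c),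
          ∑ z' ∈ S.filter (fun z' => par z z'), ‖a z‖ * ‖a z'‖ := by
  obtain ⟨c₀, hc₀, hsep⟩ := hSep
  obtain ⟨C, hC, hls⟩ := ls_dual
  set c₁ : ℝ := min c₀ 1 with hc₁
  have hc₁0 : 0 < c₁ := lt_min hc₀ one_pos
  refine ⟨C / c₁, by positivity, ?_⟩
  intro S a Y Z c hY hS
  set T := S.filter (fun z => cls z = c) with hT
  have hY0 : 0 < Y := by linarith
  have hTS : ∀ z ∈ T, z ≠ 0 ∧ (nm z : ℝ) ≤ Y := fun z hz => hS z (Finset.mem_filter.1 hz).1
  -- separation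
  have hdist : ∀ z ∈ T, ∀ z' ∈ T, ¬ par z z' → c₁ / Y ≤ ‖D.f z - D.f z'‖ := by
    intro z hz z' hz' hp
    have h1 := hsep z z' (hTS z hz).1 (hTS z' hz').1
      ((Finset.mem_filter.1 hz).2.trans (Finset.mem_filter.1 hz').2.symm) hp
    refine le_trans ?_ h1
    have h2 : (0 : ℝ) < (nm z : ℝ) * nm z' := by
      have hpos : ∀ w ∈ T, (0 : ℝ) < nm w := by
        intro w hw
        have h3 : nm w ≠ 0 := by
          unfold nm
          rw [Ne, Ideal.absNorm_eq_zero_iff]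
          exact (hTS w hw).1
        exact_mod_cast Nat.pos_of_ne_zero h3
      exact mul_pos (hpos z hz) (hpos z' hz')
    have h3 : Real.sqrt ((nm z : ℝ) * nm z') ≤ Y := by
      rw [Real.sqrt_le_left hY0.le]
      have := (hTS z hz).2
      have := (hTS z' hz').2
      have : (0 : ℝ) ≤ nm z := Nat.cast_nonneg _
      have : (0 : ℝ) ≤ nm z' := Nat.cast_nonneg _
      nlinarith
    have h4 : 0 < Real.sqrt ((nm z : ℝ) * nm z') := Real.sqrt_pos.2 h2
    calc c₁ / Y ≤ c₀ / Y := by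
          apply div_le_div_of_nonneg_right (min_le_left _ _) hY0.le
      _ ≤ c₀ / Real.sqrt ((nm z : ℝ) * nm z') := by
          apply div_le_div_of_nonneg_left hc₀.le h4 h3
  have hpar : ∀ z ∈ T, ∀ z' ∈ T, D.f z' = D.f z → par z z' := by
    intro z hz z' hz' he
    by_contra hp
    have h1 := hdist z hz z' hz' hp
    rw [he, sub_self, norm_zero] at h1
    have h2 : 0 < c₁ / Y := by positivity
    linarith
  set R := T.image D.f with hR
  set A : ℂ → ℂ := fun r => ∑ z ∈ T.filter (fun z => D.f z = r), a z with hA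
  have hR1 : ∀ r ∈ R, ‖r‖ = 1 := by
    intro r hr
    rw [hR, mem_image] at hr
    obtain ⟨z, hz, rfl⟩ := hr
    exact D.norm z (hTS z hz).1
  have hsepR : ∀ z ∈ R, ∀ z' ∈ R, z ≠ z' → ∀ k : ℤ, 1 / (2 * Real.pi * (Y / c₁)) ≤
      |Complex.arg z / (2 * Real.pi) - Complex.arg z' / (2 * Real.pi) - k| := by
    intro r hr r' hr' hne k
    have hn := hR1 r hr
    have hn' := hR1 r' hr'
    rw [hR, mem_image] at hr hr'
    obtain ⟨z, hz, rfl⟩ := hr
    obtain ⟨z', hz', rfl⟩ := hr'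
    have hnp : ¬ par z z' := fun h => hne (D.eq_of_par h)
    have h1 := arg_dist hn hn' (hdist z hz z' hz' hnp) k
    refine le_trans (le_of_eq ?_) h1
    field_simp
  have h1 : ∀ k : ℤ, ∑ z ∈ T, a z * D.f z ^ k = ∑ r ∈ R, A r * r ^ k := by
    intro k
    rw [← Finset.sum_fiberwise_of_maps_to (s := T) (t := R) (g := D.f)
      (fun z hz => mem_image_of_mem _ hz)]
    refine Finset.sum_congr rfl fun r _ => ?_
    rw [hA]
    simp only
    rw [Finset.sum_mul]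
    refine Finset.sum_congr rfl fun z hz => ?_
    rw [mem_filter] at hz
    rw [← hz.2]
  have h2 : ∑ r ∈ R, ‖A r‖ ^ 2 ≤
      ∑ z ∈ T, ∑ z' ∈ S.filter (fun z' => par z z'), ‖a z‖ * ‖a z'‖ := by
    have h3 : ∀ r ∈ R, ‖A r‖ ^ 2 ≤ ∑ z ∈ T.filter (fun z => D.f z = r),
        ∑ z' ∈ S.filter (fun z' => par z z'), ‖a z‖ * ‖a z'‖ := by
      intro r _
      have h4 : ‖A r‖ ≤ ∑ z ∈ T.filter (fun z => D.f z = r), ‖a z‖ := norm_sum_le _ _
      calc ‖A r‖ ^ 2 ≤ (∑ z ∈ T.filter (fun z => D.f z = r), ‖a z‖) ^ 2 := by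
            apply pow_le_pow_left₀ (norm_nonneg _) h4
        _ = ∑ z ∈ T.filter (fun z => D.f z = r), ∑ z' ∈ T.filter (fun z => D.f z = r),
            ‖a z‖ * ‖a z'‖ := by
            rw [sq, Finset.sum_mul_sum]
        _ ≤ _ := by
            refine Finset.sum_le_sum fun z hz => ?_
            apply Finset.sum_le_sum_of_subset_of_nonneg
            · intro z' hz'
              rw [mem_filter] at hz hz' ⊢
              exact ⟨(Finset.mem_filter.1 hz'.1).1,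
                hpar z hz.1 z' hz'.1 (hz'.2.trans hz.2.symm)⟩
            · intro z' _ _
              positivity
    refine (Finset.sum_le_sum h3).trans ?_
    rw [Finset.sum_fiberwise_of_maps_to (s := T) (t := R) (g := D.f)
      (fun z hz => mem_image_of_mem _ hz)
      (fun z => ∑ z' ∈ S.filter (fun z' => par z z'), ‖a z‖ * ‖a z'‖)]
  have hZ : (0 : ℝ) ≤ Z := Nat.cast_nonneg Z
  have hB0 : 0 ≤ ∑ z ∈ T, ∑ z' ∈ S.filter (fun z' => par z z'), ‖a z‖ * ‖a z'‖ :=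
    Finset.sum_nonneg fun _ _ => Finset.sum_nonneg fun _ _ => by positivity
  have hT1 : 1 ≤ Y / c₁ := by
    rw [le_div_iff₀ hc₁0]
    have : c₁ ≤ 1 := min_le_right _ _
    linarith
  calc ∑ k ∈ Icc (-(Z : ℤ)) Z, ‖∑ z ∈ T, a z * D.f z ^ k‖ ^ 2
      = ∑ k ∈ Icc (-(Z : ℤ)) Z, ‖∑ r ∈ R, A r * r ^ k‖ ^ 2 := by
        refine Finset.sum_congr rfl fun k _ => by rw [h1 k]
    _ ≤ C * (Z + Y / c₁) * ∑ r ∈ R, ‖A r‖ ^ 2 :=
        hls R A (Y / c₁) Z hT1 hR1 hsepR
    _ ≤ C * (Z + Y / c₁) * ∑ z ∈ T, ∑ z' ∈ S.filter (fun z' => par z z'), ‖a z‖ * ‖a z'‖ := by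
        apply mul_le_mul_of_nonneg_left h2
        positivity
    _ ≤ _ := by
        apply mul_le_mul_of_nonneg_right _ hB0
        have h5 : (Z : ℝ) ≤ Z / c₁ := by
          rw [le_div_iff₀ hc₁0]
          have : c₁ ≤ 1 := min_le_right _ _
          nlinarith
        calc C * (Z + Y / c₁) ≤ C * (Z / c₁ + Y / c₁) := by
              apply mul_le_mul_of_nonneg_left _ hC.le
              linarith
          _ = C / c₁ * (Z + Y) := by
              field_simp

end LSGM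

theorem specLSG {K : Type} [Field K] [NumberField K] (D : Dir K) (hSep : SpecSep K D) :
    SpecLSG K D := by
  obtain ⟨C, hC, h⟩ := LSGM.one_class D hSep
  set M : ℝ := (Fintype.card (AddChar (Additive (Cl K)) ℂ) : ℝ) with hM
  set H : ℝ := (Fintype.card (Cl K) : ℝ) with hH
  have hM0 : 0 ≤ M := Nat.cast_nonneg _
  have hH0 : 0 < H := by
    rw [hH]
    exact_mod_cast Fintype.card_pos
  refine ⟨(M + 1) * H * C, by positivity, ?_⟩
  intro S a Y Z hY hS
  -- the sum over a class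
  set T : Cl K → ℤ → ℂ := fun c k => ∑ z ∈ S.filter (fun z => cls z = c), a z * D.f z ^ k with hT
  have h1 : ∀ κ : Kp K, ‖∑ z ∈ S, a z * xi D κ z‖ ^ 2 ≤ H * ∑ c : Cl K, ‖T c κ.2‖ ^ 2 := by
    intro κ
    have h2 : ∑ z ∈ S, a z * xi D κ z = ∑ c : Cl K, κ.1 (Additive.ofMul c) * T c κ.2 := by
      rw [← Finset.sum_fiberwise_of_maps_to (s := S) (t := (Finset.univ : Finset (Cl K)))
        (g := cls) (fun z _ => Finset.mem_univ _)]
      refine Finset.sum_congr rfl fun c _ => ?_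
      rw [hT]
      simp only
      rw [Finset.mul_sum]
      refine Finset.sum_congr rfl fun z hz => ?_
      rw [mem_filter] at hz
      unfold xi
      rw [hz.2]
      ring
    have h3 : ‖∑ z ∈ S, a z * xi D κ z‖ ≤ ∑ c : Cl K, ‖T c κ.2‖ := by
      rw [h2]
      refine (norm_sum_le _ _).trans (Finset.sum_le_sum fun c _ => ?_)
      rw [norm_mul]
      have h4 : ‖κ.1 (Additive.ofMul c)‖ = 1 := AddChar.norm_apply _ _
      rw [h4, one_mul]
    calc ‖∑ z ∈ S, a z * xi D κ z‖ ^ 2 ≤ (∑ c : Cl K, ‖T c κ.2‖) ^ 2 :=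
          pow_le_pow_left₀ (norm_nonneg _) h3 2
      _ ≤ H * ∑ c : Cl K, ‖T c κ.2‖ ^ 2 := by
          have h5 := sq_sum_le_card_mul_sum_sq (s := (Finset.univ : Finset (Cl K)))
            (f := fun c => ‖T c κ.2‖)
          rw [Finset.card_univ] at h5
          exact h5
  have h6 : ∑ κ ∈ IK K Z, ‖∑ z ∈ S, a z * xi D κ z‖ ^ 2 ≤
      M * (H * ∑ c : Cl K, ∑ k ∈ Icc (-(Z : ℤ)) Z, ‖T c k‖ ^ 2) := by
    calc ∑ κ ∈ IK K Z, ‖∑ z ∈ S, a z * xi D κ z‖ ^ 2
        ≤ ∑ κ ∈ IK K Z, H * ∑ c : Cl K, ‖T c κ.2‖ ^ 2 :=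
          Finset.sum_le_sum fun κ _ => h1 κ
      _ = ∑ _χ : AddChar (Additive (Cl K)) ℂ, ∑ k ∈ Icc (-(Z : ℤ)) Z,
            H * ∑ c : Cl K, ‖T c k‖ ^ 2 := by
          unfold IK
          rw [Finset.sum_product]
      _ = M * (H * ∑ c : Cl K, ∑ k ∈ Icc (-(Z : ℤ)) Z, ‖T c k‖ ^ 2) := by
          rw [Finset.sum_const, Finset.card_univ, nsmul_eq_mul, ← Finset.mul_sum,
            Finset.sum_comm]
  have hsum : ∑ c : Cl K, ∑ z ∈ S.filter (fun z => cls z = c),
      ∑ z' ∈ S.filter (fun z' => par z z'), ‖a z‖ * ‖a z'‖ =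
      ∑ z ∈ S, ∑ z' ∈ S.filter (fun z' => par z z'), ‖a z‖ * ‖a z'‖ :=
    Finset.sum_fiberwise_of_maps_to (s := S) (t := (Finset.univ : Finset (Cl K)))
      (g := cls) (fun z _ => Finset.mem_univ _) _
  have h7 : ∑ c : Cl K, ∑ k ∈ Icc (-(Z : ℤ)) Z, ‖T c k‖ ^ 2 ≤
      C * (Z + Y) * ∑ z ∈ S, ∑ z' ∈ S.filter (fun z' => par z z'), ‖a z‖ * ‖a z'‖ := by
    rw [← hsum, Finset.mul_sum]
    exact Finset.sum_le_sum fun c _ => h S a Y Z c hY hS
  have hB0 : 0 ≤ ∑ z ∈ S, ∑ z' ∈ S.filter (fun z' => par z z'), ‖a z‖ * ‖a z'‖ :=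
    Finset.sum_nonneg fun _ _ => Finset.sum_nonneg fun _ _ => by positivity
  have hZ : (0 : ℝ) ≤ Z := Nat.cast_nonneg Z
  calc _ ≤ M * (H * ∑ c : Cl K, ∑ k ∈ Icc (-(Z : ℤ)) Z, ‖T c k‖ ^ 2) := h6
    _ ≤ (M + 1) * (H * (C * (Z + Y) *
        ∑ z ∈ S, ∑ z' ∈ S.filter (fun z' => par z z'), ‖a z‖ * ‖a z'‖)) := by
        apply mul_le_mul (by linarith) _ _ (by linarith)
        · exact mul_le_mul_of_nonneg_left h7 hH0.le
        · have : 0 ≤ ∑ c : Cl K, ∑ k ∈ Icc (-(Z : ℤ)) Z, ‖T c k‖ ^ 2 :=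
            Finset.sum_nonneg fun _ _ => Finset.sum_nonneg fun _ _ => sq_nonneg _
          positivity
    _ = _ := by ring

end Pool.Agent.Lib.MP391708.MA
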