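import Pool.Agent.Lib.MP_391708_nt.MR.Type

/-!
# Lattice points of `ℤ + ℤ τ` in discs and residue classes: COUNT, TYPE for small frequencies

`P τ (a, b) = a + b τ`, `dl τ x` = the nonzero `(a, b)` with `|a + b τ|² ≤ x`,
`cd m w` = the class of `w` modulo `m` (both coordinates), `MR.TypeM.ph k u = (u/|u|)^k`.
-/

set_option autoImplicit false

namespace Pool.Agent.Lib.MP391708.MA.Lat

open Finset Filter Topology MeasureTheory
open scoped ComplexConjugate
open Pool.Agent.Lib.MP391708.MR.TypeM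

/-- the lattice point `a + b τ` -/
noncomputable def P (τ : ℂ) (p : ℤ × ℤ) : ℂ := (p.1 : ℂ) + (p.2 : ℂ) * τ

lemma P_re (τ : ℂ) (p : ℤ × ℤ) : (P τ p).re = p.1 + p.2 * τ.re := by simp [P]

lemma P_im (τ : ℂ) (p : ℤ × ℤ) : (P τ p).im = p.2 * τ.im := by simp [P]

lemma P_zero (τ : ℂ) : P τ 0 = 0 := by simp [P]

lemma P_neg (τ : ℂ) (p : ℤ × ℤ) : P τ (-p) = -P τ p := by
  simp [P]; ring

lemma P_ne_zero {τ : ℂ} (hτ : 0 < τ.im) {p : ℤ × ℤ} (hp : p ≠ 0) : P τ p ≠ 0 := by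
  intro h
  apply hp
  have h1 := congrArg Complex.im h
  rw [P_im, Complex.zero_im] at h1
  have h2 : (p.2 : ℝ) = 0 := (mul_eq_zero.1 h1).resolve_right hτ.ne'
  have h3 := congrArg Complex.re h
  rw [P_re, Complex.zero_re, h2, zero_mul, add_zero] at h3
  exact Prod.ext (by exact_mod_cast h3) (by exact_mod_cast h2)

/-- the size of a box containing the disc -/
noncomputable def bx (τ : ℂ) (x : ℝ) : ℤ := ⌈Real.sqrt x * (1 + (1 + ‖τ‖) / τ.im)⌉

/-- the nonzero `p` with `|P τ p|² ≤ x` -/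
noncomputable def dl (τ : ℂ) (x : ℝ) : Finset (ℤ × ℤ) :=
  ((Icc (-bx τ x) (bx τ x)) ×ˢ (Icc (-bx τ x) (bx τ x))).filter
    (fun p => p ≠ 0 ∧ ‖P τ p‖ ^ 2 ≤ x)

lemma mem_dl {τ : ℂ} (hτ : 0 < τ.im) {x : ℝ} {p : ℤ × ℤ} :
    p ∈ dl τ x ↔ p ≠ 0 ∧ ‖P τ p‖ ^ 2 ≤ x := by
  unfold dl
  rw [mem_filter]
  refine ⟨fun h => h.2, fun h => ⟨?_, h⟩⟩
  have h1 : ‖P τ p‖ ≤ Real.sqrt x := Real.le_sqrt_of_sq_le h.2
  have hs : 0 ≤ Real.sqrt x := Real.sqrt_nonneg _
  have h2 : |(p.2 : ℝ)| ≤ Real.sqrt x / τ.im := by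
    rw [le_div_iff₀ hτ, ← abs_of_pos hτ, ← abs_mul, ← P_im]
    exact (Complex.abs_im_le_norm _).trans h1
  have h3 : |(p.1 : ℝ)| ≤ Real.sqrt x + Real.sqrt x / τ.im * ‖τ‖ := by
    have e1 : (p.1 : ℝ) = (P τ p).re - p.2 * τ.re := by rw [P_re]; ring
    rw [e1]
    refine (abs_sub _ _).trans ?_
    apply add_le_add ((Complex.abs_re_le_norm _).trans h1)
    rw [abs_mul]
    exact mul_le_mul h2 (Complex.abs_re_le_norm _) (abs_nonneg _) (by positivity)
  have h4 : |(p.2 : ℝ)| ≤ bx τ x := by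
    refine h2.trans (le_trans ?_ (Int.le_ceil _))
    rw [mul_add, mul_one, ← mul_div_assoc, mul_add, mul_one, add_div]
    have : 0 ≤ Real.sqrt x * ‖τ‖ / τ.im := by positivity
    linarith
  have h5 : |(p.1 : ℝ)| ≤ bx τ x := by
    refine h3.trans (le_trans ?_ (Int.le_ceil _))
    rw [mul_add, mul_one, ← mul_div_assoc, mul_add, mul_one, add_div]
    have e : Real.sqrt x / τ.im * ‖τ‖ = Real.sqrt x * ‖τ‖ / τ.im := by ring
    rw [e]
    have : 0 ≤ Real.sqrt x / τ.im := by positivity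
    linarith
  rw [mem_product, mem_Icc, mem_Icc]
  have h4' : |p.2| ≤ bx τ x := by exact_mod_cast h4
  have h5' : |p.1| ≤ bx τ x := by exact_mod_cast h5
  exact ⟨abs_le.1 h5', abs_le.1 h4'⟩

/-- the class of `w` modulo `m` -/
def cd (m : ℕ) (w p : ℤ × ℤ) : Prop := (m : ℤ) ∣ p.1 - w.1 ∧ (m : ℤ) ∣ p.2 - w.2

instance (m : ℕ) (w : ℤ × ℤ) : DecidablePred (cd m w) := fun p => by unfold cd; infer_instance

/-- the half open rectangle with sides `m`, `m t` and lower left corner `z` -/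
def rc (m : ℕ) (t : ℝ) (z : ℂ) : Set ℂ :=
  {p | (z.re ≤ p.re ∧ p.re < z.re + m) ∧ (z.im ≤ p.im ∧ p.im < z.im + m * t)}

lemma rc_eq (m : ℕ) (t : ℝ) (z : ℂ) : rc m t z = Complex.measurableEquivRealProd ⁻¹'
    ((Set.Ico (z.re : ℝ) (z.re + m)) ×ˢ (Set.Ico (z.im : ℝ) (z.im + m * t))) := by
  ext p
  simp [rc, Complex.measurableEquivRealProd_apply]

lemma measurableSet_rc (m : ℕ) (t : ℝ) (z : ℂ) : MeasurableSet (rc m t z) := by
  rw [rc_eq]
  exact Complex.measurableEquivRealProd.measurable (measurableSet_Ico.prod measurableSet_Ico)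

lemma volume_rc (m : ℕ) {t : ℝ} (_ht : 0 ≤ t) (z : ℂ) :
    volume (rc m t z) = ENNReal.ofReal ((m : ℝ) ^ 2 * t) := by
  rw [rc_eq, Complex.volume_preserving_equiv_real_prod.measure_preimage
    (measurableSet_Ico.prod measurableSet_Ico).nullMeasurableSet, Measure.volume_eq_prod,
    Measure.prod_prod, Real.volume_Ico, Real.volume_Ico, add_sub_cancel_left, add_sub_cancel_left,
    ← ENNReal.ofReal_mul (Nat.cast_nonneg _)]
  congr 1
  ring

lemma volume_real_rc (m : ℕ) {t : ℝ} (ht : 0 ≤ t) (z : ℂ) :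
    volume.real (rc m t z) = (m : ℝ) ^ 2 * t := by
  rw [measureReal_def, volume_rc m ht, ENNReal.toReal_ofReal (by positivity)]

lemma norm_sub_rc {m : ℕ} {t : ℝ} {z p : ℂ} (h : p ∈ rc m t z) :
    ‖p - z‖ ≤ m * (1 + t) := by
  obtain ⟨⟨h1, h2⟩, h3, h4⟩ := h
  refine (Complex.norm_le_abs_re_add_abs_im _).trans ?_
  rw [Complex.sub_re, Complex.sub_im, abs_of_nonneg (by linarith), abs_of_nonneg (by linarith)]
  linarith

lemma rc_disjoint {τ : ℂ} (hτ : 0 < τ.im) {m : ℕ} (hm : 0 < m) {w p p' : ℤ × ℤ}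
    (hp : cd m w p) (hp' : cd m w p') (hne : p ≠ p') :
    Disjoint (rc m τ.im (P τ p)) (rc m τ.im (P τ p')) := by
  rw [Set.disjoint_left]
  rintro u ⟨⟨a1, a2⟩, a3, a4⟩ ⟨⟨b1, b2⟩, b3, b4⟩
  apply hne
  rw [P_im] at a3 a4 b3 b4
  rw [P_re] at a1 a2 b1 b2
  have key : ∀ a b c : ℤ, (m : ℤ) ∣ a - c → (m : ℤ) ∣ b - c → (a : ℝ) < b + m →
      (b : ℝ) < a + m → a = b := by
    intro a b c h1 h2 h3 h4
    have h5 : (m : ℤ) ∣ a - b := by
      have := dvd_sub h1 h2
      rwa [sub_sub_sub_cancel_right] at this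
    have h3' : a < b + m := by exact_mod_cast h3
    have h4' : b < a + m := by exact_mod_cast h4
    have := Int.eq_zero_of_abs_lt_dvd h5 (by rw [abs_lt]; constructor <;> omega)
    omega
  have e2 : p.2 = p'.2 := by
    apply key _ _ _ hp.2 hp'.2
    · have : (p.2 : ℝ) * τ.im < (p'.2 + m) * τ.im := by linarith
      exact lt_of_mul_lt_mul_right this hτ.le
    · have : (p'.2 : ℝ) * τ.im < (p.2 + m) * τ.im := by linarith
      exact lt_of_mul_lt_mul_right this hτ.le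
  rw [e2] at a1 a2
  exact Prod.ext (key _ _ _ hp.1 hp'.1 (by linarith) (by linarith)) e2

lemma exists_rc {τ : ℂ} (hτ : 0 < τ.im) {m : ℕ} (hm : 0 < m) (w : ℤ × ℤ) (u : ℂ) :
    ∃ p, cd m w p ∧ u ∈ rc m τ.im (P τ p) := by
  have hm0 : (0 : ℝ) < m := by exact_mod_cast hm
  have key : ∀ (a : ℤ) (x : ℝ), ((a + m * ⌊(x - a) / m⌋ : ℤ) : ℝ) ≤ x ∧
      x < ((a + m * ⌊(x - a) / m⌋ : ℤ) : ℝ) + m := by
    intro a x
    have h2 := Int.floor_le ((x - a) / (m : ℝ))
    have h3 := Int.lt_floor_add_one ((x - a) / (m : ℝ))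
    rw [le_div_iff₀ hm0] at h2
    rw [div_lt_iff₀ hm0] at h3
    push_cast
    constructor <;> nlinarith
  set j : ℤ := w.2 + m * ⌊(u.im / τ.im - w.2) / m⌋ with hj
  have hj2 := key w.2 (u.im / τ.im)
  rw [← hj] at hj2
  set i : ℤ := w.1 + m * ⌊((u.re - j * τ.re) - w.1) / m⌋ with hi
  have hi2 := key w.1 (u.re - j * τ.re)
  rw [← hi] at hi2
  refine ⟨(i, j), ⟨by simp [hi], by simp [hj]⟩, ⟨?_, ?_⟩, ?_, ?_⟩
  · rw [P_re]; simp only; linarith [hi2.1]
  · rw [P_re]; simp only; linarith [hi2.2]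
  · rw [P_im]
    exact (le_div_iff₀ hτ).1 hj2.1
  · rw [P_im]
    have := (div_lt_iff₀ hτ).1 hj2.2
    simp only
    linarith

section Count

variable {τ : ℂ} {m : ℕ} {w : ℤ × ℤ} {x : ℝ}

/-- the disc with the origin -/
noncomputable def dz (τ : ℂ) (m : ℕ) (w : ℤ × ℤ) (x : ℝ) : Finset (ℤ × ℤ) :=
  (insert 0 (dl τ x)).filter (cd m w)

lemma mem_dz (hτ : 0 < τ.im) (hx : 0 ≤ x) {p : ℤ × ℤ} :
    p ∈ dz τ m w x ↔ ‖P τ p‖ ^ 2 ≤ x ∧ cd m w p := by
  unfold dz
  rw [mem_filter, mem_insert, mem_dl hτ]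
  constructor
  · rintro ⟨rfl | h, h2⟩
    · exact ⟨by simpa [P_zero] using hx, h2⟩
    · exact ⟨h.2, h2⟩
  · rintro ⟨h1, h2⟩
    by_cases hz : p = 0
    · exact ⟨Or.inl hz, h2⟩
    · exact ⟨Or.inr ⟨hz, h1⟩, h2⟩

/-- the union of the rectangles -/
def UU (τ : ℂ) (S : Finset (ℤ × ℤ)) (m : ℕ) : Set ℂ := ⋃ p ∈ S, rc m τ.im (P τ p)

lemma UU_sub (hτ : 0 < τ.im) (hx : 0 ≤ x) :
    UU τ (dz τ m w x) m ⊆ Metric.closedBall (0 : ℂ) (Real.sqrt x + m * (1 + τ.im)) := by
  intro u hu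
  unfold UU at hu
  rw [Set.mem_iUnion₂] at hu
  obtain ⟨p, hp, hpu⟩ := hu
  rw [mem_closedBall_zero_iff]
  have h2 := norm_sub_rc hpu
  have h3 : ‖P τ p‖ ≤ Real.sqrt x := Real.le_sqrt_of_sq_le ((mem_dz hτ hx).1 hp).1
  calc ‖u‖ = ‖(u - P τ p) + P τ p‖ := by rw [sub_add_cancel]
    _ ≤ ‖u - P τ p‖ + ‖P τ p‖ := norm_add_le _ _
    _ ≤ Real.sqrt x + m * (1 + τ.im) := by linarith

lemma sub_UU (hτ : 0 < τ.im) (hm : 0 < m) (hx : 0 ≤ x) :
    Metric.closedBall (0 : ℂ) (Real.sqrt x - m * (1 + τ.im)) ⊆ UU τ (dz τ m w x) m := by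
  intro u hu
  rw [mem_closedBall_zero_iff] at hu
  obtain ⟨p, hp, hpu⟩ := exists_rc hτ hm w u
  unfold UU
  rw [Set.mem_iUnion₂]
  refine ⟨p, (mem_dz hτ hx).2 ⟨?_, hp⟩, hpu⟩
  have h2 := norm_sub_rc hpu
  have h3 : ‖P τ p‖ ≤ Real.sqrt x := by
    calc ‖P τ p‖ = ‖u - (u - P τ p)‖ := by rw [sub_sub_cancel]
      _ ≤ ‖u‖ + ‖u - P τ p‖ := norm_sub_le _ _
      _ ≤ Real.sqrt x := by linarith
  rw [← Real.sq_sqrt hx]
  exact pow_le_pow_left₀ (norm_nonneg _) h3 2

lemma volume_UU (hτ : 0 < τ.im) (hm : 0 < m) (hx : 0 ≤ x) :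
    volume.real (UU τ (dz τ m w x) m) = (dz τ m w x).card * ((m : ℝ) ^ 2 * τ.im) := by
  unfold UU
  rw [measureReal_def, measure_biUnion_finset _ (fun z _ => measurableSet_rc m τ.im _),
      Finset.sum_congr rfl (fun z _ => volume_rc m hτ.le _), sum_const, nsmul_eq_mul,
      ENNReal.toReal_mul, ENNReal.toReal_natCast, ENNReal.toReal_ofReal (by positivity)]
  intro p hp p' hp' hne
  exact rc_disjoint hτ hm ((mem_dz hτ hx).1 hp).2 ((mem_dz hτ hx).1 hp').2 hne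

/-- COUNT -/
theorem count (hτ : 0 < τ.im) (hm : 0 < m) : ∃ C : ℝ, 0 < C ∧ ∀ (w : ℤ × ℤ) (Y : ℝ), 0 ≤ Y →
    |(((dl τ Y).filter (cd m w)).card : ℝ) - Real.pi * Y / ((m : ℝ) ^ 2 * τ.im)| ≤
      C * (Real.sqrt Y + 1) := by
  have hpi := Real.pi_pos
  have hm0 : (0 : ℝ) < m := by exact_mod_cast hm
  set D : ℝ := m * (1 + τ.im) with hD
  set V : ℝ := (m : ℝ) ^ 2 * τ.im with hV
  have hD0 : 0 < D := by positivity
  have hV0 : 0 < V := by positivity
  refine ⟨(2 * D + D ^ 2) * Real.pi / V + 1, by positivity, ?_⟩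
  intro w Y hY
  set r := Real.sqrt Y with hr
  have hr0 : 0 ≤ r := Real.sqrt_nonneg _
  have hrY : r ^ 2 = Y := Real.sq_sqrt hY
  have hc1 : (((dl τ Y).filter (cd m w)).card : ℝ) ≤ (dz τ m w Y).card := by
    have : ((dl τ Y).filter (cd m w)) ⊆ dz τ m w Y :=
      filter_subset_filter _ (subset_insert _ _)
    exact_mod_cast card_le_card this
  have hc2 : ((dz τ m w Y).card : ℝ) ≤ ((dl τ Y).filter (cd m w)).card + 1 := by
    have : dz τ m w Y ⊆ insert 0 ((dl τ Y).filter (cd m w)) := by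
      intro z hz
      unfold dz at hz
      rw [mem_filter, mem_insert] at hz
      rw [mem_insert, mem_filter]
      tauto
    exact_mod_cast (card_le_card this).trans (card_insert_le _ _)
  have hfin : volume (UU τ (dz τ m w Y) m) ≠ ⊤ :=
    ((measure_mono (UU_sub hτ hY)).trans_lt measure_closedBall_lt_top).ne
  have hup : ((dz τ m w Y).card : ℝ) * V ≤ (r + D) ^ 2 * Real.pi := by
    rw [hV, ← volume_UU hτ hm hY, ← volume_real_closedBall (by positivity : 0 ≤ r + D)]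
    exact measureReal_mono (UU_sub hτ hY) measure_closedBall_lt_top.ne
  have hlow : (r ^ 2 - 2 * D * r) * Real.pi ≤ ((dz τ m w Y).card : ℝ) * V := by
    rcases lt_or_ge r D with hlt | hge
    · have h1 : (r ^ 2 - 2 * D * r) * Real.pi ≤ 0 := by
        apply mul_nonpos_of_nonpos_of_nonneg _ Real.pi_pos.le
        nlinarith
      have : 0 ≤ ((dz τ m w Y).card : ℝ) * V := by positivity
      linarith
    · have h1 : (r - D) ^ 2 * Real.pi ≤ ((dz τ m w Y).card : ℝ) * V := by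
        rw [hV, ← volume_UU hτ hm hY, ← volume_real_closedBall (by linarith : 0 ≤ r - D)]
        exact measureReal_mono (sub_UU hτ hm hY) hfin
      nlinarith [sq_nonneg D]
  have hdiv : Real.pi * Y / V * V = Real.pi * r ^ 2 := by
    rw [div_mul_cancel₀ _ hV0.ne', hrY]
  have hCV : (2 * D + D ^ 2) * Real.pi / V * V = (2 * D + D ^ 2) * Real.pi :=
    div_mul_cancel₀ _ hV0.ne'
  set A := (2 * D + D ^ 2) * Real.pi / V with hA
  have hA0 : 0 < A := by positivity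
  rw [abs_le]
  constructor
  · have h1 : Real.pi * Y / V - A * r ≤ (dz τ m w Y).card := by
      apply le_of_mul_le_mul_right _ hV0
      rw [sub_mul, hdiv]
      refine le_trans ?_ hlow
      have : A * r * V = (2 * D + D ^ 2) * Real.pi * r := by rw [← hCV]; ring
      rw [this]
      have : 0 ≤ D ^ 2 * Real.pi * r := by positivity
      nlinarith
    nlinarith
  · have h1 : ((dz τ m w Y).card : ℝ) ≤ Real.pi * Y / V + A * (r + 1) := by
      apply le_of_mul_le_mul_right _ hV0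
      rw [add_mul, hdiv]
      refine hup.trans ?_
      have : A * (r + 1) * V = (2 * D + D ^ 2) * Real.pi * (r + 1) := by rw [← hCV]; ring
      rw [this]
      have : 0 ≤ D ^ 2 * Real.pi * r := by positivity
      have : 0 ≤ D * Real.pi := by positivity
      nlinarith
    nlinarith

/-- a crude bound -/
lemma card_dl_le (hτ : 0 < τ.im) : ∃ K : ℝ, 1 ≤ K ∧ ∀ x : ℝ, 1 ≤ x →
    ((dl τ x).card : ℝ) + 1 ≤ K * x := by
  obtain ⟨C, hC, h⟩ := count (τ := τ) (m := 1) hτ one_pos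
  have hpi := Real.pi_pos
  refine ⟨Real.pi / τ.im + 2 * C + 1, by have : 0 < Real.pi / τ.im := by positivity
                                         linarith, ?_⟩
  intro x hx
  have h1 := (abs_le.1 (h 0 x (by linarith))).2
  have h2 : (dl τ x).filter (cd 1 0) = dl τ x := by
    apply filter_true_of_mem
    intro p _
    exact ⟨by simp, by simp⟩
  rw [h2] at h1
  have h3 : Real.sqrt x ≤ x := by
    rw [Real.sqrt_le_left (by linarith)]
    nlinarith
  have h4 : Real.pi * x / (((1 : ℕ) : ℝ) ^ 2 * τ.im) = Real.pi / τ.im * x := by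
    push_cast
    rw [one_pow, one_mul]
    ring
  rw [h4] at h1
  nlinarith

end Count

/-- comparison of the sum with the integral -/
lemma small_aux {τ : ℂ} (hτ : 0 < τ.im) {m : ℕ} (hm : 0 < m) {K₁ : ℝ}
    (hK₁ : ∀ x : ℝ, 1 ≤ x → ((dl τ x).card : ℝ) + 1 ≤ K₁ * x) {k : ℤ} (hk : k ≠ 0)
    (w : ℤ × ℤ) {x : ℝ} (hx : 1 ≤ x) (hr : (m : ℝ) * (1 + τ.im) ≤ Real.sqrt x) :
    (m : ℝ) ^ 2 * τ.im * ‖∑ p ∈ (dl τ x).filter (cd m w), ph k (P τ p)‖ ≤
      (4 * Real.pi * (m * (1 + τ.im)) + (m : ℝ) ^ 2 * τ.im * (2 * K₁ * (m * (1 + τ.im)) + 2 * K₁))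
        * |(k : ℝ)| * x ^ (3 / 4 : ℝ) := by
  classical
  have hm1 : (1 : ℝ) ≤ m := by exact_mod_cast hm
  have hm0 : (0 : ℝ) < m := by linarith
  have hx0 : (0 : ℝ) ≤ x := by linarith
  set D : ℝ := m * (1 + τ.im) with hD
  set V : ℝ := (m : ℝ) ^ 2 * τ.im with hV
  have hD0 : 0 < D := by positivity
  have hV0 : 0 < V := by positivity
  set r := Real.sqrt x with hrdef
  have hr0 : 0 ≤ r := Real.sqrt_nonneg _
  have hr1 : 1 ≤ r := by rw [hrdef, Real.one_le_sqrt]; exact hx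
  have hrx : r ^ 2 = x := Real.sq_sqrt hx0
  have hk1 : (1 : ℝ) ≤ |(k : ℝ)| := by
    have : (1 : ℤ) ≤ |k| := Int.one_le_abs hk
    exact_mod_cast this
  have hK0 : 0 < K₁ := by
    have := hK₁ 1 le_rfl
    have h2 : (0 : ℝ) ≤ (dl τ 1).card := Nat.cast_nonneg _
    linarith
  set S1 := dz τ m w x with hS1
  have hmem : ∀ p, p ∈ S1 ↔ ‖P τ p‖ ^ 2 ≤ x ∧ cd m w p := fun p => mem_dz hτ hx0
  have hph0 : ph k (P τ 0) = 0 := by rw [P_zero, ph_zero hk]
  have hsum : ∑ p ∈ (dl τ x).filter (cd m w), ph k (P τ p) = ∑ p ∈ S1, ph k (P τ p) := by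
    apply sum_subset (filter_subset_filter _ (subset_insert _ _))
    intro p hp hp'
    rw [mem_filter, mem_insert] at hp
    rw [mem_filter] at hp'
    have : p = 0 := by tauto
    rw [this, hph0]
  have hS1card : (S1.card : ℝ) ≤ K₁ * x := by
    have h1 : S1.card ≤ (dl τ x).card + 1 := (card_filter_le _ _).trans (card_insert_le _ _)
    have h2 : (S1.card : ℝ) ≤ (dl τ x).card + 1 := by exact_mod_cast h1
    linarith [hK₁ x hx]
  set U : Set ℂ := UU τ S1 m with hU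
  set B := Metric.closedBall (0 : ℂ) r with hB
  have hUm : MeasurableSet U :=
    Finset.measurableSet_biUnion _ fun p _ => measurableSet_rc m τ.im (P τ p)
  have hBm : MeasurableSet B := Metric.isClosed_closedBall.measurableSet
  have hUsub : U ⊆ Metric.closedBall (0 : ℂ) (r + D) := UU_sub hτ hx0
  have hsubU : Metric.closedBall (0 : ℂ) (r - D) ⊆ U := sub_UU hτ hm hx0
  have hUfin : volume U < ⊤ := (measure_mono hUsub).trans_lt measure_closedBall_lt_top
  have hBfin : volume B < ⊤ := measure_closedBall_lt_top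
  have hUint : ∫ u in U, ph k u = ∑ p ∈ S1, ∫ u in rc m τ.im (P τ p), ph k u := by
    apply integral_biUnion_finset
    · exact fun z _ => measurableSet_rc m τ.im (P τ z)
    · intro z hz z' hz' hne
      exact rc_disjoint hτ hm ((hmem z).1 hz).2 ((hmem z').1 hz').2 hne
    · intro z _
      apply integrableOn_ph hk
      rw [volume_rc m hτ.le]
      exact ENNReal.ofReal_lt_top
  have h1 : ‖∫ u in U, ph k u‖ ≤ 4 * Real.pi * D * r := by
    have e1 := integral_inter_add_sdiff (μ := volume) (f := ph k) (s := U) (t := B) hBm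
      (integrableOn_ph hk hUfin)
    have e2 := integral_inter_add_sdiff (μ := volume) (f := ph k) (s := B) (t := U) hUm
      (integrableOn_ph hk hBfin)
    rw [integral_ph hk] at e2
    rw [Set.inter_comm] at e2
    have e3 : ∫ u in U, ph k u = (∫ u in U \ B, ph k u) - ∫ u in B \ U, ph k u := by
      rw [← e1]
      linear_combination e2
    have n1 : ‖∫ u in U \ B, ph k u‖ ≤ 1 * volume.real (U \ B) :=
      norm_setIntegral_le_of_norm_le_const
        ((measure_mono Set.sdiff_subset).trans_lt hUfin) fun u _ => norm_ph_le hk u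
    have n2 : ‖∫ u in B \ U, ph k u‖ ≤ 1 * volume.real (B \ U) :=
      norm_setIntegral_le_of_norm_le_const
        ((measure_mono Set.sdiff_subset).trans_lt hBfin) fun u _ => norm_ph_le hk u
    have v1 : volume.real (U \ B) + r ^ 2 * Real.pi ≤ (r + D) ^ 2 * Real.pi := by
      rw [← volume_real_closedBall hr0, ← volume_real_closedBall (by positivity),
        ← measureReal_union (by
          rw [Set.disjoint_left]
          exact fun u hu hu' => hu.2 hu') hBm ((measure_mono Set.sdiff_subset).trans_lt hUfin).ne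
          hBfin.ne]
      apply measureReal_mono _ measure_closedBall_lt_top.ne
      apply Set.union_subset (Set.sdiff_subset.trans hUsub)
      exact Metric.closedBall_subset_closedBall (by linarith)
    have v2 : volume.real (B \ U) + (r - D) ^ 2 * Real.pi ≤ r ^ 2 * Real.pi := by
      rw [← volume_real_closedBall hr0, ← volume_real_closedBall (by linarith),
        ← measureReal_union (by
          rw [Set.disjoint_left]
          exact fun u hu hu' => hu.2 (hsubU hu')) Metric.isClosed_closedBall.measurableSet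
          ((measure_mono Set.sdiff_subset).trans_lt hBfin).ne
          measure_closedBall_lt_top.ne]
      apply measureReal_mono _ measure_closedBall_lt_top.ne
      apply Set.union_subset Set.sdiff_subset
      exact Metric.closedBall_subset_closedBall (by linarith)
    rw [e3]
    refine (norm_sub_le _ _).trans ?_
    nlinarith
  have h2 : ∀ p ∈ S1, ‖(∫ u in rc m τ.im (P τ p), ph k u) - (V : ℂ) * ph k (P τ p)‖ ≤
      V * (if Real.sqrt x < ‖P τ p‖ ^ 2 then 2 * |(k : ℝ)| * D * x ^ (-(1 / 4) : ℝ)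
        else 2) := by
    intro p hp
    have hfin : volume (rc m τ.im (P τ p)) < ⊤ := by
      rw [volume_rc m hτ.le]; exact ENNReal.ofReal_lt_top
    have e1 : (V : ℂ) * ph k (P τ p) = ∫ _ in rc m τ.im (P τ p), ph k (P τ p) := by
      rw [setIntegral_const, volume_real_rc m hτ.le, Complex.real_smul]
    rw [e1, ← integral_sub (integrableOn_ph hk hfin) (integrableOn_const hfin.ne)]
    rw [mul_comm, hV, ← volume_real_rc m hτ.le (P τ p)]
    apply norm_setIntegral_le_of_norm_le_const hfin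
    intro u hu
    split_ifs with hlt
    · have hz0 : P τ p ≠ 0 := by
        intro h
        rw [h] at hlt
        have := Real.sqrt_nonneg x
        simp at hlt
        linarith
      have hzn : x ^ (1 / 4 : ℝ) ≤ ‖P τ p‖ := by
        have e : x ^ (1 / 4 : ℝ) = Real.sqrt (Real.sqrt x) := by
          rw [Real.sqrt_eq_rpow, Real.sqrt_eq_rpow, ← Real.rpow_mul hx0]
          norm_num
        rw [e]
        exact Real.sqrt_le_iff.2 ⟨norm_nonneg _, hlt.le⟩
      have hxp : (0 : ℝ) < x ^ (1 / 4 : ℝ) := Real.rpow_pos_of_pos (by linarith) _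
      refine (norm_ph_sub hk u hz0).trans ?_
      rw [Real.rpow_neg hx0, ← div_eq_mul_inv]
      have h5 := norm_sub_rc hu
      apply div_le_div₀ (by positivity) _ hxp hzn
      exact mul_le_mul_of_nonneg_left h5 (by positivity)
    · refine (norm_sub_le _ _).trans ?_
      have a1 := norm_ph_le hk u
      have a2 : ‖ph k (P τ p)‖ ≤ 1 := norm_ph_le hk _
      linarith
  have h3 : ∑ p ∈ S1, (if Real.sqrt x < ‖P τ p‖ ^ 2 then 2 * |(k : ℝ)| * D * x ^ (-(1 / 4) : ℝ)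
        else (2 : ℝ)) ≤ (K₁ * x) * (2 * |(k : ℝ)| * D * x ^ (-(1 / 4) : ℝ)) +
          (K₁ * Real.sqrt x) * 2 := by
    rw [sum_ite, sum_const, sum_const, nsmul_eq_mul, nsmul_eq_mul]
    apply add_le_add
    · apply mul_le_mul_of_nonneg_right _ (by positivity)
      refine le_trans ?_ hS1card
      exact_mod_cast card_filter_le _ _
    · apply mul_le_mul_of_nonneg_right _ (by norm_num)
      have hsub : S1.filter (fun p => ¬ Real.sqrt x < ‖P τ p‖ ^ 2) ⊆
          insert 0 (dl τ (Real.sqrt x)) := by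
        intro z hz
        rw [mem_filter] at hz
        rw [mem_insert, mem_dl hτ]
        by_cases h0 : z = 0
        · exact Or.inl h0
        · exact Or.inr ⟨h0, not_lt.1 hz.2⟩
      have h4 : ((S1.filter (fun p => ¬ Real.sqrt x < ‖P τ p‖ ^ 2)).card : ℝ) ≤
          (dl τ (Real.sqrt x)).card + 1 := by
        exact_mod_cast (card_le_card hsub).trans (card_insert_le _ _)
      linarith [hK₁ _ hr1]
  have h4 : ‖(V : ℂ) * ∑ p ∈ S1, ph k (P τ p)‖ ≤ 4 * Real.pi * D * r +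
      V * ((K₁ * x) * (2 * |(k : ℝ)| * D * x ^ (-(1 / 4) : ℝ)) + (K₁ * Real.sqrt x) * 2) := by
    have e1 : (V : ℂ) * ∑ p ∈ S1, ph k (P τ p) = (∫ u in U, ph k u) -
        ∑ p ∈ S1, ((∫ u in rc m τ.im (P τ p), ph k u) - (V : ℂ) * ph k (P τ p)) := by
      rw [sum_sub_distrib, hUint, mul_sum]
      ring
    rw [e1]
    refine (norm_sub_le _ _).trans (add_le_add h1 ?_)
    refine (norm_sum_le _ _).trans ((sum_le_sum h2).trans ?_)
    rw [← mul_sum]
    exact mul_le_mul_of_nonneg_left h3 (by positivity)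
  rw [norm_mul, Complex.norm_real, Real.norm_eq_abs, abs_of_pos hV0] at h4
  rw [hsum]
  refine h4.trans ?_
  have hx34 : x * x ^ (-(1 / 4) : ℝ) = x ^ (3 / 4 : ℝ) := by
    nth_rewrite 1 [← Real.rpow_one x]
    rw [← Real.rpow_add (by linarith)]
    norm_num
  have hr34 : r ≤ x ^ (3 / 4 : ℝ) := by
    rw [hrdef, Real.sqrt_eq_rpow]
    exact Real.rpow_le_rpow_of_exponent_le hx (by norm_num)
  have hy0 : 0 ≤ x ^ (3 / 4 : ℝ) := by positivity
  set y := x ^ (3 / 4 : ℝ) with hy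
  have hpi := Real.pi_pos
  have hky : y ≤ |(k : ℝ)| * y := by nlinarith
  have a1 : 4 * Real.pi * D * r ≤ 4 * Real.pi * D * (|(k : ℝ)| * y) :=
    mul_le_mul_of_nonneg_left (hr34.trans hky) (by positivity)
  have a2 : (K₁ * x) * (2 * |(k : ℝ)| * D * x ^ (-(1 / 4) : ℝ)) =
      2 * K₁ * D * (|(k : ℝ)| * y) := by
    rw [← hx34]; ring
  have a3 : (K₁ * r) * 2 ≤ 2 * K₁ * (|(k : ℝ)| * y) := by
    have := mul_le_mul_of_nonneg_left (hr34.trans hky) (by positivity : 0 ≤ 2 * K₁)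
    linarith
  have a4 : V * ((K₁ * x) * (2 * |(k : ℝ)| * D * x ^ (-(1 / 4) : ℝ)) + (K₁ * r) * 2) ≤
      V * (2 * K₁ * D * (|(k : ℝ)| * y) + 2 * K₁ * (|(k : ℝ)| * y)) := by
    apply mul_le_mul_of_nonneg_left _ hV0.le
    rw [a2]
    linarith
  calc _ ≤ 4 * Real.pi * D * (|(k : ℝ)| * y) +
      V * (2 * K₁ * D * (|(k : ℝ)| * y) + 2 * K₁ * (|(k : ℝ)| * y)) := add_le_add a1 a4
    _ = _ := by ring

/-- the bound for small frequencies -/
theorem small {τ : ℂ} (hτ : 0 < τ.im) {m : ℕ} (hm : 0 < m) : ∃ C : ℝ, 0 < C ∧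
    ∀ k : ℤ, k ≠ 0 → ∀ (w : ℤ × ℤ) (x : ℝ), 1 ≤ x →
      ‖∑ p ∈ (dl τ x).filter (cd m w), ph k (P τ p)‖ ≤ C * |(k : ℝ)| * x ^ (3 / 4 : ℝ) := by
  obtain ⟨K₁, hK1, hK₁⟩ := card_dl_le hτ
  have hm0 : (0 : ℝ) < m := by exact_mod_cast hm
  set D : ℝ := m * (1 + τ.im) with hD
  set V : ℝ := (m : ℝ) ^ 2 * τ.im with hV
  have hD0 : 0 < D := by positivity
  have hV0 : 0 < V := by positivity
  have hpi := Real.pi_pos
  set E : ℝ := 4 * Real.pi * D + V * (2 * K₁ * D + 2 * K₁) with hE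
  have hE0 : 0 < E := by positivity
  refine ⟨E / V + K₁ * D, by positivity, ?_⟩
  intro k hk w x hx
  have hk1 : (1 : ℝ) ≤ |(k : ℝ)| := by
    have : (1 : ℤ) ≤ |k| := Int.one_le_abs hk
    exact_mod_cast this
  have hy0 : 0 ≤ x ^ (3 / 4 : ℝ) := by positivity
  rcases le_or_gt D (Real.sqrt x) with h | h
  · have h1 := small_aux hτ hm hK₁ hk w hx h
    rw [← hV, ← hD, ← hE] at h1
    have h2 : ‖∑ p ∈ (dl τ x).filter (cd m w), ph k (P τ p)‖ ≤
        E / V * |(k : ℝ)| * x ^ (3 / 4 : ℝ) := by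
      rw [div_mul_eq_mul_div, div_mul_eq_mul_div, le_div_iff₀ hV0]
      linarith
    refine h2.trans ?_
    have : 0 ≤ K₁ * D * |(k : ℝ)| * x ^ (3 / 4 : ℝ) := by positivity
    nlinarith
  · have h1 : ‖∑ p ∈ (dl τ x).filter (cd m w), ph k (P τ p)‖ ≤ K₁ * x := by
      refine (norm_sum_le _ _).trans ?_
      refine (sum_le_card_nsmul _ _ 1 fun z _ => norm_ph_le hk _).trans ?_
      rw [nsmul_eq_mul, mul_one]
      have h2 : ((((dl τ x).filter (cd m w)).card : ℕ) : ℝ) ≤ (dl τ x).card := by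
        exact_mod_cast card_filter_le _ _
      linarith [hK₁ x hx]
    refine h1.trans ?_
    have hx0 : (0 : ℝ) ≤ x := by linarith
    have h2 : x = Real.sqrt x * Real.sqrt x := (Real.mul_self_sqrt hx0).symm
    have h3 : Real.sqrt x ≤ x ^ (3 / 4 : ℝ) := by
      rw [Real.sqrt_eq_rpow]
      exact Real.rpow_le_rpow_of_exponent_le hx (by norm_num)
    have h4 : 0 ≤ Real.sqrt x := Real.sqrt_nonneg _
    have h5 : x ≤ D * x ^ (3 / 4 : ℝ) := by
      calc x = Real.sqrt x * Real.sqrt x := h2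
        _ ≤ D * x ^ (3 / 4 : ℝ) := mul_le_mul h.le h3 h4 hD0.le
    have h6 : K₁ * x ≤ K₁ * D * x ^ (3 / 4 : ℝ) := by
      rw [mul_assoc]
      exact mul_le_mul_of_nonneg_left h5 (by linarith)
    have h7 : 0 ≤ K₁ * D * x ^ (3 / 4 : ℝ) := by positivity
    have h8 : 0 ≤ E / V * |(k : ℝ)| * x ^ (3 / 4 : ℝ) := by positivity
    have h9 : K₁ * D * x ^ (3 / 4 : ℝ) ≤ K₁ * D * |(k : ℝ)| * x ^ (3 / 4 : ℝ) := by
      calc K₁ * D * x ^ (3 / 4 : ℝ) = 1 * (K₁ * D * x ^ (3 / 4 : ℝ)) := by ring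
        _ ≤ |(k : ℝ)| * (K₁ * D * x ^ (3 / 4 : ℝ)) := mul_le_mul_of_nonneg_right hk1 h7
        _ = _ := by ring
    linarith [h6.trans h9, add_mul (E / V) (K₁ * D) (|(k : ℝ)| * x ^ (3 / 4 : ℝ))]

end Pool.Agent.Lib.MP391708.MA.Lat
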