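import Pool.Agent.Lib.MP_391708_nt.MA.LatA
import Pool.Agent.Lib.MP_391708_nt.MR.VDC

/-!
# TYPE for the lattice `ℤ + ℤ τ`: sums of `(z/|z|)^k` over discs and residue classes

`type`: for `0 < τ.im`, `A ≥ 1`, `m > 0` there is `c ∈ (0, 1)` so that for large `x` all sums with
`0 ≠ |k| ≤ x^A` over the points of a residue class modulo `m` are `≤ x^(1-c)`.
-/

set_option autoImplicit false

namespace Pool.Agent.Lib.MP391708.MA.Lat

open Finset Filter Topology MeasureTheory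
open scoped ComplexConjugate
open Pool.Agent.Lib.MP391708.MR.TypeM
open Pool.Agent.Lib.MP391708.MR (SpecVDC)

lemma ph_line (k : ℤ) (a : ℝ) {b : ℝ} (hb : 0 < b) :
    ph k ((a : ℂ) + (b : ℂ) * Complex.I) = Complex.I ^ k *
      Complex.exp (2 * Real.pi * Complex.I *
        (((-(k : ℝ) / (2 * Real.pi)) * Real.arctan (a / b) : ℝ) : ℂ)) := by
  set θ := Real.arctan (a / b) with hθ
  have hdir : ((a : ℂ) + (b : ℂ) * Complex.I) / ((‖(a : ℂ) + (b : ℂ) * Complex.I‖ : ℝ) : ℂ) =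
      Complex.I * Complex.exp (-(θ * Complex.I)) := by
    have hs : Real.sqrt (1 + (a / b) ^ 2) = Real.sqrt (a ^ 2 + b ^ 2) / b := by
      rw [← Real.sqrt_sq hb.le, ← Real.sqrt_div (by positivity), Real.sqrt_sq hb.le]
      congr 1
      field_simp
      ring
    have hpos : 0 < Real.sqrt (a ^ 2 + b ^ 2) := Real.sqrt_pos.2 (by positivity)
    have hn : ‖(a : ℂ) + (b : ℂ) * Complex.I‖ = Real.sqrt (a ^ 2 + b ^ 2) := by
      rw [Complex.norm_add_mul_I]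
    have hcos : Real.cos θ = b / Real.sqrt (a ^ 2 + b ^ 2) := by
      rw [hθ, Real.cos_arctan, hs, one_div_div]
    have hsin : Real.sin θ = a / Real.sqrt (a ^ 2 + b ^ 2) := by
      rw [hθ, Real.sin_arctan, hs, div_div_div_cancel_right₀ hb.ne']
    rw [hn, ← neg_mul, ← Complex.ofReal_neg, Complex.exp_mul_I, ← Complex.ofReal_cos,
      ← Complex.ofReal_sin, Real.cos_neg, Real.sin_neg, hcos, hsin]
    have hpc : ((Real.sqrt (a ^ 2 + b ^ 2) : ℝ) : ℂ) ≠ 0 := by exact_mod_cast hpos.ne'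
    push_cast
    field_simp
    linear_combination (a : ℂ) * Complex.I_sq
  unfold ph
  rw [hdir, mul_zpow, ← Complex.exp_int_mul]
  congr 2
  have hpi : (Real.pi : ℂ) ≠ 0 := by exact_mod_cast Real.pi_ne_zero
  push_cast
  field_simp

lemma P_eq (τ : ℂ) (p : ℤ × ℤ) :
    P τ p = (((p.1 : ℝ) + p.2 * τ.re : ℝ) : ℂ) + ((p.2 * τ.im : ℝ) : ℂ) * Complex.I := by
  apply Complex.ext
  · rw [P_re]; simp
  · rw [P_im]; simp

lemma norm_P_sq (τ : ℂ) (p : ℤ × ℤ) :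
    ‖P τ p‖ ^ 2 = ((p.1 : ℝ) + p.2 * τ.re) ^ 2 + (p.2 * τ.im) ^ 2 := by
  rw [← Complex.normSq_eq_norm_sq, Complex.normSq_apply, P_re, P_im]
  ring

lemma norm_ph_neg (k : ℤ) (u : ℂ) : ph k (-u) = (-1) ^ k * ph k u := by
  have := ph_mul (k := k) (ζ := -1) (by simp) u
  rwa [neg_one_mul] at this

lemma BND_ge_one {q d m : ℕ} {c Cq : ℝ} {k : ℤ} {ε s : ℝ} (hc : 0 < c) (hCq : 0 < Cq)
    (hε : 0 < ε) (hs : 0 < s) : 1 ≤ BND q d m c Cq k ε s := by
  have hLB0 : 0 ≤ LB q d m c k ε s := by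
    unfold LB
    have := Real.pi_pos
    positivity
  unfold BND
  have : 0 ≤ Cq * (1 / (c * ε ^ (d + 2 * q))) *
      ((2 * s) * (LB q d m c k ε s) ^ ((1 : ℝ) / (2 ^ q - 2)) +
      (2 * s) ^ (1 - 2 / (2 : ℝ) ^ (q - 1)) * (LB q d m c k ε s) ^ (-(1 : ℝ) / (2 ^ q - 2))) := by
    positivity
  linarith

lemma line_piece {q : ℕ} (hq : 2 ≤ q) {Cq : ℝ} (hCq : 0 < Cq) (hC : VDCq q Cq) {ρ : Finset ℝ}
    {c : ℝ} {d : ℕ} (hc : 0 < c) (hc1 : c ≤ 1)
    (hρ : ∀ ε : ℝ, 0 < ε → ∀ τ : ℝ, (∀ r ∈ ρ, ε ≤ |τ - r|) →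
      c * ε ^ d ≤ |(((τ : ℂ) + Complex.I) ^ q).im|)
    {m : ℕ} (hm : 0 < m) {k : ℤ} (hk : k ≠ 0) {s ε : ℝ} {b e : ℝ} (hs : 1 ≤ s) (hε : 0 < ε)
    (hε1 : ε ≤ 1) (hb : ε * s ≤ b) (hlb1 : LB q d m c k ε s ≤ 1) (G : Finset ℤ)
    (hmod : ∀ a ∈ G, ∀ a' ∈ G, (m : ℤ) ∣ a - a')
    (hconv : ∀ a₁ ∈ G, ∀ a₃ ∈ G, ∀ a₂, a₁ ≤ a₂ → a₂ ≤ a₃ → (m : ℤ) ∣ a₂ - a₁ → a₂ ∈ G)
    (hdisc : ∀ a ∈ G, ((a : ℝ) + e) ^ 2 + b ^ 2 ≤ s ^ 2)
    (hgood : ∀ a ∈ G, ∀ r ∈ ρ, ε ≤ |((a : ℝ) + e) / b - r|)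
    (hpat : ∀ a ∈ G, ∀ a' ∈ G, ∀ r ∈ ρ, (r < ((a : ℝ) + e) / b ↔ r < ((a' : ℝ) + e) / b)) :
    ‖∑ a ∈ G, ph k ((((a : ℝ) + e : ℝ) : ℂ) + (b : ℂ) * Complex.I)‖ ≤ BND q d m c Cq k ε s := by
  have hs0 : 0 < s := by linarith
  have hb0 : (0 : ℝ) < b := lt_of_lt_of_le (by positivity) hb
  have hm0 : (0 : ℝ) < m := by exact_mod_cast hm
  have hBND1 : 1 ≤ BND q d m c Cq k ε s := BND_ge_one hc hCq hε hs0
  have hLB0 : 0 < LB q d m c k ε s := by
    unfold LB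
    have := Real.pi_pos
    have hk0 : 0 < |(k : ℝ)| := abs_pos.2 (by exact_mod_cast hk)
    positivity
  rcases G.eq_empty_or_nonempty with rfl | hG
  · rw [sum_empty, norm_zero]; linarith
  obtain ⟨a, N, ha, ha', hsum⟩ := exists_prog hG hm hmod hconv
  rw [hsum (fun a => ph k ((((a : ℝ) + e : ℝ) : ℂ) + (b : ℂ) * Complex.I)), sum_range_succ]
  have hlast : ‖ph k (((((a + m * N : ℤ) : ℝ) + e : ℝ) : ℂ) + (b : ℂ) * Complex.I)‖ ≤ 1 :=
    norm_ph_le hk _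
  rcases Nat.eq_zero_or_pos N with rfl | hN
  · rw [sum_range_zero, zero_add]
    exact hlast.trans hBND1
  have hN2 : (N : ℝ) ≤ 2 * s := by
    have h1 := hdisc a ha
    have h2 := hdisc _ ha'
    have h3 : -s ≤ (a : ℝ) + e := by
      have : |(a : ℝ) + e| ≤ s := abs_le_of_sq_le_sq (by nlinarith [sq_nonneg b]) hs0.le
      exact (abs_le.1 this).1
    have h4 : ((a + m * N : ℤ) : ℝ) + e ≤ s := by
      have : |((a + m * N : ℤ) : ℝ) + e| ≤ s :=
        abs_le_of_sq_le_sq (by nlinarith [sq_nonneg b]) hs0.le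
      exact (abs_le.1 this).2
    push_cast at h4
    have h5 : (N : ℝ) ≤ m * N := by
      have : (1 : ℝ) ≤ m := by exact_mod_cast hm
      nlinarith [Nat.cast_nonneg (α := ℝ) N]
    linarith
  have hin : ∀ t ∈ Set.Icc (0 : ℝ) N, (((a : ℝ) + e) + m * t) ^ 2 + b ^ 2 ≤ s ^ 2 ∧
      ∀ r ∈ ρ, ε ≤ |(((a : ℝ) + e) + m * t) / b - r| := by
    intro t ht
    have h1 : (a : ℝ) + e ≤ ((a : ℝ) + e) + m * t := by nlinarith [ht.1]
    have h2 : ((a : ℝ) + e) + m * t ≤ ((a + m * N : ℤ) : ℝ) + e := by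
      push_cast
      have := mul_le_mul_of_nonneg_left ht.2 hm0.le
      linarith
    constructor
    · have e1 := hdisc a ha
      have e2 := hdisc _ ha'
      set u := ((a : ℝ) + e) + m * t
      set v := ((a + m * N : ℤ) : ℝ) + e
      rcases le_or_gt 0 u with h | h
      · nlinarith
      · nlinarith
    · exact (good_between hb0 (hgood a ha) (hgood _ ha') hε (hpat a ha _ ha') h1 h2).1
  have hv := vdc_line hq hC hc hc1 hρ hm hk (s := s) (ε := ε) (b := b) (a := (a : ℝ) + e) hs hε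
    hε1 hb (L := N) hN hin hlb1
  have e1 : ∑ n ∈ range N, ph k (((((a + m * n : ℤ) : ℝ) + e : ℝ) : ℂ) + (b : ℂ) * Complex.I) =
      Complex.I ^ k *
      ∑ n ∈ range N, Complex.exp (2 * Real.pi * Complex.I * (FF k m ((a : ℝ) + e) b n : ℂ)) := by
    rw [mul_sum]
    apply sum_congr rfl
    intro n _
    rw [ph_line k _ hb0]
    congr 3
    unfold FF
    have : (((a + m * n : ℤ) : ℝ) + e) = ((a : ℝ) + e) + m * n := by push_cast; ring
    rw [this]
  have hI : ‖(Complex.I ^ k : ℂ)‖ = 1 := by rw [norm_zpow, Complex.norm_I, one_zpow]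
  refine (norm_add_le _ _).trans ?_
  rw [e1, norm_mul, hI, one_mul]
  unfold BND
  rw [add_comm]
  apply add_le_add hlast
  refine hv.trans ?_
  apply mul_le_mul_of_nonneg_left _ (by positivity)
  have hN0 : (0 : ℝ) ≤ N := Nat.cast_nonneg _
  apply add_le_add
  · exact mul_le_mul_of_nonneg_right hN2 (by positivity)
  · apply mul_le_mul_of_nonneg_right _ (by positivity)
    apply Real.rpow_le_rpow hN0 hN2
    rw [sub_nonneg, div_le_one (by positivity)]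
    obtain ⟨j, rfl⟩ : ∃ j, q = j + 2 := ⟨q - 2, by omega⟩
    have : (2 : ℝ) ^ (j + 2 - 1) = 2 * 2 ^ j := by
      rw [show j + 2 - 1 = j + 1 by omega, pow_succ]; ring
    rw [this]
    have : (1 : ℝ) ≤ 2 ^ j := one_le_pow₀ (by norm_num)
    linarith

/-- a line with second coordinate `j` -/
lemma line_total {τ : ℂ} (hτ : 0 < τ.im) {q : ℕ} (hq : 2 ≤ q) {Cq : ℝ} (hCq : 0 < Cq)
    (hC : VDCq q Cq) {ρ : Finset ℝ} {c : ℝ} {d : ℕ} (hc : 0 < c) (hc1 : c ≤ 1)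
    (hρ : ∀ ε : ℝ, 0 < ε → ∀ τ : ℝ, (∀ r ∈ ρ, ε ≤ |τ - r|) →
      c * ε ^ d ≤ |(((τ : ℂ) + Complex.I) ^ q).im|)
    {m : ℕ} (hm : 0 < m) (w : ℤ × ℤ) {k : ℤ} (hk : k ≠ 0) {x s ε : ℝ} {j : ℤ} (hs : 1 ≤ s)
    (hx : x = s ^ 2) (hε : 0 < ε) (hε1 : ε ≤ 1) (hb : ε * s ≤ j * τ.im) (hbs : j * τ.im ≤ s)
    (hlb1 : LB q d m c k ε s ≤ 1) :
    ‖∑ p ∈ ((dl τ x).filter (cd m w)).filter (fun p => p.2 = j), ph k (P τ p)‖ ≤
      (ρ.card : ℝ) * (2 * ε * s + 1) + 2 ^ ρ.card * BND q d m c Cq k ε s := by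
  classical
  have hs0 : 0 < s := by linarith
  set b : ℝ := j * τ.im with hbdef
  set e : ℝ := j * τ.re with hedef
  have hb0 : (0 : ℝ) < b := lt_of_lt_of_le (by positivity) hb
  have hj0 : j ≠ 0 := by
    rintro rfl
    rw [hbdef] at hb0
    simp at hb0
  set D := ((dl τ x).filter (cd m w)).filter (fun p => p.2 = j) with hD
  have hDmem : ∀ p, p ∈ D ↔ p ≠ 0 ∧ ‖P τ p‖ ^ 2 ≤ x ∧ cd m w p ∧ p.2 = j := by
    intro p
    rw [hD, mem_filter, mem_filter, mem_dl hτ]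
    tauto
  set good : ℤ × ℤ → Prop := fun p => ∀ r ∈ ρ, ε ≤ |((p.1 : ℝ) + e) / b - r| with hgooddef
  set σ : ℤ × ℤ → Finset ℝ := fun p => ρ.filter (fun r => r < ((p.1 : ℝ) + e) / b) with hσ
  rw [← sum_filter_add_sum_filter_not D good]
  have hbad : ‖∑ p ∈ D.filter (fun p => ¬ good p), ph k (P τ p)‖ ≤
      (ρ.card : ℝ) * (2 * ε * s + 1) := by
    have h1 : ‖∑ p ∈ D.filter (fun p => ¬ good p), ph k (P τ p)‖ ≤
        ((D.filter (fun p => ¬ good p)).card : ℝ) := by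
      refine (norm_sum_le _ _).trans ?_
      refine (sum_le_card_nsmul _ _ 1 fun p _ => norm_ph_le hk _).trans ?_
      rw [nsmul_eq_mul, mul_one]
    refine h1.trans ?_
    have h2 : D.filter (fun p => ¬ good p) ⊆
        ρ.biUnion (fun r => D.filter (fun p => |((p.1 : ℝ) + e) / b - r| < ε)) := by
      intro p hp
      rw [mem_filter] at hp
      obtain ⟨hp1, hp2⟩ := hp
      rw [hgooddef] at hp2
      push Not at hp2
      obtain ⟨r, hr, hr2⟩ := hp2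
      rw [mem_biUnion]
      exact ⟨r, hr, mem_filter.2 ⟨hp1, hr2⟩⟩
    have h3 : ∀ r ∈ ρ, ((D.filter (fun p => |((p.1 : ℝ) + e) / b - r| < ε)).card : ℝ) ≤
        2 * ε * s + 1 := by
      intro r _
      have hinj : Set.InjOn (fun p : ℤ × ℤ => p.1)
          (D.filter (fun p => |((p.1 : ℝ) + e) / b - r| < ε)) := by
        intro p hp p' hp' h
        have e1 := ((hDmem p).1 (mem_filter.1 hp).1).2.2.2
        have e2 := ((hDmem p').1 (mem_filter.1 hp').1).2.2.2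
        exact Prod.ext h (e1.trans e2.symm)
      rw [← card_image_of_injOn hinj]
      refine (card_int_le _ (α := b * (r - ε) - e) (β := b * (r + ε) - e) (by nlinarith) ?_).trans ?_
      · intro a ha
        rw [mem_image] at ha
        obtain ⟨p, hp, rfl⟩ := ha
        have h4 := (mem_filter.1 hp).2
        rw [abs_lt] at h4
        have h5 : (p.1 : ℝ) = b * (((p.1 : ℝ) + e) / b) - e := by field_simp; ring
        rw [h5]
        constructor
        · apply sub_le_sub_right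
          apply mul_le_mul_of_nonneg_left _ hb0.le
          linarith
        · apply sub_le_sub_right
          apply mul_le_mul_of_nonneg_left _ hb0.le
          linarith
      · nlinarith
    calc ((D.filter (fun p => ¬ good p)).card : ℝ) ≤
        ((ρ.biUnion (fun r => D.filter (fun p => |((p.1 : ℝ) + e) / b - r| < ε))).card : ℝ) := by
          exact_mod_cast card_le_card h2
      _ ≤ ((∑ r ∈ ρ, (D.filter (fun p => |((p.1 : ℝ) + e) / b - r| < ε)).card : ℕ) : ℝ) := by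
          exact_mod_cast card_biUnion_le
      _ = ∑ r ∈ ρ, ((D.filter (fun p => |((p.1 : ℝ) + e) / b - r| < ε)).card : ℝ) := by
          push_cast; rfl
      _ ≤ ∑ r ∈ ρ, (2 * ε * s + 1) := sum_le_sum h3
      _ = (ρ.card : ℝ) * (2 * ε * s + 1) := by rw [sum_const, nsmul_eq_mul]
  have hgood : ‖∑ p ∈ D.filter good, ph k (P τ p)‖ ≤ 2 ^ ρ.card * BND q d m c Cq k ε s := by
    rw [← sum_fiberwise_of_maps_to (s := D.filter good) (t := ρ.powerset) (g := σ)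
      (fun z _ => mem_powerset.2 (filter_subset _ _))]
    refine (norm_sum_le _ _).trans ?_
    have h1 : ∀ T ∈ ρ.powerset, ‖∑ p ∈ (D.filter good).filter (fun p => σ p = T), ph k (P τ p)‖ ≤
        BND q d m c Cq k ε s := by
      intro T _
      set E := (D.filter good).filter (fun p => σ p = T) with hE
      have hEmem : ∀ p, p ∈ E ↔ p ∈ D ∧ good p ∧ σ p = T := by
        intro p
        rw [hE, mem_filter, mem_filter]
        tauto
      have hEb : ∀ p ∈ E, p = (p.1, j) := by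
        intro p hp
        exact Prod.ext rfl ((hDmem p).1 ((hEmem p).1 hp).1).2.2.2
      have hsum : ∑ p ∈ E, ph k (P τ p) = ∑ a ∈ (E.image (fun p : ℤ × ℤ => p.1) : Finset ℤ),
          ph k (((((a : ℤ) : ℝ) + e : ℝ) : ℂ) + (b : ℂ) * Complex.I) := by
        rw [sum_image]
        · apply sum_congr rfl
          intro p hp
          rw [P_eq]
          have : p.2 = j := by rw [hEb p hp]
          rw [this]
        · intro p hp p' hp' h
          rw [hEb p hp, hEb p' hp']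
          exact Prod.ext h rfl
      have hnm : ∀ a : ℤ, ‖P τ (a, j)‖ ^ 2 = ((a : ℝ) + e) ^ 2 + b ^ 2 := fun a => norm_P_sq τ _
      have hGmem : ∀ a, a ∈ E.image (fun p => p.1) ↔ (a, j) ∈ E := by
        intro a
        rw [mem_image]
        constructor
        · rintro ⟨p, hp, rfl⟩
          rw [← hEb p hp]
          exact hp
        · intro h
          exact ⟨_, h, rfl⟩
      have hpatE : ∀ a, (a, j) ∈ E → ∀ r ∈ ρ, (r < ((a : ℝ) + e) / b ↔ r ∈ T) := by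
        intro a ha r hr
        rw [← ((hEmem _).1 ha).2.2, hσ]
        simp only [mem_filter, hr, true_and]
      rw [hsum]
      apply line_piece hq hCq hC hc hc1 hρ hm hk hs hε hε1 hb hlb1
      · intro a ha a' ha'
        have e1 := ((hDmem _).1 ((hEmem _).1 ((hGmem a).1 ha)).1).2.2.1.1
        have e2 := ((hDmem _).1 ((hEmem _).1 ((hGmem a').1 ha')).1).2.2.1.1
        have := dvd_sub e1 e2
        rwa [sub_sub_sub_cancel_right] at this
      · intro a₁ h₁ a₃ h₃ a₂ h12 h23 hdiv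
        rw [hGmem] at h₁ h₃ ⊢
        have g1 := (hEmem _).1 h₁
        have g3 := (hEmem _).1 h₃
        have d1 := (hDmem _).1 g1.1
        have d3 := (hDmem _).1 g3.1
        have h12' : (a₁ : ℝ) + e ≤ (a₂ : ℝ) + e := by
          have : (a₁ : ℝ) ≤ a₂ := by exact_mod_cast h12
          linarith
        have h23' : (a₂ : ℝ) + e ≤ (a₃ : ℝ) + e := by
          have : (a₂ : ℝ) ≤ a₃ := by exact_mod_cast h23
          linarith
        have hbetw := good_between (u := (a₂ : ℝ) + e) hb0 g1.2.1 g3.2.1 hε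
          (fun r hr => (hpatE a₁ h₁ r hr).trans (hpatE a₃ h₃ r hr).symm) h12' h23'
        rw [hEmem]
        refine ⟨(hDmem _).2 ⟨?_, ?_, ⟨?_, d1.2.2.1.2⟩, rfl⟩, hbetw.1, ?_⟩
        · intro h
          exact hj0 (congrArg Prod.snd h)
        · have n1 := d1.2.1
          have n3 := d3.2.1
          rw [hnm] at n1 n3 ⊢
          rcases le_or_gt 0 ((a₂ : ℝ) + e) with h | h
          · nlinarith
          · nlinarith
        · have e1 := d1.2.2.1.1
          have := dvd_add hdiv e1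
          simpa using this
        · rw [← g1.2.2, hσ]
          apply filter_congr
          intro r hr
          exact hbetw.2 r hr
      · intro a ha
        have := ((hDmem _).1 ((hEmem _).1 ((hGmem a).1 ha)).1).2.1
        rw [hnm, hx] at this
        exact this
      · intro a ha
        exact ((hEmem _).1 ((hGmem a).1 ha)).2.1
      · intro a ha a' ha' r hr
        exact (hpatE a ((hGmem a).1 ha) r hr).trans (hpatE a' ((hGmem a').1 ha') r hr).symm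
    refine (sum_le_sum h1).trans ?_
    rw [sum_const, nsmul_eq_mul, card_powerset]
    push_cast
    exact le_rfl
  refine (norm_add_le _ _).trans ?_
  linarith

/-- trivial bound for a line -/
lemma line_trivial {τ : ℂ} (hτ : 0 < τ.im) {k : ℤ} (hk : k ≠ 0) (m : ℕ) (w : ℤ × ℤ) {x s : ℝ}
    (j : ℤ) (hs : 1 ≤ s) (hx : x = s ^ 2) :
    ‖∑ p ∈ ((dl τ x).filter (cd m w)).filter (fun p => p.2 = j), ph k (P τ p)‖ ≤ 3 * s := by
  classical
  have hs0 : 0 < s := by linarith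
  set D := ((dl τ x).filter (cd m w)).filter (fun p => p.2 = j) with hD
  have h1 : ‖∑ p ∈ D, ph k (P τ p)‖ ≤ (D.card : ℝ) := by
    refine (norm_sum_le _ _).trans ?_
    refine (sum_le_card_nsmul _ _ 1 fun z _ => norm_ph_le hk _).trans ?_
    rw [nsmul_eq_mul, mul_one]
  refine h1.trans ?_
  have hinj : Set.InjOn (fun p : ℤ × ℤ => p.1) D := by
    intro z hz z' hz' h
    have e1 := (mem_filter.1 (mem_coe.1 hz)).2
    have e2 := (mem_filter.1 (mem_coe.1 hz')).2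
    exact Prod.ext h (e1.trans e2.symm)
  rw [← card_image_of_injOn hinj]
  refine (card_int_le _ (α := -s - j * τ.re) (β := s - j * τ.re) (by linarith) ?_).trans
    (by linarith)
  intro a ha
  rw [mem_image] at ha
  obtain ⟨p, hp, rfl⟩ := ha
  rw [hD, mem_filter, mem_filter, mem_dl hτ, norm_P_sq, hx] at hp
  obtain ⟨⟨⟨h1, h2⟩, h3⟩, h4⟩ := hp
  rw [h4] at h2
  have := abs_le_of_sq_le_sq (by nlinarith [sq_nonneg ((j : ℝ) * τ.im)] :
    ((p.1 : ℝ) + j * τ.re) ^ 2 ≤ s ^ 2) hs0.le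
  have := abs_le.1 this
  constructor
  · linarith [this.1]
  · linarith [this.2]

/-- the upper half plane -/
lemma upper_half {τ : ℂ} (hτ : 0 < τ.im) {q : ℕ} (hq : 2 ≤ q) {Cq : ℝ} (hCq : 0 < Cq)
    (hC : VDCq q Cq) {ρ : Finset ℝ} {c : ℝ} {d : ℕ} (hc : 0 < c) (hc1 : c ≤ 1)
    (hρ : ∀ ε : ℝ, 0 < ε → ∀ τ : ℝ, (∀ r ∈ ρ, ε ≤ |τ - r|) →
      c * ε ^ d ≤ |(((τ : ℂ) + Complex.I) ^ q).im|)
    {m : ℕ} (hm : 0 < m) (w : ℤ × ℤ) {k : ℤ} (hk : k ≠ 0) {x s ε : ℝ} (hs : 1 ≤ s)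
    (hx : x = s ^ 2) (hε : 0 < ε)
    (hε1 : ε ≤ 1) (hlb1 : LB q d m c k ε s ≤ 1) :
    ‖∑ p ∈ ((dl τ x).filter (cd m w)).filter (fun p => 0 < p.2), ph k (P τ p)‖ ≤
      (3 * ε * s ^ 2 + s * ((ρ.card : ℝ) * (2 * ε * s + 1) +
        2 ^ ρ.card * BND q d m c Cq k ε s)) / τ.im := by
  classical
  have hs0 : 0 < s := by linarith
  set t := τ.im with ht
  set H := ((dl τ x).filter (cd m w)).filter (fun p => 0 < p.2) with hH
  set B := (ρ.card : ℝ) * (2 * ε * s + 1) + 2 ^ ρ.card * BND q d m c Cq k ε s with hB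
  have hBND0 : 0 ≤ BND q d m c Cq k ε s := by
    have := BND_ge_one (q := q) (d := d) (m := m) (k := k) hc hCq hε hs0
    linarith
  have hB0 : 0 ≤ B := by positivity
  have hmaps : ∀ p ∈ H, p.2 ∈ Icc 1 ⌊s / t⌋ := by
    intro p hp
    rw [hH, mem_filter, mem_filter, mem_dl hτ, norm_P_sq, hx] at hp
    rw [mem_Icc]
    refine ⟨hp.2, Int.le_floor.2 ?_⟩
    rw [le_div_iff₀ hτ]
    have := abs_le_of_sq_le_sq (by nlinarith [sq_nonneg ((p.1 : ℝ) + p.2 * τ.re), hp.1.1.2] :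
      ((p.2 : ℝ) * t) ^ 2 ≤ s ^ 2) hs0.le
    exact (abs_le.1 this).2
  rw [← sum_fiberwise_of_maps_to hmaps]
  refine (norm_sum_le _ _).trans ?_
  have h1 : ∀ j ∈ Icc 1 ⌊s / t⌋, ‖∑ p ∈ H.filter (fun p => p.2 = j), ph k (P τ p)‖ ≤
      (if (j : ℝ) < ε * s / t then 3 * s else 0) + B := by
    intro j hj
    rw [mem_Icc] at hj
    have hbs : (j : ℝ) * t ≤ s := (le_div_iff₀ hτ).1 (Int.le_floor.1 hj.2)
    have e1 : H.filter (fun p => p.2 = j) =
        ((dl τ x).filter (cd m w)).filter (fun p => p.2 = j) := by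
      ext p
      rw [hH]
      simp only [Finset.mem_filter (p := fun p : ℤ × ℤ => p.2 = j),
        Finset.mem_filter (p := fun p : ℤ × ℤ => 0 < p.2)]
      constructor
      · rintro ⟨⟨h1, _⟩, h2⟩
        exact ⟨h1, h2⟩
      · rintro ⟨h1, h2⟩
        refine ⟨⟨h1, ?_⟩, h2⟩
        rw [h2]; omega
    rw [e1]
    split_ifs with hlt
    · have := line_trivial hτ hk m w j hs hx
      linarith
    · rw [zero_add]
      have hb : ε * s ≤ j * τ.im := (div_le_iff₀ hτ).1 (not_lt.1 hlt)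
      exact line_total hτ hq hCq hC hc hc1 hρ hm w hk hs hx hε hε1 hb hbs hlb1
  refine (sum_le_sum h1).trans ?_
  rw [sum_add_distrib, add_div]
  have hcard : ((Icc 1 ⌊s / t⌋ : Finset ℤ).card : ℝ) ≤ s / t := by
    have hst : 0 < s / t := by positivity
    have := card_int_le (Icc 1 ⌊s / t⌋) (α := 1) (β := s / t) (by linarith) (by
      intro a ha
      rw [mem_Icc] at ha
      exact ⟨by exact_mod_cast ha.1, Int.le_floor.1 ha.2⟩)
    linarith
  apply add_le_add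
  · rw [← sum_filter, sum_const, nsmul_eq_mul]
    have hpos : 0 < ε * s / t := by positivity
    have : (((Icc 1 ⌊s / t⌋ : Finset ℤ).filter (fun j : ℤ => (j : ℝ) < ε * s / t)).card : ℝ) ≤
        ε * s / t := by
      have := card_int_le ((Icc 1 ⌊s / t⌋ : Finset ℤ).filter (fun j : ℤ => (j : ℝ) < ε * s / t))
          (α := 1) (β := ε * s / t) (by linarith) (by
          intro a ha
          rw [mem_filter, mem_Icc] at ha
          exact ⟨by exact_mod_cast ha.1.1, ha.2.le⟩)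
      linarith
    calc _ ≤ ε * s / t * (3 * s) := mul_le_mul_of_nonneg_right this (by positivity)
      _ = _ := by ring
  · rw [sum_const, nsmul_eq_mul]
    calc _ ≤ s / t * B := mul_le_mul_of_nonneg_right hcard hB0
      _ = _ := by ring

/-- the whole disc -/
lemma type_large {τ : ℂ} (hτ : 0 < τ.im) {q : ℕ} (hq : 2 ≤ q) {Cq : ℝ} (hCq : 0 < Cq)
    (hC : VDCq q Cq) {ρ : Finset ℝ} {c : ℝ} {d : ℕ} (hc : 0 < c) (hc1 : c ≤ 1)
    (hρ : ∀ ε : ℝ, 0 < ε → ∀ τ : ℝ, (∀ r ∈ ρ, ε ≤ |τ - r|) →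
      c * ε ^ d ≤ |(((τ : ℂ) + Complex.I) ^ q).im|)
    {m : ℕ} (hm : 0 < m) (w : ℤ × ℤ) {k : ℤ} (hk : k ≠ 0) {x s ε : ℝ} (hs : 1 ≤ s)
    (hx : x = s ^ 2) (hε : 0 < ε)
    (hε1 : ε ≤ 1) (hlb1 : LB q d m c k ε s ≤ 1) :
    ‖∑ p ∈ (dl τ x).filter (cd m w), ph k (P τ p)‖ ≤
      2 * ((3 * ε * s ^ 2 + s * ((ρ.card : ℝ) * (2 * ε * s + 1) +
        2 ^ ρ.card * BND q d m c Cq k ε s)) / τ.im) + 3 * s := by
  classical
  set D := (dl τ x).filter (cd m w) with hD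
  have hU := upper_half hτ hq hCq hC hc hc1 hρ hm w hk hs hx hε hε1 hlb1
  have hU' := upper_half hτ hq hCq hC hc hc1 hρ hm (-w) hk hs hx hε hε1 hlb1
  have h0 := line_trivial hτ hk m w 0 hs hx
  rw [← hD] at hU h0
  have hneg : ‖∑ p ∈ D.filter (fun p => p.2 < 0), ph k (P τ p)‖ ≤
      (3 * ε * s ^ 2 + s * ((ρ.card : ℝ) * (2 * ε * s + 1) +
        2 ^ ρ.card * BND q d m c Cq k ε s)) / τ.im := by
    refine le_trans (le_of_eq ?_) hU'
    have key : ∑ p ∈ D.filter (fun p => p.2 < 0), ph k (P τ p) = (-1) ^ k *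
        ∑ p ∈ ((dl τ x).filter (cd m (-w))).filter (fun p => 0 < p.2), ph k (P τ p) := by
      rw [mul_sum]
      apply sum_nbij' (fun p => -p) (fun p => -p)
      · intro p hp
        rw [mem_filter, hD, mem_filter, mem_dl hτ] at hp
        obtain ⟨⟨⟨h1, h2⟩, h3, h4⟩, h5⟩ := hp
        rw [mem_filter, mem_filter, mem_dl hτ]
        refine ⟨⟨⟨neg_ne_zero.2 h1, ?_⟩, ?_, ?_⟩, ?_⟩
        · rwa [P_neg, norm_neg]
        · have : (-p).1 - (-w).1 = -(p.1 - w.1) := by simp; ring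
          rw [this, dvd_neg]; exact h3
        · have : (-p).2 - (-w).2 = -(p.2 - w.2) := by simp; ring
          rw [this, dvd_neg]; exact h4
        · simpa using h5
      · intro p hp
        rw [mem_filter, mem_filter, mem_dl hτ] at hp
        obtain ⟨⟨⟨h1, h2⟩, h3, h4⟩, h5⟩ := hp
        rw [mem_filter, hD, mem_filter, mem_dl hτ]
        refine ⟨⟨⟨neg_ne_zero.2 h1, ?_⟩, ?_, ?_⟩, ?_⟩
        · rwa [P_neg, norm_neg]
        · have : (-p).1 - w.1 = -(p.1 - (-w).1) := by simp; ring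
          rw [this, dvd_neg]; exact h3
        · have : (-p).2 - w.2 = -(p.2 - (-w).2) := by simp; ring
          rw [this, dvd_neg]; exact h4
        · simpa using h5
      · intro p _; exact neg_neg p
      · intro p _; exact neg_neg p
      · intro p _
        rw [P_neg, norm_ph_neg, ← mul_assoc, ← mul_zpow]
        simp
    rw [key, norm_mul, norm_zpow, norm_neg, norm_one, one_zpow, one_mul]
  have hsplit : ∑ p ∈ D, ph k (P τ p) = ∑ p ∈ D.filter (fun p => 0 < p.2), ph k (P τ p) +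
      (∑ p ∈ D.filter (fun p => p.2 = 0), ph k (P τ p) +
        ∑ p ∈ D.filter (fun p => p.2 < 0), ph k (P τ p)) := by
    rw [← sum_filter_add_sum_filter_not D (fun p => 0 < p.2)]
    congr 1
    rw [← sum_filter_add_sum_filter_not (D.filter (fun p => ¬ 0 < p.2)) (fun p => p.2 = 0)]
    congr 1
    · apply sum_congr _ fun _ _ => rfl
      ext p
      simp only [mem_filter]
      constructor
      · rintro ⟨⟨h1, _⟩, h2⟩; exact ⟨h1, h2⟩
      · rintro ⟨h1, h2⟩; exact ⟨⟨h1, by omega⟩, h2⟩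
    · apply sum_congr _ fun _ _ => rfl
      ext p
      simp only [mem_filter]
      constructor
      · rintro ⟨⟨h1, h3⟩, h2⟩; exact ⟨h1, by omega⟩
      · rintro ⟨h1, h2⟩; exact ⟨⟨h1, by omega⟩, by omega⟩
  rw [hsplit]
  have := norm_add₃_le (a := ∑ p ∈ D.filter (fun p => 0 < p.2), ph k (P τ p))
    (b := ∑ p ∈ D.filter (fun p => p.2 = 0), ph k (P τ p))
    (c := ∑ p ∈ D.filter (fun p => p.2 < 0), ph k (P τ p))
  rw [← add_assoc]
  linarith

/-- middle range of frequencies -/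
lemma type_mid {τ : ℂ} (hτ : 0 < τ.im) (hV : SpecVDC) {q : ℕ} (hq : 2 ≤ q) {m : ℕ} (hm : 0 < m)
    {κ : ℝ} (hκ : ((q : ℝ) / 2 - κ) / (2 ^ q - 2) < 2 / 2 ^ q) :
    ∃ c' : ℝ, 0 < c' ∧ c' < 1 ∧ ∀ᶠ x : ℝ in atTop, ∀ k : ℤ, k ≠ 0 → x ^ κ ≤ |(k : ℝ)| →
      |(k : ℝ)| ≤ x ^ (((q : ℝ) - 1) / 2) → ∀ w : ℤ × ℤ,
        ‖∑ p ∈ (dl τ x).filter (cd m w), ph k (P τ p)‖ ≤ x ^ (1 - c') := by
  obtain ⟨Cq, hCq, hC⟩ := hV q hq
  obtain ⟨ρ, c, d, hc, hc1, hρ⟩ := exists_lower q (by omega)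
  have hpi := Real.pi_pos
  have hq2 : (2 : ℝ) ^ 2 ≤ 2 ^ q := pow_le_pow_right₀ (by norm_num) hq
  have hq2' : (0 : ℝ) < 2 ^ q - 2 := by norm_num at hq2; linarith
  set e : ℝ := 1 / (2 ^ q - 2) with he
  have he0 : 0 < e := by rw [he]; positivity
  have he2 : e ≤ 1 / 2 := by
    rw [he, div_le_div_iff₀ hq2' (by norm_num)]; norm_num at hq2; linarith
  have hκ' : 0 < 2 / 2 ^ q - ((q : ℝ) / 2 - κ) * e := by
    rw [he, mul_one_div]; linarith
  set g := min (e / 2) (2 / 2 ^ q - ((q : ℝ) / 2 - κ) * e) with hg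
  have hg0 : 0 < g := lt_min (by positivity) hκ'
  have hqR : (2 : ℝ) ≤ q := by exact_mod_cast hq
  have hd0 : (0 : ℝ) ≤ d := Nat.cast_nonneg _
  set δ := g / (2 * (2 * d + 3 * q)) with hδdef
  have hδ0 : 0 < δ := by positivity
  have hδ : δ * (2 * d + 3 * q) = g / 2 := by
    have hden : (2 * (2 * (d : ℝ) + 3 * q)) ≠ 0 := by positivity
    rw [hδdef, div_mul_eq_mul_div, div_eq_div_iff hden two_ne_zero]
    ring
  have hg4 : g ≤ 1 / 4 := (min_le_left _ _).trans (by linarith)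
  have hδg : δ ≤ g / 2 := by
    rw [← hδ]
    nlinarith
  set K := ((q - 1).factorial : ℝ) * (m : ℝ) ^ q / (2 * Real.pi) * c with hK
  set C₃ := 2 * Cq / c * (K ^ e + K ^ (-e)) with hC₃
  have hm0 : (0 : ℝ) < m := by exact_mod_cast hm
  have hK0 : 0 < K := by positivity
  have hC₃0 : 0 < C₃ := by positivity
  set C₄ : ℝ := (9 + 6 * ρ.card + 2 * 2 ^ ρ.card + 2 * 2 ^ ρ.card * C₃) / τ.im + 3 with hC₄
  refine ⟨δ / 2, by positivity, by linarith, ?_⟩
  filter_upwards [eventually_ge_atTop (1 : ℝ),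
    eventually_const_mul_le (C := K) (a := -(1 / 2)) (b := 0) (by norm_num),
    eventually_const_mul_le (C := C₄) (a := 1 - δ) (b := 1 - δ / 2) (by linarith)]
    with x hx hx1 hx2
  intro k hk hk1 hk2 w
  have hx0 : 0 < x := by linarith
  rw [Real.rpow_zero] at hx1
  obtain ⟨b1, b2⟩ := BND_le hq hm hc hCq he hg0 (min_le_left _ _) (min_le_right _ _) hδ hδ0 hx hk
    hk1 hk2
  have hs1 : 1 ≤ x ^ (1 / 2 : ℝ) := Real.one_le_rpow hx (by norm_num)
  have hsx : x = (x ^ (1 / 2 : ℝ)) ^ 2 := by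
    rw [← Real.rpow_natCast, ← Real.rpow_mul hx0.le]; norm_num
  have hε1 : x ^ (-δ) ≤ 1 := Real.rpow_le_one_of_one_le_of_nonpos hx (by linarith)
  have h := type_large hτ hq hCq hC hc hc1 hρ hm w hk hs1 hsx (by positivity) hε1 (b1.trans hx1)
  refine h.trans (le_trans ?_ hx2)
  set s := x ^ (1 / 2 : ℝ) with hs
  set y := x ^ (1 - δ) with hy
  have e1 : x ^ (-δ) * s ^ 2 = y := by
    rw [← hsx, hy]
    nth_rewrite 2 [← Real.rpow_one x]
    rw [← Real.rpow_add hx0]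
    congr 1; ring
  have e2 : s ≤ y := Real.rpow_le_rpow_of_exponent_le hx (by linarith)
  have e3 : s * x ^ (1 / 2 - g / 2) ≤ y := by
    rw [hs, ← Real.rpow_add hx0]
    exact Real.rpow_le_rpow_of_exponent_le hx (by linarith)
  have hρ0 : (0 : ℝ) ≤ ρ.card := Nat.cast_nonneg _
  have hs0 : 0 < s := by positivity
  have h2ρ : (0 : ℝ) < 2 ^ ρ.card := by positivity
  have hmain : 2 * (3 * x ^ (-δ) * s ^ 2 + s * ((ρ.card : ℝ) * (2 * x ^ (-δ) * s + 1) +
        2 ^ ρ.card * BND q d m c Cq k (x ^ (-δ)) s)) ≤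
        (9 + 6 * ρ.card + 2 * 2 ^ ρ.card + 2 * 2 ^ ρ.card * C₃) * y := by
    have h3s : 0 ≤ 3 * s := by positivity
    calc 2 * (3 * x ^ (-δ) * s ^ 2 + s * ((ρ.card : ℝ) * (2 * x ^ (-δ) * s + 1) +
        2 ^ ρ.card * BND q d m c Cq k (x ^ (-δ)) s))
      ≤ 2 * (3 * x ^ (-δ) * s ^ 2 + s * ((ρ.card : ℝ) * (2 * x ^ (-δ) * s + 1) +
        2 ^ ρ.card * (1 + C₃ * x ^ (1 / 2 - g / 2)))) + 3 * s := by
          have : 2 * (3 * x ^ (-δ) * s ^ 2 + s * ((ρ.card : ℝ) * (2 * x ^ (-δ) * s + 1) +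
            2 ^ ρ.card * BND q d m c Cq k (x ^ (-δ)) s)) ≤
            2 * (3 * x ^ (-δ) * s ^ 2 + s * ((ρ.card : ℝ) * (2 * x ^ (-δ) * s + 1) +
            2 ^ ρ.card * (1 + C₃ * x ^ (1 / 2 - g / 2)))) := by gcongr
          linarith
    _ = 6 * (x ^ (-δ) * s ^ 2) + 4 * ρ.card * (x ^ (-δ) * s ^ 2) + 2 * ρ.card * s +
        2 * 2 ^ ρ.card * s + 2 * 2 ^ ρ.card * C₃ * (s * x ^ (1 / 2 - g / 2)) + 3 * s := by ring
    _ ≤ _ := by
        rw [e1]
        exact num2 hρ0 h2ρ.le hC₃0.le e2 e3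
  calc _ = (2 * (3 * x ^ (-δ) * s ^ 2 + s * ((ρ.card : ℝ) * (2 * x ^ (-δ) * s + 1) +
        2 ^ ρ.card * BND q d m c Cq k (x ^ (-δ)) s))) / τ.im + 3 * s := by ring
    _ ≤ ((9 + 6 * ρ.card + 2 * 2 ^ ρ.card + 2 * 2 ^ ρ.card * C₃) * y) / τ.im + 3 * y := by
        apply add_le_add (div_le_div_of_nonneg_right hmain hτ.le)
        linarith
    _ = C₄ * y := by rw [hC₄]; ring

/-- all frequencies up to `x^(n/2)` -/
lemma type_ind {τ : ℂ} (hτ : 0 < τ.im) (hV : SpecVDC) {m : ℕ} (hm : 0 < m) (n : ℕ) (hn : 1 ≤ n) :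
    ∃ c' : ℝ, 0 < c' ∧ c' < 1 ∧ ∀ᶠ x : ℝ in atTop, ∀ k : ℤ, k ≠ 0 →
      |(k : ℝ)| ≤ x ^ ((n : ℝ) / 2) → ∀ w : ℤ × ℤ,
        ‖∑ p ∈ (dl τ x).filter (cd m w), ph k (P τ p)‖ ≤ x ^ (1 - c') := by
  induction n, hn using Nat.le_induction with
  | base =>
    obtain ⟨c₁, h1, h2, h3⟩ := type_mid hτ hV (q := 2) le_rfl hm (κ := 1 / 8) (by norm_num)
    obtain ⟨C, hC0, hC⟩ := small hτ hm
    refine ⟨min c₁ (1 / 16), by positivity, (min_le_left _ _).trans_lt h2, ?_⟩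
    filter_upwards [h3, eventually_ge_atTop (1 : ℝ),
      eventually_const_mul_le (C := C) (a := 7 / 8) (b := 15 / 16) (by norm_num)]
      with x hx hx1 hx2
    intro k hk hk2 w
    have hx0 : 0 < x := by linarith
    rcases le_or_gt (x ^ (1 / 8 : ℝ)) |(k : ℝ)| with hk1 | hk1
    · refine (hx k hk hk1 ?_ w).trans ?_
      · norm_num at hk2 ⊢
        exact hk2
      · apply Real.rpow_le_rpow_of_exponent_le hx1
        linarith [min_le_left c₁ (1 / 16 : ℝ)]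
    · refine (hC k hk w x hx1).trans ?_
      calc C * |(k : ℝ)| * x ^ (3 / 4 : ℝ) ≤
          C * x ^ (1 / 8 : ℝ) * x ^ (3 / 4 : ℝ) := by gcongr
        _ = C * x ^ (7 / 8 : ℝ) := by
          rw [mul_assoc, ← Real.rpow_add hx0]; norm_num
        _ ≤ x ^ (15 / 16 : ℝ) := hx2
        _ ≤ _ := by
          apply Real.rpow_le_rpow_of_exponent_le hx1
          linarith [min_le_right c₁ (1 / 16 : ℝ)]
  | succ n hn ih =>
    obtain ⟨c₀, i1, i2, i3⟩ := ih
    have hcond : (((n + 2 : ℕ) : ℝ) / 2 - (n : ℝ) / 2) / (2 ^ (n + 2) - 2) < 2 / 2 ^ (n + 2) := by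
      have h8 : (2 : ℝ) ^ 3 ≤ 2 ^ (n + 2) := pow_le_pow_right₀ (by norm_num) (by omega)
      norm_num at h8
      rw [div_lt_div_iff₀ (by linarith) (by positivity)]
      push_cast
      nlinarith
    obtain ⟨c₁, h1, h2, h3⟩ := type_mid hτ hV (q := n + 2) (by omega) hm (κ := (n : ℝ) / 2) hcond
    refine ⟨min c₀ c₁, lt_min i1 h1, (min_le_left _ _).trans_lt i2, ?_⟩
    filter_upwards [i3, h3, eventually_ge_atTop (1 : ℝ)] with x hx hx' hx1
    intro k hk hk2 w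
    rcases le_or_gt |(k : ℝ)| (x ^ ((n : ℝ) / 2)) with hk1 | hk1
    · refine (hx k hk hk1 w).trans ?_
      apply Real.rpow_le_rpow_of_exponent_le hx1
      linarith [min_le_left c₀ c₁]
    · refine (hx' k hk hk1.le ?_ w).trans ?_
      · push_cast at hk2 ⊢
        have : ((n : ℝ) + 2 - 1) / 2 = ((n : ℝ) + 1) / 2 := by ring
        rw [this]
        exact hk2
      · apply Real.rpow_le_rpow_of_exponent_le hx1
        linarith [min_le_right c₀ c₁]

/-- TYPE for the lattice `ℤ + ℤ τ` -/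
theorem type {τ : ℂ} (hτ : 0 < τ.im) {A : ℝ} (hA : 1 ≤ A) {m : ℕ} (hm : 0 < m) :
    ∃ c : ℝ, 0 < c ∧ c < 1 ∧ ∀ᶠ x : ℝ in atTop, ∀ k : ℤ, k ≠ 0 → |(k : ℝ)| ≤ x ^ A →
      ∀ w : ℤ × ℤ, ‖∑ p ∈ (dl τ x).filter (cd m w), ph k (P τ p)‖ ≤ x ^ (1 - c) := by
  have hn : 1 ≤ ⌈2 * A⌉₊ := by
    apply Nat.one_le_iff_ne_zero.2
    intro h
    rw [Nat.ceil_eq_zero] at h
    linarith
  obtain ⟨c, h1, h2, h3⟩ := type_ind hτ Pool.Agent.Lib.MP391708.MR.specVDC hm ⌈2 * A⌉₊ hn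
  refine ⟨c, h1, h2, ?_⟩
  filter_upwards [h3, eventually_ge_atTop (1 : ℝ)] with x hx hx1
  intro k hk hk2 w
  refine hx k hk (hk2.trans ?_) w
  apply Real.rpow_le_rpow_of_exponent_le hx1
  have := Nat.le_ceil (2 * A)
  linarith

end Pool.Agent.Lib.MP391708.MA.Lat
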