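import Pool.Agent.Lib.MP_391708_nt.MA.Spec
import Pool.Agent.Lib.MP_391708_nt.MA.LatA

/-!
# LATC in the form of the Spec (`LatTM`: reduction of `lt e₁ e₂` to `ℤ + ℤ (e₂ / e₁)`)
-/

set_option autoImplicit false

namespace Pool.Agent.Lib.MP391708.MA

open Finset Filter Topology
open scoped ComplexConjugate Classical
open Pool.Agent.Lib.MP391708.MR.TypeM (ph ph_mul norm_ph)

namespace LatTM

lemma conj_mul_im {e₁ e₂ : ℂ} (h : 0 < (conj e₁ * e₂).im) :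
    e₁ ≠ 0 ∧ (e₂ / e₁).im = (conj e₁ * e₂).im / ‖e₁‖ ^ 2 ∧ 0 < (e₂ / e₁).im := by
  have h0 : e₁ ≠ 0 := by
    rintro rfl
    simp at h
  have hn : 0 < ‖e₁‖ ^ 2 := by positivity
  have h1 : (e₂ / e₁).im = (conj e₁ * e₂).im / ‖e₁‖ ^ 2 := by
    have : e₂ / e₁ = (conj e₁ * e₂) / (((‖e₁‖ ^ 2 : ℝ)) : ℂ) := by
      rw [← Complex.normSq_eq_norm_sq, Complex.normSq_eq_conj_mul_self]
      have hc : conj e₁ ≠ 0 := by rwa [Ne, map_eq_zero]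
      rw [mul_div_mul_left _ _ hc]
    rw [this, Complex.div_ofReal_im]
  exact ⟨h0, h1, by rw [h1]; positivity⟩

lemma lt_eq {e₁ e₂ : ℂ} (h : e₁ ≠ 0) (p : ℤ × ℤ) : lt e₁ e₂ p = e₁ * Lat.P (e₂ / e₁) p := by
  unfold lt Lat.P
  field_simp

lemma isL_eq {e₁ e₂ : ℂ} (h : 0 < (conj e₁ * e₂).im) {Y : ℝ} {S : Finset (ℤ × ℤ)}
    (hS : IsL e₁ e₂ Y S) : S = Lat.dl (e₂ / e₁) (Y / ‖e₁‖ ^ 2) := by
  obtain ⟨h0, _, h2⟩ := conj_mul_im h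
  have hn : 0 < ‖e₁‖ ^ 2 := by positivity
  ext p
  rw [hS p, Lat.mem_dl h2, lt_eq h0, norm_mul, mul_pow, le_div_iff₀ hn, mul_comm (‖e₁‖ ^ 2)]

end LatTM

open LatTM

/-- LATC -/
theorem specLatC : SpecLatC := by
  intro e₁ e₂ h
  obtain ⟨h0, h1, h2⟩ := conj_mul_im h
  have hn : 0 < ‖e₁‖ := norm_pos_iff.2 h0
  obtain ⟨C, hC, hcount⟩ := Lat.count (m := 1) h2 one_pos
  refine ⟨C * (1 / ‖e₁‖ + 1), by positivity, ?_⟩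
  intro Y S hY hS
  have h3 := hcount 0 (Y / ‖e₁‖ ^ 2) (by positivity)
  have h4 : (Lat.dl (e₂ / e₁) (Y / ‖e₁‖ ^ 2)).filter (Lat.cd 1 0) = S := by
    rw [isL_eq h hS]
    apply filter_true_of_mem
    intro p _
    exact ⟨by simp, by simp⟩
  have h5 : Real.pi * (Y / ‖e₁‖ ^ 2) / (((1 : ℕ) : ℝ) ^ 2 * (e₂ / e₁).im) =
      Real.pi * Y / (conj e₁ * e₂).im := by
    rw [h1]
    push_cast
    have : (conj e₁ * e₂).im ≠ 0 := h.ne'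
    field_simp
  have h6 : Real.sqrt (Y / ‖e₁‖ ^ 2) = Real.sqrt Y / ‖e₁‖ := by
    rw [Real.sqrt_div hY, Real.sqrt_sq hn.le]
  rw [h5, h6] at h3
  have h7 : (((Lat.dl (e₂ / e₁) (Y / ‖e₁‖ ^ 2)).filter (Lat.cd 1 0)).card : ℝ) = S.card := by
    rw [← h4]
  rw [h7] at h3
  refine h3.trans ?_
  have hs : 0 ≤ Real.sqrt Y := Real.sqrt_nonneg _
  have h8 : Real.sqrt Y / ‖e₁‖ + 1 ≤ (1 / ‖e₁‖ + 1) * (Real.sqrt Y + 1) := by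
    have h9 : 0 ≤ 1 / ‖e₁‖ := by positivity
    have : (1 / ‖e₁‖ + 1) * (Real.sqrt Y + 1) =
        Real.sqrt Y / ‖e₁‖ + 1 + (1 / ‖e₁‖ + Real.sqrt Y) := by ring
    rw [this]
    linarith
  calc C * (Real.sqrt Y / ‖e₁‖ + 1) ≤ C * ((1 / ‖e₁‖ + 1) * (Real.sqrt Y + 1)) :=
        mul_le_mul_of_nonneg_left h8 hC.le
    _ = _ := by ring

end Pool.Agent.Lib.MP391708.MA
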