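import Pool.Agent.Lib.MP_391708_nt.MA.LatC
import Pool.Agent.Lib.MP_391708_nt.MA.LatB

/-!
# LATT in the form of the Spec
-/

set_option autoImplicit false

namespace Pool.Agent.Lib.MP391708.MA

open Finset Filter Topology
open scoped ComplexConjugate Classical
open Pool.Agent.Lib.MP391708.MR.TypeM (ph ph_mul norm_ph)

open LatTM

/-- LATT -/
theorem specLatT : SpecLatT := by
  intro e₁ e₂ h A hA
  obtain ⟨h0, h1, h2⟩ := conj_mul_im h
  have hn : 0 < ‖e₁‖ := norm_pos_iff.2 h0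
  have hn2 : 0 < ‖e₁‖ ^ 2 := by positivity
  obtain ⟨c, hc0, hc1, hc⟩ := Lat.type h2 (A := A + 1) (by linarith) (m := 1) one_pos
  refine ⟨c / 2, by positivity, by linarith, ?_⟩
  have ht : Tendsto (fun x : ℝ => x / ‖e₁‖ ^ 2) atTop atTop :=
    tendsto_id.atTop_div_const hn2
  have hE : ∀ᶠ x : ℝ in atTop, (‖e₁‖ ^ 2) ^ (A + 1) ≤ x := eventually_ge_atTop _
  have hF := MR.TypeM.eventually_const_mul_le (C := (1 / ‖e₁‖ ^ 2) ^ (1 - c)) (a := 1 - c)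
    (b := 1 - c / 2) (by linarith)
  filter_upwards [ht.eventually hc, hE, hF, eventually_ge_atTop (1 : ℝ)] with x hx hx1 hx2 hx3
  intro k hk hkx S hS
  have hx0 : 0 < x := by linarith
  have hkx' : |(k : ℝ)| ≤ (x / ‖e₁‖ ^ 2) ^ (A + 1) := by
    refine hkx.trans ?_
    rw [Real.div_rpow hx0.le hn2.le, le_div_iff₀ (by positivity), Real.rpow_add hx0,
      Real.rpow_one]
    exact mul_le_mul_of_nonneg_left hx1 (by positivity)
  have h3 := hx k hk hkx' 0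
  have h4 : (Lat.dl (e₂ / e₁) (x / ‖e₁‖ ^ 2)).filter (Lat.cd 1 0) = S := by
    rw [isL_eq h hS]
    apply filter_true_of_mem
    intro p _
    exact ⟨by simp, by simp⟩
  have h5 : ∑ p ∈ S, (lt e₁ e₂ p / ((‖lt e₁ e₂ p‖ : ℝ) : ℂ)) ^ k =
      (e₁ / ((‖e₁‖ : ℝ) : ℂ)) ^ k * ∑ p ∈ S, ph k (Lat.P (e₂ / e₁) p) := by
    rw [mul_sum]
    apply sum_congr rfl
    intro p _
    rw [lt_eq h0]
    unfold ph
    rw [← mul_zpow, norm_mul]
    push_cast
    rw [mul_div_mul_comm]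
  have h6 : ‖(e₁ / ((‖e₁‖ : ℝ) : ℂ)) ^ k‖ = 1 := by
    rw [norm_zpow, MR.TypeM.norm_div_norm h0, one_zpow]
  rw [h5, norm_mul, h6, one_mul]
  have h7 : ∑ p ∈ S, ph k (Lat.P (e₂ / e₁) p) =
      ∑ p ∈ (Lat.dl (e₂ / e₁) (x / ‖e₁‖ ^ 2)).filter (Lat.cd 1 0),
        ph k (Lat.P (e₂ / e₁) p) := by
    rw [← h4]
  rw [h7]
  refine h3.trans (le_trans (le_of_eq ?_) hx2)
  rw [div_eq_mul_one_div, mul_comm, Real.mul_rpow (by positivity) hx0.le]

end Pool.Agent.Lib.MP391708.MA
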