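import Pool.Agent.Lib.MP_391708_nt.MA.TK
import Pool.Agent.Lib.MP_391708_nt.MR.Lower

/-!
# Lower bound for the twisted sums over prime ideals, nonzero frequencies
-/

set_option autoImplicit false

namespace Pool.Agent.Lib.MP391708.MA

open Finset Filter Topology NumberField

namespace Lower

variable {K : Type} [Field K] [NumberField K]

/-! ## the characters -/

lemma cls_mul {x y : Gi K} (hx : x ≠ 0) (hy : y ≠ 0) : cls (x * y) = cls x * cls y := by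
  unfold cls
  rw [dif_pos hx, dif_pos hy, dif_pos (mul_ne_zero hx hy), ← map_mul]
  rfl

lemma cls_one : cls (1 : Gi K) = 1 := by
  unfold cls
  rw [dif_pos one_ne_zero]
  exact map_one ClassGroup.mk0

lemma norm_xi (D : Dir K) (κ : Kp K) {z : Gi K} (h : z ≠ 0) : ‖xi D κ z‖ = 1 := by
  unfold xi
  rw [norm_mul, AddChar.norm_apply, norm_zpow, D.norm z h, one_zpow, one_mul]

lemma norm_xi_le (D : Dir K) (κ : Kp K) (z : Gi K) : ‖xi D κ z‖ ≤ 1 := by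
  by_cases h : z = 0
  · subst h
    unfold xi
    rw [norm_mul, AddChar.norm_apply, one_mul, D.zero]
    by_cases hk : κ.2 = 0
    · rw [hk]; simp
    · rw [zero_zpow _ hk]; simp
  · rw [norm_xi D κ h]

lemma f_ne_zero (D : Dir K) {z : Gi K} (h : z ≠ 0) : D.f z ≠ 0 := by
  intro h'
  have := D.norm z h
  rw [h', norm_zero] at this
  exact zero_ne_one this

lemma xi_add_self (D : Dir K) (κ : Kp K) {z : Gi K} (h : z ≠ 0) :
    xi D (κ + κ) z = xi D κ z ^ 2 := by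
  unfold xi
  rw [Prod.fst_add, Prod.snd_add, AddChar.add_apply, zpow_add₀ (f_ne_zero D h)]
  ring

/-- the characters with nonzero frequency are completely multiplicative functions -/
lemma cm_xi (D : Dir K) {κ : Kp K} (hκ : κ.2 ≠ 0) : CM (xi D κ) := by
  refine ⟨?_, ?_, ?_, norm_xi_le D κ⟩
  · unfold xi
    rw [D.zero, zero_zpow _ hκ, mul_zero]
  · unfold xi
    rw [cls_one, D.one, one_zpow, mul_one]
    exact AddChar.map_zero_eq_one _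
  · intro x y
    by_cases hx : x = 0
    · subst hx
      unfold xi
      rw [zero_mul, D.zero, zero_zpow _ hκ, mul_zero, zero_mul]
    by_cases hy : y = 0
    · subst hy
      unfold xi
      rw [mul_zero, D.zero, zero_zpow _ hκ, mul_zero, mul_zero]
    unfold xi
    rw [cls_mul hx hy, D.mul, mul_zpow, ofMul_mul, AddChar.map_add_eq_mul]
    ring

/-! ## the real parts -/

lemma lam_sq [Sg] (z : Gi K) : lam z ^ 2 = 1 := by
  unfold lam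
  rcases gs_eq_or (nm z) with h | h <;> rw [h] <;> norm_num

lemma key0 {ι : Type} (S : Finset ι) (w : ι → ℝ) (z : ι → ℂ) (hw : ∀ π ∈ S, 0 ≤ w π)
    (hz : ∀ π ∈ S, ‖z π‖ = 1) :
    ∑ π ∈ S, w π - ∑ π ∈ S, w π * ((z π) ^ 2).re ≤
      4 * ‖((∑ π ∈ S, w π : ℝ) : ℂ) + ∑ π ∈ S, (w π : ℂ) * z π‖ := by
  have h1 : (((∑ π ∈ S, w π : ℝ) : ℂ) + ∑ π ∈ S, (w π : ℂ) * z π).re =
      ∑ π ∈ S, w π * (1 + (z π).re) := by
    rw [Complex.add_re, Complex.ofReal_re, Complex.re_sum, ← sum_add_distrib]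
    refine sum_congr rfl fun π _ => ?_
    rw [Complex.re_ofReal_mul]
    ring
  have h2 := Complex.re_le_norm (((∑ π ∈ S, w π : ℝ) : ℂ) + ∑ π ∈ S, (w π : ℂ) * z π)
  rw [h1] at h2
  calc ∑ π ∈ S, w π - ∑ π ∈ S, w π * ((z π) ^ 2).re
      = ∑ π ∈ S, w π * (1 - ((z π) ^ 2).re) := by
        rw [← sum_sub_distrib]
        exact sum_congr rfl fun π _ => by ring
    _ ≤ ∑ π ∈ S, w π * (4 * (1 + (z π).re)) :=
        sum_le_sum fun π hπ =>
          mul_le_mul_of_nonneg_left (MR.Lower.unit_ineq (hz π hπ)) (hw π hπ)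
    _ = 4 * ∑ π ∈ S, w π * (1 + (z π).re) := by
        rw [mul_sum]
        exact sum_congr rfl fun π _ => by ring
    _ ≤ _ := by linarith

lemma key1 {ι : Type} (S : Finset ι) (w s : ι → ℝ) (z : ι → ℂ) (hw : ∀ π ∈ S, 0 ≤ w π)
    (hs : ∀ π ∈ S, s π ^ 2 = 1) (hz : ∀ π ∈ S, ‖z π‖ = 1) :
    ∑ π ∈ S, w π - ∑ π ∈ S, w π * ((z π) ^ 2).re ≤
      4 * ‖((∑ π ∈ S, w π : ℝ) : ℂ) - ∑ π ∈ S, (w π : ℂ) * ((s π : ℂ) * z π)‖ := by
  have h := key0 S w (fun π => -((s π : ℂ) * z π)) hw (fun π hπ => by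
    have h1 : |s π| = 1 := by
      rw [← Real.sqrt_sq_eq_abs, hs π hπ, Real.sqrt_one]
    rw [norm_neg, norm_mul, hz π hπ, mul_one, Complex.norm_real, Real.norm_eq_abs, h1])
  have h2 : ∑ π ∈ S, w π * ((-((s π : ℂ) * z π)) ^ 2).re = ∑ π ∈ S, w π * ((z π) ^ 2).re := by
    refine sum_congr rfl fun π hπ => ?_
    have h3 : (-((s π : ℂ) * z π)) ^ 2 = z π ^ 2 := by
      have h4 : (s π : ℂ) ^ 2 = 1 := by exact_mod_cast hs π hπ
      rw [neg_sq, mul_pow, h4, one_mul]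
    rw [h3]
  have h5 : ∑ π ∈ S, (w π : ℂ) * -((s π : ℂ) * z π) = -∑ π ∈ S, (w π : ℂ) * ((s π : ℂ) * z π) := by
    rw [← sum_neg_distrib]
    exact sum_congr rfl fun π _ => by ring
  rw [h2, h5, ← sub_eq_add_neg] at h
  exact h

/-- the quantity in the statement in terms of unit vectors -/
lemma expr_eq [Sg] (D : Dir K) (κ : Kp K) (t : ℝ) (P Q : ℝ) :
    (WW K P Q : ℂ) -
      ∑ π ∈ GP P Q, (lam π : ℂ) * xi D κ π * ((nm π : ℕ) : ℂ) ^ (-1 - Complex.I * (t : ℂ)) =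
    ((∑ π ∈ (GP P Q : Finset (Gi K)), 1 / (nm π : ℝ) : ℝ) : ℂ) -
      ∑ π ∈ (GP P Q : Finset (Gi K)), ((1 / (nm π : ℝ) : ℝ) : ℂ) * ((lam π : ℂ) *
        (xi D κ π * Complex.exp (((-(t * Real.log (nm π)) : ℝ) : ℂ) * Complex.I))) := by
  unfold WW
  congr 1
  refine sum_congr rfl fun π hπ => ?_
  rw [MR.Lower.cpow_eq (TK.nm_pos (TK.GP_ne_zero hπ))]
  push_cast
  ring

/-! ## the bound -/

lemma sumG {D : Dir K} (hT : SpecType K D) (θ : ℝ) (hθ : 0 < θ) :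
    ∃ c : ℝ, 0 < c ∧ c < 1 ∧ ∀ᶠ X : ℝ in atTop, ∀ κ : Kp K, κ.2 ≠ 0 → |(κ.2 : ℝ)| ≤ X →
      ∀ x : ℝ, X ^ θ ≤ x → ‖∑ z ∈ disc x, xi D (κ + κ) z‖ ≤ x ^ (1 - c) := by
  have hA : (1 : ℝ) ≤ 2 / θ + 2 := by
    have : 0 < 2 / θ := by positivity
    linarith
  obtain ⟨c, hc1, hc1', hty⟩ := hT (2 / θ + 2) hA
  refine ⟨c, hc1, hc1', ?_⟩
  obtain ⟨x₀, hx₀⟩ := eventually_atTop.1 (hty.and (eventually_ge_atTop (1 : ℝ)))
  have hX1 : ∀ᶠ X : ℝ in atTop, x₀ ≤ X ^ θ := (tendsto_rpow_atTop hθ).eventually_ge_atTop _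
  filter_upwards [hX1, eventually_ge_atTop 2] with X hX1 hX2 κ hκ hk x hx
  obtain ⟨hty', hxx⟩ := hx₀ x (hX1.trans hx)
  have hX0 : (0 : ℝ) < X := by linarith
  refine hty' (κ + κ) (fun h => ?_) ?_
  · have := congrArg Prod.snd h
    rw [Prod.snd_add, Prod.snd_zero] at this
    omega
  · rw [Prod.snd_add]
    push_cast
    have h0 : |(κ.2 : ℝ) + κ.2| = 2 * |(κ.2 : ℝ)| := by
      rw [← two_mul, abs_mul, abs_two]
    rw [h0]
    have h1 : (X ^ θ) ^ (2 / θ + 2) ≤ x ^ (2 / θ + 2) :=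
      Real.rpow_le_rpow (Real.rpow_nonneg hX0.le _) hx (by linarith)
    have h2 : (X ^ θ) ^ (2 / θ + 2) = X ^ (2 + 2 * θ) := by
      rw [← Real.rpow_mul hX0.le]; congr 1; field_simp
    have h3 : X ^ (2 : ℝ) ≤ X ^ (2 + 2 * θ) :=
      Real.rpow_le_rpow_of_exponent_le (by linarith) (by linarith)
    have h4 : 2 * X ≤ X ^ (2 : ℝ) := by
      rw [Real.rpow_two]; nlinarith
    linarith [h1, h2 ▸ h1]

lemma caseA [Sg] {D : Dir K} (hT : SpecType K D) (hO : SpecOS K) : ∃ C : ℝ, ∀ T : ℝ, 0 < T →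
    ∀ d : ℝ, 0 < d → d ≤ 1 / 2 → ∀ᶠ X : ℝ in atTop, ∀ κ : Kp K, κ.2 ≠ 0 → |(κ.2 : ℝ)| ≤ X →
    ∀ t : ℝ, |t| ≤ T →
      WW K (X ^ (d ^ 2)) (X ^ d) - C ≤ 4 * ‖(WW K (X ^ (d ^ 2)) (X ^ d) : ℂ) -
        ∑ π ∈ GP (X ^ (d ^ 2)) (X ^ d),
          (lam π : ℂ) * xi D κ π * ((nm π : ℕ) : ℂ) ^ (-1 - Complex.I * (t : ℂ))‖ := by
  obtain ⟨C, hO⟩ := hO
  refine ⟨C, fun T hT0 d hd hd2 => ?_⟩
  obtain ⟨θ, hθ, hO⟩ := hO (2 * T) d (by positivity) hd hd2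
  obtain ⟨c, hc0, hc1, hG⟩ := sumG hT θ hθ
  filter_upwards [hO c hc0 hc1, hG] with X hO hG κ hκ hk t ht
  have hκ2 : (κ + κ).2 ≠ 0 := by
    rw [Prod.snd_add]
    omega
  have h1 := hO (xi D (κ + κ)) (cm_xi D hκ2) (fun x hx => hG κ hκ hk x hx) (2 * t) (by
    rw [abs_mul, abs_two]; linarith)
  rw [expr_eq]
  have h2 := key1 (GP (X ^ (d ^ 2)) (X ^ d) : Finset (Gi K)) (fun π => 1 / (nm π : ℝ))
    (fun π => lam π)
    (fun π => xi D κ π * Complex.exp (((-(t * Real.log (nm π)) : ℝ) : ℂ) * Complex.I))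
    (fun π _ => by positivity) (fun π _ => lam_sq π) (fun π hπ => by
      rw [norm_mul, MR.Lower.norm_expI, norm_xi D κ (TK.GP_ne_zero hπ), one_mul])
  refine le_trans ?_ h2
  have h3 : ∑ π ∈ (GP (X ^ (d ^ 2)) (X ^ d) : Finset (Gi K)), 1 / (nm π : ℝ) *
      ((xi D κ π * Complex.exp (((-(t * Real.log (nm π)) : ℝ) : ℂ) * Complex.I)) ^ 2).re =
      (∑ π ∈ (GP (X ^ (d ^ 2)) (X ^ d) : Finset (Gi K)), xi D (κ + κ) π *
        ((nm π : ℕ) : ℂ) ^ (-1 - Complex.I * ((2 * t : ℝ) : ℂ))).re := by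
    rw [Complex.re_sum]
    refine sum_congr rfl fun π hπ => ?_
    rw [MR.Lower.cpow_eq (TK.nm_pos (TK.GP_ne_zero hπ)), xi_add_self D κ (TK.GP_ne_zero hπ),
      ← Complex.re_ofReal_mul]
    congr 1
    rw [mul_pow, ← Complex.exp_nat_mul]
    have : ((2 : ℕ) : ℂ) * (((-(t * Real.log (nm π)) : ℝ) : ℂ) * Complex.I) =
        ((-(2 * t * Real.log (nm π)) : ℝ) : ℂ) * Complex.I := by
      push_cast; ring
    rw [this]
    ring
  rw [h3]
  show WW K _ _ - C ≤ WW K _ _ - _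
  linarith

/-! ## the size of `W` -/

lemma W_large (hP : SpecPG K) : ∃ C : ℝ, ∀ d : ℝ, 0 < d → d ≤ 1 → ∀ᶠ X : ℝ in atTop,
    3 ≤ X ^ (d ^ 2) ∧ X ^ (d ^ 2) ≤ X ^ d ∧ -Real.log d - C ≤ WW K (X ^ (d ^ 2)) (X ^ d) := by
  obtain ⟨⟨C, hC⟩, -, -⟩ := hP
  refine ⟨C, fun d hd hd1 => ?_⟩
  have h3 : ∀ᶠ X : ℝ in atTop, 3 ≤ X ^ (d ^ 2) :=
    (tendsto_rpow_atTop (by positivity)).eventually_ge_atTop _
  filter_upwards [h3, eventually_gt_atTop 1] with X h3 hX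
  have hX0 : 0 < X := by linarith
  have hle : X ^ (d ^ 2) ≤ X ^ d := Real.rpow_le_rpow_of_exponent_le hX.le (by nlinarith)
  refine ⟨h3, hle, ?_⟩
  have h := (abs_le.1 (hC _ _ h3 hle)).1
  have hl : 0 < Real.log X := Real.log_pos hX
  rw [Real.log_rpow hX0, Real.log_rpow hX0, Real.log_mul hd.ne' hl.ne',
    Real.log_mul (by positivity) hl.ne', Real.log_pow] at h
  push_cast at h
  linarith

end Lower

open Lower in
theorem specLower [Sg] {K : Type} [Field K] [NumberField K] (D : Dir K) (hT : SpecType K D)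
    (hO : SpecOS K) (hP : SpecPG K) : SpecLower K D := by
  obtain ⟨CA, hA⟩ := caseA hT hO
  obtain ⟨Cb, hW⟩ := W_large hP
  refine ⟨1 / 8, by norm_num, fun T hT0 => ?_⟩
  refine ⟨min (1 / 2) (Real.exp (-(Cb + 2 * |CA|))), by positivity, fun d hd hd1 => ?_⟩
  have hd2 : d ≤ 1 / 2 := hd1.trans (min_le_left _ _)
  have hd3 : d ≤ Real.exp (-(Cb + 2 * |CA|)) := hd1.trans (min_le_right _ _)
  have hlogd : Cb + 2 * |CA| ≤ -Real.log d := by
    have := (Real.log_le_iff_le_exp hd).2 hd3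
    linarith
  filter_upwards [hA T hT0 d hd hd2, hW d hd (by linarith)] with X hAX hWX
  intro κ hκ hk t ht
  obtain ⟨hX3, hXle, hWge⟩ := hWX
  have a1 := le_abs_self CA
  have := hAX κ hκ hk t ht
  linarith

end Pool.Agent.Lib.MP391708.MA
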