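import Pool.Agent.Lib.MP_391708_nt.MA.Basic2
import Pool.Agent.Lib.MP_391708_nt.MA.Spec

/-!
# MRK, MRC: the mean square over all nonzero frequencies
-/

set_option autoImplicit false

namespace Pool.Agent.Lib.MP391708.MA

open Finset Filter Topology NumberField
open scoped Classical

variable {K : Type} [Field K] [NumberField K]

/-- MRK: from the ladder and the sparse set to the mean square over all nonzero frequencies -/
theorem specMRk [Sg] (D : Dir K) (hLad : SpecLadder K D) (hTop : SpecTop K D) : SpecMRk K D := by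
  intro η ε hη hη1 hε
  obtain ⟨c₁, hc₁, hTop'⟩ := hTop
  obtain ⟨H₀, hH₀⟩ := hLad c₁ η (ε / 2) hc₁ hη hη1 (by positivity)
  refine ⟨H₀, fun H hH => ?_⟩
  filter_upwards [hH₀ H hH, hTop' (ε / 8) (by positivity), eventually_ge_atTop (1 : ℝ)]
    with X hX1 hX2 hX
  obtain ⟨U, hU1, hU2, hU3⟩ := hX1
  have hX0 : 0 ≤ X := by linarith
  have hle : X ≤ (1 + η) ^ 2 * X := by
    have : (1 : ℝ) ≤ (1 + η) ^ 2 := by nlinarith
    exact le_mul_of_one_le_left hX0 this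
  have hle4 : (1 + η) ^ 2 * X ≤ 4 * X := by
    have : (1 + η) ^ 2 ≤ 4 := by nlinarith
    exact mul_le_mul_of_nonneg_right this hX0
  set U' := U.filter (fun κ => κ.2 ≠ 0) with hU'
  have hV1 : ∀ κ ∈ U', κ.2 ≠ 0 ∧ |(κ.2 : ℝ)| ≤ X := fun κ hκ =>
    ⟨(mem_filter.1 hκ).2, hU1 κ (mem_filter.1 hκ).1⟩
  have hV2 : (U'.card : ℝ) ≤ X ^ c₁ :=
    le_trans (by exact_mod_cast card_le_card (filter_subset _ _)) hU2
  have h1 := hX2 U' hV1 hV2 X le_rfl (by linarith)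
  have h2 := hX2 U' hV1 hV2 ((1 + η) ^ 2 * X) hle hle4
  have h3 : ∑ κ ∈ U', ‖MM D X ((1 + η) ^ 2 * X) κ‖ ^ 2 ≤ ε / 2 * X ^ 2 := by
    have h4 : ∀ κ ∈ U', ‖MM D X ((1 + η) ^ 2 * X) κ‖ ^ 2 ≤
        2 * ‖SS D κ ((1 + η) ^ 2 * X)‖ ^ 2 + 2 * ‖SS D κ X‖ ^ 2 := by
      intro κ _
      rw [MM_eq D hle κ]
      have h5 := norm_sub_le (SS D κ ((1 + η) ^ 2 * X)) (SS D κ X)
      have h6 := norm_nonneg (SS D κ ((1 + η) ^ 2 * X) - SS D κ X)
      nlinarith [norm_nonneg (SS D κ ((1 + η) ^ 2 * X)), norm_nonneg (SS D κ X),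
        sq_nonneg (‖SS D κ ((1 + η) ^ 2 * X)‖ - ‖SS D κ X‖)]
    refine (Finset.sum_le_sum h4).trans ?_
    rw [Finset.sum_add_distrib, ← Finset.mul_sum, ← Finset.mul_sum]
    linarith
  have h7 : ∑ κ ∈ (IK K ⌊X / H⌋₊).filter (fun κ => κ.2 ≠ 0), ‖MM D X ((1 + η) ^ 2 * X) κ‖ ^ 2 ≤
      ∑ κ ∈ IK K ⌊X / H⌋₊ \ U, ‖MM D X ((1 + η) ^ 2 * X) κ‖ ^ 2 +
        ∑ κ ∈ U', ‖MM D X ((1 + η) ^ 2 * X) κ‖ ^ 2 := by
    rw [← Finset.sum_inter_add_sum_sdiff ((IK K ⌊X / H⌋₊).filter (fun κ => κ.2 ≠ 0)) U, add_comm]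
    refine add_le_add (sum_le_sum_of_subset_of_nonneg ?_ fun _ _ _ => sq_nonneg _)
      (sum_le_sum_of_subset_of_nonneg ?_ fun _ _ _ => sq_nonneg _)
    · exact sdiff_subset_sdiff (filter_subset _ _) subset_rfl
    · intro κ hκ
      rw [mem_inter, mem_filter] at hκ
      exact mem_filter.2 ⟨hκ.2, hκ.1.2⟩
  linarith

lemma IK_mono {Z Z' : ℕ} (h : Z ≤ Z') : (IK K Z : Finset (Kp K)) ⊆ IK K Z' := by
  intro κ hκ
  rw [mem_IK] at hκ ⊢
  exact hκ.trans (by exact_mod_cast h)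

/-- MRC: wide annuli -/
theorem specMRC [Sg] (D : Dir K) (h : SpecMRk K D) : SpecMRC K D := by
  intro B ε hB hε
  have hlog : 0 < Real.log B := Real.log_pos hB
  -- `(1 + η)^(2J) = B`
  obtain ⟨J, hJ⟩ := exists_nat_gt (Real.log B)
  have hJ0 : (0 : ℝ) < J := hlog.trans hJ
  have hJ0' : 0 < J := by exact_mod_cast hJ0
  set q : ℝ := Real.exp (Real.log B / (2 * J)) with hq
  have hq1 : 1 < q := by
    rw [hq, ← Real.exp_zero]
    exact Real.exp_lt_exp.2 (by positivity)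
  have hq2 : q ≤ 2 := by
    have h1 : Real.log B / (2 * J) ≤ 1 / 2 := by
      rw [div_le_div_iff₀ (by positivity) (by norm_num)]
      linarith
    have h2 : q ≤ Real.exp (1 / 2) := Real.exp_le_exp.2 h1
    have h3 : Real.exp (1 / 2) ≤ 2 := by
      have h4 : Real.exp (1 / 2) ^ 2 = Real.exp 1 := by
        rw [← Real.exp_nat_mul]
        norm_num
      have h5 := Real.exp_one_lt_d9
      have h6 := Real.exp_pos (1 / 2)
      nlinarith
    linarith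
  have hqJ : (q ^ 2) ^ J = B := by
    rw [hq, ← Real.exp_nat_mul, ← Real.exp_nat_mul]
    have h1 : (J : ℝ) * (((2 : ℕ) : ℝ) * (Real.log B / (2 * J))) = Real.log B := by
      push_cast
      field_simp
    rw [h1, Real.exp_log (by linarith)]
  have hB0 : 0 < B := by linarith
  obtain ⟨H₀, hH₀⟩ := h (q - 1) (ε / (J ^ 2 * B ^ 2)) (by linarith) (by linarith) (by positivity)
  refine ⟨max H₀ 1, fun H hH => ?_⟩
  have hH1 : 1 ≤ H := le_trans (le_max_right _ _) hH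
  have hev := hH₀ H (le_trans (le_max_left _ _) hH)
  obtain ⟨X₀, hX₀⟩ := eventually_atTop.1 hev
  filter_upwards [eventually_ge_atTop (max X₀ 1)] with X hX
  have hX1 : 1 ≤ X := le_trans (le_max_right _ _) hX
  have hXX : X₀ ≤ X := le_trans (le_max_left _ _) hX
  set Xj : ℕ → ℝ := fun j => (q ^ 2) ^ j * X with hXj
  have hq2' : 1 < q ^ 2 := by nlinarith
  have hXj1 : ∀ j, X ≤ Xj j := fun j =>
    le_mul_of_one_le_left (by linarith) (one_le_pow₀ hq2'.le)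
  have hXjm : ∀ j, Xj j ≤ Xj (j + 1) := by
    intro j
    exact mul_le_mul_of_nonneg_right (pow_le_pow_right₀ hq2'.le (Nat.le_succ j)) (by linarith)
  have hXjB : ∀ j, j ≤ J → Xj j ≤ B * X := by
    intro j hj
    simp only [hXj]
    rw [← hqJ]
    exact mul_le_mul_of_nonneg_right (pow_le_pow_right₀ hq2'.le hj) (by linarith)
  have e0 : ∀ κ : Kp K, MM D X (B * X) κ = ∑ j ∈ range J, MM D (Xj j) (Xj (j + 1)) κ := by
    intro κ
    have h1 : ∀ j, MM D (Xj j) (Xj (j + 1)) κ = SS D κ (Xj (j + 1)) - SS D κ (Xj j) :=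
      fun j => MM_eq D (hXjm j) κ
    rw [sum_congr rfl fun j _ => h1 j, sum_range_sub (fun j => SS D κ (Xj j))]
    have h2 : X ≤ B * X := by nlinarith
    rw [MM_eq D h2]
    simp only [hXj]
    rw [hqJ, pow_zero, one_mul]
  have e1 : ∀ j ∈ range J, ∑ κ ∈ (IK K ⌊X / H⌋₊).filter (fun κ => κ.2 ≠ 0),
      ‖MM D (Xj j) (Xj (j + 1)) κ‖ ^ 2 ≤ ε / J ^ 2 * X ^ 2 := by
    intro j hj
    have h1 := hX₀ (Xj j) (hXX.trans (hXj1 j))
    have h2 : (1 + (q - 1)) ^ 2 * Xj j = Xj (j + 1) := by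
      simp only [hXj]
      ring
    rw [h2] at h1
    have h3 : Xj j ≤ B * X := hXjB j (mem_range.1 hj).le
    have h4 : ε / (J ^ 2 * B ^ 2) * Xj j ^ 2 ≤ ε / J ^ 2 * X ^ 2 := by
      have h5 : Xj j ^ 2 ≤ (B * X) ^ 2 := pow_le_pow_left₀ (by linarith [hXj1 j]) h3 2
      calc ε / (J ^ 2 * B ^ 2) * Xj j ^ 2 ≤ ε / (J ^ 2 * B ^ 2) * (B * X) ^ 2 :=
            mul_le_mul_of_nonneg_left h5 (by positivity)
        _ = ε / J ^ 2 * X ^ 2 := by field_simp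
    refine le_trans (sum_le_sum_of_subset_of_nonneg ?_ fun _ _ _ => sq_nonneg _) (h1.trans h4)
    exact filter_subset_filter _ (IK_mono (Nat.floor_le_floor
      (div_le_div_of_nonneg_right (hXj1 j) (by linarith))))
  calc ∑ κ ∈ (IK K ⌊X / H⌋₊).filter (fun κ => κ.2 ≠ 0), ‖MM D X (B * X) κ‖ ^ 2
      ≤ ∑ κ ∈ (IK K ⌊X / H⌋₊).filter (fun κ => κ.2 ≠ 0),
          (J : ℝ) * ∑ j ∈ range J, ‖MM D (Xj j) (Xj (j + 1)) κ‖ ^ 2 := by
        refine sum_le_sum fun κ _ => ?_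
        rw [e0 κ]
        have h1 : ‖∑ j ∈ range J, MM D (Xj j) (Xj (j + 1)) κ‖ ≤
            ∑ j ∈ range J, ‖MM D (Xj j) (Xj (j + 1)) κ‖ := norm_sum_le _ _
        have h2 := sq_sum_le_card_mul_sum_sq (s := range J)
          (f := fun j => ‖MM D (Xj j) (Xj (j + 1)) κ‖)
        rw [card_range] at h2
        exact (pow_le_pow_left₀ (norm_nonneg _) h1 2).trans h2
    _ = (J : ℝ) * ∑ j ∈ range J, ∑ κ ∈ (IK K ⌊X / H⌋₊).filter (fun κ => κ.2 ≠ 0),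
          ‖MM D (Xj j) (Xj (j + 1)) κ‖ ^ 2 := by
        rw [← mul_sum, sum_comm]
    _ ≤ (J : ℝ) * ∑ j ∈ range J, ε / J ^ 2 * X ^ 2 :=
        mul_le_mul_of_nonneg_left (sum_le_sum e1) hJ0.le
    _ = ε * X ^ 2 := by
        rw [sum_const, card_range, nsmul_eq_mul]
        field_simp

end Pool.Agent.Lib.MP391708.MA
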