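import Pool.Agent.Lib.MP_391708_nt.MA.Spec
import Pool.Agent.Lib.MP_391708_nt.MA.Basic
import Pool.Agent.Lib.MP_391708_nt.MR.PG
import Pool.Agent.Lib.MP_391708_nt.TA.Chi

/-!
# PG: prime sums over the split prime ideals of an imaginary quadratic field (helper26)

`K = ℚ(θ)`, `θ² = -a`; for a prime `p ∤ 2a` there are `1 + χ(p)` split ideals of norm `p`, where
`χ = χ_{-4a}`; the sums over primes in residue classes modulo `4a` (`MR.PG.class_one`) give the
first part.
-/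

set_option autoImplicit false

namespace Pool.Agent.Lib.MP391708.MA

open Finset Filter Topology NumberField
open scoped ComplexConjugate Classical

variable {K : Type} [Field K] [NumberField K]

namespace PG

lemma exists_aut [IQ K] : ∃ σ : K ≃ₐ[ℚ] K, σ ≠ 1 ∧ σ * σ = 1 ∧
    ∀ x : K, σ x = x → ∃ q : ℚ, x = algebraMap ℚ K q := by
  have hq : Algebra.IsQuadraticExtension ℚ K := ⟨IQ.deg⟩
  have hg : IsGalois ℚ K := inferInstance
  have hc : Nat.card (K ≃ₐ[ℚ] K) = 2 := by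
    rw [IsGalois.card_aut_eq_finrank]; exact IQ.deg
  have hfin : Finite (K ≃ₐ[ℚ] K) := Nat.finite_of_card_ne_zero (by rw [hc]; norm_num)
  have hne : ∃ σ : K ≃ₐ[ℚ] K, σ ≠ 1 := by
    by_contra h
    push Not at h
    have : Subsingleton (K ≃ₐ[ℚ] K) := ⟨fun x y => by rw [h x, h y]⟩
    have := Nat.card_of_subsingleton (1 : K ≃ₐ[ℚ] K)
    omega
  obtain ⟨σ, hσ⟩ := hne
  have h2 : σ * σ = 1 := by
    have := pow_card_eq_one' (x := σ)
    rwa [hc, pow_two] at this
  refine ⟨σ, hσ, h2, fun x hx => ?_⟩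
  have hall : ∀ g : K ≃ₐ[ℚ] K, g = 1 ∨ g = σ := by
    intro g
    by_contra h
    push Not at h
    have h3 : ({1, σ, g} : Finset (K ≃ₐ[ℚ] K)).card ≤ 2 := by
      rw [← hc, Nat.card_eq_fintype_card (α := K ≃ₐ[ℚ] K)]
      exact Finset.card_le_univ _
    rw [Finset.card_insert_of_notMem, Finset.card_pair h.2.symm] at h3
    · omega
    · rw [Finset.mem_insert, Finset.mem_singleton]
      push Not
      exact ⟨hσ.symm, h.1.symm⟩
  have hb : x ∈ (⊥ : IntermediateField ℚ K) := by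
    rw [IsGalois.mem_bot_iff_fixed]
    intro g
    rcases hall g with rfl | rfl
    · rfl
    · exact hx
  rw [IntermediateField.mem_bot] at hb
  obtain ⟨q, hq⟩ := hb
  exact ⟨q, hq.symm⟩

lemma int_of_rat (x : 𝓞 K) (q : ℚ) (h : (x : K) = algebraMap ℚ K q) : ∃ n : ℤ, x = (n : 𝓞 K) := by
  have h1 : IsIntegral ℤ (algebraMap ℚ K q) := by rw [← h]; exact x.isIntegral_coe
  have h2 : IsIntegral ℤ q := by
    rwa [isIntegral_algebraMap_iff (algebraMap ℚ K).injective] at h1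
  obtain ⟨n, hn⟩ := IsIntegrallyClosed.isIntegral_iff.1 h2
  refine ⟨n, ?_⟩
  apply RingOfIntegers.ext
  rw [h, ← hn]
  simp

lemma exists_data [IQ K] : ∃ (a : ℕ) (θ : 𝓞 K) (τ : 𝓞 K →+* 𝓞 K), 0 < a ∧
    θ ^ 2 = -(a : 𝓞 K) ∧ τ θ = -θ := by
  obtain ⟨σ, hσ, h2, hfix⟩ := exists_aut (K := K)
  have hss : ∀ x : K, σ (σ x) = x := fun x => by
    have := congrArg (fun g : K ≃ₐ[ℚ] K => g x) h2
    simpa using this
  set τ : 𝓞 K →+* 𝓞 K := RingOfIntegers.mapRingHom (σ : K →+* K) with hτ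
  have hτc : ∀ x : 𝓞 K, ((τ x : 𝓞 K) : K) = σ (x : K) := fun x => rfl
  -- an integer that is moved
  have hmov : ∃ x : 𝓞 K, σ (x : K) ≠ x := by
    by_contra h
    push Not at h
    apply hσ
    ext x
    obtain ⟨u, v, hv, rfl⟩ := IsFractionRing.div_surjective (A := 𝓞 K) x
    rw [map_div₀]
    have e1 : σ (algebraMap (𝓞 K) K u) = algebraMap (𝓞 K) K u := h u
    have e2 : σ (algebraMap (𝓞 K) K v) = algebraMap (𝓞 K) K v := h v
    rw [e1, e2]
    rfl
  obtain ⟨x, hx⟩ := hmov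
  set θ : 𝓞 K := x - τ x with hθ
  have hτθ : τ θ = -θ := by
    apply RingOfIntegers.ext
    rw [hθ, map_sub]
    simp only [map_sub, hτc, neg_sub]
    rw [hss]
  have hθ0 : θ ≠ 0 := by
    intro h
    apply hx
    have h3 := congrArg (fun z : 𝓞 K => (z : K)) h
    simp only [hθ, map_sub, map_zero, hτc] at h3
    exact (sub_eq_zero.1 h3).symm
  have hθK : σ (θ : K) = -(θ : K) := by
    rw [← hτc, hτθ]; simp
  obtain ⟨q, hq⟩ := hfix ((θ : K) ^ 2) (by rw [map_pow, hθK]; ring)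
  obtain ⟨n, hn⟩ := int_of_rat (θ ^ 2) q (by rw [← hq]; rfl)
  have hneg : n < 0 := by
    obtain ⟨φ⟩ : Nonempty (K →+* ℂ) := inferInstance
    have hcx : NumberField.IsTotallyComplex K := IQ.cx
    have hreal : ¬ ComplexEmbedding.IsReal φ := by
      have h3 := hcx.isComplex (InfinitePlace.mk φ)
      rw [InfinitePlace.isComplex_mk_iff] at h3
      exact h3
    have hne1 : ComplexEmbedding.conjugate φ ≠ φ := fun h => hreal (ComplexEmbedding.isReal_iff.2 h)
    have hθφ : φ (θ : K) ≠ 0 := by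
      rw [map_ne_zero]
      exact RingOfIntegers.coe_ne_zero_iff.2 hθ0
    have hne2 : φ.comp (σ : K →+* K) ≠ φ := by
      intro h
      have h3 := congrArg (fun g : K →+* ℂ => g (θ : K)) h
      have h4 : φ (σ (θ : K)) = φ (θ : K) := h3
      rw [hθK, map_neg] at h4
      apply hθφ
      linear_combination (-1 / 2 : ℂ) * h4
    have hcard : Fintype.card (K →+* ℂ) = 2 := by
      rw [Embeddings.card]; exact IQ.deg
    have heq : φ.comp (σ : K →+* K) = ComplexEmbedding.conjugate φ := by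
      by_contra h
      have h3 : ({φ.comp (σ : K →+* K), ComplexEmbedding.conjugate φ, φ} :
          Finset (K →+* ℂ)).card ≤ 2 := by
        rw [← hcard]; exact Finset.card_le_univ _
      rw [Finset.card_insert_of_notMem, Finset.card_pair hne1] at h3
      · omega
      · rw [Finset.mem_insert, Finset.mem_singleton]
        push Not
        exact ⟨h, hne2⟩
    have h3 := congrArg (fun g : K →+* ℂ => g (θ : K)) heq
    have h4 : φ (σ (θ : K)) = conj (φ (θ : K)) := h3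
    rw [hθK, map_neg] at h4
    have hre : (φ (θ : K)).re = 0 := by
      have := congrArg Complex.re h4
      simp at this
      linarith
    have h5 : φ (θ : K) ^ 2 = (n : ℂ) := by
      rw [← map_pow, ← map_pow, hn]
      simp
    have h6 := congrArg Complex.re h5
    rw [pow_two, Complex.mul_re, hre] at h6
    simp at h6
    have him : (φ (θ : K)).im ≠ 0 := by
      intro h
      exact hθφ (Complex.ext hre h)
    have h7 : 0 < (φ (θ : K)).im * (φ (θ : K)).im := mul_self_pos.2 him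
    have h8 : (n : ℝ) < 0 := by linarith
    exact_mod_cast h8
  refine ⟨n.natAbs, θ, τ, Int.natAbs_pos.2 hneg.ne, ?_, hτθ⟩
  rw [hn]
  have h9 : n = -(n.natAbs : ℤ) := by omega
  have h10 := congrArg (Int.cast : ℤ → 𝓞 K) h9
  rw [h10, Int.cast_neg, Int.cast_natCast]


/-- a rational integer in an ideal of prime norm `p` is divisible by `p` -/
lemma dvd_of_mem [IQ K] {z : Gi K} {p : ℕ} (hp : p.Prime) (hz : nm z = p) {n : ℤ}
    (hn : (n : 𝓞 K) ∈ z) : (p : ℤ) ∣ n := by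
  have h1 : ((n.natAbs : ℕ) : 𝓞 K) ∈ z := by
    rcases Int.natAbs_eq n with h | h
    · rw [h] at hn
      simpa using hn
    · rw [h] at hn
      have := z.neg_mem hn
      simpa using this
  have h2 : z ∣ rt n.natAbs := by
    unfold rt
    rw [Ideal.dvd_iff_le, Ideal.span_singleton_le_iff_mem]
    exact h1
  have h3 := nm_dvd h2
  rw [nm_rt, hz] at h3
  exact Int.natCast_dvd.2 (hp.dvd_of_dvd_pow h3)

/-- an ideal of prime norm `p` gives a square root of `-a` modulo `p` -/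
lemma root_of_ideal [IQ K] {a : ℕ} {θ : 𝓞 K} (hθ : θ ^ 2 = -(a : 𝓞 K)) {z : Gi K} {p : ℕ}
    (hp : p.Prime) (hz : nm z = p) : ∃ s : ℤ, (p : ℤ) ∣ s ^ 2 + a := by
  have hcard : Nat.card (𝓞 K ⧸ z) = p := by
    rw [← hz]; unfold nm
    rw [Ideal.absNorm_apply]
    rfl
  have hfact : Fact p.Prime := ⟨hp⟩
  have htop : z ≠ ⊤ := by
    rintro rfl
    have : nm (⊤ : Gi K) = 1 := by rw [← Ideal.one_eq_top]; exact nm_one
    rw [this] at hz
    exact hp.one_lt.ne hz
  have hone : (1 : 𝓞 K ⧸ z) ≠ 0 := by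
    intro h
    have h1 : (Ideal.Quotient.mk z) 1 = 0 := by rw [map_one]; exact h
    rw [Ideal.Quotient.eq_zero_iff_mem] at h1
    exact htop ((Ideal.eq_top_iff_one z).2 h1)
  have hmem := mem_zmultiples_of_prime_card (G := 𝓞 K ⧸ z) (p := p) (g := 1)
    (g' := Ideal.Quotient.mk z θ) hcard hone
  rw [AddSubgroup.mem_zmultiples_iff] at hmem
  obtain ⟨s, hs⟩ := hmem
  refine ⟨s, ?_⟩
  apply dvd_of_mem hp hz
  rw [← Ideal.Quotient.eq_zero_iff_mem]
  have h2 : (Ideal.Quotient.mk z) θ = (s : 𝓞 K ⧸ z) := by rw [← hs]; simp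
  have h3 := congrArg (Ideal.Quotient.mk z) hθ
  rw [map_pow, h2] at h3
  push_cast
  simp only [map_add, map_pow, map_intCast, map_natCast, map_neg] at h3 ⊢
  rw [h3]
  ring

/-- a square root of `-a` modulo `p ∤ 2 a` gives a split ideal of norm `p` -/
lemma ideal_of_root [IQ K] {a : ℕ} {θ : 𝓞 K} {τ : 𝓞 K →+* 𝓞 K} (hθ : θ ^ 2 = -(a : 𝓞 K))
    (hτ : τ θ = -θ) {p : ℕ} (hp : p.Prime) (hpa : p.Coprime (2 * a)) {s : ℤ}
    (hs : (p : ℤ) ∣ s ^ 2 + a) : ∃ z : Gi K, nm z = p ∧ cj z ≠ z := by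
  have hp0 : (p : ℤ) ≠ 0 := by exact_mod_cast hp.ne_zero
  have hpi : Prime (p : ℤ) := Nat.prime_iff_prime_int.1 hp
  -- `p ∤ 2 s`
  have hps : ¬ (p : ℤ) ∣ 2 * s := by
    intro h
    have h1 : ¬ (p : ℤ) ∣ 2 * (a : ℤ) := by
      intro h2
      have h3 : p ∣ 2 * a := by exact_mod_cast h2
      have := Nat.dvd_gcd dvd_rfl h3
      rw [hpa] at this
      exact hp.one_lt.ne' (Nat.dvd_one.1 this)
    rcases hpi.dvd_or_dvd h with h2 | h2
    · exact h1 (h2.mul_right _)
    · apply h1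
      have h3 : (p : ℤ) ∣ s ^ 2 := by rw [pow_two]; exact h2.mul_right _
      exact ((dvd_add_right h3).1 hs).mul_left _
  obtain ⟨r, hr⟩ := hs
  obtain ⟨u, v, huv⟩ : ∃ u v : ℤ, u * p + v * (2 * s) = 1 := by
    have := (Prime.coprime_iff_not_dvd hpi).2 hps
    exact this
  have huvO : (u : 𝓞 K) * p + v * (2 * s) = 1 := by
    have := congrArg (Int.cast : ℤ → 𝓞 K) huv
    push_cast at this
    exact this
  have hrO : (s : 𝓞 K) ^ 2 + a = p * r := by
    have := congrArg (Int.cast : ℤ → 𝓞 K) hr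
    push_cast at this
    exact this
  set zp : Gi K := Ideal.span {(p : 𝓞 K), θ - s} with hzp
  set zm : Gi K := Ideal.span {(p : 𝓞 K), θ + s} with hzm
  have hp1 : (p : 𝓞 K) ∈ zp := Ideal.subset_span (by simp)
  have hp2 : θ - s ∈ zp := Ideal.subset_span (by simp)
  have hm1 : (p : 𝓞 K) ∈ zm := Ideal.subset_span (by simp)
  have hm2 : θ + s ∈ zm := Ideal.subset_span (by simp)
  have hmul : zp * zm = rt p := by
    apply le_antisymm
    · rw [hzp, hzm, Ideal.span_pair_mul_span_pair]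
      unfold rt
      rw [Ideal.span_le]
      intro x hx
      simp only [Set.mem_insert_iff, Set.mem_singleton_iff] at hx
      rw [SetLike.mem_coe, Ideal.mem_span_singleton]
      rcases hx with rfl | rfl | rfl | rfl
      · exact dvd_mul_right _ _
      · exact dvd_mul_right _ _
      · exact dvd_mul_left _ _
      · refine ⟨-r, ?_⟩
        linear_combination hθ - hrO
    · unfold rt
      rw [Ideal.span_singleton_le_iff_mem]
      have h1 : (p : 𝓞 K) * p ∈ zp * zm := Ideal.mul_mem_mul hp1 hm1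
      have h2 : (p : 𝓞 K) * (θ + s) ∈ zp * zm := Ideal.mul_mem_mul hp1 hm2
      have h3 : (θ - s) * (p : 𝓞 K) ∈ zp * zm := Ideal.mul_mem_mul hp2 hm1
      have h4 : (p : 𝓞 K) = u * (p * p) + v * (p * (θ + s) - (θ - s) * p) := by
        linear_combination (-(p : 𝓞 K)) * huvO
      rw [h4]
      exact Ideal.add_mem _ (Ideal.mul_mem_left _ _ h1)
        (Ideal.mul_mem_left _ _ (Ideal.sub_mem _ h2 h3))
  -- `θ ± s` is not divisible by `p`
  have hnot : ∀ s' : ℤ, ¬ (p : ℤ) ∣ 2 * s' → ∀ β : 𝓞 K, θ + s' ≠ p * β := by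
    intro s' hs' β h
    have h1 := congrArg τ h
    rw [map_add, hτ, map_mul, map_intCast, map_natCast] at h1
    have h2 : ((2 * s' : ℤ) : 𝓞 K) = p * (β + τ β) := by
      push_cast
      linear_combination h + h1
    apply hs'
    have h3 : rt p ∣ (rt (2 * s').natAbs : Gi K) := by
      unfold rt
      rw [Ideal.dvd_iff_le, Ideal.span_singleton_le_iff_mem, Ideal.mem_span_singleton]
      rcases Int.natAbs_eq (2 * s') with h4 | h4
      · refine ⟨β + τ β, ?_⟩
        rw [← h2]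
        conv_rhs => rw [h4]
        rw [Int.cast_natCast]
      · refine ⟨-(β + τ β), ?_⟩
        rw [mul_neg, ← h2]
        conv_rhs => rw [h4]
        rw [Int.cast_neg, Int.cast_natCast, neg_neg]
    exact Int.natCast_dvd.2 (rt_dvd_rt.1 h3)
  have hzp1 : zp ≠ 1 := by
    intro h
    rw [h, one_mul] at hmul
    rw [hmul] at hm2
    unfold rt at hm2
    rw [Ideal.mem_span_singleton] at hm2
    obtain ⟨β, hβ⟩ := hm2
    exact hnot s hps β hβ
  have hzm1 : zm ≠ 1 := by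
    intro h
    rw [h, mul_one] at hmul
    rw [hmul] at hp2
    unfold rt at hp2
    rw [Ideal.mem_span_singleton] at hp2
    obtain ⟨β, hβ⟩ := hp2
    refine hnot (-s) ?_ β ?_
    · rw [mul_neg, dvd_neg]; exact hps
    · rw [← hβ]; push_cast; ring
  have hn : nm zp * nm zm = p ^ 2 := by rw [← nm_mul, hmul, nm_rt]
  have hn2 := (Nat.Prime.mul_eq_prime_sq_iff (x := nm zp) (y := nm zm) (p := p) hp
    (fun h => hzp1 (nm_eq_one.1 h)) (fun h => hzm1 (nm_eq_one.1 h))).1 hn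
  have hz0 : zp ≠ 0 := by
    intro h
    rw [h, nm_zero] at hn2
    exact hp.ne_zero hn2.1.symm
  have hcj : zm = cj zp := cj_unique hz0 (by rw [hmul, hn2.1])
  refine ⟨zp, hn2.1, ?_⟩
  rw [← hcj]
  intro h
  apply hzp1
  rw [Ideal.one_eq_top, Ideal.eq_top_iff_one]
  have h1 : θ + s ∈ zp := by rw [← h]; exact hm2
  have h2 : (1 : 𝓞 K) = u * p + v * ((θ + s) - (θ - s)) := by
    linear_combination -huvO
  rw [h2]
  exact Ideal.add_mem _ (Ideal.mul_mem_left _ _ hp1) (Ideal.mul_mem_left _ _ (Ideal.sub_mem _ h1 hp2))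

/-- the primes in `(x, y]` -/
def Pr (x y : ℕ) : Finset ℕ := (Ioc x y).filter Nat.Prime

/-- the number of split ideals above `p` -/
noncomputable def cc (K : Type) [Field K] [NumberField K] (p : ℕ) : ℕ :=
  ((GP 0 p : Finset (Gi K)).filter (fun π => nm π = p)).card

lemma cc_eq {P Q : ℝ} {p : ℕ} (hp : 0 < p) (h1 : P < (p : ℝ)) (h2 : (p : ℝ) ≤ Q) :
    ((GP P Q : Finset (Gi K)).filter (fun π => nm π = p)).card = cc K p := by
  unfold cc
  congr 1
  ext π
  rw [mem_filter, mem_filter, mem_GP, mem_GP]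
  constructor
  · rintro ⟨⟨a1, a2, a3, a4⟩, a5⟩
    exact ⟨⟨a1, a2, by rw [a5]; exact_mod_cast hp, by rw [a5]⟩, a5⟩
  · rintro ⟨⟨a1, a2, a3, a4⟩, a5⟩
    exact ⟨⟨a1, a2, by rw [a5]; exact h1, by rw [a5]; exact h2⟩, a5⟩

lemma cc_le [IQ K] (p : ℕ) : cc K p ≤ 2 := card_GP_nm p

lemma gp_sum [IQ K] {E : Type} [AddCommMonoid E] {P Q : ℝ} (hP : 0 ≤ P) (h : ℕ → E) :
    ∑ π ∈ (GP P Q : Finset (Gi K)), h (nm π) = ∑ p ∈ Pr ⌊P⌋₊ ⌊Q⌋₊, cc K p • h p := by
  have hmaps : ∀ π ∈ (GP P Q : Finset (Gi K)), nm π ∈ Pr ⌊P⌋₊ ⌊Q⌋₊ := by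
    intro π hπ
    rw [mem_GP] at hπ
    rw [Pr, mem_filter, mem_Ioc]
    exact ⟨⟨(Nat.floor_lt hP).2 hπ.2.2.1, Nat.le_floor hπ.2.2.2⟩, hπ.1⟩
  rw [← sum_fiberwise_of_maps_to hmaps]
  refine sum_congr rfl fun p hp => ?_
  rw [Pr, mem_filter, mem_Ioc] at hp
  have hp0 : 0 < p := hp.2.pos
  have h1 : P < (p : ℝ) := (Nat.floor_lt hP).1 hp.1.1
  have h2 : (p : ℝ) ≤ Q := by
    have hQ0 : 0 ≤ Q := by
      by_contra hQ
      push Not at hQ
      have := hp.1.2
      rw [Nat.floor_of_nonpos hQ.le] at this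
      omega
    exact (Nat.le_floor_iff hQ0).1 hp.1.2
  rw [← cc_eq (K := K) hp0 h1 h2, ← Finset.sum_const]
  refine sum_congr rfl fun π hπ => ?_
  rw [(mem_filter.1 hπ).2]

lemma cc_ch [IQ K] {a : ℕ} {θ : 𝓞 K} {τ : 𝓞 K →+* 𝓞 K} (hθ : θ ^ 2 = -(a : 𝓞 K))
    (hτ : τ θ = -θ) {p : ℕ} (hp : p.Prime) (hpa : p.Coprime (2 * a)) :
    (cc K p : ℝ) = 1 + TA.ch (a : ℤ) p := by
  have hp2 : p ≠ 2 := by
    rintro rfl
    have := Nat.dvd_gcd (dvd_refl 2) (Dvd.intro a rfl : 2 ∣ 2 * a)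
    rw [hpa] at this
    omega
  have hpa' : ¬ (p : ℤ) ∣ (a : ℤ) := by
    intro h
    have h3 : p ∣ a := by exact_mod_cast h
    have := Nat.dvd_gcd (dvd_refl p) (h3.mul_left 2)
    rw [hpa] at this
    exact hp.one_lt.ne' (Nat.dvd_one.1 this)
  rcases TA.chz_sq (a := (a : ℤ)) hp.ne_zero (by simpa using hpa) with h | h
  · obtain ⟨s, hs⟩ := (TA.chz_prime_one hp hp2 hpa').1 h
    obtain ⟨z, hz, hcz⟩ := ideal_of_root hθ hτ hp hpa hs
    have hzG : z ∈ (GP 0 p : Finset (Gi K)) := by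
      rw [mem_GP, hz]
      exact ⟨hp, hcz, by exact_mod_cast hp.pos, le_rfl⟩
    have hset : (GP 0 p : Finset (Gi K)).filter (fun π => nm π = p) = {z, cj z} := by
      ext π
      rw [mem_filter, mem_insert, mem_singleton]
      constructor
      · rintro ⟨h1, h2⟩
        exact eq_or_of_nm_eq hzG h1 (hz.trans h2.symm)
      · rintro (rfl | rfl)
        · exact ⟨hzG, hz⟩
        · exact ⟨cj_mem_GP hzG, by rw [nm_cj, hz]⟩
    unfold cc TA.ch
    rw [hset, card_pair hcz.symm, h]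
    norm_num
  · have hset : (GP 0 p : Finset (Gi K)).filter (fun π => nm π = p) = ∅ := by
      rw [eq_empty_iff_forall_notMem]
      intro π hπ
      rw [mem_filter] at hπ
      have h1 := (TA.chz_prime_one hp hp2 hpa').2 (root_of_ideal hθ hp hπ.2)
      rw [h1] at h
      norm_num at h
    unfold cc TA.ch
    rw [hset, card_empty, h]
    norm_num

/-- primes in a residue class -/
lemma class_real (M : ℕ) (hM : 0 < M) (a : ℕ) (ha : a.Coprime M) :
    ∃ C : ℝ, 0 ≤ C ∧ ∀ x y : ℕ, 3 ≤ x → x ≤ y →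
      |(∑ p ∈ (Ioc x y).filter (fun p => p.Prime ∧ p ≡ a [MOD M]), 1 / (p : ℝ)) -
        1 / (M.totient : ℝ) * (Real.log (Real.log y) - Real.log (Real.log x))| ≤ C := by
  obtain ⟨C, hC0, hC⟩ := MR.PG.class_one M hM a ha 1 one_pos
  refine ⟨C, hC0, fun x y hx hxy => ?_⟩
  have h := hC x y hx hxy 0 (by simp)
  have e1 : (∑ p ∈ (Ioc x y).filter (fun p => p.Prime ∧ p ≡ a [MOD M]),
      (p : ℂ) ^ (-1 - Complex.I * ((0 : ℝ) : ℂ))) =
      ((∑ p ∈ (Ioc x y).filter (fun p => p.Prime ∧ p ≡ a [MOD M]), 1 / (p : ℝ) : ℝ) : ℂ) := by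
    push_cast
    refine sum_congr rfl fun p _ => ?_
    simp only [mul_zero, sub_zero]
    rw [Complex.cpow_neg_one, one_div]
  rw [e1, ← Complex.ofReal_sub, Complex.norm_real, Real.norm_eq_abs] at h
  have e2 : MR.PG.EE x y 0 = Real.log (Real.log y) - Real.log (Real.log x) := by
    unfold MR.PG.EE
    simp only [abs_zero, add_zero]
    rw [one_div, one_div, Real.log_inv, Real.log_inv]
    ring
  rw [e2] at h
  exact h

lemma coprime_four {a n : ℕ} : n.Coprime (4 * a) ↔ n.Coprime (2 * a) := by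
  have e : 4 * a = 2 * (2 * a) := by ring
  rw [e]
  constructor
  · intro h
    exact Nat.Coprime.coprime_mul_left_right h
  · intro h
    exact Nat.Coprime.mul_right (Nat.Coprime.coprime_mul_right_right h) h

/-- the mean value of `1 + χ` over the units is one -/
lemma mean_one {a : ℕ} (ha : 0 < a) :
    ∑ b ∈ (range (4 * a)).filter (fun b => b.Coprime (4 * a)), (1 + TA.ch (a : ℤ) b) =
      ((4 * a).totient : ℝ) := by
  rw [sum_add_distrib, sum_const, nsmul_eq_mul, mul_one]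
  have h1 : ((range (4 * a)).filter (fun b => b.Coprime (4 * a))).card = (4 * a).totient := by
    rw [Nat.totient]
    congr 1
    ext b
    rw [mem_filter, mem_filter, Nat.coprime_comm]
  have h2 : ∑ b ∈ (range (4 * a)).filter (fun b => b.Coprime (4 * a)), TA.ch (a : ℤ) b = 0 := by
    have h3 := TA.sum_period (a := (a : ℤ)) (by exact_mod_cast ha.ne') (TA.nsq_of_pos (by exact_mod_cast ha))
    rw [Int.natAbs_natCast] at h3
    rw [← h3]
    refine sum_subset (filter_subset _ _) fun b hb hb' => ?_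
    rw [mem_filter] at hb'
    push Not at hb'
    rcases Nat.eq_zero_or_pos b with rfl | hb0
    · exact TA.ch_zero _
    have h4 := hb' hb
    unfold TA.ch
    rw [(TA.chz_eq_zero_iff hb0.ne').2]
    · norm_num
    · rw [Int.natAbs_natCast, ← coprime_four]; exact h4
  rw [h1, h2, add_zero]

lemma sum_cc [IQ K] : ∃ C : ℝ, ∀ x y : ℕ, 3 ≤ x → x ≤ y →
    |(∑ p ∈ Pr x y, (cc K p : ℝ) * (1 / (p : ℝ))) -
      (Real.log (Real.log y) - Real.log (Real.log x))| ≤ C := by
  obtain ⟨a, θ, τ, ha, hθ, hτ⟩ := exists_data (K := K)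
  set M := 4 * a with hM
  have hMpos : 0 < M := by omega
  have hex : ∀ b : ℕ, ∃ C : ℝ, 0 ≤ C ∧ (b.Coprime M → ∀ x y : ℕ, 3 ≤ x → x ≤ y →
      |(∑ p ∈ (Ioc x y).filter (fun p => p.Prime ∧ p ≡ b [MOD M]), 1 / (p : ℝ)) -
        1 / (M.totient : ℝ) * (Real.log (Real.log y) - Real.log (Real.log x))| ≤ C) := by
    intro b
    by_cases hb : b.Coprime M
    · obtain ⟨C, h0, hC⟩ := class_real M hMpos b hb
      exact ⟨C, h0, fun _ => hC⟩
    · exact ⟨0, le_rfl, fun h => absurd h hb⟩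
  choose C hC0 hC using hex
  set RR : Finset ℕ := (range M).filter (fun b => b.Coprime M) with hRR
  refine ⟨(∑ b ∈ RR, 2 * C b) + 2 * M, fun x y hx hxy => ?_⟩
  set L : ℝ := Real.log (Real.log y) - Real.log (Real.log x) with hL
  have hphi : (0 : ℝ) < (M.totient : ℝ) := by exact_mod_cast Nat.totient_pos.2 hMpos
  have hmaps : ∀ p ∈ (Pr x y).filter (fun p => p.Coprime M), p % M ∈ RR := by
    intro p hp
    rw [mem_filter, Pr, mem_filter] at hp
    rw [hRR, mem_filter, mem_range]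
    refine ⟨Nat.mod_lt _ hMpos, ?_⟩
    have h5 : Nat.gcd (p % M) M = Nat.gcd p M := (Nat.mod_modEq p M).gcd_eq
    rw [Nat.Coprime, h5]; exact hp.2
  have e1 : ∑ p ∈ (Pr x y).filter (fun p => p.Coprime M), (cc K p : ℝ) * (1 / (p : ℝ)) =
      ∑ b ∈ RR, (1 + TA.ch (a : ℤ) b) *
        ∑ p ∈ (Ioc x y).filter (fun p => p.Prime ∧ p ≡ b [MOD M]), 1 / (p : ℝ) := by
    rw [← sum_fiberwise_of_maps_to hmaps]
    refine sum_congr rfl fun b hb => ?_
    rw [hRR, mem_filter, mem_range] at hb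
    rw [mul_sum]
    have hset : ((Pr x y).filter (fun p => p.Coprime M)).filter (fun p => p % M = b) =
        (Ioc x y).filter (fun p => p.Prime ∧ p ≡ b [MOD M]) := by
      ext p
      rw [mem_filter, mem_filter, Pr, mem_filter, mem_filter]
      constructor
      · rintro ⟨⟨⟨h1, h2⟩, h5⟩, h6⟩
        exact ⟨h1, h2, by rw [Nat.ModEq, h6, Nat.mod_eq_of_lt hb.1]⟩
      · rintro ⟨h1, h2, h3⟩
        rw [Nat.ModEq, Nat.mod_eq_of_lt hb.1] at h3
        refine ⟨⟨⟨h1, h2⟩, ?_⟩, h3⟩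
        have h5 : (p % M).Coprime M := by rw [h3]; exact hb.2
        have h6 : Nat.gcd (p % M) M = Nat.gcd p M := (Nat.mod_modEq p M).gcd_eq
        rw [Nat.Coprime, ← h6]; exact h5
    rw [hset]
    refine sum_congr rfl fun p hp => ?_
    rw [mem_filter] at hp
    have hpc : p.Coprime M := by
      have h6 : Nat.gcd p M = Nat.gcd b M := hp.2.2.gcd_eq
      rw [Nat.Coprime, h6]; exact hb.2
    rw [cc_ch hθ hτ hp.2.1 (coprime_four.1 hpc)]
    congr 2
    exact TA.ch_congr (q := M) (by rw [Int.natAbs_natCast]) hp.2.2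
  have e2 : |∑ p ∈ (Pr x y).filter (fun p => ¬ p.Coprime M), (cc K p : ℝ) * (1 / (p : ℝ))| ≤
      2 * M := by
    refine (abs_sum_le_sum_abs _ _).trans ?_
    have h1 : ∀ p ∈ (Pr x y).filter (fun p => ¬ p.Coprime M), |(cc K p : ℝ) * (1 / (p : ℝ))| ≤
        2 := by
      intro p hp
      rw [mem_filter, Pr, mem_filter] at hp
      have hp0 := hp.1.2.pos
      have h2 : (1 : ℝ) / p ≤ 1 := by
        rw [div_le_one (by exact_mod_cast hp0)]
        exact_mod_cast hp0
      have h3 : (cc K p : ℝ) ≤ 2 := by exact_mod_cast cc_le (K := K) p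
      rw [abs_of_nonneg (by positivity)]
      calc (cc K p : ℝ) * (1 / (p : ℝ)) ≤ 2 * 1 :=
            mul_le_mul h3 h2 (by positivity) (by norm_num)
        _ = 2 := by norm_num
    refine (sum_le_sum h1).trans ?_
    rw [sum_const, nsmul_eq_mul]
    have hsub : (Pr x y).filter (fun p => ¬ p.Coprime M) ⊆ Icc 1 M := by
      intro p hp
      rw [mem_filter, Pr, mem_filter] at hp
      rw [mem_Icc]
      refine ⟨hp.1.2.pos, ?_⟩
      have h3 := (Nat.Prime.coprime_iff_not_dvd hp.1.2).not.1 hp.2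
      push Not at h3
      exact Nat.le_of_dvd hMpos h3
    have h4 := card_le_card hsub
    rw [Nat.card_Icc] at h4
    have h5 : (((Pr x y).filter (fun p => ¬ p.Coprime M)).card : ℝ) ≤ M := by
      have : ((Pr x y).filter (fun p => ¬ p.Coprime M)).card ≤ M := by omega
      exact_mod_cast this
    linarith
  have hmean : ∑ b ∈ RR, (1 + TA.ch (a : ℤ) b) * (1 / (M.totient : ℝ) * L) = L := by
    rw [← sum_mul, hRR, hM, mean_one ha, ← hM]
    field_simp
  have e3 : (∑ p ∈ Pr x y, (cc K p : ℝ) * (1 / (p : ℝ))) - L =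
      (∑ b ∈ RR, (1 + TA.ch (a : ℤ) b) *
        ((∑ p ∈ (Ioc x y).filter (fun p => p.Prime ∧ p ≡ b [MOD M]), 1 / (p : ℝ)) -
          1 / (M.totient : ℝ) * L)) +
      ∑ p ∈ (Pr x y).filter (fun p => ¬ p.Coprime M), (cc K p : ℝ) * (1 / (p : ℝ)) := by
    rw [← sum_filter_add_sum_filter_not (Pr x y) (fun p => p.Coprime M), e1]
    simp_rw [mul_sub]
    rw [sum_sub_distrib, hmean]
    ring
  rw [e3]
  refine (abs_add_le _ _).trans (add_le_add ?_ e2)
  refine (abs_sum_le_sum_abs _ _).trans (sum_le_sum fun b hb => ?_)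
  rw [hRR, mem_filter] at hb
  rw [abs_mul]
  have h1 : |1 + TA.ch (a : ℤ) b| ≤ 2 := by
    rw [abs_le]
    constructor <;> linarith [TA.ch_le (a : ℤ) b, TA.ch_ge (a : ℤ) b]
  exact mul_le_mul h1 (hC b hb.2 x y hx hxy) (abs_nonneg _) (by norm_num)

end PG

open PG

theorem specPG {K : Type} [Field K] [NumberField K] [IQ K] : SpecPG K := by
  refine ⟨?_, ?_, ?_⟩
  · obtain ⟨C, hC⟩ := sum_cc (K := K)
    have hfl : ∀ x : ℝ, 3 ≤ x →
        |Real.log (Real.log ⌊x⌋₊) - Real.log (Real.log x)| ≤ Real.log 2 := by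
      intro x hx
      have hn : 3 ≤ ⌊x⌋₊ := Nat.le_floor (by push_cast; exact hx)
      have hnR : (3 : ℝ) ≤ (⌊x⌋₊ : ℝ) := by exact_mod_cast hn
      have h1 : (⌊x⌋₊ : ℝ) ≤ x := Nat.floor_le (by linarith)
      have h2 : x < (⌊x⌋₊ : ℝ) + 1 := Nat.lt_floor_add_one x
      have hl0 : 0 < Real.log ⌊x⌋₊ := MR.PG.log_pos_of hn
      have hl1 : Real.log ⌊x⌋₊ ≤ Real.log x := Real.log_le_log (by linarith) h1
      have hl2 : Real.log x ≤ 2 * Real.log ⌊x⌋₊ := by
        have h3 : x ≤ (⌊x⌋₊ : ℝ) ^ 2 := by nlinarith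
        have h4 := Real.log_le_log (by linarith) h3
        rw [Real.log_pow] at h4
        exact_mod_cast h4
      have hlx : 0 < Real.log x := lt_of_lt_of_le hl0 hl1
      have j1 := Real.log_le_log hl0 hl1
      have j2 := Real.log_le_log hlx hl2
      rw [Real.log_mul (by norm_num) hl0.ne'] at j2
      have hlog2 : 0 ≤ Real.log 2 := Real.log_nonneg (by norm_num)
      rw [abs_le]
      constructor <;> linarith
    refine ⟨C + 2 * Real.log 2, fun P Q hP hPQ => ?_⟩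
    have hP0 : 0 ≤ P := by linarith
    have hx : 3 ≤ ⌊P⌋₊ := Nat.le_floor (by push_cast; exact hP)
    have hxy : ⌊P⌋₊ ≤ ⌊Q⌋₊ := Nat.floor_mono hPQ
    have h1 := hC ⌊P⌋₊ ⌊Q⌋₊ hx hxy
    have h2 : WW K P Q = ∑ p ∈ Pr ⌊P⌋₊ ⌊Q⌋₊, (cc K p : ℝ) * (1 / (p : ℝ)) := by
      unfold WW
      rw [gp_sum hP0 (fun n => 1 / (n : ℝ))]
      exact sum_congr rfl fun p _ => nsmul_eq_mul _ _
    rw [h2]
    have e1 := hfl P hP
    have e2 := hfl Q (hP.trans hPQ)
    rw [abs_le] at h1 e1 e2 ⊢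
    constructor <;> linarith [h1.1, h1.2, e1.1, e1.2, e2.1, e2.2]
  · refine ⟨2 * Real.exp 1 * Real.log 4, by
      have : 0 < Real.log 4 := Real.log_pos (by norm_num)
      positivity, fun x hx => ?_⟩
    have hx0 : 0 < x := by linarith
    have hlx : 0 < Real.log x := Real.log_pos (by linarith)
    unfold WW
    rw [gp_sum hx0.le (fun n => 1 / (n : ℝ))]
    have h1 : ∑ p ∈ Pr ⌊x⌋₊ ⌊Real.exp 1 * x⌋₊, cc K p • (1 / (p : ℝ)) ≤
        ∑ p ∈ Pr ⌊x⌋₊ ⌊Real.exp 1 * x⌋₊, 2 / (x * Real.log x) * Real.log p := by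
      refine sum_le_sum fun p hp => ?_
      rw [Pr, mem_filter, mem_Ioc] at hp
      have hxp : x < p := (Nat.floor_lt hx0.le).1 hp.1.1
      have h2 : Real.log x ≤ Real.log p := Real.log_le_log hx0 hxp.le
      have hp0 : (0 : ℝ) < p := by linarith
      have h3 : (cc K p : ℝ) ≤ 2 := by exact_mod_cast cc_le (K := K) p
      rw [nsmul_eq_mul]
      have h4 : 1 / (p : ℝ) ≤ 1 / (x * Real.log x) * Real.log p := by
        rw [one_div_mul_eq_div, div_le_div_iff₀ hp0 (by positivity)]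
        calc 1 * (x * Real.log x) = Real.log x * x := by ring
          _ ≤ Real.log p * p := mul_le_mul h2 hxp.le hx0.le (hlx.le.trans h2)
      calc (cc K p : ℝ) * (1 / (p : ℝ)) ≤ 2 * (1 / (x * Real.log x) * Real.log p) :=
            mul_le_mul h3 h4 (by positivity) (by norm_num)
        _ = 2 / (x * Real.log x) * Real.log p := by ring
    have h2 : ∑ p ∈ Pr ⌊x⌋₊ ⌊Real.exp 1 * x⌋₊, Real.log p ≤ Chebyshev.theta (Real.exp 1 * x) := by
      rw [Chebyshev.theta_eq_sum_Icc]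
      refine sum_le_sum_of_subset_of_nonneg ?_ ?_
      · intro p hp
        rw [Pr, mem_filter, mem_Ioc] at hp
        rw [mem_filter, mem_Icc]
        exact ⟨⟨by omega, hp.1.2⟩, hp.2⟩
      · intro p hp _
        rw [mem_filter] at hp
        exact Real.log_nonneg (by exact_mod_cast hp.2.one_le)
    have h3 := Chebyshev.theta_le_log4_mul_x (x := Real.exp 1 * x) (by positivity)
    rw [← mul_sum] at h1
    refine h1.trans ?_
    calc 2 / (x * Real.log x) * ∑ p ∈ Pr ⌊x⌋₊ ⌊Real.exp 1 * x⌋₊, Real.log p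
        ≤ 2 / (x * Real.log x) * (Real.log 4 * (Real.exp 1 * x)) :=
          mul_le_mul_of_nonneg_left (h2.trans h3) (by positivity)
      _ = 2 * Real.exp 1 * Real.log 4 / Real.log x := by
          field_simp
  · refine ⟨2 * (2 * Real.log 4 + 2), by
      have : 0 < Real.log 4 := Real.log_pos (by norm_num)
      positivity, fun x hx => ?_⟩
    have hx0 : 0 < x := by linarith
    have hlx : 0 < Real.log x := Real.log_pos (by linarith)
    have h1 := gp_sum (K := K) (P := 0) (Q := x) le_rfl (fun _ => (1 : ℝ))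
    rw [sum_const, nsmul_eq_mul, mul_one] at h1
    rw [h1]
    have h0 : ∑ p ∈ Pr ⌊(0 : ℝ)⌋₊ ⌊x⌋₊, cc K p • (1 : ℝ) ≤ 2 * ((Pr ⌊(0 : ℝ)⌋₊ ⌊x⌋₊).card : ℝ) := by
      have : ∀ p ∈ Pr ⌊(0 : ℝ)⌋₊ ⌊x⌋₊, cc K p • (1 : ℝ) ≤ 2 := by
        intro p _
        rw [nsmul_eq_mul, mul_one]
        exact_mod_cast cc_le (K := K) p
      refine (sum_le_sum this).trans ?_
      rw [sum_const, nsmul_eq_mul, mul_comm]
    have h2 : (Pr ⌊(0 : ℝ)⌋₊ ⌊x⌋₊).card ≤ Nat.primeCounting ⌊x⌋₊ := by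
      rw [Nat.primeCounting, Nat.primeCounting', Nat.count_eq_card_filter_range]
      refine card_le_card fun p hp => ?_
      rw [Pr, mem_filter, mem_Ioc] at hp
      rw [mem_filter, mem_range]
      exact ⟨by omega, hp.2⟩
    have h3 := Chebyshev.pi_le_log4_mul_div (x := x) (by linarith)
    have h4 : Real.log (Real.sqrt x) = Real.log x / 2 := Real.log_sqrt hx0.le
    have h5 : Real.sqrt x ≤ 2 * x / Real.log x := by
      rw [le_div_iff₀ hlx]
      have h6 : Real.log (Real.sqrt x) ≤ Real.sqrt x := by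
        have := Real.log_le_sub_one_of_pos (Real.sqrt_pos.2 hx0)
        linarith
      have h7 : Real.log x ≤ 2 * Real.sqrt x := by linarith
      have h8 : Real.sqrt x * Real.sqrt x = x := Real.mul_self_sqrt hx0.le
      have h9 := Real.sqrt_nonneg x
      nlinarith
    have h2' : ((Pr ⌊(0 : ℝ)⌋₊ ⌊x⌋₊).card : ℝ) ≤ (Nat.primeCounting ⌊x⌋₊ : ℝ) := by
      exact_mod_cast h2
    rw [h4] at h3
    have h10 : Real.log 4 * x / (Real.log x / 2) = 2 * Real.log 4 * x / Real.log x := by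
      field_simp
    rw [h10] at h3
    have h11 : 2 * (2 * Real.log 4 + 2) * x / Real.log x =
        2 * (2 * Real.log 4 * x / Real.log x + 2 * x / Real.log x) := by
      field_simp
    rw [h11]
    have h12 := (h2'.trans h3).trans (add_le_add_right h5 _)
    exact h0.trans (mul_le_mul_of_nonneg_left h12 (by norm_num))

end Pool.Agent.Lib.MP391708.MA
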