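import Pool.Agent.Lib.MP_391708_nt.MA.Spec
import Pool.Agent.Lib.MP_391708_nt.MR.Plan

/-!
# PLAN: discrete Plancherel for all index types, by transport of `MR.specPlan`
-/

set_option autoImplicit false

namespace Pool.Agent.Lib.MP391708.MA

open Finset Filter Topology

namespace PlanT

variable {α β γ : Type}

lemma exists_inj_int (U : Finset α) : ∃ φ : U → ℤ, Function.Injective φ := by
  refine ⟨fun x => ((Fintype.equivFin U x : ℕ) : ℤ), fun x y h => ?_⟩
  beta_reduce at h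
  have h1 : (Fintype.equivFin U x : ℕ) = (Fintype.equivFin U y : ℕ) := by exact_mod_cast h
  exact (Fintype.equivFin U).injective (Fin.ext h1)

lemma exists_inj_gi (E : Finset β) : ∃ ψ : E → MR.Gi, Function.Injective ψ := by
  refine ⟨fun x => ⟨((Fintype.equivFin E x : ℕ) : ℤ), 0⟩, fun x y h => ?_⟩
  have h0 := congrArg Zsqrtd.re h
  dsimp only at h0
  have h1 : (Fintype.equivFin E x : ℕ) = (Fintype.equivFin E y : ℕ) := by exact_mod_cast h0
  exact (Fintype.equivFin E).injective (Fin.ext h1)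

lemma sum_tr {M : Type} [AddCommMonoid M] [DecidableEq γ] (U : Finset α) (φ : U → γ)
    (hφ : Function.Injective φ) (f : γ → M) (f' : α → M) (h : ∀ x : U, f (φ x) = f' x) :
    ∑ k ∈ (univ : Finset U).image φ, f k = ∑ x ∈ U, f' x := by
  rw [sum_image fun a _ b _ hab => hφ hab, ← Finset.sum_coe_sort U f']
  exact sum_congr rfl fun x _ => h x

end PlanT

open PlanT in
/-- PLAN -/
theorem specPlan : SpecPlan := by
  classical
  intro α β c ε hc hε
  obtain ⟨T₀, τ₀, hT, hτ0, h⟩ := MR.specPlan c ε hc hε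
  refine ⟨T₀, τ₀, hT, hτ0, fun τ hτ hττ => ?_⟩
  obtain ⟨ρ, hρ, N₀, h⟩ := h τ hτ hττ
  refine ⟨ρ, hρ, N₀, ?_⟩
  intro U F E w lg g a Λ D N hN hD hΛ hΛN hE hwl hg h1 h2 h3 h4
  obtain ⟨φ, hφ⟩ := exists_inj_int U
  obtain ⟨ψ, hψ⟩ := exists_inj_gi E
  set U' : Finset ℤ := (univ : Finset U).image φ with hU'
  set E' : Finset MR.Gi := (univ : Finset E).image ψ with hE'
  set F' : ℤ → ℝ → ℂ := Function.extend φ (fun x => F x) (fun _ _ => 0) with hF'
  set w' : MR.Gi → ℝ := Function.extend ψ (fun i => w i) (fun _ => 0) with hw'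
  set lg' : MR.Gi → ℝ := Function.extend ψ (fun i => lg i) (fun _ => 0) with hlg'
  set g' : ℤ → MR.Gi → ℂ := Function.extend φ
    (fun x => Function.extend ψ (fun i => g x i) (fun _ => 0)) (fun _ _ => 0) with hg'
  have eF : ∀ x : U, F' (φ x) = F x := fun x => hφ.extend_apply _ _ x
  have ew : ∀ i : E, w' (ψ i) = w i := fun i => hψ.extend_apply _ _ i
  have el : ∀ i : E, lg' (ψ i) = lg i := fun i => hψ.extend_apply _ _ i
  have eg : ∀ (x : U) (i : E), g' (φ x) (ψ i) = g x i := by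
    intro x i
    rw [hg', hφ.extend_apply, hψ.extend_apply]
  have eg1 : ∀ k i, ‖g' k i‖ ≤ 1 := by
    intro k i
    by_cases hk : ∃ x, φ x = k
    · obtain ⟨x, rfl⟩ := hk
      rw [hg', hφ.extend_apply]
      by_cases hi : ∃ j, ψ j = i
      · obtain ⟨j, rfl⟩ := hi
        rw [hψ.extend_apply]
        exact hg _ _
      · rw [Function.extend_apply' _ _ _ hi]
        simp
    · rw [hg', Function.extend_apply' _ _ _ hk]
      simp
  have sw : ∑ i ∈ E', w' i = ∑ i ∈ E, w i := sum_tr E ψ hψ _ _ ew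
  have sU : ∀ (f : ℤ → ℝ) (f' : α → ℝ), (∀ x : U, f (φ x) = f' x) →
      ∑ k ∈ U', f k = ∑ x ∈ U, f' x := fun f f' hf => sum_tr U φ hφ f f' hf
  have sE : ∀ (f : MR.Gi → ℂ) (f' : β → ℂ), (∀ x : E, f (ψ x) = f' x) →
      ∑ k ∈ E', f k = ∑ x ∈ E, f' x := fun f f' hf => sum_tr E ψ hψ f f' hf
  have hEne : E'.Nonempty := by
    obtain ⟨i, hi⟩ := hE
    exact ⟨ψ ⟨i, hi⟩, mem_image_of_mem _ (mem_univ _)⟩
  have key := h U' F' E' w' lg' g' a Λ D N hN hD hΛ hΛN hEne
    (by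
      intro i hi
      obtain ⟨j, _, rfl⟩ := mem_image.1 hi
      rw [ew, el]
      exact hwl _ j.2) eg1
    (by
      intro y hy hy'
      rw [sU (fun k => ‖F' k y‖ ^ 2) (fun k => ‖F k y‖ ^ 2) (fun x => by rw [eF])]
      exact h1 y hy hy')
    (by
      intro y y' hy hyy hy1 hy'
      rw [sU (fun k => ‖F' k y' - F' k y‖ ^ 2) (fun k => ‖F k y' - F k y‖ ^ 2)
        (fun x => by rw [eF])]
      exact h2 y y' hy hyy hy1 hy')
    (by
      intro y hy hy'
      rw [sw]
      rw [sU _ (fun k => ‖F k y - (1 / ((∑ i ∈ E, w i : ℝ) : ℂ)) *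
        ∑ i ∈ E, (w i : ℂ) * g k i * F k (y - lg i)‖ ^ 2) (fun x => by
          rw [eF, sE _ (fun i => (w i : ℂ) * g x i * F x (y - lg i))
            (fun i => by rw [ew, eg, el])])]
      exact h3 y hy hy')
    (by
      intro k hk t ht
      obtain ⟨x, _, rfl⟩ := mem_image.1 hk
      rw [sw, sE _ (fun i => (w i : ℂ) * g x i * Complex.exp (-(Complex.I * t * lg i)))
        (fun i => by rw [ew, eg, el])]
      exact h4 x x.2 t ht)
  refine le_trans (le_of_eq ?_) key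
  refine sum_congr rfl fun n _ => ?_
  rw [sU (fun k => ‖F' k (a + n * τ)‖ ^ 2) (fun k => ‖F k (a + n * τ)‖ ^ 2) (fun x => by rw [eF])]

end Pool.Agent.Lib.MP391708.MA
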