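import Pool.Agent.Lib.MP_391708_nt.MA.Spec

/-!
# SEP: different directions in a class are separated
-/

set_option autoImplicit false

namespace Pool.Agent.Lib.MP391708.MA

open Finset Filter Topology NumberField
open scoped ComplexConjugate Classical

namespace SepM

/-! ## The `w`-th powers of points of the unit circle -/

/-- `|u^w - 1|` is bounded below by the distance of `u` to the `w`-th roots of unity. -/
theorem exists_lower (w : ℕ) (hw : 0 < w) : ∃ c : ℝ, 0 < c ∧ ∀ (u : ℂ) (δ : ℝ), 0 ≤ δ →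
    (∀ ζ : ℂ, ζ ^ w = 1 → δ ≤ ‖u - ζ‖) → c * δ ≤ ‖u ^ w - 1‖ := by
  classical
  have hne : NeZero w := ⟨hw.ne'⟩
  set R : Finset ℂ := Polynomial.nthRootsFinset w (1 : ℂ) with hR
  have hmem : ∀ ζ : ℂ, ζ ∈ R ↔ ζ ^ w = 1 := fun ζ => by
    rw [hR, Polynomial.mem_nthRootsFinset hw]
  have hRne : R.Nonempty := ⟨1, (hmem 1).2 (one_pow w)⟩
  -- the minimal distance of the roots
  obtain ⟨m, hm0, hm⟩ : ∃ m : ℝ, 0 < m ∧ ∀ ζ ∈ R, ∀ ζ' ∈ R, ζ ≠ ζ' → m ≤ ‖ζ - ζ'‖ := by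
    by_cases hS : ((R ×ˢ R).filter (fun p => p.1 ≠ p.2)).Nonempty
    · obtain ⟨p, hp, hpm⟩ := Finset.exists_min_image _ (fun p : ℂ × ℂ => ‖p.1 - p.2‖) hS
      refine ⟨‖p.1 - p.2‖, norm_pos_iff.2 (sub_ne_zero.2 (Finset.mem_filter.1 hp).2), ?_⟩
      intro ζ hζ ζ' hζ' h
      exact hpm (ζ, ζ') (Finset.mem_filter.2 ⟨Finset.mem_product.2 ⟨hζ, hζ'⟩, h⟩)
    · refine ⟨1, one_pos, fun ζ hζ ζ' hζ' h => absurd ?_ hS⟩
      exact ⟨(ζ, ζ'), Finset.mem_filter.2 ⟨Finset.mem_product.2 ⟨hζ, hζ'⟩, h⟩⟩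
  refine ⟨(m / 2) ^ (R.card - 1), by positivity, fun u δ hδ h => ?_⟩
  -- the nearest root
  obtain ⟨ζ₀, hζ₀, hmin⟩ := Finset.exists_min_image R (fun ζ => ‖u - ζ‖) hRne
  have hprod : ‖u ^ w - 1‖ = ∏ ζ ∈ R, ‖u - ζ‖ := by
    have h1 := Polynomial.X_pow_sub_one_eq_prod hw (Complex.isPrimitiveRoot_exp w hw.ne')
    have h2 := congrArg (Polynomial.eval u) h1
    rw [Polynomial.eval_prod] at h2
    simp only [Polynomial.eval_sub, Polynomial.eval_pow, Polynomial.eval_X, Polynomial.eval_one,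
      Polynomial.eval_C] at h2
    rw [h2, norm_prod]
  rw [hprod, ← Finset.mul_prod_erase R _ hζ₀, mul_comm]
  have h2 : ∀ ζ ∈ R.erase ζ₀, m / 2 ≤ ‖u - ζ‖ := by
    intro ζ hζ
    rw [Finset.mem_erase] at hζ
    have h3 := hm ζ hζ.2 ζ₀ hζ₀ hζ.1
    have h4 := hmin ζ hζ.2
    have h5 : ‖ζ - ζ₀‖ ≤ ‖u - ζ‖ + ‖u - ζ₀‖ := by
      calc ‖ζ - ζ₀‖ = ‖(u - ζ₀) - (u - ζ)‖ := by ring_nf
        _ ≤ ‖u - ζ₀‖ + ‖u - ζ‖ := norm_sub_le _ _
        _ = ‖u - ζ‖ + ‖u - ζ₀‖ := add_comm _ _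
    linarith
  have h6 : (m / 2) ^ (R.card - 1) ≤ ∏ ζ ∈ R.erase ζ₀, ‖u - ζ‖ := by
    rw [← Finset.card_erase_of_mem hζ₀, ← Finset.prod_const]
    exact Finset.prod_le_prod (fun _ _ => by positivity) h2
  exact mul_le_mul (h ζ₀ ((hmem ζ₀).1 hζ₀)) h6 (by positivity) (norm_nonneg _)

/-! ## Integers of an imaginary quadratic field -/

section

variable {K : Type} [Field K] [NumberField K]

/-- an imaginary quadratic field has one infinite place -/
theorem card_place [IQ K] : Fintype.card (InfinitePlace K) = 1 := by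
  have : NumberField.IsTotallyComplex K := IQ.cx
  have h1 := IsTotallyComplex.finrank (K := K)
  rw [IQ.deg] at h1
  rw [InfinitePlace.card_eq_nrRealPlaces_add_nrComplexPlaces, IsTotallyComplex.nrRealPlaces_eq_zero]
  omega

/-- the norm of a principal ideal -/
theorem norm_sq [IQ K] (σ : K →+* ℂ) (v : 𝓞 K) :
    ‖σ (v : K)‖ ^ 2 = (nm (Ideal.span {v} : Gi K) : ℝ) := by
  have hc : NumberField.IsTotallyComplex K := IQ.cx
  have h1 := InfinitePlace.prod_eq_abs_norm (v : K)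
  obtain ⟨w, hw⟩ := Fintype.card_eq_one_iff.1 (card_place (K := K))
  have h2 : (Finset.univ : Finset (InfinitePlace K)) = {w} := by
    ext x
    simp [hw x]
  rw [h2, Finset.prod_singleton, IsTotallyComplex.mult_eq] at h1
  have h3 : w (v : K) = ‖σ (v : K)‖ := by
    rw [← hw (InfinitePlace.mk σ), InfinitePlace.apply]
  rw [h3] at h1
  rw [h1, nm, Ideal.absNorm_span_singleton, Nat.cast_natAbs]
  have h4 : Algebra.norm ℚ (v : K) = ((Algebra.norm ℤ v : ℤ) : ℚ) :=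
    (Algebra.coe_norm_int v).symm
  rw [h4]
  push_cast
  rfl

/-- twice the real part is a rational integer -/
theorem two_re [IQ K] (σ : K →+* ℂ) (v : 𝓞 K) : ∃ t : ℤ, 2 * (σ (v : K)).re = t := by
  refine ⟨(nm (Ideal.span {v + 1} : Gi K) : ℤ) - (nm (Ideal.span {v} : Gi K) : ℤ) - 1, ?_⟩
  have h1 := norm_sq σ v
  have h2 := norm_sq σ (v + 1)
  rw [← Complex.normSq_eq_norm_sq, Complex.normSq_apply] at h1 h2
  have h3 : σ ((v + 1 : 𝓞 K) : K) = σ (v : K) + 1 := by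
    change σ (algebraMap (𝓞 K) K (v + 1)) = σ (algebraMap (𝓞 K) K v) + 1
    rw [map_add, map_one, map_add, map_one]
  rw [h3, Complex.add_re, Complex.add_im, Complex.one_re, Complex.one_im] at h2
  push_cast
  rw [← h1, ← h2]
  ring

/-- the imaginary part is zero or at least one half -/
theorem im_or [IQ K] (σ : K →+* ℂ) (v : 𝓞 K) :
    (σ (v : K)).im = 0 ∨ 1 / 2 ≤ |(σ (v : K)).im| := by
  obtain ⟨t, ht⟩ := two_re σ v
  have h1 := norm_sq σ v
  rw [← Complex.normSq_eq_norm_sq, Complex.normSq_apply] at h1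
  set N : ℤ := (nm (Ideal.span {v} : Gi K) : ℤ) with hN
  have hN' : (nm (Ideal.span {v} : Gi K) : ℝ) = (N : ℝ) := by rw [hN]; push_cast; rfl
  rw [hN'] at h1
  have h2 : 4 * (σ (v : K)).im ^ 2 = ((4 * N - t ^ 2 : ℤ) : ℝ) := by
    push_cast
    rw [← ht, ← h1]
    ring
  rcases le_or_gt (4 * N - t ^ 2) 0 with h3 | h3
  · left
    have h4 : ((4 * N - t ^ 2 : ℤ) : ℝ) ≤ 0 := by exact_mod_cast h3
    rw [← h2] at h4
    have h5 : (σ (v : K)).im ^ 2 = 0 := le_antisymm (by linarith) (sq_nonneg _)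
    exact pow_eq_zero_iff (two_ne_zero) |>.1 h5
  · right
    have h4 : (1 : ℝ) ≤ ((4 * N - t ^ 2 : ℤ) : ℝ) := by exact_mod_cast h3
    rw [← h2] at h4
    have h5 : (1 / 2 : ℝ) ^ 2 ≤ |(σ (v : K)).im| ^ 2 := by rw [sq_abs]; linarith
    exact le_of_sq_le_sq h5 (abs_nonneg _)

/-- if the imaginary part is zero, the integer is rational -/
theorem rat_of_im [IQ K] (σ : K →+* ℂ) (v : 𝓞 K) (h : (σ (v : K)).im = 0) :
    ∃ m : ℤ, v = (m : 𝓞 K) := by
  obtain ⟨t, ht⟩ := two_re σ v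
  have h1 := norm_sq σ v
  rw [← Complex.normSq_eq_norm_sq, Complex.normSq_apply, h] at h1
  set N : ℤ := (nm (Ideal.span {v} : Gi K) : ℤ) with hN
  have hN' : (nm (Ideal.span {v} : Gi K) : ℝ) = (N : ℝ) := by rw [hN]; push_cast; rfl
  rw [hN'] at h1
  have h2 : t ^ 2 = 4 * N := by
    have h3 : (t : ℝ) ^ 2 = 4 * (N : ℝ) := by
      rw [← ht, ← h1]
      ring
    exact_mod_cast h3
  have h3 : Even t := by
    have h4 : Even (t ^ 2) := by rw [h2]; exact ⟨2 * N, by ring⟩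
    exact (Int.even_pow.1 h4).1
  obtain ⟨m, hm⟩ := h3
  refine ⟨m, ?_⟩
  have h5 : σ (v : K) = σ ((m : 𝓞 K) : K) := by
    have h6 : σ ((m : 𝓞 K) : K) = (m : ℂ) := by
      change σ (algebraMap (𝓞 K) K (m : 𝓞 K)) = (m : ℂ)
      rw [map_intCast, map_intCast]
    rw [h6]
    apply Complex.ext
    · rw [Complex.intCast_re]
      have h7 : (t : ℝ) = m + m := by rw [hm]; push_cast; ring
      linarith
    · rw [h, Complex.intCast_im]
  exact RingOfIntegers.coe_injective (σ.injective h5)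

/-- the norm of the ideal generated by a natural number -/
theorem nm_rt [IQ K] (n : ℕ) : nm (rt n : Gi K) = n ^ 2 := by
  rw [nm, rt, Ideal.absNorm_span_singleton]
  have h1 : Algebra.norm ℤ ((n : ℕ) : 𝓞 K) = (n : ℤ) ^ 2 := by
    have h2 := Algebra.norm_algebraMap_of_basis (RingOfIntegers.basis K) (n : ℤ)
    have h3 : Fintype.card (Module.Free.ChooseBasisIndex ℤ (𝓞 K)) = 2 := by
      rw [← Module.finrank_eq_card_chooseBasisIndex, RingOfIntegers.rank, IQ.deg]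
    rw [h3] at h2
    rw [← h2]
    simp
  rw [h1]
  norm_cast

omit [NumberField K] in
/-- the direction is multiplicative -/
theorem dr_mul (σ : K →+* ℂ) (x y : 𝓞 K) : dr σ (x * y) = dr σ x * dr σ y := by
  have h : ((x * y : 𝓞 K) : K) = (x : K) * (y : K) := map_mul _ x y
  rw [dr, dr, dr, h, map_mul, norm_mul]
  push_cast
  rw [mul_div_mul_comm]

omit [NumberField K] in
theorem coe_ne {v : 𝓞 K} (hv : v ≠ 0) (σ : K →+* ℂ) : σ (v : K) ≠ 0 := by
  rw [map_ne_zero]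
  exact fun h => hv (RingOfIntegers.coe_injective (h.trans (map_zero (algebraMap (𝓞 K) K)).symm))

omit [NumberField K] in
theorem norm_dr (σ : K →+* ℂ) {v : 𝓞 K} (hv : v ≠ 0) : ‖dr σ v‖ = 1 := by
  have h := norm_pos_iff.2 (coe_ne hv σ)
  rw [dr, norm_div, Complex.norm_real, norm_norm, div_self h.ne']

omit [NumberField K] in
theorem dr_ne (σ : K →+* ℂ) {v : 𝓞 K} (hv : v ≠ 0) : dr σ v ≠ 0 := by
  rw [← norm_pos_iff, norm_dr σ hv]
  exact one_pos

omit [NumberField K] in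
theorem dr_nat (σ : K →+* ℂ) {n : ℕ} (hn : 0 < n) : dr σ (n : 𝓞 K) = 1 := by
  have h : σ (((n : ℕ) : 𝓞 K) : K) = (n : ℂ) := by
    change σ (algebraMap (𝓞 K) K (n : 𝓞 K)) = (n : ℂ)
    rw [map_natCast, map_natCast]
  have hn' : (0 : ℝ) < n := Nat.cast_pos.2 hn
  rw [dr, h, Complex.norm_natCast]
  have h2 : ((n : ℝ) : ℂ) ≠ 0 := by exact_mod_cast hn.ne'
  push_cast
  exact div_self (by exact_mod_cast hn.ne')

/-- the generator of `z * z''`, where `z' * z'' = (nm z')` -/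
theorem exists_gen [IQ K] {z z' : Gi K} (hz : z ≠ 0) (hz' : z' ≠ 0) (h : cls z = cls z') :
    ∃ (x y γ : 𝓞 K) (z'' : Gi K), x ≠ 0 ∧ y ≠ 0 ∧ γ ≠ 0 ∧
      Ideal.span {x} * z = Ideal.span {y} * z' ∧ y * (nm z' : 𝓞 K) = x * γ ∧
      z' * z'' = rt (nm z') ∧ z * z'' = Ideal.span {γ} ∧
      nm (Ideal.span {γ} : Gi K) = nm z * nm z' := by
  rw [cls, cls, dif_pos hz, dif_pos hz', ClassGroup.mk0_eq_mk0_iff] at h
  obtain ⟨x, y, hx, hy, hxy⟩ := h
  simp only at hxy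
  have hn' : nm z' ≠ 0 := by
    rw [nm, Ne, Ideal.absNorm_eq_zero_iff]
    exact hz'
  have hn0 : ((nm z' : ℕ) : 𝓞 K) ≠ 0 := Nat.cast_ne_zero.2 hn'
  obtain ⟨z'', hz''⟩ : z' ∣ rt (nm z') := by
    rw [Ideal.dvd_iff_le]
    exact Ideal.span_singleton_absNorm_le z'
  have h1 : Ideal.span {x} * (z * z'') = Ideal.span {y * ((nm z' : ℕ) : 𝓞 K)} := by
    rw [← mul_assoc, hxy, mul_assoc, ← hz'', rt, Ideal.span_singleton_mul_span_singleton]
  have h2 : x ∣ y * ((nm z' : ℕ) : 𝓞 K) := by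
    have h2 : Ideal.span {y * ((nm z' : ℕ) : 𝓞 K)} ≤ Ideal.span {x} := by
      rw [← h1]
      exact Ideal.mul_le_left
    exact Ideal.span_singleton_le_span_singleton.1 h2
  obtain ⟨γ, hγ⟩ := h2
  have hx' : (Ideal.span {x} : Gi K) ≠ 0 := by
    exact fun h => hx (Ideal.span_singleton_eq_bot.1 h)
  have h3 : z * z'' = Ideal.span {γ} := by
    rw [hγ, ← Ideal.span_singleton_mul_span_singleton] at h1
    exact mul_left_cancel₀ hx' h1
  have hγ0 : γ ≠ 0 := by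
    rintro rfl
    rw [mul_zero] at hγ
    exact mul_ne_zero hy hn0 hγ
  refine ⟨x, y, γ, z'', hx, hy, hγ0, hxy, hγ, hz''.symm, h3, ?_⟩
  have h4 : nm z' * nm z'' = nm z' ^ 2 := by
    rw [← nm_rt (K := K) (nm z'), hz'']
    simp only [nm, map_mul]
  have h5 : nm z'' = nm z' := by
    rw [sq] at h4
    exact Nat.eq_of_mul_eq_mul_left (Nat.pos_of_ne_zero hn') h4
  rw [← h3, ← h5]
  simp only [nm, map_mul]

end

end SepM

/-- **SEP** -/
theorem specSep {K : Type} [Field K] [NumberField K] [IQ K] (D : Dir K) : SpecSep K D := by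
  classical
  set w := Units.torsionOrder K with hw
  obtain ⟨c, hc, hcl⟩ := SepM.exists_lower w (Units.torsionOrder_pos K)
  refine ⟨c / 2, by positivity, fun z z' hz hz' hcls hpar => ?_⟩
  obtain ⟨x, y, γ, z'', hx, hy, hγ, hxy, hγe, hz'', hzz, hnm⟩ := SepM.exists_gen hz hz' hcls
  have hn' : nm z' ≠ 0 := by
    rw [nm, Ne, Ideal.absNorm_eq_zero_iff]
    exact hz'
  set u := dr D.σ γ with hu
  -- the difference of the directions
  have h1 : D.f z = u ^ w * D.f z' := by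
    have h2 := congrArg D.f hxy
    rw [D.mul, D.mul, D.prin x hx, D.prin y hy] at h2
    have h3 : dr D.σ y = dr D.σ x * u := by
      rw [hu, ← SepM.dr_mul, ← hγe, SepM.dr_mul, SepM.dr_nat D.σ (Nat.pos_of_ne_zero hn'), mul_one]
    rw [h3, mul_pow, mul_assoc] at h2
    exact mul_left_cancel₀ (pow_ne_zero _ (SepM.dr_ne D.σ hx)) h2
  have h2 : ‖D.f z - D.f z'‖ = ‖u ^ w - 1‖ := by
    rw [h1, ← sub_one_mul, norm_mul, D.norm z' hz', mul_one]
  have hsq : Real.sqrt ((nm z : ℝ) * nm z') = ‖D.σ (γ : K)‖ := by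
    have h3 := SepM.norm_sq D.σ γ
    rw [hnm] at h3
    push_cast at h3
    rw [← h3, Real.sqrt_sq (norm_nonneg _)]
  have hg : 0 < ‖D.σ (γ : K)‖ := norm_pos_iff.2 (SepM.coe_ne hγ D.σ)
  rw [h2, hsq]
  refine le_trans (le_of_eq (by ring)) (hcl u (1 / (2 * ‖D.σ (γ : K)‖)) (by positivity) ?_)
  intro ζ hζ
  -- the root of unity comes from the field
  obtain ⟨ε, hε⟩ : ∃ ε : (𝓞 K)ˣ, D.σ ((ε : 𝓞 K) : K) = ζ := by
    have hw0 : ζ ≠ 0 := by
      rintro rfl
      rw [zero_pow (Units.torsionOrder_ne_zero K)] at hζ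
      exact zero_ne_one hζ
    have h3 : Units.mk0 ζ hw0 ∈ rootsOfUnity w ℂ := by
      rw [mem_rootsOfUnity]
      ext
      push_cast
      exact hζ
    rw [hw, ← Units.map_complexEmbedding_torsion K D.σ, Subgroup.mem_map] at h3
    obtain ⟨ε, -, h4⟩ := h3
    refine ⟨ε, ?_⟩
    have h5 := congrArg Units.val h4
    simpa using h5
  have hζ1 : ‖ζ‖ = 1 := Complex.norm_eq_one_of_pow_eq_one hζ (Units.torsionOrder_ne_zero K)
  set v : 𝓞 K := γ * ((ε⁻¹ : (𝓞 K)ˣ) : 𝓞 K) with hv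
  have hvσ : D.σ (v : K) * ζ = D.σ (γ : K) := by
    rw [← hε, ← map_mul, ← map_mul, hv, mul_assoc, Units.inv_mul, mul_one]
  have him : (D.σ (v : K)).im ≠ 0 := by
    intro h
    obtain ⟨m, hm⟩ := SepM.rat_of_im D.σ v h
    have hm0 : m ≠ 0 := by
      rintro rfl
      rw [hm, Int.cast_zero] at hv
      have h6 : γ = 0 := by
        have := congrArg (fun t => t * (ε : 𝓞 K)) hv
        simpa [mul_assoc] using this.symm
      exact hγ h6
    apply hpar
    refine ⟨hz, hz', nm z', m.natAbs, Nat.pos_of_ne_zero hn', Int.natAbs_pos.2 hm0, ?_⟩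
    have h6 : (Ideal.span {γ} : Gi K) = rt m.natAbs := by
      rw [rt, Ideal.span_singleton_eq_span_singleton]
      have h7 : Associated γ (m : 𝓞 K) := by
        rw [← hm, hv]
        exact ⟨ε⁻¹, rfl⟩
      refine h7.trans ?_
      rcases Int.natAbs_eq m with h8 | h8
      · rw [h8]
        simp
      · rw [h8]
        simp
    rw [← h6, ← hzz, ← hz'']
    ring
  have him2 := (SepM.im_or D.σ v).resolve_left him
  -- the distance to the root
  have h3 : (u - ζ) = (D.σ (v : K) / ((‖D.σ (γ : K)‖ : ℝ) : ℂ) - 1) * ζ := by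
    rw [sub_mul, div_mul_eq_mul_div, hvσ, one_mul, hu, dr]
  rw [h3, norm_mul, hζ1, mul_one]
  refine le_trans ?_ (Complex.abs_im_le_norm _)
  rw [Complex.sub_im, Complex.one_im, sub_zero, Complex.div_ofReal_im, abs_div,
    abs_of_pos hg, div_le_div_iff₀ (by positivity) hg]
  nlinarith [him2, hg]

end Pool.Agent.Lib.MP391708.MA
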