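import Pool.Agent.Lib.MP_391708_nt.MA.Spec

/-!
# TOP: the sparse set of frequencies
-/

set_option autoImplicit false

namespace Pool.Agent.Lib.MP391708.MA

open Finset Filter Topology NumberField
open scoped ComplexConjugate Classical

namespace Top

/-! ## averaging over a grid -/

lemma avg {ι : Type*} (E : Finset ι) (w lg : ι → ℝ) (Φ : ℝ → ℝ) (y0 a τ σ B μ KK : ℝ) (S N : ℕ)
    (hw : ∀ i ∈ E, 0 ≤ w i) (hτ : 0 < τ) (hS : 0 < S) (hSσ : S * τ ≤ σ)
    (hΦ : ∀ y, 0 ≤ Φ y)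
    (h2 : ∀ y y', a ≤ y' → y' ≤ y → y ≤ y' + σ → y ≤ y0 → Φ y ≤ 2 * Φ y' + B)
    (h3 : ∀ v, ∑ i ∈ E.filter (fun i => v - σ < lg i ∧ lg i ≤ v), w i ≤ μ)
    (h4 : ∀ i ∈ E, 0 ≤ lg i ∧ a + σ ≤ y0 - lg i ∧ y0 - lg i < a + N * τ)
    (h5 : ∑ m ∈ range N, Φ (a + m * τ) ≤ KK) :
    ∑ i ∈ E, w i * Φ (y0 - lg i) ≤ 2 * μ * KK / S + B * ∑ i ∈ E, w i := by
  have hμ : 0 ≤ μ := le_trans (Finset.sum_nonneg fun i hi => hw i (mem_filter.1 hi).1) (h3 0)
  have hS' : (0 : ℝ) < S := by exact_mod_cast hS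
  set nn : ι → ℕ := fun i => ⌊(y0 - lg i - a) / τ⌋₊ with hnn
  have hn1 : ∀ i ∈ E, a + (nn i : ℝ) * τ ≤ y0 - lg i := by
    intro i hi
    obtain ⟨g1, g2, g3⟩ := h4 i hi
    have hp : 0 ≤ (y0 - lg i - a) / τ := by
      apply div_nonneg _ hτ.le
      have : 0 ≤ σ := le_trans (by positivity) hSσ
      linarith
    have := Nat.floor_le hp
    rw [le_div_iff₀ hτ] at this
    linarith
  have hn2 : ∀ i ∈ E, y0 - lg i < a + ((nn i : ℝ) + 1) * τ := by
    intro i hi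
    have := Nat.lt_floor_add_one ((y0 - lg i - a) / τ)
    rw [div_lt_iff₀ hτ] at this
    linarith
  have hn3 : ∀ i ∈ E, S ≤ nn i := by
    intro i hi
    obtain ⟨g1, g2, g3⟩ := h4 i hi
    apply Nat.le_floor
    rw [le_div_iff₀ hτ]
    linarith
  have hn4 : ∀ i ∈ E, nn i < N := by
    intro i hi
    obtain ⟨g1, g2, g3⟩ := h4 i hi
    have h := hn1 i hi
    have : (nn i : ℝ) * τ < N * τ := by linarith
    have := lt_of_mul_lt_mul_right this hτ.le
    exact_mod_cast this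
  set T : ι → Finset ℕ := fun i => (range N).filter (fun m => m ≤ nn i ∧ nn i < m + S) with hT
  have hcard : ∀ i ∈ E, (T i).card = S := by
    intro i hi
    have h3' := hn3 i hi
    have h4' := hn4 i hi
    have : T i = Finset.Ico (nn i + 1 - S) (nn i + 1) := by
      ext m
      simp only [hT, mem_filter, mem_range, mem_Ico]
      omega
    rw [this, Nat.card_Ico]
    omega
  have key : ∀ i ∈ E, (S : ℝ) * (w i * Φ (y0 - lg i)) ≤
      2 * ∑ m ∈ T i, w i * Φ (a + m * τ) + S * (B * w i) := by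
    intro i hi
    have e1 : (S : ℝ) * (w i * Φ (y0 - lg i)) = ∑ m ∈ T i, w i * Φ (y0 - lg i) := by
      rw [Finset.sum_const, hcard i hi, nsmul_eq_mul]
    have e2 : 2 * ∑ m ∈ T i, w i * Φ (a + m * τ) + S * (B * w i) =
        ∑ m ∈ T i, (2 * (w i * Φ (a + m * τ)) + B * w i) := by
      rw [Finset.sum_add_distrib, Finset.sum_const, hcard i hi, nsmul_eq_mul, Finset.mul_sum]
    rw [e1, e2]
    refine Finset.sum_le_sum fun m hm => ?_
    simp only [hT, mem_filter, mem_range] at hm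
    obtain ⟨hm1, hm2, hm3⟩ := hm
    have f1 := hn1 i hi
    have f2 := hn2 i hi
    have c1 : (m : ℝ) ≤ nn i := by exact_mod_cast hm2
    have c2 : (nn i : ℝ) + 1 ≤ m + S := by exact_mod_cast hm3
    have c1' : (m : ℝ) * τ ≤ nn i * τ := mul_le_mul_of_nonneg_right c1 hτ.le
    have c2' : ((nn i : ℝ) + 1) * τ ≤ (m + S) * τ := mul_le_mul_of_nonneg_right c2 hτ.le
    have hm0 : 0 ≤ (m : ℝ) * τ := by positivity
    have h := h2 (y0 - lg i) (a + m * τ) (by linarith) (by linarith) (by nlinarith)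
      (by linarith [(h4 i hi).1])
    nlinarith [mul_le_mul_of_nonneg_left h (hw i hi)]
  have tot : (S : ℝ) * ∑ i ∈ E, w i * Φ (y0 - lg i) ≤
      2 * (μ * KK) + S * (B * ∑ i ∈ E, w i) := by
    calc (S : ℝ) * ∑ i ∈ E, w i * Φ (y0 - lg i) = ∑ i ∈ E, (S : ℝ) * (w i * Φ (y0 - lg i)) := by
          rw [Finset.mul_sum]
      _ ≤ ∑ i ∈ E, (2 * ∑ m ∈ T i, w i * Φ (a + m * τ) + S * (B * w i)) :=
          Finset.sum_le_sum key
      _ = 2 * ∑ i ∈ E, ∑ m ∈ T i, w i * Φ (a + m * τ) + S * (B * ∑ i ∈ E, w i) := by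
          rw [Finset.sum_add_distrib, ← Finset.mul_sum, Finset.mul_sum, Finset.mul_sum,
            Finset.mul_sum]
      _ ≤ 2 * (μ * KK) + S * (B * ∑ i ∈ E, w i) := by
          have : ∑ i ∈ E, ∑ m ∈ T i, w i * Φ (a + m * τ) ≤ μ * KK := by
            have e3 : ∑ i ∈ E, ∑ m ∈ T i, w i * Φ (a + m * τ) =
                ∑ m ∈ range N, (∑ i ∈ E.filter (fun i => m ≤ nn i ∧ nn i < m + S), w i) *
                  Φ (a + m * τ) := by
              simp only [hT, Finset.sum_filter]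
              rw [Finset.sum_comm]
              refine Finset.sum_congr rfl fun m _ => ?_
              rw [Finset.sum_mul]
              refine Finset.sum_congr rfl fun i _ => ?_
              split_ifs <;> simp
            rw [e3]
            calc ∑ m ∈ range N, (∑ i ∈ E.filter (fun i => m ≤ nn i ∧ nn i < m + S), w i) *
                  Φ (a + m * τ) ≤ ∑ m ∈ range N, μ * Φ (a + m * τ) := by
                  refine Finset.sum_le_sum fun m hm => ?_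
                  refine mul_le_mul_of_nonneg_right ?_ (hΦ _)
                  refine le_trans ?_ (h3 (y0 - (a + m * τ)))
                  refine Finset.sum_le_sum_of_subset_of_nonneg ?_ ?_
                  · intro i hi
                    rw [mem_filter] at hi ⊢
                    obtain ⟨hiE, hi1, hi2⟩ := hi
                    have f1 := hn1 i hiE
                    have f2 := hn2 i hiE
                    have c1 : (m : ℝ) ≤ nn i := by exact_mod_cast hi1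
                    have c2 : (nn i : ℝ) + 1 ≤ m + S := by exact_mod_cast hi2
                    have c1' : (m : ℝ) * τ ≤ nn i * τ := mul_le_mul_of_nonneg_right c1 hτ.le
                    have c2' : ((nn i : ℝ) + 1) * τ ≤ (m + S) * τ :=
                      mul_le_mul_of_nonneg_right c2 hτ.le
                    refine ⟨hiE, ?_, ?_⟩
                    · nlinarith
                    · linarith
                  · intro i hi _
                    exact hw i (mem_filter.1 hi).1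
              _ = μ * ∑ m ∈ range N, Φ (a + m * τ) := by rw [Finset.mul_sum]
              _ ≤ μ * KK := mul_le_mul_of_nonneg_left h5 hμ
          linarith
  have : ∑ i ∈ E, w i * Φ (y0 - lg i) ≤ (2 * (μ * KK) + S * (B * ∑ i ∈ E, w i)) / S := by
    rw [le_div_iff₀ hS']
    linarith
  refine this.trans (le_of_eq ?_)
  field_simp

/-- weighted Cauchy–Schwarz -/
lemma cs {ι : Type*} (E : Finset ι) (w : ι → ℝ) (z : ι → ℂ) (S : ℂ) (hw : ∀ i ∈ E, 0 < w i)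
    (hE : E.Nonempty) :
    ‖S‖ ^ 2 ≤ 2 * ‖S - (1 / ((∑ i ∈ E, w i : ℝ) : ℂ)) * ∑ i ∈ E, (w i : ℂ) * z i‖ ^ 2 +
      2 / (∑ i ∈ E, w i) * ∑ i ∈ E, w i * ‖z i‖ ^ 2 := by
  set W := ∑ i ∈ E, w i with hW
  have hW0 : 0 < W := Finset.sum_pos hw hE
  set R := ∑ i ∈ E, (w i : ℂ) * z i with hR
  have h1 : ‖R‖ ^ 2 ≤ W * ∑ i ∈ E, w i * ‖z i‖ ^ 2 := by
    have h2 : ‖R‖ ≤ ∑ i ∈ E, w i * ‖z i‖ := by
      refine (norm_sum_le _ _).trans (Finset.sum_le_sum fun i hi => ?_)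
      rw [norm_mul, Complex.norm_real, Real.norm_eq_abs, abs_of_pos (hw i hi)]
    have h3 : (∑ i ∈ E, w i * ‖z i‖) ^ 2 ≤ W * ∑ i ∈ E, w i * ‖z i‖ ^ 2 := by
      have := Finset.sum_mul_sq_le_sq_mul_sq E (fun i => Real.sqrt (w i))
        (fun i => Real.sqrt (w i) * ‖z i‖)
      have e1 : ∑ i ∈ E, Real.sqrt (w i) * (Real.sqrt (w i) * ‖z i‖) =
          ∑ i ∈ E, w i * ‖z i‖ := by
        refine Finset.sum_congr rfl fun i hi => ?_
        rw [← mul_assoc, Real.mul_self_sqrt (hw i hi).le]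
      have e2 : ∑ i ∈ E, Real.sqrt (w i) ^ 2 = W := by
        refine Finset.sum_congr rfl fun i hi => ?_
        rw [Real.sq_sqrt (hw i hi).le]
      have e3 : ∑ i ∈ E, (Real.sqrt (w i) * ‖z i‖) ^ 2 = ∑ i ∈ E, w i * ‖z i‖ ^ 2 := by
        refine Finset.sum_congr rfl fun i hi => ?_
        rw [mul_pow, Real.sq_sqrt (hw i hi).le]
      rw [e1, e2, e3] at this
      exact this
    exact (pow_le_pow_left₀ (norm_nonneg _) h2 2).trans h3
  have h4 : ‖S‖ ≤ ‖S - (1 / (W : ℂ)) * R‖ + 1 / W * ‖R‖ := by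
    have h5 : S = (S - (1 / (W : ℂ)) * R) + (1 / (W : ℂ)) * R := by ring
    have h6 : ‖(1 / (W : ℂ)) * R‖ = 1 / W * ‖R‖ := by
      rw [norm_mul, norm_div, norm_one, Complex.norm_real, Real.norm_eq_abs, abs_of_pos hW0]
    calc ‖S‖ = ‖(S - (1 / (W : ℂ)) * R) + (1 / (W : ℂ)) * R‖ := by rw [← h5]
      _ ≤ ‖S - (1 / (W : ℂ)) * R‖ + ‖(1 / (W : ℂ)) * R‖ := norm_add_le _ _
      _ = _ := by rw [h6]
  have h7 : ‖S‖ ^ 2 ≤ 2 * ‖S - (1 / (W : ℂ)) * R‖ ^ 2 + 2 * (1 / W * ‖R‖) ^ 2 := by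
    have := pow_le_pow_left₀ (norm_nonneg _) h4 2
    nlinarith [sq_nonneg (‖S - (1 / (W : ℂ)) * R‖ - 1 / W * ‖R‖)]
  have h8 : (1 / W * ‖R‖) ^ 2 ≤ 1 / W * ∑ i ∈ E, w i * ‖z i‖ ^ 2 := by
    rw [mul_pow]
    calc (1 / W) ^ 2 * ‖R‖ ^ 2 ≤ (1 / W) ^ 2 * (W * ∑ i ∈ E, w i * ‖z i‖ ^ 2) :=
          mul_le_mul_of_nonneg_left h1 (by positivity)
      _ = 1 / W * ∑ i ∈ E, w i * ‖z i‖ ^ 2 := by field_simp
  calc ‖S‖ ^ 2 ≤ 2 * ‖S - (1 / (W : ℂ)) * R‖ ^ 2 + 2 * (1 / W * ‖R‖) ^ 2 := h7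
    _ ≤ 2 * ‖S - (1 / (W : ℂ)) * R‖ ^ 2 + 2 * (1 / W * ∑ i ∈ E, w i * ‖z i‖ ^ 2) := by
        linarith
    _ = _ := by ring

/-! ## basic facts -/

section

variable [Sg] {K : Type} [Field K] [NumberField K]

lemma nm_pos {z : Gi K} (h : z ≠ 0) : 0 < nm z :=
  Nat.pos_of_ne_zero fun h' => h (Ideal.absNorm_eq_zero_iff.1 h')

lemma nm_posR {z : Gi K} (h : z ≠ 0) : (0 : ℝ) < nm z := by exact_mod_cast nm_pos h

lemma one_le_nm {z : Gi K} (h : z ≠ 0) : (1 : ℝ) ≤ nm z := by exact_mod_cast nm_pos h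

lemma mem_disc {x : ℝ} {z : Gi K} : z ∈ disc x ↔ z ≠ 0 ∧ (nm z : ℝ) ≤ x := by
  unfold disc
  rw [mem_filter, and_iff_right_of_imp]
  rintro ⟨_, h⟩
  rw [Set.Finite.mem_toFinset]
  exact Nat.le_floor h

lemma mem_GP {P Q : ℝ} {z : Gi K} : z ∈ GP P Q ↔ (nm z).Prime ∧ cj z ≠ z ∧ P < (nm z : ℝ) ∧
    (nm z : ℝ) ≤ Q := by
  unfold GP
  rw [mem_filter, mem_disc]
  constructor
  · rintro ⟨⟨_, h1⟩, h2, h3, h4⟩
    exact ⟨h2, h3, h4, h1⟩
  · rintro ⟨h2, h3, h4, h1⟩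
    refine ⟨⟨?_, h1⟩, h2, h3, h4⟩
    rintro rfl
    unfold nm at h2
    rw [Ideal.zero_eq_bot, Ideal.absNorm_bot] at h2
    exact Nat.not_prime_zero h2

lemma GP_ne_zero {P Q : ℝ} {z : Gi K} (h : z ∈ GP P Q) : z ≠ 0 := by
  unfold GP at h
  exact (mem_disc.1 (mem_filter.1 h).1).1

lemma norm_lam (z : Gi K) : ‖(lam z : ℂ)‖ = 1 := by
  rw [Complex.norm_real, Real.norm_eq_abs]
  unfold lam
  rcases gs_eq_or (nm z) with h | h <;> rw [h] <;> norm_num

lemma norm_xi_le (D : Dir K) (k : Kp K) (z : Gi K) : ‖xi D k z‖ ≤ 1 := by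
  unfold xi
  rw [norm_mul, AddChar.norm_apply, one_mul, norm_zpow]
  by_cases h : z = 0
  · rw [h, D.zero, norm_zero]
    by_cases hk : k.2 = 0
    · rw [hk, zpow_zero]
    · rw [zero_zpow _ hk]; exact zero_le_one
  · rw [D.norm z h, one_zpow]

/-! ## the normalised sums -/

/-- `e^{-y} S(e^y)` -/
noncomputable def FF (D : Dir K) (k : Kp K) (y : ℝ) : ℂ :=
  ((Real.exp (-y) : ℝ) : ℂ) * SS D k (Real.exp y)

/-- the energy -/
noncomputable def Ph (D : Dir K) (U : Finset (Kp K)) (y : ℝ) : ℝ := ∑ k ∈ U, ‖FF D k y‖ ^ 2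

lemma Ph_nonneg (D : Dir K) (U : Finset (Kp K)) (y : ℝ) : 0 ≤ Ph D U y :=
  Finset.sum_nonneg fun _ _ => by positivity

lemma norm_FF_sq (D : Dir K) (k : Kp K) (y : ℝ) :
    ‖FF D k y‖ ^ 2 = Real.exp (-y) ^ 2 * ‖SS D k (Real.exp y)‖ ^ 2 := by
  unfold FF
  rw [norm_mul, mul_pow, Complex.norm_real, Real.norm_eq_abs, sq_abs]

lemma Ph_eq (D : Dir K) (U : Finset (Kp K)) (y : ℝ) :
    Ph D U y = Real.exp (-y) ^ 2 * ∑ k ∈ U, ‖SS D k (Real.exp y)‖ ^ 2 := by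
  unfold Ph
  rw [Finset.mul_sum]
  exact Finset.sum_congr rfl fun k _ => norm_FF_sq D k y

lemma exp_neg_mul_exp (y : ℝ) : Real.exp (-y) * Real.exp y = 1 := by
  rw [← Real.exp_add]; simp

/-- the properties provided by UP for a finite set of frequencies -/
structure Good (D : Dir K) (U : Finset (Kp K)) (C ρ u v : ℝ) : Prop where
  b : ∀ y, u ≤ y → y ≤ v → Ph D U y ≤ C
  l : ∀ y y', u ≤ y → y ≤ y' → y' ≤ v →
    ∑ k ∈ U, ‖FF D k y' - FF D k y‖ ^ 2 ≤ 4 * C * ((y' - y) ^ 2 + ρ)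

lemma lip {a b e : ℂ} {s t : ℝ} (h : b = (s : ℂ) * e + (t : ℂ) * a) :
    ‖b‖ ^ 2 ≤ 2 * (s ^ 2 * ‖e‖ ^ 2) + 2 * (t ^ 2 * ‖a‖ ^ 2) := by
  have h1 : ‖b‖ ≤ |s| * ‖e‖ + |t| * ‖a‖ := by
    rw [h]
    refine (norm_add_le _ _).trans (le_of_eq ?_)
    rw [norm_mul, norm_mul, Complex.norm_real, Complex.norm_real, Real.norm_eq_abs,
      Real.norm_eq_abs]
  have h2 := pow_le_pow_left₀ (norm_nonneg _) h1 2
  rw [← sq_abs s, ← sq_abs t]
  nlinarith [sq_nonneg (|s| * ‖e‖ - |t| * ‖a‖)]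

lemma good_of_up {D : Dir K} {U : Finset (Kp K)} {X C c₀ : ℝ} (hX : 1 ≤ X) (hC : 0 < C)
    (h1 : ∀ x : ℝ, Real.sqrt X ≤ x → x ≤ 4 * X → ∑ k ∈ U, ‖SS D k x‖ ^ 2 ≤ C * x ^ 2)
    (h2 : ∀ x x' : ℝ, Real.sqrt X ≤ x → x ≤ x' → x' ≤ 4 * X →
      ∑ k ∈ U, ‖SS D k x' - SS D k x‖ ^ 2 ≤ C * ((x' - x) ^ 2 + X ^ (-c₀) * x' ^ 2)) :
    Good D U C (X ^ (-c₀)) (Real.log X / 2) (Real.log (4 * X)) := by
  have hX0 : 0 < X := by linarith
  have e1 : ∀ y, Real.log X / 2 ≤ y → Real.sqrt X ≤ Real.exp y := by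
    intro y hy
    rw [Real.sqrt_eq_rpow, Real.rpow_def_of_pos hX0]
    exact Real.exp_le_exp.2 (by linarith)
  have e2 : ∀ y, y ≤ Real.log (4 * X) → Real.exp y ≤ 4 * X := by
    intro y hy
    rw [← Real.exp_log (by positivity : (0 : ℝ) < 4 * X)]
    exact Real.exp_le_exp.2 hy
  have b : ∀ y, Real.log X / 2 ≤ y → y ≤ Real.log (4 * X) → Ph D U y ≤ C := by
    intro y hy1 hy2
    rw [Ph_eq]
    calc Real.exp (-y) ^ 2 * ∑ k ∈ U, ‖SS D k (Real.exp y)‖ ^ 2 ≤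
        Real.exp (-y) ^ 2 * (C * Real.exp y ^ 2) :=
          mul_le_mul_of_nonneg_left (h1 _ (e1 y hy1) (e2 y hy2)) (by positivity)
      _ = C * (Real.exp (-y) * Real.exp y) ^ 2 := by ring
      _ = C := by rw [exp_neg_mul_exp]; ring
  refine ⟨b, ?_⟩
  intro y y' hy hyy hy'
  set ρ := X ^ (-c₀) with hρ
  have hρ0 : 0 ≤ ρ := Real.rpow_nonneg hX0.le _
  have step : ∀ k ∈ U, ‖FF D k y' - FF D k y‖ ^ 2 ≤
      2 * (Real.exp (-y') ^ 2 * ‖SS D k (Real.exp y') - SS D k (Real.exp y)‖ ^ 2) +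
      2 * ((Real.exp (-y') - Real.exp (-y)) ^ 2 * ‖SS D k (Real.exp y)‖ ^ 2) := by
    intro k _
    apply lip
    unfold FF
    push_cast
    ring
  have hb := h1 _ (e1 y hy) (e2 y (hyy.trans hy'))
  have hl := h2 _ _ (e1 y hy) (Real.exp_le_exp.2 hyy) (e2 y' hy')
  have q1 : Real.exp (-y') * Real.exp y = Real.exp (-(y' - y)) := by
    rw [← Real.exp_add]; congr 1; ring
  have q2 : 0 ≤ 1 - Real.exp (-(y' - y)) := by
    have : Real.exp (-(y' - y)) ≤ 1 := Real.exp_le_one_iff.2 (by linarith)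
    linarith
  have q3 : 1 - Real.exp (-(y' - y)) ≤ y' - y := by
    have := Real.add_one_le_exp (-(y' - y))
    linarith
  have q4 : (1 - Real.exp (-(y' - y))) ^ 2 ≤ (y' - y) ^ 2 := pow_le_pow_left₀ q2 q3 2
  calc ∑ k ∈ U, ‖FF D k y' - FF D k y‖ ^ 2 ≤
      ∑ k ∈ U, (2 * (Real.exp (-y') ^ 2 * ‖SS D k (Real.exp y') - SS D k (Real.exp y)‖ ^ 2) +
      2 * ((Real.exp (-y') - Real.exp (-y)) ^ 2 * ‖SS D k (Real.exp y)‖ ^ 2)) :=
        Finset.sum_le_sum step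
    _ = 2 * (Real.exp (-y') ^ 2 * ∑ k ∈ U, ‖SS D k (Real.exp y') - SS D k (Real.exp y)‖ ^ 2) +
      2 * ((Real.exp (-y') - Real.exp (-y)) ^ 2 * ∑ k ∈ U, ‖SS D k (Real.exp y)‖ ^ 2) := by
        rw [Finset.sum_add_distrib, ← Finset.mul_sum, ← Finset.mul_sum, ← Finset.mul_sum,
          ← Finset.mul_sum]
    _ ≤ 2 * (Real.exp (-y') ^ 2 * (C * ((Real.exp y' - Real.exp y) ^ 2 + ρ * Real.exp y' ^ 2))) +
      2 * ((Real.exp (-y') - Real.exp (-y)) ^ 2 * (C * Real.exp y ^ 2)) := by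
        have g1 := mul_le_mul_of_nonneg_left hl (by positivity : 0 ≤ Real.exp (-y') ^ 2)
        have g2 := mul_le_mul_of_nonneg_left hb
          (by positivity : 0 ≤ (Real.exp (-y') - Real.exp (-y)) ^ 2)
        linarith
    _ = 2 * C * ((Real.exp (-y') * Real.exp y' - Real.exp (-y') * Real.exp y) ^ 2 +
          ρ * (Real.exp (-y') * Real.exp y') ^ 2) +
        2 * C * (Real.exp (-y') * Real.exp y - Real.exp (-y) * Real.exp y) ^ 2 := by ring
    _ = 4 * C * (1 - Real.exp (-(y' - y))) ^ 2 + 2 * C * ρ := by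
        rw [exp_neg_mul_exp, exp_neg_mul_exp, q1]; ring
    _ ≤ 4 * C * ((y' - y) ^ 2 + ρ) := by nlinarith [mul_nonneg hC.le hρ0]

/-- the functional equation in logarithmic coordinates -/
lemma eqn {D : Dir K} {U : Finset (Kp K)} {C P Q y : ℝ}
    (h : ∑ k ∈ U, ‖SS D k (Real.exp y) - (1 / (WW K P Q : ℂ)) *
          ∑ π ∈ GP P Q, (lam π : ℂ) * xi D k π * SS D k (Real.exp y / nm π)‖ ^ 2 ≤
        C * Real.exp y ^ 2 / WW K P Q) :
    ∑ k ∈ U, ‖FF D k y - (1 / ((∑ π ∈ (GP P Q : Finset (Gi K)), 1 / (nm π : ℝ) : ℝ) : ℂ)) *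
        ∑ π ∈ GP P Q, ((1 / (nm π : ℝ) : ℝ) : ℂ) * ((lam π : ℂ) * xi D k π) *
          FF D k (y - Real.log (nm π))‖ ^ 2 ≤ C / WW K P Q := by
  have key : ∀ k ∈ U, ‖FF D k y - (1 / ((∑ π ∈ (GP P Q : Finset (Gi K)), 1 / (nm π : ℝ) : ℝ) : ℂ)) *
        ∑ π ∈ GP P Q, ((1 / (nm π : ℝ) : ℝ) : ℂ) * ((lam π : ℂ) * xi D k π) *
          FF D k (y - Real.log (nm π))‖ ^ 2 =
      Real.exp (-y) ^ 2 * ‖SS D k (Real.exp y) - (1 / (WW K P Q : ℂ)) *
          ∑ π ∈ GP P Q, (lam π : ℂ) * xi D k π * SS D k (Real.exp y / nm π)‖ ^ 2 := by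
    intro k _
    have e1 : ∀ π ∈ GP P Q, ((1 / (nm π : ℝ) : ℝ) : ℂ) * ((lam π : ℂ) * xi D k π) *
          FF D k (y - Real.log (nm π)) =
        ((Real.exp (-y) : ℝ) : ℂ) * ((lam π : ℂ) * xi D k π * SS D k (Real.exp y / nm π)) := by
      intro π hπ
      have hn := nm_posR (GP_ne_zero hπ)
      unfold FF
      have e2 : Real.exp (-(y - Real.log (nm π))) = Real.exp (-y) * nm π := by
        rw [neg_sub, sub_eq_add_neg, Real.exp_add, Real.exp_log hn, mul_comm]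
      have e3 : Real.exp (y - Real.log (nm π)) = Real.exp y / nm π := by
        rw [Real.exp_sub, Real.exp_log hn]
      rw [e2, e3]
      have hn' : ((nm π : ℕ) : ℂ) ≠ 0 := by exact_mod_cast hn.ne'
      push_cast
      field_simp
    rw [Finset.sum_congr rfl e1, ← Finset.mul_sum]
    have e4 : FF D k y - (1 / ((∑ π ∈ (GP P Q : Finset (Gi K)), 1 / (nm π : ℝ) : ℝ) : ℂ)) *
        (((Real.exp (-y) : ℝ) : ℂ) * ∑ π ∈ GP P Q, (lam π : ℂ) * xi D k π * SS D k (Real.exp y / nm π)) =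
        ((Real.exp (-y) : ℝ) : ℂ) * (SS D k (Real.exp y) - (1 / (WW K P Q : ℂ)) *
          ∑ π ∈ GP P Q, (lam π : ℂ) * xi D k π * SS D k (Real.exp y / nm π)) := by
      unfold FF WW
      ring
    rw [e4, norm_mul, mul_pow, Complex.norm_real, Real.norm_eq_abs, sq_abs]
  rw [Finset.sum_congr rfl key, ← Finset.mul_sum]
  calc _ ≤ Real.exp (-y) ^ 2 * (C * Real.exp y ^ 2 / WW K P Q) :=
        mul_le_mul_of_nonneg_left h (by positivity)
    _ = C * (Real.exp (-y) * Real.exp y) ^ 2 / WW K P Q := by ring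
    _ = C / WW K P Q := by rw [exp_neg_mul_exp]; ring

lemma cpow_eq {n : ℕ} (hn : 0 < n) (t : ℝ) : ((n : ℕ) : ℂ) ^ (-1 - Complex.I * (t : ℂ)) =
    ((1 / (n : ℝ) : ℝ) : ℂ) * Complex.exp (-(Complex.I * t * (Real.log n : ℝ))) := by
  have hn' : (n : ℂ) ≠ 0 := by exact_mod_cast hn.ne'
  rw [sub_eq_add_neg, Complex.cpow_add _ _ hn', Complex.cpow_neg_one,
    Complex.cpow_def_of_ne_zero hn']
  congr 1
  · push_cast; simp
  · congr 1
    rw [← Complex.natCast_log]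
    ring

lemma W_lower (hPG : SpecPG K) : ∃ C : ℝ, ∀ d : ℝ, 0 < d → d ≤ 1 → ∀ᶠ X : ℝ in atTop,
    Real.log (1 / d) - C ≤ WW K (X ^ (d ^ 2)) (X ^ d) := by
  obtain ⟨C, hC⟩ := hPG.1
  refine ⟨C, fun d hd hd1 => ?_⟩
  have hd2 : 0 < d ^ 2 := by positivity
  filter_upwards [(tendsto_rpow_atTop hd2).eventually_ge_atTop 3, eventually_gt_atTop (1 : ℝ)]
    with X h3 hX1
  have hX0 : 0 < X := by linarith
  have hlog : 0 < Real.log X := Real.log_pos hX1
  have h1 : X ^ (d ^ 2) ≤ X ^ d := Real.rpow_le_rpow_of_exponent_le hX1.le (by nlinarith)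
  have h := hC _ _ h3 h1
  rw [Real.log_rpow hX0, Real.log_rpow hX0, Real.log_mul hd.ne' hlog.ne',
    Real.log_mul hd2.ne' hlog.ne', Real.log_pow] at h
  have h' := (abs_le.1 h).1
  have e : Real.log (1 / d) = - Real.log d := by rw [one_div, Real.log_inv]
  rw [e]
  push_cast at h'
  linarith

/-- mass of the primes in a short logarithmic interval -/
lemma mass {C : ℝ} (hC : 0 < C) (h : ∀ x : ℝ, 2 ≤ x → WW K x (Real.exp 1 * x) ≤ C / Real.log x)
    {P Q σ : ℝ} (hP : 2 ≤ Real.log P) (hP0 : 0 < P) (hσ : σ ≤ 1) (v : ℝ) :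
    ∑ π ∈ (GP P Q : Finset (Gi K)).filter (fun π => v - σ < Real.log (nm π) ∧ Real.log (nm π) ≤ v),
      1 / (nm π : ℝ) ≤ 2 * C / Real.log P := by
  by_cases hv : Real.log P < v
  · have h2 : 2 ≤ Real.exp (v - 1) := by
      have := Real.add_one_le_exp (v - 1)
      linarith
    have h3 := h _ h2
    have h4 : Real.exp 1 * Real.exp (v - 1) = Real.exp v := by
      rw [← Real.exp_add]; congr 1; ring
    rw [h4, Real.log_exp] at h3
    have hsub : (GP P Q : Finset (Gi K)).filter (fun π => v - σ < Real.log (nm π) ∧ Real.log (nm π) ≤ v) ⊆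
        GP (Real.exp (v - 1)) (Real.exp v) := by
      intro π hπ
      rw [mem_filter] at hπ
      obtain ⟨hπ, h5, h6⟩ := hπ
      have hn := nm_posR (GP_ne_zero hπ)
      rw [mem_GP] at hπ ⊢
      refine ⟨hπ.1, hπ.2.1, ?_, ?_⟩
      · rw [← Real.lt_log_iff_exp_lt hn]; linarith
      · rw [← Real.log_le_iff_le_exp hn]; exact h6
    calc ∑ π ∈ (GP P Q : Finset (Gi K)).filter (fun π => v - σ < Real.log (nm π) ∧ Real.log (nm π) ≤ v),
          1 / (nm π : ℝ) ≤ WW K (Real.exp (v - 1)) (Real.exp v) :=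
          Finset.sum_le_sum_of_subset_of_nonneg hsub fun _ _ _ => by positivity
      _ ≤ C / (v - 1) := h3
      _ ≤ 2 * C / Real.log P := by
          rw [div_le_div_iff₀ (by linarith) (by linarith)]
          nlinarith
  · have : (GP P Q : Finset (Gi K)).filter (fun π => v - σ < Real.log (nm π) ∧ Real.log (nm π) ≤ v) = ∅ := by
      rw [filter_eq_empty_iff]
      rintro π hπ ⟨_, h6⟩
      have hn := nm_posR (GP_ne_zero hπ)
      rw [mem_GP] at hπ
      have := Real.log_lt_log hP0 hπ.2.2.1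
      linarith
    rw [this, Finset.sum_empty]
    have : 0 < Real.log P := by linarith
    positivity

/-- the inequality of the top scale -/
lemma main_ineq {D : Dir K} {U : Finset (Kp K)} {C Cc ρ u v P Q y0 a τ σ KK : ℝ} {S N : ℕ}
    (hg : Good D U C ρ u v) (hC : 0 < C) (hCc : 0 < Cc) (hρ : ρ ≤ σ ^ 2)
    (hW : 1 ≤ WW K P Q) (hP : 2 ≤ Real.log P) (hP0 : 0 < P) (hσ : σ ≤ 1)
    (hc : ∀ x : ℝ, 2 ≤ x → WW K x (Real.exp 1 * x) ≤ Cc / Real.log x)
    (hE : ∑ k ∈ U, ‖FF D k y0 - (1 / ((∑ π ∈ (GP P Q : Finset (Gi K)), 1 / (nm π : ℝ) : ℝ) : ℂ)) *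
        ∑ π ∈ GP P Q, ((1 / (nm π : ℝ) : ℝ) : ℂ) * ((lam π : ℂ) * xi D k π) *
          FF D k (y0 - Real.log (nm π))‖ ^ 2 ≤ C / WW K P Q)
    (hτ : 0 < τ) (hS : 0 < S) (hSσ : S * τ ≤ σ) (hau : u ≤ a) (hyv : y0 ≤ v)
    (h4 : a + σ ≤ y0 - Real.log Q) (h4' : y0 - Real.log P ≤ a + N * τ)
    (h5 : ∑ m ∈ range N, Ph D U (a + m * τ) ≤ KK) :
    Ph D U y0 ≤ 2 * C / WW K P Q + 8 * Cc * KK / (Real.log P * S) + 32 * C * σ ^ 2 := by
  have hne : (GP P Q : Finset (Gi K)).Nonempty := by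
    by_contra h
    rw [not_nonempty_iff_eq_empty] at h
    unfold WW at hW
    rw [h] at hW
    simp at hW
    linarith
  have hw : ∀ π ∈ (GP P Q : Finset (Gi K)), (0 : ℝ) < 1 / (nm π : ℝ) := fun π hπ => by
    have := nm_posR (GP_ne_zero hπ)
    positivity
  have hS' : (0 : ℝ) < S := by exact_mod_cast hS
  have hσ0 : 0 ≤ σ := le_trans (by positivity) hSσ
  have hWdef : ∑ π ∈ (GP P Q : Finset (Gi K)), 1 / (nm π : ℝ) = WW K P Q := rfl
  have s1 : Ph D U y0 ≤ 2 * (C / WW K P Q) + 2 / WW K P Q *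
      ∑ π ∈ (GP P Q : Finset (Gi K)), 1 / (nm π : ℝ) * Ph D U (y0 - Real.log (nm π)) := by
    have s2 : ∀ k ∈ U, ‖FF D k y0‖ ^ 2 ≤ 2 * ‖FF D k y0 -
        (1 / ((∑ π ∈ (GP P Q : Finset (Gi K)), 1 / (nm π : ℝ) : ℝ) : ℂ)) *
        ∑ π ∈ GP P Q, ((1 / (nm π : ℝ) : ℝ) : ℂ) * ((lam π : ℂ) * xi D k π) *
          FF D k (y0 - Real.log (nm π))‖ ^ 2 + 2 / WW K P Q *
        ∑ π ∈ (GP P Q : Finset (Gi K)), 1 / (nm π : ℝ) * ‖FF D k (y0 - Real.log (nm π))‖ ^ 2 := by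
      intro k _
      have := cs (GP P Q) (fun π => 1 / (nm π : ℝ))
        (fun π => ((lam π : ℂ) * xi D k π) * FF D k (y0 - Real.log (nm π))) (FF D k y0) hw hne
      simp only [hWdef] at this
      simp only [hWdef, mul_assoc] at this ⊢
      refine this.trans ?_
      have hle : ∑ π ∈ (GP P Q : Finset (Gi K)), 1 / (nm π : ℝ) *
            ‖(lam π : ℂ) * (xi D k π * FF D k (y0 - Real.log (nm π)))‖ ^ 2 ≤
          ∑ π ∈ (GP P Q : Finset (Gi K)), 1 / (nm π : ℝ) * ‖FF D k (y0 - Real.log (nm π))‖ ^ 2 := by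
        refine Finset.sum_le_sum fun π hπ => ?_
        refine mul_le_mul_of_nonneg_left ?_ (hw π hπ).le
        refine pow_le_pow_left₀ (norm_nonneg _) ?_ 2
        rw [norm_mul, norm_mul]
        calc ‖(lam π : ℂ)‖ * (‖xi D k π‖ * ‖FF D k (y0 - Real.log (nm π))‖) ≤
            1 * (1 * ‖FF D k (y0 - Real.log (nm π))‖) := by
              gcongr
              · exact (norm_lam π).le
              · exact norm_xi_le D k π
          _ = _ := by ring
      have h0 : 0 ≤ 2 / WW K P Q := by positivity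
      nlinarith [mul_le_mul_of_nonneg_left hle h0]
    calc Ph D U y0 ≤ ∑ k ∈ U, (2 * ‖FF D k y0 -
        (1 / ((∑ π ∈ (GP P Q : Finset (Gi K)), 1 / (nm π : ℝ) : ℝ) : ℂ)) *
        ∑ π ∈ GP P Q, ((1 / (nm π : ℝ) : ℝ) : ℂ) * ((lam π : ℂ) * xi D k π) *
          FF D k (y0 - Real.log (nm π))‖ ^ 2 + 2 / WW K P Q *
        ∑ π ∈ (GP P Q : Finset (Gi K)), 1 / (nm π : ℝ) * ‖FF D k (y0 - Real.log (nm π))‖ ^ 2) :=
          Finset.sum_le_sum s2
      _ = 2 * ∑ k ∈ U, ‖FF D k y0 -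
        (1 / ((∑ π ∈ (GP P Q : Finset (Gi K)), 1 / (nm π : ℝ) : ℝ) : ℂ)) *
        ∑ π ∈ GP P Q, ((1 / (nm π : ℝ) : ℝ) : ℂ) * ((lam π : ℂ) * xi D k π) *
          FF D k (y0 - Real.log (nm π))‖ ^ 2 + 2 / WW K P Q *
        ∑ π ∈ (GP P Q : Finset (Gi K)), 1 / (nm π : ℝ) * Ph D U (y0 - Real.log (nm π)) := by
          rw [Finset.sum_add_distrib, ← Finset.mul_sum, ← Finset.mul_sum, Finset.sum_comm]
          congr 2
          refine Finset.sum_congr rfl fun π _ => ?_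
          unfold Ph
          rw [Finset.mul_sum]
      _ ≤ _ := by linarith [hE]
  have s3 := avg (GP P Q) (fun π => 1 / (nm π : ℝ)) (fun π => Real.log (nm π)) (Ph D U) y0 a τ σ
    (16 * C * σ ^ 2) (2 * Cc / Real.log P) KK S N (fun π hπ => (hw π hπ).le) hτ hS hSσ
    (Ph_nonneg D U) ?_ (mass hCc hc hP hP0 hσ) ?_ h5
  · rw [hWdef] at s3
    have hW0 : 0 < WW K P Q := by linarith
    have hK : 0 ≤ KK := le_trans (Finset.sum_nonneg fun _ _ => Ph_nonneg D U _) h5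
    have hP0' : 0 < Real.log P := by linarith
    calc Ph D U y0 ≤ 2 * (C / WW K P Q) + 2 / WW K P Q *
          (2 * (2 * Cc / Real.log P) * KK / S + 16 * C * σ ^ 2 * WW K P Q) := by
          have := mul_le_mul_of_nonneg_left s3 (by positivity : 0 ≤ 2 / WW K P Q)
          linarith
      _ = 2 * C / WW K P Q + (8 * Cc * KK / (Real.log P * S)) / WW K P Q + 32 * C * σ ^ 2 := by
          field_simp
          ring
      _ ≤ _ := by
          have : (8 * Cc * KK / (Real.log P * S)) / WW K P Q ≤ 8 * Cc * KK / (Real.log P * S) := by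
            apply div_le_self _ hW
            positivity
          linarith
  · intro y y' h1 h2 h3 h6
    have hl := hg.l y' y (hau.trans h1) h2 (h6.trans hyv)
    have hk : ∀ k ∈ U, ‖FF D k y‖ ^ 2 ≤ 2 * ‖FF D k y'‖ ^ 2 +
        2 * ‖FF D k y - FF D k y'‖ ^ 2 := by
      intro k _
      have h7 : ‖FF D k y‖ ≤ ‖FF D k y'‖ + ‖FF D k y - FF D k y'‖ := by
        have := norm_add_le (FF D k y') (FF D k y - FF D k y')
        rwa [add_sub_cancel] at this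
      have h8 := pow_le_pow_left₀ (norm_nonneg _) h7 2
      nlinarith [sq_nonneg (‖FF D k y'‖ - ‖FF D k y - FF D k y'‖)]
    have h9 : Ph D U y ≤ 2 * Ph D U y' + 2 * ∑ k ∈ U, ‖FF D k y - FF D k y'‖ ^ 2 := by
      unfold Ph
      rw [Finset.mul_sum, Finset.mul_sum, ← Finset.sum_add_distrib]
      exact Finset.sum_le_sum hk
    have h10 : (y - y') ^ 2 ≤ σ ^ 2 := pow_le_pow_left₀ (by linarith) (by linarith) 2
    nlinarith [mul_le_mul_of_nonneg_left (add_le_add h10 hρ) (by positivity : 0 ≤ 4 * C)]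
  · intro π hπ
    have hn := one_le_nm (GP_ne_zero hπ)
    have hn0 := nm_posR (GP_ne_zero hπ)
    rw [mem_GP] at hπ
    have h6 := Real.log_lt_log hP0 hπ.2.2.1
    have h7 := Real.log_le_log hn0 hπ.2.2.2
    exact ⟨Real.log_nonneg hn, by linarith, by linarith⟩

lemma exists_d (KK δ : ℝ) (hδ : 0 < δ) : ∃ d : ℝ, 0 < d ∧ d ≤ δ ∧ KK ≤ Real.log (1 / d) := by
  refine ⟨min δ (Real.exp (-KK)), lt_min hδ (Real.exp_pos _), min_le_left _ _, ?_⟩
  have h0 : 0 < min δ (Real.exp (-KK)) := lt_min hδ (Real.exp_pos _)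
  rw [one_div, Real.log_inv]
  have : Real.log (min δ (Real.exp (-KK))) ≤ -KK := by
    rw [Real.log_le_iff_le_exp h0]
    exact min_le_right _ _
  linarith

end

end Top

theorem specTop [Sg] {K : Type} [Field K] [NumberField K] [IQ K] (D : Dir K) (hUp : SpecUp K D)
    (hPlan : SpecPlan) (hLow : SpecLower K D) (hPG : SpecPG K) : SpecTop K D := by
  obtain ⟨c₀, C, d₀, hc₀, hC, hd₀, hU⟩ := hUp
  obtain ⟨c, hc, hL⟩ := hLow
  obtain ⟨Cb, hCb⟩ := Top.W_lower hPG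
  obtain ⟨Cc, hCc, hcc⟩ := hPG.2.1
  refine ⟨c₀, hc₀, fun ε hε => ?_⟩
  -- the parameters
  obtain ⟨d, hd, hdle, hdW⟩ := Top.exists_d (1 + 128 * C / ε + Cb) (min d₀ (1 / 8))
    (lt_min hd₀ (by norm_num))
  have hd8 : d ≤ 1 / 8 := hdle.trans (min_le_right _ _)
  have hdd : d ≤ d₀ := hdle.trans (min_le_left _ _)
  set σ : ℝ := min 1 (Real.sqrt (ε / (2048 * C))) with hσdef
  have hσ0 : 0 < σ := lt_min one_pos (Real.sqrt_pos.2 (by positivity))
  have hσ1 : σ ≤ 1 := min_le_left _ _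
  have hσ2 : 32 * C * σ ^ 2 ≤ ε / 64 := by
    have h1 : σ ^ 2 ≤ (Real.sqrt (ε / (2048 * C))) ^ 2 :=
      pow_le_pow_left₀ hσ0.le (min_le_right _ _) 2
    rw [Real.sq_sqrt (by positivity)] at h1
    have h2 := mul_le_mul_of_nonneg_left h1 (by positivity : 0 ≤ 32 * C)
    refine h2.trans (le_of_eq ?_)
    field_simp
    norm_num
  set ε' : ℝ := ε * d * σ / (64 * 128 * Cc * C) with hε'def
  have hε' : 0 < ε' := by positivity
  obtain ⟨T₀, τ₀, hT₀, hτ₀, hP⟩ := hPlan (Kp K) (Gi K) c ε' hc hε'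
  set τ : ℝ := min τ₀ (σ / 2) with hτdef
  have hτ : 0 < τ := lt_min hτ₀ (by positivity)
  have hτσ : τ ≤ σ / 2 := min_le_right _ _
  obtain ⟨ρ, hρ, N₀, hP'⟩ := hP τ hτ (min_le_left _ _)
  obtain ⟨d₁, hd₁, hL'⟩ := hL T₀ hT₀
  obtain ⟨d', hd', hd'le, hd'W⟩ := Top.exists_d (1 / (4 * ρ) + Cb + 1)
    (min (min d₀ d₁) (min (1 / 8) (ρ * d / τ)))
    (lt_min (lt_min hd₀ hd₁) (lt_min (by norm_num) (by positivity)))
  have hd'8 : d' ≤ 1 / 8 := hd'le.trans ((min_le_right _ _).trans (min_le_left _ _))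
  have hd'ρ : d' ≤ ρ * d / τ := hd'le.trans ((min_le_right _ _).trans (min_le_right _ _))
  have hd'd : d' ≤ d₀ := hd'le.trans ((min_le_left _ _).trans (min_le_left _ _))
  have hd'1 : d' ≤ d₁ := hd'le.trans ((min_le_left _ _).trans (min_le_right _ _))
  set S : ℕ := ⌊σ / τ⌋₊ with hSdef
  have hS2 : (2 : ℝ) ≤ σ / τ := by
    rw [le_div_iff₀ hτ]; linarith
  have hS : 0 < S := by
    have : 2 ≤ S := Nat.le_floor (by exact_mod_cast hS2)
    omega
  have hSσ : (S : ℝ) * τ ≤ σ := by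
    have := Nat.floor_le (by positivity : 0 ≤ σ / τ)
    rwa [le_div_iff₀ hτ] at this
  have hSσ' : σ / 2 ≤ (S : ℝ) * τ := by
    have := Nat.lt_floor_add_one (σ / τ)
    rw [div_lt_iff₀ hτ] at this
    have e : ((S : ℝ) + 1) * τ = S * τ + τ := by ring
    rw [← hSdef, e] at this
    linarith
  have hρ1 : ∀ᶠ X : ℝ in atTop, X ^ (-c₀) ≤ min ρ (σ ^ 2) :=
    (tendsto_rpow_neg_atTop hc₀).eventually_le_const (lt_min hρ (by positivity))
  have hlogX : ∀ᶠ X : ℝ in atTop, 12 + 2 / d ^ 2 + 1 / d + N₀ * τ / d ≤ Real.log X :=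
    Real.tendsto_log_atTop.eventually_ge_atTop _
  filter_upwards [hU d hd hdd, hU d' hd' hd'd, hL' d' hd' hd'1,
    hCb d hd (by linarith), hCb d' hd' (by linarith), hρ1, hlogX, eventually_ge_atTop (1 : ℝ)]
    with X hU1 hU2 hL1 hW1 hW2 hρX hlX hX1
  intro U hUX hUc x hx1 hx2
  have hX0 : 0 < X := by linarith
  have hx0 : 0 < x := by linarith
  have hlX0 : 0 < Real.log X := by
    have : 0 < 12 + 2 / d ^ 2 + 1 / d + N₀ * τ / d := by positivity
    linarith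
  have hlX12 : 12 ≤ Real.log X := by
    have : 0 ≤ 2 / d ^ 2 + 1 / d + N₀ * τ / d := by positivity
    linarith
  have hlXd2 : 2 ≤ d ^ 2 * Real.log X := by
    have h1 : 2 / d ^ 2 ≤ Real.log X := by
      have : 0 ≤ 12 + 1 / d + N₀ * τ / d := by positivity
      linarith
    rw [div_le_iff₀ (by positivity)] at h1
    linarith
  have hlXd : 1 ≤ d * Real.log X := by
    have h1 : 1 / d ≤ Real.log X := by
      have : 0 ≤ 12 + 2 / d ^ 2 + N₀ * τ / d := by positivity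
      linarith
    rw [div_le_iff₀ hd] at h1
    linarith
  have hlXN : N₀ * τ ≤ d * Real.log X := by
    have h1 : N₀ * τ / d ≤ Real.log X := by
      have : 0 ≤ 12 + 2 / d ^ 2 + 1 / d := by positivity
      linarith
    rw [div_le_iff₀ hd] at h1
    linarith
  have hUX' : ∀ k ∈ U, |(k.2 : ℝ)| ≤ X := fun k hk => (hUX k hk).2
  obtain ⟨g1, g2, g3⟩ := hU1 U hUX' hUc
  obtain ⟨_, _, g3'⟩ := hU2 U hUX' hUc
  have hgood := Top.good_of_up hX1 hC g1 g2
  set y0 := Real.log x with hy0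
  have hey0 : Real.exp y0 = x := Real.exp_log hx0
  set a := y0 - d * Real.log X - 2 with ha
  set N : ℕ := ⌊(d * Real.log X + 1) / τ⌋₊ with hN
  have hτ1 : τ ≤ 1 := by linarith
  have hN1 : (N : ℝ) * τ ≤ d * Real.log X + 1 := by
    have := Nat.floor_le (by positivity : 0 ≤ (d * Real.log X + 1) / τ)
    rwa [le_div_iff₀ hτ] at this
  have hN2 : d * Real.log X + 1 - τ ≤ (N : ℝ) * τ := by
    have := Nat.lt_floor_add_one ((d * Real.log X + 1) / τ)
    rw [div_lt_iff₀ hτ] at this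
    have e : ((N : ℝ) + 1) * τ = N * τ + τ := by ring
    rw [← hN, e] at this
    linarith
  have hN0 : N₀ ≤ N := by
    have : (N₀ : ℝ) * τ ≤ N * τ := by linarith
    have := le_of_mul_le_mul_right this hτ
    exact_mod_cast this
  have hy1 : Real.log X ≤ y0 := Real.log_le_log hX0 hx1
  have hy2 : y0 ≤ Real.log (4 * X) := Real.log_le_log hx0 hx2
  have hlogd : d * Real.log X ≤ 1 / 8 * Real.log X := mul_le_mul_of_nonneg_right hd8 hlX0.le
  have hlogd' : d' * Real.log X ≤ 1 / 8 * Real.log X := mul_le_mul_of_nonneg_right hd'8 hlX0.le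
  have hlogd'0 : 0 ≤ d' * Real.log X := by positivity
  have e1 : ∀ y, Real.log X / 2 ≤ y → Real.sqrt X ≤ Real.exp y := by
    intro y hy
    rw [Real.sqrt_eq_rpow, Real.rpow_def_of_pos hX0]
    exact Real.exp_le_exp.2 (by linarith)
  have e2 : ∀ y, y ≤ Real.log (4 * X) → Real.exp y ≤ 4 * X := by
    intro y hy
    rw [← Real.exp_log (by positivity : (0 : ℝ) < 4 * X)]
    exact Real.exp_le_exp.2 hy
  have hWd1 : 1 ≤ WW K (X ^ (d ^ 2)) (X ^ d) := by
    have : 0 ≤ 128 * C / ε := by positivity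
    linarith
  have hWd2 : 128 * C / ε ≤ WW K (X ^ (d ^ 2)) (X ^ d) := by linarith
  have hWd' : 1 / (4 * ρ) ≤ WW K (X ^ (d' ^ 2)) (X ^ d') := by linarith
  have hWd'0 : 0 < WW K (X ^ (d' ^ 2)) (X ^ d') := lt_of_lt_of_le (by positivity) hWd'
  have hne' : (GP (X ^ (d' ^ 2)) (X ^ d') : Finset (Gi K)).Nonempty := by
    by_contra h
    rw [not_nonempty_iff_eq_empty] at h
    unfold WW at hWd'0
    rw [h] at hWd'0
    simp at hWd'0
  -- PLAN
  have hK : ∑ n ∈ range N, Top.Ph D U (a + n * τ) ≤ ε' * (4 * C) * N := by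
    refine hP' U (Top.FF D) (GP (X ^ (d' ^ 2)) (X ^ d')) (fun π => 1 / (nm π : ℝ))
      (fun π => Real.log (nm π)) (fun k π => (lam π : ℂ) * xi D k π) a (d' * Real.log X) (4 * C) N
      hN0 (by positivity) hlogd'0 ?_ hne' ?_ ?_ ?_ ?_ ?_ ?_
    · have h1 : d' * τ ≤ ρ * d := by rwa [le_div_iff₀ hτ] at hd'ρ
      have h2 : (d' * Real.log X) * τ ≤ (ρ * N) * τ := by
        calc (d' * Real.log X) * τ = (d' * τ) * Real.log X := by ring
          _ ≤ (ρ * d) * Real.log X := mul_le_mul_of_nonneg_right h1 hlX0.le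
          _ = ρ * (d * Real.log X) := by ring
          _ ≤ ρ * (N * τ) := mul_le_mul_of_nonneg_left (by linarith) hρ.le
          _ = (ρ * N) * τ := by ring
      exact le_of_mul_le_mul_right h2 hτ
    · intro π hπ
      have hn := Top.one_le_nm (Top.GP_ne_zero hπ)
      have hn0 := Top.nm_posR (Top.GP_ne_zero hπ)
      refine ⟨by positivity, Real.log_nonneg hn, ?_⟩
      rw [← Real.log_rpow hX0]
      exact Real.log_le_log hn0 (Top.mem_GP.1 hπ).2.2.2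
    · intro k π
      rw [norm_mul]
      calc ‖(lam π : ℂ)‖ * ‖xi D k π‖ ≤ 1 * 1 :=
            mul_le_mul (Top.norm_lam π).le (Top.norm_xi_le D k π) (norm_nonneg _) zero_le_one
        _ = 1 := one_mul 1
    · intro y h1 h2
      have h3 := hgood.b y (by linarith) (by linarith)
      unfold Top.Ph at h3
      linarith
    · intro y y' h1 h2 _ h3
      refine (hgood.l y y' (by linarith) h2 (by linarith)).trans ?_
      have : X ^ (-c₀) ≤ ρ := hρX.trans (min_le_left _ _)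
      have h5 := mul_le_mul_of_nonneg_left this (by positivity : 0 ≤ 4 * C)
      linarith
    · intro y h1 h2
      have h3 := Top.eqn (g3' (Real.exp y) (e1 y (by linarith)) (e2 y (by linarith)))
      refine h3.trans ?_
      rw [div_le_iff₀ hWd'0]
      rw [div_le_iff₀ (by positivity)] at hWd'
      have h4 := mul_le_mul_of_nonneg_left hWd' hC.le
      linarith
    · intro k hk t ht
      have h3 := hL1 k (hUX k hk).1 (hUX k hk).2 t ht
      have h4 : ∀ π ∈ GP (X ^ (d' ^ 2)) (X ^ d'),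
          ((1 / (nm π : ℝ) : ℝ) : ℂ) * ((lam π : ℂ) * xi D k π) *
            Complex.exp (-(Complex.I * t * (Real.log (nm π) : ℝ))) =
          (lam π : ℂ) * xi D k π * ((nm π : ℕ) : ℂ) ^ (-1 - Complex.I * (t : ℂ)) := by
        intro π hπ
        rw [Top.cpow_eq (Top.nm_pos (Top.GP_ne_zero hπ))]
        ring
      rw [Finset.sum_congr rfl h4]
      exact h3
  -- the top inequality
  have hP2 : Real.log (X ^ (d ^ 2)) = d ^ 2 * Real.log X := Real.log_rpow hX0 _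
  have hQ2 : Real.log (X ^ d) = d * Real.log X := Real.log_rpow hX0 _
  have hmain := Top.main_ineq (S := S) (N := N) (a := a) (τ := τ) (σ := σ) (y0 := y0)
    (P := X ^ (d ^ 2)) (Q := X ^ d) hgood hC hCc (hρX.trans (min_le_right _ _)) hWd1
    (by rw [hP2]; exact hlXd2) (by positivity) hσ1 hcc
    (Top.eqn (g3 (Real.exp y0) (e1 y0 (by linarith)) (e2 y0 hy2))) hτ hS hSσ (by linarith) hy2
    (by rw [hQ2]; linarith) (by rw [hP2]; linarith) hK
  rw [hP2] at hmain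
  -- conclusion
  have t1 : 2 * C / WW K (X ^ (d ^ 2)) (X ^ d) ≤ ε / 64 := by
    rw [div_le_iff₀ (by linarith)]
    rw [div_le_iff₀ hε] at hWd2
    linarith
  have t2 : 8 * Cc * (ε' * (4 * C) * N) / (d ^ 2 * Real.log X * S) ≤ ε / 64 := by
    have hS' : (0 : ℝ) < S := by exact_mod_cast hS
    have hNN : (N : ℝ) * τ ≤ 2 * (d * Real.log X) := by linarith
    rw [div_le_iff₀ (by positivity)]
    have h1 : 8 * Cc * (ε' * (4 * C) * N) * τ ≤ 8 * Cc * (ε' * (4 * C)) *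
        (2 * (d * Real.log X)) := by
      calc 8 * Cc * (ε' * (4 * C) * N) * τ = 8 * Cc * (ε' * (4 * C)) * (N * τ) := by ring
        _ ≤ _ := mul_le_mul_of_nonneg_left hNN (by positivity)
    have h2 : ε / 64 * (d ^ 2 * Real.log X * (σ / 2)) ≤
        ε / 64 * (d ^ 2 * Real.log X * S) * τ := by
      calc ε / 64 * (d ^ 2 * Real.log X * (σ / 2)) ≤
          ε / 64 * (d ^ 2 * Real.log X * (S * τ)) := by gcongr
        _ = _ := by ring
    have h3 : 8 * Cc * (ε' * (4 * C)) * (2 * (d * Real.log X)) =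
        ε / 64 * (d ^ 2 * Real.log X * (σ / 2)) := by
      rw [hε'def]
      field_simp
      ring
    have h4 : 8 * Cc * (ε' * (4 * C) * N) * τ ≤ ε / 64 * (d ^ 2 * Real.log X * S) * τ := by
      linarith
    exact le_of_mul_le_mul_right h4 hτ
  have t3 : Top.Ph D U y0 ≤ 3 * (ε / 64) := by linarith
  rw [Top.Ph_eq, hey0] at t3
  have h5 : ∑ k ∈ U, ‖SS D k x‖ ^ 2 = x ^ 2 * (Real.exp (-y0) ^ 2 *
      ∑ k ∈ U, ‖SS D k x‖ ^ 2) := by
    have : Real.exp (-y0) * x = 1 := by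
      have := Top.exp_neg_mul_exp y0
      rwa [hey0] at this
    calc ∑ k ∈ U, ‖SS D k x‖ ^ 2 = (Real.exp (-y0) * x) ^ 2 * ∑ k ∈ U, ‖SS D k x‖ ^ 2 := by
          rw [this]; ring
      _ = _ := by ring
  rw [h5]
  have h6 : x ^ 2 ≤ (4 * X) ^ 2 := pow_le_pow_left₀ hx0.le hx2 2
  have h7 : 0 ≤ Real.exp (-y0) ^ 2 * ∑ k ∈ U, ‖SS D k x‖ ^ 2 := by positivity
  calc x ^ 2 * (Real.exp (-y0) ^ 2 * ∑ k ∈ U, ‖SS D k x‖ ^ 2) ≤
      (4 * X) ^ 2 * (3 * (ε / 64)) := mul_le_mul h6 t3 h7 (by positivity)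
    _ = 3 / 4 * (ε * X ^ 2) := by ring
    _ ≤ ε * X ^ 2 := by
        have : 0 ≤ ε * X ^ 2 := by positivity
        linarith

end Pool.Agent.Lib.MP391708.MA
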