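import Pool.Agent.Lib.MP_391708_nt.MA.Prin2
import Pool.Agent.Lib.MP_391708_nt.MA.Field
import Pool.Agent.Lib.MP_391708_nt.MA.Ext
import Pool.Agent.Lib.MP_391708_nt.MA.MRk
import Pool.Agent.Lib.MP_391708_nt.MA.Top
import Pool.Agent.Lib.MP_391708_nt.MA.Plan
import Pool.Agent.Lib.MP_391708_nt.MA.Lower
import Pool.Agent.Lib.MP_391708_nt.MA.Up
import Pool.Agent.Lib.MP_391708_nt.MA.TK
import Pool.Agent.Lib.MP_391708_nt.MA.Mom
import Pool.Agent.Lib.MP_391708_nt.MA.Sep
import Pool.Agent.Lib.MP_391708_nt.MA.LatC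
import Pool.Agent.Lib.MP_391708_nt.MA.LatT
import Pool.Agent.Lib.MP_391708_nt.MA.Isl
import Pool.Agent.Lib.MP_391708_nt.MA.CLS
import Pool.Agent.Lib.MP_391708_nt.MA.Count
import Pool.Agent.Lib.MP_391708_nt.MA.LSG
import Pool.Agent.Lib.MP_391708_nt.MA.PG
import Pool.Agent.Lib.MP_391708_nt.MA.OS
import Pool.Agent.Lib.MP_391708_nt.MA.Dec
import Pool.Agent.Lib.MP_391708_nt.MA.Ladder
import Pool.Agent.Lib.MP_391708_nt.MR.Lad
import Pool.Agent.Lib.MP_391708_nt.MR.Landau

/-!
# Assembly: `SpecMA` from FIELD, EXT, MRC and PRIN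
-/

set_option autoImplicit false

namespace Pool.Agent.Lib.MP391708.MA

open Finset Filter Topology NumberField
open scoped ComplexConjugate Classical

/-- the conjugate generator `b - ω` -/
lemma conj_gen {R : Type} [CommRing R] {ω : R} {b c : ℤ}
    (h : ω ^ 2 = (b : R) * ω - (c : R)) (hb : ∀ v : R, ∃ x y : ℤ, v = (x : R) + (y : R) * ω) :
    ((b : R) - ω) ^ 2 = (b : R) * ((b : R) - ω) - (c : R) ∧
      ∀ v : R, ∃ x y : ℤ, v = (x : R) + (y : R) * ((b : R) - ω) := by
  constructor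
  · linear_combination h
  · intro v
    obtain ⟨x, y, rfl⟩ := hb v
    refine ⟨x + y * b, -y, ?_⟩
    push_cast
    ring

/-- a root of `τ² = b τ - c`, `b² < 4 c`, is not real -/
lemma im_ne_zero {τ : ℂ} {b c : ℤ} (h : τ ^ 2 = (b : ℂ) * τ - (c : ℂ)) (hbc : b ^ 2 < 4 * c) :
    τ.im ≠ 0 := by
  intro h0
  have h1 := congrArg Complex.re h
  simp only [pow_two, Complex.mul_re, Complex.sub_re, Complex.intCast_re, Complex.intCast_im,
    h0] at h1
  have h2 : ((b : ℝ)) ^ 2 < 4 * (c : ℝ) := by exact_mod_cast hbc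
  nlinarith [sq_nonneg (2 * τ.re - (b : ℝ))]

/-- **Assembly.** -/
theorem specMA_of [Sg] (hF : SpecField)
    (hE : ∀ (K : Type) [Field K] [NumberField K] [IQ K], SpecExt K)
    (hM : ∀ (K : Type) [Field K] [NumberField K] [IQ K] (D : Dir K), SpecMRC K D)
    (hP : ∀ (K : Type) [Field K] [NumberField K] [IQ K], SpecPrin K) : SpecMA := by
  intro a ha
  obtain ⟨K, iF, iN, iQ, ω, b, c, g, hg, hgd, hω, hb⟩ := hF a ha
  obtain ⟨D⟩ := hE K
  have hbc : b ^ 2 < 4 * c := by
    have h1 : 0 < g ^ 2 * (4 * c - b ^ 2) := by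
      rw [hgd]
      have : (0 : ℤ) < a := by exact_mod_cast ha
      linarith
    have h2 : 0 < g ^ 2 := by positivity
    have h3 := (mul_pos_iff_of_pos_left h2).1 h1
    linarith
  have him : ∀ ω' : 𝓞 K, ω' ^ 2 = (b : 𝓞 K) * ω' - (c : 𝓞 K) →
      (D.σ (ω' : K)) ^ 2 = (b : ℂ) * (D.σ (ω' : K)) - (c : ℂ) := by
    intro ω' h
    have h1 := congrArg (fun x : 𝓞 K => D.σ (x : K)) h
    simpa using h1
  rcases lt_trichotomy (D.σ (ω : K)).im 0 with h | h | h
  · obtain ⟨hω', hb'⟩ := conj_gen hω hb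
    have h' : 0 < (D.σ (((b : 𝓞 K) - ω : 𝓞 K) : K)).im := by
      have h2 : D.σ (((b : 𝓞 K) - ω : 𝓞 K) : K) = (b : ℂ) - D.σ (ω : K) := by
        simp
      rw [h2, Complex.sub_im, Complex.intCast_im]
      linarith
    exact ⟨b, c, g, _, hg, hgd, h', him _ hω',
      hP K ((b : 𝓞 K) - ω) b c D (hM K D) hω' hb' hbc h'⟩
  · exact absurd h (im_ne_zero (him ω hω) hbc)
  · exact ⟨b, c, g, _, hg, hgd, h, him _ hω, hP K ω b c D (hM K D) hω hb hbc h⟩

/-- the part of the top scale and of the conclusion -/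
theorem specMRC_of [Sg] {K : Type} [Field K] [NumberField K] [IQ K] (D : Dir K)
    (hCount : SpecCount K) (hType : SpecType K D) (hPG : SpecPG K) (hOS : SpecOS K)
    (hLadder : SpecLadder K D) : SpecMRC K D :=
  specMRC D (specMRk D hLadder (specTop D (specUp D hType hCount (specTK hCount) hPG) specPlan
    (specLower D hType hOS hPG) hPG))

/-- **MRC**: the mean square over all nonzero frequencies -/
theorem mrc [Sg] {K : Type} [Field K] [NumberField K] [IQ K] (D : Dir K) : SpecMRC K D := by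
  have hCls := specCls D
  have hCount := specCount hCls specLatC
  have hType := specType hCls specLatC specLatT
  have hLSG := specLSG D (specSep D)
  have hPG : SpecPG K := specPG
  have hOS := specOS MR.specLandau hPG hCount
  have hLad := specLadder D (specDec D hLSG (specTK hCount) hCount) (specMom D hLSG hCount)
    MR.specLad hPG
  exact specMRC_of D hCount hType hPG hOS hLad

/-- **The result of MA**, for every completely multiplicative sign function. -/
theorem specMA [Sg] : SpecMA :=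
  specMA_of specField (fun _ => specExt) (fun _ _ _ _ D => mrc D) (fun K => specPrin K)

end Pool.Agent.Lib.MP391708.MA
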