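import Pool.Agent.Lib.MP_391708_nt.MA.Spec

/-!
# Module OS, part 1: Dirichlet series over the ideals of an imaginary quadratic field

The logarithm of the norm as a sum over prime powers, summability, the lower bound to the right of
the line `Re s = 1` and the continuation.
-/

set_option autoImplicit false

namespace Pool.Agent.Lib.MP391708.MA

open Finset Filter Topology NumberField
open scoped ComplexConjugate Classical

namespace OS

variable {K : Type} [Field K] [NumberField K]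

/-! ## basic lemmas -/

lemma nm_mul (x y : Gi K) : nm (x * y) = nm x * nm y := map_mul Ideal.absNorm x y

lemma nm_zero : nm (0 : Gi K) = 0 := by simp [nm]

lemma nm_one : nm (1 : Gi K) = 1 := by simp [nm]

lemma nm_eq_zero {z : Gi K} : nm z = 0 ↔ z = 0 := Ideal.absNorm_eq_zero_iff

lemma isUnit_iff_nm {z : Gi K} : IsUnit z ↔ nm z = 1 := by
  rw [Ideal.isUnit_iff]; exact Ideal.absNorm_eq_one_iff.symm

lemma eq_one_of_nm {z : Gi K} (h : nm z = 1) : z = 1 := by
  rw [Ideal.one_eq_top]; exact Ideal.absNorm_eq_one_iff.1 h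

lemma nm_pos {z : Gi K} (h : z ≠ 0) : 0 < nm z :=
  Nat.pos_of_ne_zero (fun h' => h (nm_eq_zero.1 h'))

lemma nm_posR {z : Gi K} (h : z ≠ 0) : (0 : ℝ) < nm z := by exact_mod_cast nm_pos h

lemma one_le_nm {z : Gi K} (h : z ≠ 0) : (1 : ℝ) ≤ nm z := by exact_mod_cast nm_pos h

lemma mem_disc {x : ℝ} {z : Gi K} : z ∈ disc x ↔ z ≠ 0 ∧ (nm z : ℝ) ≤ x := by
  unfold disc
  rw [mem_filter, and_iff_right_of_imp]
  rintro ⟨h0, h⟩
  rw [Set.Finite.mem_toFinset]
  exact Nat.le_floor h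

lemma mem_ann {x x' : ℝ} {z : Gi K} :
    z ∈ ann x x' ↔ z ≠ 0 ∧ x < (nm z : ℝ) ∧ (nm z : ℝ) ≤ x' := by
  unfold ann
  rw [mem_filter, mem_disc]
  tauto

lemma ann_subset_disc (x x' : ℝ) : (ann x x' : Finset (Gi K)) ⊆ disc x' := filter_subset _ _

lemma disc_subset {x x' : ℝ} (h : x ≤ x') : (disc x : Finset (Gi K)) ⊆ disc x' := fun z hz => by
  rw [mem_disc] at hz ⊢
  exact ⟨hz.1, hz.2.trans h⟩

lemma disc_empty {x : ℝ} (h : x < 1) : (disc x : Finset (Gi K)) = ∅ := by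
  rw [eq_empty_iff_forall_notMem]
  intro z hz
  rw [mem_disc] at hz
  have := one_le_nm hz.1
  linarith [hz.2]

lemma disc_union {x x' : ℝ} (h : x ≤ x') : (disc x' : Finset (Gi K)) = disc x ∪ ann x x' := by
  ext z
  rw [mem_union, mem_disc, mem_disc, mem_ann]
  constructor
  · rintro ⟨h1, h2⟩
    rcases le_or_gt (nm z : ℝ) x with h3 | h3
    · exact Or.inl ⟨h1, h3⟩
    · exact Or.inr ⟨h1, h3, h2⟩
  · rintro (⟨h1, h2⟩ | ⟨h1, _, h2⟩)
    · exact ⟨h1, h2.trans h⟩
    · exact ⟨h1, h2⟩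

lemma disc_disjoint (x x' : ℝ) : Disjoint (disc x : Finset (Gi K)) (ann x x') := by
  rw [disjoint_left]
  intro z h1 h2
  rw [mem_disc] at h1
  rw [mem_ann] at h2
  linarith [h1.2, h2.2.1]

/-- a linear bound for the number of ideals -/
def CB (K : Type) [Field K] [NumberField K] (B : ℝ) : Prop :=
  1 ≤ B ∧ ∀ x : ℝ, 0 ≤ x → ((disc x : Finset (Gi K)).card : ℝ) ≤ B * x

lemma exists_CB (hC : SpecCount K) : ∃ B : ℝ, CB K B := by
  obtain ⟨ρ, C, hρ, hC, h⟩ := hC
  refine ⟨ρ + 2 * C + 1, by linarith, ?_⟩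
  intro x hx
  rcases lt_or_ge x 1 with h1 | h1
  · rw [disc_empty h1]; simp; positivity
  · have h2 := (abs_le.1 (h x hx)).2
    have h3 : Real.sqrt x ≤ x := by
      rw [Real.sqrt_le_left (by linarith)]; nlinarith
    have h4 : C * (Real.sqrt x + 1) ≤ C * (2 * x) :=
      mul_le_mul_of_nonneg_left (by linarith) hC.le
    nlinarith

/-! ## prime powers -/

/-- the primes -/
abbrev RP (K : Type) [Field K] [NumberField K] : Type := {π : Gi K // Prime π}

/-- the prime powers -/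
noncomputable def pw (x : RP K × ℕ) : Gi K := (x.1 : Gi K) ^ (x.2 + 1)

lemma pw_ne_zero (x : RP K × ℕ) : pw x ≠ 0 := pow_ne_zero _ x.1.2.ne_zero

lemma nm_pow (z : Gi K) (n : ℕ) : nm (z ^ n) = nm z ^ n := map_pow Ideal.absNorm z n

lemma two_le_nm (x : RP K) : 2 ≤ nm (x : Gi K) := by
  have h1 := nm_pos x.2.ne_zero
  have h2 : nm (x : Gi K) ≠ 1 := fun h => x.2.not_isUnit (isUnit_iff_nm.2 h)
  omega

lemma hasSum_log {z : Gi K} (hz : z ≠ 0) :
    HasSum (fun x : RP K × ℕ => if pw x ∣ z then Real.log (nm (x.1 : Gi K)) else 0)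
      (Real.log (nm z)) := by
  induction z using UniqueFactorizationMonoid.induction_on_prime with
  | h₁ => exact absurd rfl hz
  | h₂ z hu =>
    have h1 : nm z = 1 := isUnit_iff_nm.1 hu
    have h2 : (fun x : RP K × ℕ => if pw x ∣ z then Real.log (nm (x.1 : Gi K)) else 0) =
        fun _ => 0 := by
      funext x
      rw [if_neg]
      intro hd
      have h3 : (x.1 : Gi K) ∣ z := (dvd_pow_self _ (Nat.succ_ne_zero _)).trans hd
      exact x.1.2.not_isUnit (isUnit_of_dvd_unit h3 hu)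
    simp only [h2, h1, Nat.cast_one, Real.log_one]
    exact hasSum_zero
  | h₃ w p hw hp ih =>
    set p' : RP K := ⟨p, hp⟩ with hp'
    -- the shift
    let ι : RP K × ℕ → RP K × ℕ := fun x => if x.1 = p' then (x.1, x.2 + 1) else x
    have hι : Function.Injective ι := by
      rintro ⟨a, i⟩ ⟨b, j⟩ h
      simp only [ι] at h
      split_ifs at h with h1 h2 h2
      · simp only [Prod.mk.injEq] at h
        rw [Prod.mk.injEq]; exact ⟨h.1, by omega⟩
      · simp only [Prod.mk.injEq] at h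
        exact absurd (h.1 ▸ h1) h2
      · simp only [Prod.mk.injEq] at h
        exact absurd (h.1 ▸ h2) h1
      · exact h
    have hdiv : ∀ x : RP K × ℕ, (pw (ι x) ∣ p * w ↔ pw x ∣ w) := by
      rintro ⟨a, i⟩
      simp only [ι]
      split_ifs with h1
      · have e1 : pw (a, i + 1) = p * pw (a, i) := by
          unfold pw
          have : (a : Gi K) = p := by
            rw [show a = p' from h1]
          simp only
          rw [pow_succ' (a : Gi K) (i + 1)]
          rw [← this]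
        show pw (a, i + 1) ∣ p * w ↔ pw (a, i) ∣ w
        rw [e1, mul_dvd_mul_iff_left hp.ne_zero]
      · have hnd : ¬ (a : Gi K) ∣ p := by
          intro hd
          have h2 := (Prime.dvd_prime_iff_associated a.2 hp).1 hd
          rw [associated_iff_eq] at h2
          exact h1 (Subtype.ext h2)
        constructor
        · exact fun h => a.2.pow_dvd_of_dvd_mul_left _ hnd h
        · exact fun h => h.mul_left p
    have hpd : pw (p', 0) ∣ p * w := by
      show (p' : Gi K) ^ (0 + 1) ∣ p * w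
      rw [zero_add, pow_one]
      exact dvd_mul_right p w
    have hne : ∀ x, ι x ≠ (p', 0) := by
      rintro ⟨a, i⟩ h
      simp only [ι] at h
      split_ifs at h with h1
      · simp only [Prod.mk.injEq] at h
        omega
      · rw [Prod.mk.injEq] at h
        exact h1 h.1
    have hrange : ∀ x, x ∉ Set.range ι → x = (p', 0) := by
      rintro ⟨a, i⟩ h
      by_cases h1 : a = p'
      · rcases i with _ | i
        · rw [h1]
        · exact absurd ⟨(a, i), by simp [ι, h1]⟩ h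
      · exact absurd ⟨(a, i), by simp [ι, h1]⟩ h
    set f : RP K × ℕ → ℝ := fun x => if pw x ∣ p * w then Real.log (nm (x.1 : Gi K)) else 0
    set g : RP K × ℕ → ℝ := fun x => if x = (p', 0) then 0 else f x
    have hg : HasSum g (Real.log (nm w)) := by
      rw [← hι.hasSum_iff]
      · have : g ∘ ι = fun x : RP K × ℕ => if pw x ∣ w then Real.log (nm (x.1 : Gi K)) else 0 := by
          funext x
          simp only [Function.comp, g, f]
          rw [if_neg (hne x)]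
          have e5 : ((ι x).1 : Gi K) = (x.1 : Gi K) := by
            simp only [ι]; split_ifs <;> rfl
          rw [e5]
          by_cases h : pw x ∣ w
          · rw [if_pos h, if_pos ((hdiv x).2 h)]
          · rw [if_neg h, if_neg (fun h' => h ((hdiv x).1 h'))]
        rw [this]
        exact ih hw
      · intro x hx
        simp only [g]
        rw [if_pos (hrange x hx)]
    have hs : HasSum (fun x : RP K × ℕ => if x = (p', 0) then Real.log (nm p) else 0)
        (Real.log (nm p)) := by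
      have := hasSum_ite_eq ((p', 0) : RP K × ℕ) (Real.log (nm p))
      exact this
    have hfin := hg.add hs
    have e6 : (fun x : RP K × ℕ => g x + if x = (p', 0) then Real.log (nm p) else 0) = f := by
      funext x
      simp only [g]
      split_ifs with h
      · rw [zero_add, h]
        simp only [f]
        rw [if_pos hpd]
      · rw [add_zero]
    rw [e6] at hfin
    have e7 : Real.log (nm (p * w)) = Real.log (nm w) + Real.log (nm p) := by
      rw [nm_mul]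
      push_cast
      rw [Real.log_mul (nm_posR hp.ne_zero).ne' (nm_posR hw).ne']
      ring
    rw [e7]
    exact hfin

/-! ## summability -/

lemma sum_disc_le {B : ℝ} (hB : CB K B) {σ : ℝ} (h : 1 < σ) (n : ℕ) :
    ∑ z ∈ (disc (2 ^ n) : Finset (Gi K)), (nm z : ℝ) ^ (-σ) ≤
      B + ∑ j ∈ range n, 2 * B * ((2 : ℝ) ^ (1 - σ)) ^ j := by
  induction n with
  | zero =>
    simp only [pow_zero, range_zero, sum_empty, add_zero]
    calc ∑ z ∈ (disc 1 : Finset (Gi K)), (nm z : ℝ) ^ (-σ)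
          ≤ ∑ z ∈ (disc 1 : Finset (Gi K)), (1 : ℝ) := by
          apply sum_le_sum
          intro z hz
          exact Real.rpow_le_one_of_one_le_of_nonpos (one_le_nm (mem_disc.1 hz).1) (by linarith)
      _ = ((disc 1 : Finset (Gi K)).card : ℝ) := by simp
      _ ≤ B * 1 := hB.2 1 (by norm_num)
      _ = B := by ring
  | succ n ih =>
    have h2 : (2 : ℝ) ^ n ≤ 2 ^ (n + 1) := pow_le_pow_right₀ (by norm_num) (Nat.le_succ _)
    rw [disc_union h2, sum_union (disc_disjoint _ _), sum_range_succ]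
    have hB0 : 0 ≤ B := by linarith [hB.1]
    have h3 : ∑ z ∈ (ann (2 ^ n) (2 ^ (n + 1)) : Finset (Gi K)), (nm z : ℝ) ^ (-σ) ≤
        2 * B * ((2 : ℝ) ^ (1 - σ)) ^ n := by
      have hpos : (0 : ℝ) < 2 ^ n := by positivity
      calc ∑ z ∈ (ann (2 ^ n) (2 ^ (n + 1)) : Finset (Gi K)), (nm z : ℝ) ^ (-σ)
          ≤ ∑ z ∈ (ann (2 ^ n) (2 ^ (n + 1)) : Finset (Gi K)), ((2 : ℝ) ^ n) ^ (-σ) := by
            apply sum_le_sum
            intro z hz
            rw [mem_ann] at hz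
            exact Real.rpow_le_rpow_of_nonpos hpos hz.2.1.le (by linarith)
        _ = ((ann (2 ^ n) (2 ^ (n + 1)) : Finset (Gi K)).card : ℝ) * ((2 : ℝ) ^ n) ^ (-σ) := by
            rw [sum_const, nsmul_eq_mul]
        _ ≤ (B * 2 ^ (n + 1)) * ((2 : ℝ) ^ n) ^ (-σ) := by
            apply mul_le_mul_of_nonneg_right _ (by positivity)
            refine le_trans ?_ (hB.2 (2 ^ (n + 1)) (by positivity))
            exact_mod_cast card_le_card (ann_subset_disc _ _)
        _ = 2 * B * ((2 : ℝ) ^ (1 - σ)) ^ n := by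
            rw [← Real.rpow_natCast ((2 : ℝ) ^ (1 - σ)) n, ← Real.rpow_mul (by norm_num),
              ← Real.rpow_natCast 2 n, ← Real.rpow_mul (by norm_num), pow_succ,
              ← Real.rpow_natCast 2 n]
            have : (2 : ℝ) ^ ((1 - σ) * n) = 2 ^ (n : ℝ) * 2 ^ ((n : ℝ) * -σ) := by
              rw [← Real.rpow_add (by norm_num)]
              ring_nf
            rw [this]; ring
    linarith

lemma two_rpow_lt {σ : ℝ} (h : 1 < σ) : (2 : ℝ) ^ (1 - σ) < 1 :=
  Real.rpow_lt_one_of_one_lt_of_neg (by norm_num) (by linarith)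

lemma sum_nm_le {B : ℝ} (hB : CB K B) {σ : ℝ} (h : 1 < σ) (F : Finset (Gi K)) :
    ∑ z ∈ F, (nm z : ℝ) ^ (-σ) ≤ B + 2 * B / (1 - (2 : ℝ) ^ (1 - σ)) := by
  have hB0 : 0 ≤ B := by linarith [hB.1]
  set n := ∑ z ∈ F, nm z
  have hsub : F ⊆ insert 0 (disc (2 ^ n)) := by
    intro z hz
    rw [mem_insert]
    by_cases h0 : z = 0
    · left; exact h0
    · right
      rw [mem_disc]
      refine ⟨h0, ?_⟩
      have h1 : nm z ≤ n := single_le_sum (f := fun z => nm z) (fun _ _ => Nat.zero_le _) hz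
      have h2 : n ≤ 2 ^ n := Nat.lt_two_pow_self.le
      exact_mod_cast h1.trans h2
  have h0 : (0 : Gi K) ∉ disc (2 ^ n) := fun h => (mem_disc.1 h).1 rfl
  calc ∑ z ∈ F, (nm z : ℝ) ^ (-σ) ≤ ∑ z ∈ insert 0 (disc (2 ^ n)), (nm z : ℝ) ^ (-σ) :=
        sum_le_sum_of_subset_of_nonneg hsub (fun _ _ _ => by positivity)
    _ = ∑ z ∈ disc (2 ^ n), (nm z : ℝ) ^ (-σ) := by
        rw [sum_insert h0, nm_zero, Nat.cast_zero, Real.zero_rpow (by linarith), zero_add]
    _ ≤ B + ∑ j ∈ range n, 2 * B * ((2 : ℝ) ^ (1 - σ)) ^ j := sum_disc_le hB h n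
    _ ≤ B + 2 * B / (1 - (2 : ℝ) ^ (1 - σ)) := by
        rw [← mul_sum, div_eq_mul_inv]
        have := two_rpow_lt h
        have h3 : ∑ j ∈ range n, ((2 : ℝ) ^ (1 - σ)) ^ j ≤ (1 - (2 : ℝ) ^ (1 - σ))⁻¹ :=
          sum_le_hasSum _ (fun _ _ => by positivity)
            (hasSum_geometric_of_lt_one (by positivity) this)
        nlinarith

lemma summable_nm {B : ℝ} (hB : CB K B) {σ : ℝ} (h : 1 < σ) :
    Summable (fun z : Gi K => (nm z : ℝ) ^ (-σ)) :=
  summable_of_sum_le (fun _ => by positivity) (sum_nm_le hB h)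

/-- the Dedekind zeta function -/
noncomputable def ZZ (K : Type) [Field K] [NumberField K] (σ : ℝ) : ℝ :=
  ∑' z : Gi K, (nm z : ℝ) ^ (-σ)

lemma ZZ_le {B : ℝ} (hB : CB K B) {t : ℝ} (h : 0 < t) (h1 : t ≤ 1) :
    ZZ K (1 + t) ≤ 7 * B / t := by
  have hB0 : 0 ≤ B := by linarith [hB.1]
  have h2 : ZZ K (1 + t) ≤ B + 2 * B / (1 - (2 : ℝ) ^ (1 - (1 + t))) :=
    Real.tsum_le_of_sum_le (fun _ => by positivity) (sum_nm_le hB (by linarith))
  have e : (1 : ℝ) - (1 + t) = -t := by ring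
  rw [e] at h2
  have h3 : (2 : ℝ) ^ (-t) ≤ 1 - t / 3 := by
    have h4 : (1 + t / 2) ≤ (2 : ℝ) ^ t := by
      have h5 := Real.add_one_le_exp (Real.log 2 * t)
      rw [← Real.rpow_def_of_pos (by norm_num)] at h5
      have h6 : (0.5 : ℝ) < Real.log 2 := by
        have := Real.log_two_gt_d9; linarith
      nlinarith
    rw [Real.rpow_neg (by norm_num)]
    have h7 : (0 : ℝ) < 1 + t / 2 := by linarith
    calc ((2 : ℝ) ^ t)⁻¹ ≤ (1 + t / 2)⁻¹ := inv_anti₀ h7 h4
      _ ≤ 1 - t / 3 := by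
        rw [inv_le_iff_one_le_mul₀ h7]
        nlinarith
  have h8 : (0 : ℝ) < t / 3 := by linarith
  have h9 : 2 * B / (1 - (2 : ℝ) ^ (-t)) ≤ 2 * B / (t / 3) :=
    div_le_div_of_nonneg_left (by positivity) h8 (by linarith)
  have h10 : 2 * B / (t / 3) = 6 * B / t := by field_simp; ring
  have h11 : B ≤ B / t := by
    rw [le_div_iff₀ h]; nlinarith
  calc ZZ K (1 + t) ≤ B + 2 * B / (1 - (2 : ℝ) ^ (-t)) := h2
    _ ≤ B / t + 6 * B / t := by linarith
    _ = 7 * B / t := by ring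

lemma ZZ_nonneg (σ : ℝ) : 0 ≤ ZZ K σ := tsum_nonneg (fun _ => by positivity)

lemma log_nm_nonneg (z : Gi K) : 0 ≤ Real.log (nm z) := by
  rcases Nat.eq_zero_or_pos (nm z) with h | h
  · rw [h]; simp
  · exact Real.log_nonneg (by exact_mod_cast h)

/-- the logarithm costs nothing -/
lemma log_mul_le {σ σ' : ℝ} (h : 1 < σ) (h' : σ < σ') (z : Gi K) :
    Real.log (nm z) * (nm z : ℝ) ^ (-σ') ≤ 1 / (σ' - σ) * (nm z : ℝ) ^ (-σ) := by
  rcases Nat.eq_zero_or_pos (nm z) with h0 | h0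
  · rw [h0]
    simp only [Nat.cast_zero, Real.log_zero, zero_mul]
    rw [Real.zero_rpow (by linarith), mul_zero]
  · have hpos : (0 : ℝ) < nm z := by exact_mod_cast h0
    have h1 := Real.log_le_rpow_div hpos.le (sub_pos.2 h')
    calc Real.log (nm z) * (nm z : ℝ) ^ (-σ')
        ≤ (nm z : ℝ) ^ (σ' - σ) / (σ' - σ) * (nm z : ℝ) ^ (-σ') :=
          mul_le_mul_of_nonneg_right h1 (by positivity)
      _ = 1 / (σ' - σ) * ((nm z : ℝ) ^ (σ' - σ) * (nm z : ℝ) ^ (-σ')) := by ring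
      _ = 1 / (σ' - σ) * (nm z : ℝ) ^ (-σ) := by
          rw [← Real.rpow_add hpos]
          ring_nf

lemma summable_log_nm {B : ℝ} (hB : CB K B) {σ : ℝ} (h : 1 < σ) :
    Summable (fun z : Gi K => Real.log (nm z) * (nm z : ℝ) ^ (-σ)) := by
  have h1 : 1 < (1 + σ) / 2 := by linarith
  have h2 : (1 + σ) / 2 < σ := by linarith
  refine Summable.of_nonneg_of_le (fun z => mul_nonneg (log_nm_nonneg z) (by positivity))
    (fun z => log_mul_le h1 h2 z) ((summable_nm hB h1).mul_left _)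

/-! ## completely multiplicative functions -/

/-- the function one on nonzero ideals -/
noncomputable def ON (z : Gi K) : ℂ := if z = 0 then 0 else 1

lemma CM_ON : CM (ON : Gi K → ℂ) := by
  refine ⟨by simp [ON], by simp [ON], fun x y => ?_, fun z => ?_⟩
  · unfold ON
    by_cases hx : x = 0
    · simp [hx]
    · by_cases hy : y = 0
      · simp [hy]
      · rw [if_neg hx, if_neg hy, if_neg (mul_ne_zero hx hy), mul_one]
  · unfold ON
    split_ifs <;> simp

/-- the terms of the Dirichlet series -/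
noncomputable def T (G : Gi K → ℂ) (s : ℂ) (z : Gi K) : ℂ := G z * ((nm z : ℕ) : ℂ) ^ (-s)

variable {G : Gi K → ℂ} (hG : CM G)
include hG

lemma T_mul (s : ℂ) (x y : Gi K) : T G s (x * y) = T G s x * T G s y := by
  unfold T
  rw [hG.mul, nm_mul]
  push_cast
  rw [Complex.natCast_mul_natCast_cpow]
  ring

omit hG in
lemma T_zero {s : ℂ} (hs : s ≠ 0) : T G s 0 = 0 := by
  unfold T
  rw [nm_zero, Nat.cast_zero, Complex.zero_cpow (neg_ne_zero.2 hs), mul_zero]

omit hG in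
lemma norm_nm_cpow {s : ℂ} (hs : 0 < s.re) (z : Gi K) :
    ‖((nm z : ℕ) : ℂ) ^ (-s)‖ = (nm z : ℝ) ^ (-s.re) := by
  rw [Complex.norm_natCast_cpow_of_re_ne_zero _ (by rw [Complex.neg_re]; linarith),
    Complex.neg_re]

lemma norm_T_le {s : ℂ} (hs : 0 < s.re) (z : Gi K) : ‖T G s z‖ ≤ (nm z : ℝ) ^ (-s.re) := by
  unfold T
  rw [norm_mul, norm_nm_cpow hs]
  exact mul_le_of_le_one_left (by positivity) (hG.le z)

lemma summable_norm_T {B : ℝ} (hB : CB K B) {s : ℂ} (hs : 1 < s.re) : Summable (fun z => ‖T G s z‖) :=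
  Summable.of_nonneg_of_le (fun _ => norm_nonneg _) (norm_T_le hG (by linarith))
    (summable_nm hB hs)

/-- the Dirichlet series -/
noncomputable def LL (G : Gi K → ℂ) (s : ℂ) : ℂ := ∑' z, T G s z

/-- minus its logarithmic derivative -/
noncomputable def La (G : Gi K → ℂ) (s : ℂ) : ℂ :=
  ∑' x : RP K × ℕ, (Real.log (nm (x.1 : Gi K)) : ℂ) * T G s (pw x)

/-- the terms of `La` -/
lemma norm_La_term_le {s : ℂ} (hs : 1 < s.re) (x : RP K × ℕ) :
    ‖(Real.log (nm (x.1 : Gi K)) : ℂ) * T G s (pw x)‖ ≤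
      Real.log (nm (x.1 : Gi K)) * (nm (x.1 : Gi K) : ℝ) ^ (-s.re) * (1 / 2) ^ x.2 := by
  have h1 : (0 : ℝ) < nm (x.1 : Gi K) := nm_posR x.1.2.ne_zero
  have h2 : (2 : ℝ) ≤ nm (x.1 : Gi K) := by exact_mod_cast two_le_nm x.1
  rw [norm_mul, Complex.norm_real, Real.norm_eq_abs, abs_of_nonneg (log_nm_nonneg _), mul_assoc]
  apply mul_le_mul_of_nonneg_left _ (log_nm_nonneg _)
  refine (norm_T_le hG (by linarith) _).trans ?_
  unfold pw
  rw [nm_pow, pow_succ]
  push_cast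
  rw [Real.mul_rpow (by positivity) (by positivity), mul_comm]
  apply mul_le_mul_of_nonneg_left _ (by positivity)
  rw [← Real.rpow_natCast, ← Real.rpow_mul h1.le, mul_comm, Real.rpow_mul h1.le,
    Real.rpow_natCast]
  apply pow_le_pow_left₀ (by positivity)
  calc (nm (x.1 : Gi K) : ℝ) ^ (-s.re) ≤ (nm (x.1 : Gi K) : ℝ) ^ (-1 : ℝ) :=
        Real.rpow_le_rpow_of_exponent_le (by linarith) (by linarith)
    _ = (nm (x.1 : Gi K) : ℝ)⁻¹ := Real.rpow_neg_one _
    _ ≤ 1 / 2 := by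
        rw [one_div]
        exact inv_anti₀ (by norm_num) h2

omit hG in
lemma summable_La_bound {B : ℝ} (hB : CB K B) {σ : ℝ} (hs : 1 < σ) : Summable (fun x : RP K × ℕ =>
      Real.log (nm (x.1 : Gi K)) * (nm (x.1 : Gi K) : ℝ) ^ (-σ) * (1 / 2) ^ x.2) := by
  have h1 : Summable (fun π : RP K => Real.log (nm (π : Gi K)) * (nm (π : Gi K) : ℝ) ^ (-σ)) :=
    (summable_log_nm hB hs).comp_injective Subtype.val_injective
  exact h1.mul_of_nonneg (summable_geometric_of_lt_one (by norm_num) (by norm_num))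
    (fun π => mul_nonneg (log_nm_nonneg _) (by positivity)) (fun _ => by positivity)

lemma summable_norm_La {B : ℝ} (hB : CB K B) {s : ℂ} (hs : 1 < s.re) :
    Summable (fun x : RP K × ℕ => ‖(Real.log (nm (x.1 : Gi K)) : ℂ) * T G s (pw x)‖) :=
  Summable.of_nonneg_of_le (fun _ => norm_nonneg _) (norm_La_term_le hG hs)
    (summable_La_bound hB hs)

/-- the identity `∑ log N(z) G(z) N(z)^{-s} = Λ(s) L(s)` -/
lemma hasSum_log_T {B : ℝ} (hB : CB K B) {s : ℂ} (hs : 1 < s.re) :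
    HasSum (fun z : Gi K => (Real.log (nm z) : ℂ) * T G s z) (La G s * LL G s) := by
  classical
  have hs0 : s ≠ 0 := by
    rintro rfl
    simp at hs
    linarith
  set f : (RP K × ℕ) × Gi K → ℂ := fun p =>
    if pw p.1 ∣ p.2 then (Real.log (nm (p.1.1 : Gi K)) : ℂ) * T G s p.2 else 0 with hf
  let Φ : (RP K × ℕ) × Gi K → (RP K × ℕ) × Gi K := fun p => (p.1, pw p.1 * p.2)
  have hΦ : Function.Injective Φ := by
    rintro ⟨x, z⟩ ⟨x', z'⟩ h
    simp only [Φ, Prod.mk.injEq] at h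
    obtain ⟨rfl, h⟩ := h
    rw [Prod.mk.injEq]
    exact ⟨rfl, mul_left_cancel₀ (pw_ne_zero x) h⟩
  have h1 : HasSum f (La G s * LL G s) := by
    rw [← hΦ.hasSum_iff]
    · have e1 : f ∘ Φ = fun p : (RP K × ℕ) × Gi K =>
          ((Real.log (nm (p.1.1 : Gi K)) : ℂ) * T G s (pw p.1)) * T G s p.2 := by
        funext p
        simp only [Function.comp, f, Φ]
        rw [if_pos (dvd_mul_right _ _), T_mul hG]
        ring
      rw [e1]
      have h2 := summable_mul_of_summable_norm (summable_norm_La hG hB hs)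
        (summable_norm_T hG hB hs)
      have h3 := tsum_mul_tsum_of_summable_norm (summable_norm_La hG hB hs)
        (summable_norm_T hG hB hs)
      unfold La LL
      rw [h3]
      exact h2.hasSum
    · rintro ⟨x, z⟩ h
      simp only [f]
      rw [if_neg]
      rintro ⟨w, hw⟩
      exact h ⟨(x, w), by simp only [Φ, hw]⟩
  have h2 : HasSum (fun p : Gi K × (RP K × ℕ) => f (p.2, p.1)) (La G s * LL G s) := by
    have := (Equiv.prodComm (Gi K) (RP K × ℕ)).hasSum_iff (f := f) (a := La G s * LL G s)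
    exact this.2 h1
  refine h2.prod_fiberwise (fun z => ?_)
  simp only [f]
  by_cases hz : z = 0
  · rw [hz, T_zero hs0, mul_zero]
    simp only [mul_zero, ite_self]
    exact hasSum_zero
  · have h3 := (hasSum_log hz).mapL Complex.ofRealCLM
    have h4 := h3.mul_right (T G s z)
    have e2 : (fun x : RP K × ℕ => if pw x ∣ z then (Real.log (nm (x.1 : Gi K)) : ℂ) * T G s z
        else 0) = fun x : RP K × ℕ => (Complex.ofRealCLM
          (if pw x ∣ z then Real.log (nm (x.1 : Gi K)) else 0)) * T G s z := by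
      funext x
      split_ifs
      · rfl
      · simp
    rw [e2]
    exact h4

omit hG in
lemma hasDerivAt_T (z : Gi K) {s : ℂ} (hs : s ≠ 0) :
    HasDerivAt (fun s => T G s z) (-((Real.log (nm z) : ℂ) * T G s z)) s := by
  have h0 : ((nm z : ℕ) : ℂ) ≠ 0 ∨ -s ≠ 0 := Or.inr (neg_ne_zero.2 hs)
  have h1 := ((hasDerivAt_id s).neg.const_cpow (c := ((nm z : ℕ) : ℂ)) h0).const_mul (G z)
  have h2 : HasDerivAt (fun s => T G s z)
      (G z * (((nm z : ℕ) : ℂ) ^ (-s) * Complex.log ((nm z : ℕ) : ℂ) * -1)) s := h1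
  have e : (G z * (((nm z : ℕ) : ℂ) ^ (-s) * Complex.log ((nm z : ℕ) : ℂ) * -1)) =
      -((Real.log (nm z) : ℂ) * T G s z) := by
    unfold T
    rw [Complex.natCast_log]
    ring
  rw [e] at h2
  exact h2

omit hG in
lemma isOpen_re (a : ℝ) : IsOpen {s : ℂ | a < s.re} :=
  isOpen_lt continuous_const Complex.continuous_re

/-- the derivative of the Dirichlet series -/
lemma hasDerivAt_LL {B : ℝ} (hB : CB K B) {s : ℂ} (hs : 1 < s.re) :
    HasDerivAt (LL G) (-(La G s * LL G s)) s := by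
  set a := (1 + s.re) / 2 with ha
  have h1 : 1 < a := by rw [ha]; linarith
  have h2 : a < s.re := by rw [ha]; linarith
  set U : Set ℂ := {s : ℂ | a < s.re} with hU
  have hUo : IsOpen U := isOpen_re a
  have hne : ∀ w ∈ U, w ≠ 0 := by
    rintro w hw rfl
    simp only [hU, Set.mem_ofPred_eq, Complex.zero_re] at hw
    linarith
  have hf : ∀ z : Gi K, DifferentiableOn ℂ (fun w => T G w z) U := fun z w hw =>
    (hasDerivAt_T z (hne w hw)).differentiableAt.differentiableWithinAt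
  have hle : ∀ (z : Gi K) (w : ℂ), w ∈ U → ‖T G w z‖ ≤ (nm z : ℝ) ^ (-a) := by
    intro z w hw
    have hw' : a < w.re := hw
    refine (norm_T_le hG (by linarith) z).trans ?_
    rcases Nat.eq_zero_or_pos (nm z) with h0 | h0
    · rw [h0, Nat.cast_zero, Real.zero_rpow (by linarith), Real.zero_rpow (by linarith)]
    · exact Real.rpow_le_rpow_of_exponent_le (by exact_mod_cast h0) (by linarith)
  have hsU : s ∈ U := h2
  have hd := Complex.hasSum_deriv_of_summable_norm (summable_nm hB h1) hf hUo hle hsU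
  have hdiff := Complex.differentiableOn_tsum_of_summable_norm (summable_nm hB h1) hf hUo hle
  have e1 : (fun z : Gi K => deriv (fun w => T G w z) s) =
      fun z => -((Real.log (nm z) : ℂ) * T G s z) := by
    funext z
    exact (hasDerivAt_T z (hne s hsU)).deriv
  rw [e1] at hd
  have hd2 := hd.unique (hasSum_log_T hG hB hs).neg
  have h3 : HasDerivAt (LL G) (deriv (LL G) s) s :=
    ((hdiff s hsU).differentiableAt (hUo.mem_nhds hsU)).hasDerivAt
  have h4 : deriv (LL G) s = -(La G s * LL G s) := hd2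
  rw [h4] at h3
  exact h3


omit hG

/-! ## the lower bound -/

lemma T_one_eq {σ : ℝ} (hσ : σ ≠ 0) (z : Gi K) :
    T ON (σ : ℂ) z = (((nm z : ℝ) ^ (-σ) : ℝ) : ℂ) := by
  by_cases hz : z = 0
  · rw [hz, T_zero (by exact_mod_cast hσ), nm_zero, Nat.cast_zero,
      Real.zero_rpow (neg_ne_zero.2 hσ)]
    simp
  · unfold T ON
    rw [if_neg hz, one_mul, Complex.ofReal_cpow (by positivity)]
    push_cast
    rfl

lemma LL_one {σ : ℝ} (hσ : σ ≠ 0) : LL (ON : Gi K → ℂ) (σ : ℂ) = (ZZ K σ : ℂ) := by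
  unfold LL ZZ
  rw [Complex.ofReal_tsum]
  exact tsum_congr (fun z => T_one_eq hσ z)

include hG in
lemma norm_La_le {B : ℝ} (hB : CB K B) {σ y : ℝ} (hs : 1 < σ) :
    ‖La G (σ + y * Complex.I)‖ ≤ (La (ON : Gi K → ℂ) (σ : ℂ)).re := by
  have hσ : σ ≠ 0 := by linarith
  have e : (La (ON : Gi K → ℂ) (σ : ℂ)) =
      ((∑' x : RP K × ℕ, Real.log (nm (x.1 : Gi K)) * (nm (pw x) : ℝ) ^ (-σ) : ℝ) : ℂ) := by
    unfold La
    rw [Complex.ofReal_tsum]
    apply tsum_congr
    intro x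
    rw [T_one_eq hσ]
    push_cast
    rfl
  have hs1 : 1 < ((σ : ℂ)).re := by simpa using hs
  have hs2 : 1 < ((σ : ℂ) + y * Complex.I).re := by simpa using hs
  have hsum : Summable (fun x : RP K × ℕ => Real.log (nm (x.1 : Gi K)) * (nm (pw x) : ℝ) ^ (-σ)) := by
    have := summable_norm_La CM_ON hB hs1
    refine this.congr (fun x => ?_)
    rw [T_one_eq hσ, norm_mul, Complex.norm_real, Complex.norm_real, Real.norm_eq_abs,
      Real.norm_eq_abs, abs_of_nonneg (log_nm_nonneg _), abs_of_nonneg (by positivity)]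
  rw [e, Complex.ofReal_re]
  apply tsum_of_norm_bounded hsum.hasSum
  intro x
  rw [norm_mul, Complex.norm_real, Real.norm_eq_abs, abs_of_nonneg (log_nm_nonneg _)]
  apply mul_le_mul_of_nonneg_left _ (log_nm_nonneg _)
  have := norm_T_le hG (s := (σ : ℂ) + y * Complex.I) (by linarith) (pw x)
  simpa using this

include hG in
lemma hasDerivAt_norm_sq {B : ℝ} (hB : CB K B) {σ : ℝ} (y : ℝ) (hs : 1 < σ) :
    HasDerivAt (fun σ : ℝ => ‖LL G (σ + y * Complex.I)‖ ^ 2)
      (-2 * (La G (σ + y * Complex.I)).re * ‖LL G (σ + y * Complex.I)‖ ^ 2) σ := by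
  have hs2 : 1 < ((σ : ℂ) + y * Complex.I).re := by simpa using hs
  have h1 := hasDerivAt_LL hG hB hs2
  have h2 : HasDerivAt (fun w : ℂ => LL G (w + y * Complex.I))
      (-(La G (σ + y * Complex.I) * LL G (σ + y * Complex.I))) (σ : ℂ) :=
    HasDerivAt.comp_add_const (x := (σ : ℂ)) (a := y * Complex.I) h1
  have h3 := h2.comp_ofReal.norm_sq
  have e : 2 * inner ℝ (LL G (σ + y * Complex.I))
      (-(La G (σ + y * Complex.I) * LL G (σ + y * Complex.I))) =
      -2 * (La G (σ + y * Complex.I)).re * ‖LL G (σ + y * Complex.I)‖ ^ 2 := by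
    rw [Complex.inner]
    have e2 : (-(La G (σ + y * Complex.I) * LL G (σ + y * Complex.I)) *
        conj (LL G (σ + y * Complex.I))) =
        -(La G (σ + y * Complex.I) * ((‖LL G (σ + y * Complex.I)‖ ^ 2 : ℝ) : ℂ)) := by
      rw [← Complex.normSq_eq_norm_sq, ← Complex.mul_conj]
      ring
    rw [e2, Complex.neg_re, Complex.re_mul_ofReal]
    ring
  rw [e] at h3
  exact h3

include hG in
lemma tendsto_LL {B : ℝ} (hB : CB K B) (y : ℝ) :
    Tendsto (fun σ : ℝ => LL G (σ + y * Complex.I)) atTop (𝓝 1) := by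
  set g : Gi K → ℂ := fun z => if nm z = 1 then 1 else 0 with hg
  have hsum : ∑' z, g z = 1 := by
    rw [tsum_eq_single 1]
    · simp only [hg]; rw [if_pos nm_one]
    · intro z hz
      simp only [hg]
      rw [if_neg]
      exact fun h => hz (eq_one_of_nm h)
  rw [← hsum]
  unfold LL
  refine tendsto_tsum_of_dominated_convergence (summable_nm hB (σ := 2) (by norm_num)) ?_ ?_
  · intro z
    rcases Nat.lt_or_ge (nm z) 2 with h | h
    · interval_cases h1 : nm z
      · -- z = 0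
        have hz : z = 0 := nm_eq_zero.1 h1
        have e : g z = 0 := by simp [hg, h1]
        rw [e]
        apply tendsto_nhds_of_eventually_eq
        filter_upwards [eventually_gt_atTop (0 : ℝ)] with σ hσ
        rw [hz]
        apply T_zero
        intro h0
        have := congrArg Complex.re h0
        simp at this
        linarith
      · have e : g z = 1 := by simp [hg, h1]
        rw [e]
        apply tendsto_nhds_of_eventually_eq
        filter_upwards with σ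
        unfold T
        rw [h1, Nat.cast_one, Complex.one_cpow, mul_one, eq_one_of_nm h1]
        exact hG.one
    · have e : g z = 0 := by
        simp only [hg]; rw [if_neg (by omega)]
      rw [e]
      rw [tendsto_zero_iff_norm_tendsto_zero]
      have h2 : (2 : ℝ) ≤ nm z := by exact_mod_cast h
      have h3 : Tendsto (fun σ : ℝ => ((nm z : ℝ)⁻¹) ^ σ) atTop (𝓝 0) := by
        apply tendsto_rpow_atTop_of_base_lt_one
        · have : (0 : ℝ) ≤ (nm z : ℝ)⁻¹ := by positivity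
          linarith
        · exact inv_lt_one_of_one_lt₀ (by linarith)
      refine squeeze_zero' (Eventually.of_forall fun _ => norm_nonneg _) ?_ h3
      filter_upwards [eventually_gt_atTop (0 : ℝ)] with σ hσ
      have h4 := norm_T_le hG (s := (σ : ℂ) + y * Complex.I) (by simpa using hσ) z
      have h5 : ((σ : ℂ) + y * Complex.I).re = σ := by simp
      rw [h5] at h4
      rw [Real.inv_rpow (by positivity), ← Real.rpow_neg (by positivity)]
      exact h4
  · filter_upwards [eventually_ge_atTop (2 : ℝ)] with σ hσ z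
    have h4 := norm_T_le hG (s := (σ : ℂ) + y * Complex.I) (by simp; linarith) z
    have h5 : ((σ : ℂ) + y * Complex.I).re = σ := by simp
    rw [h5] at h4
    refine h4.trans ?_
    rcases Nat.eq_zero_or_pos (nm z) with h0 | h0
    · rw [h0, Nat.cast_zero, Real.zero_rpow (by linarith), Real.zero_rpow (by norm_num)]
    · exact Real.rpow_le_rpow_of_exponent_le (by exact_mod_cast h0) (by linarith)

include hG in
/-- the lower bound -/
lemma LL_lower {B : ℝ} (hB : CB K B) {σ : ℝ} (y : ℝ) (hs : 1 < σ) :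
    1 ≤ ‖LL G (σ + y * Complex.I)‖ * ZZ K σ := by
  set h : ℝ → ℝ := fun σ => ‖LL G (σ + y * Complex.I)‖ ^ 2 *
    ‖LL (ON : Gi K → ℂ) (σ + (0 : ℝ) * Complex.I)‖ ^ 2 with hh
  have hd : ∀ x : ℝ, 1 < x → HasDerivAt h
      ((-2 * (La G (x + y * Complex.I)).re * ‖LL G (x + y * Complex.I)‖ ^ 2) *
        ‖LL (ON : Gi K → ℂ) (x + (0 : ℝ) * Complex.I)‖ ^ 2 + ‖LL G (x + y * Complex.I)‖ ^ 2 *
        (-2 * (La (ON : Gi K → ℂ) (x + (0 : ℝ) * Complex.I)).re *
          ‖LL (ON : Gi K → ℂ) (x + (0 : ℝ) * Complex.I)‖ ^ 2)) x := fun x hx =>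
    (hasDerivAt_norm_sq hG hB y hx).mul (hasDerivAt_norm_sq CM_ON hB 0 hx)
  have hanti : AntitoneOn h (Set.Ioi 1) := by
    apply antitoneOn_of_deriv_nonpos (convex_Ioi 1)
    · exact fun x hx => (hd x hx).continuousAt.continuousWithinAt
    · rw [interior_Ioi]
      exact fun x hx => (hd x hx).differentiableAt.differentiableWithinAt
    · rw [interior_Ioi]
      intro x hx
      rw [(hd x hx).deriv]
      have h1 := norm_La_le hG hB (y := y) hx
      have h2 : -(La G (x + y * Complex.I)).re ≤ ‖La G (x + y * Complex.I)‖ :=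
        (neg_le_abs _).trans (Complex.abs_re_le_norm _)
      have h3 : ((x : ℂ) + (0 : ℝ) * Complex.I) = (x : ℂ) := by simp
      rw [h3]
      have h4 : 0 ≤ (La G (x + y * Complex.I)).re + (La (ON : Gi K → ℂ) (x : ℂ)).re := by linarith
      have h5 : 0 ≤ ‖LL G (x + y * Complex.I)‖ ^ 2 * ‖LL (ON : Gi K → ℂ) (x : ℂ)‖ ^ 2 := by
        positivity
      nlinarith
  have hlim : Tendsto h atTop (𝓝 1) := by
    have h1 := (tendsto_LL hG hB y).norm.pow 2
    have h2 := (tendsto_LL (CM_ON (K := K)) hB 0).norm.pow 2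
    have h3 := h1.mul h2
    have e : ‖(1 : ℂ)‖ ^ 2 * ‖(1 : ℂ)‖ ^ 2 = 1 := by simp
    rw [e] at h3
    exact h3
  have h1 : 1 ≤ h σ := by
    apply le_of_tendsto hlim
    filter_upwards [eventually_ge_atTop σ] with x hx
    exact hanti hs (lt_of_lt_of_le hs hx) hx
  simp only [hh] at h1
  have h3 : ((σ : ℂ) + (0 : ℝ) * Complex.I) = (σ : ℂ) := by simp
  rw [h3, LL_one (by linarith), Complex.norm_real, Real.norm_eq_abs, abs_of_nonneg (ZZ_nonneg _),
    ← mul_pow] at h1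
  have h4 : (1 : ℝ) ^ 2 ≤ (‖LL G (σ + y * Complex.I)‖ * ZZ K σ) ^ 2 := by linarith
  exact (pow_le_pow_iff_left₀ (by norm_num)
    (mul_nonneg (norm_nonneg _) (ZZ_nonneg _)) (by norm_num)).1 h4

include hG in
lemma LL_ne_zero {B : ℝ} (hB : CB K B) {s : ℂ} (hs : 1 < s.re) : LL G s ≠ 0 := by
  intro h
  have h1 := LL_lower hG hB s.im hs
  rw [Complex.re_add_im, h, norm_zero, zero_mul] at h1
  linarith

include hG in
lemma LL_lower' {B : ℝ} (hB : CB K B) {t : ℝ} (y : ℝ) (h : 0 < t) (h1 : t ≤ 1) :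
    t / (7 * B) ≤ ‖LL G (((1 + t : ℝ) : ℂ) + y * Complex.I)‖ := by
  have hB0 : 0 < B := by linarith [hB.1]
  have h2 := LL_lower hG hB y (σ := 1 + t) (by linarith)
  have h3 := ZZ_le hB h h1
  have h4 : 1 ≤ ‖LL G (((1 + t : ℝ) : ℂ) + y * Complex.I)‖ * (7 * B / t) :=
    h2.trans (mul_le_mul_of_nonneg_left h3 (norm_nonneg _))
  have h5 : ‖LL G (((1 + t : ℝ) : ℂ) + y * Complex.I)‖ * (7 * B / t) =
    ‖LL G (((1 + t : ℝ) : ℂ) + y * Complex.I)‖ * (7 * B) / t := by ring
  rw [h5, le_div_iff₀ h, one_mul] at h4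
  rw [div_le_iff₀ (by positivity)]
  exact h4

/-! ## the continuation -/

/-- the summatory function -/
noncomputable def AA (G : Gi K → ℂ) (n : ℕ) : ℂ := ∑ z ∈ disc (n : ℝ), G z

include hG in
lemma norm_AA_le {B : ℝ} (hB : CB K B) (n : ℕ) : ‖AA G n‖ ≤ B * n := by
  unfold AA
  refine (norm_sum_le _ _).trans ?_
  calc ∑ z ∈ disc (n : ℝ), ‖G z‖ ≤ ∑ z ∈ (disc (n : ℝ) : Finset (Gi K)), (1 : ℝ) :=
        sum_le_sum (fun z _ => hG.le z)
    _ = ((disc (n : ℝ) : Finset (Gi K)).card : ℝ) := by simp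
    _ ≤ B * n := hB.2 _ (by positivity)

lemma norm_cpow_sub_le {n : ℕ} (hn : 0 < n) {s : ℂ} (hs : 0 < s.re) :
    ‖((n : ℕ) : ℂ) ^ (-s) - (((n + 1 : ℕ)) : ℂ) ^ (-s)‖ ≤ ‖s‖ * (n : ℝ) ^ (-s.re - 1) := by
  have hn' : (0 : ℝ) < n := by exact_mod_cast hn
  have hd : ∀ u ∈ Set.Icc (n : ℝ) (n + 1), HasDerivWithinAt (fun u : ℝ => (u : ℂ) ^ (-s))
      (-s * (u : ℂ) ^ (-s - 1)) (Set.Icc (n : ℝ) (n + 1)) u := by
    intro u hu
    have hu0 : 0 < u := lt_of_lt_of_le hn' hu.1
    have hmem : ((u : ℂ)) ∈ Complex.slitPlane := by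
      rw [Complex.ofReal_mem_slitPlane]; exact hu0
    have h1 := ((hasDerivAt_id ((u : ℂ))).cpow_const (c := -s) hmem).comp_ofReal
    rw [mul_one] at h1
    exact h1.hasDerivWithinAt
  have hb : ∀ u ∈ Set.Icc (n : ℝ) (n + 1), ‖-s * (u : ℂ) ^ (-s - 1)‖ ≤
      ‖s‖ * (n : ℝ) ^ (-s.re - 1) := by
    intro u hu
    have hu0 : 0 < u := lt_of_lt_of_le hn' hu.1
    rw [norm_mul, norm_neg, Complex.norm_cpow_eq_rpow_re_of_pos hu0]
    apply mul_le_mul_of_nonneg_left _ (norm_nonneg _)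
    have e : (-s - 1).re = -s.re - 1 := by simp
    rw [e]
    exact Real.rpow_le_rpow_of_nonpos hn' hu.1 (by linarith)
  have h := Convex.norm_image_sub_le_of_norm_hasDerivWithin_le hd hb (convex_Icc _ _)
    (Set.right_mem_Icc.2 (by linarith)) (Set.left_mem_Icc.2 (by linarith))
  have e : ‖(n : ℝ) - (n + 1)‖ = 1 := by
    rw [show (n : ℝ) - (n + 1) = -1 by ring]; simp
  rw [e, mul_one] at h
  push_cast at h ⊢
  exact h

/-- the terms of the continuation -/
noncomputable def EE (G : Gi K → ℂ) (n : ℕ) (s : ℂ) : ℂ :=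
  AA G (n + 1) * (((n + 1 : ℕ) : ℂ) ^ (-s) - (((n + 2 : ℕ)) : ℂ) ^ (-s))

/-- the continuation -/
noncomputable def FF (G : Gi K → ℂ) (s : ℂ) : ℂ := ∑' n, EE G n s

lemma norm_EE_le (n : ℕ) {s : ℂ} (hs : 0 < s.re) :
    ‖EE G n s‖ ≤ ‖AA G (n + 1)‖ * (‖s‖ * ((n + 1 : ℕ) : ℝ) ^ (-s.re - 1)) := by
  unfold EE
  rw [norm_mul]
  exact mul_le_mul_of_nonneg_left (norm_cpow_sub_le (Nat.succ_pos n) hs) (norm_nonneg _)

lemma partial_sum {s : ℂ} (N : ℕ) :
    ∑ z ∈ disc ((N + 1 : ℕ) : ℝ), T G s z =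
      ∑ n ∈ range N, EE G n s + AA G (N + 1) * (((N + 1 : ℕ)) : ℂ) ^ (-s) := by
  induction N with
  | zero =>
    rw [range_zero, sum_empty, zero_add (AA G (0 + 1) * _)]
    unfold AA T
    rw [sum_mul]
    apply sum_congr rfl
    intro z hz
    rw [mem_disc] at hz
    have h1 := nm_pos hz.1
    have h2 : nm z ≤ 0 + 1 := by exact_mod_cast hz.2
    have h3 : nm z = 0 + 1 := by omega
    rw [h3]
  | succ N ih =>
    have hle : ((N + 1 : ℕ) : ℝ) ≤ ((N + 1 + 1 : ℕ) : ℝ) := by push_cast; linarith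
    have h1 : ∀ f : Gi K → ℂ, ∑ z ∈ disc ((N + 1 + 1 : ℕ) : ℝ), f z =
        ∑ z ∈ disc ((N + 1 : ℕ) : ℝ), f z +
          ∑ z ∈ ann ((N + 1 : ℕ) : ℝ) ((N + 1 + 1 : ℕ) : ℝ), f z := fun f => by
      rw [disc_union hle, sum_union (disc_disjoint _ _)]
    have h2 : ∑ z ∈ ann ((N + 1 : ℕ) : ℝ) ((N + 1 + 1 : ℕ) : ℝ), T G s z =
        (∑ z ∈ ann ((N + 1 : ℕ) : ℝ) ((N + 1 + 1 : ℕ) : ℝ), G z) *
          (((N + 2 : ℕ)) : ℂ) ^ (-s) := by
      rw [sum_mul]
      apply sum_congr rfl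
      intro z hz
      rw [mem_ann] at hz
      have h3 : N + 1 < nm z := by exact_mod_cast hz.2.1
      have h4 : nm z ≤ N + 1 + 1 := by exact_mod_cast hz.2.2
      have h5 : nm z = N + 2 := by omega
      unfold T
      rw [h5]
    have h3 : AA G (N + 1 + 1) = AA G (N + 1) +
        ∑ z ∈ ann ((N + 1 : ℕ) : ℝ) ((N + 1 + 1 : ℕ) : ℝ), G z := h1 G
    rw [h1, ih, h2, h3, sum_range_succ]
    unfold EE
    ring

include hG in
lemma FF_eq_LL {B : ℝ} (hB : CB K B) {s : ℂ} (hs : 1 < s.re) : FF G s = LL G s := by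
  have hs0 : s ≠ 0 := by
    rintro rfl
    simp at hs
    linarith
  -- the series converges
  have hB0 : 0 ≤ B := by linarith [hB.1]
  have hb : ∀ n, ‖EE G n s‖ ≤ B * ‖s‖ * ((n + 1 : ℕ) : ℝ) ^ (-s.re) := by
    intro n
    have hn : (0 : ℝ) < ((n + 1 : ℕ) : ℝ) := by positivity
    refine (norm_EE_le n (by linarith)).trans ?_
    calc ‖AA G (n + 1)‖ * (‖s‖ * ((n + 1 : ℕ) : ℝ) ^ (-s.re - 1))
        ≤ (B * ((n + 1 : ℕ) : ℝ)) * (‖s‖ * ((n + 1 : ℕ) : ℝ) ^ (-s.re - 1)) :=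
          mul_le_mul_of_nonneg_right (norm_AA_le hG hB _) (by positivity)
      _ = B * ‖s‖ * (((n + 1 : ℕ) : ℝ) ^ (-s.re - 1) * ((n + 1 : ℕ) : ℝ) ^ (1 : ℝ)) := by
          rw [Real.rpow_one]; ring
      _ = B * ‖s‖ * ((n + 1 : ℕ) : ℝ) ^ (-s.re) := by
          rw [← Real.rpow_add hn]; ring_nf
  have hsumm : Summable (fun n : ℕ => ((n + 1 : ℕ) : ℝ) ^ (-s.re)) :=
    (summable_nat_add_iff 1).2 (Real.summable_nat_rpow.2 (by linarith))
  have hE : Summable (fun n => EE G n s) := Summable.of_norm_bounded (hsumm.mul_left _) hb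
  have h1 : Tendsto (fun N => ∑ n ∈ range N, EE G n s) atTop (𝓝 (FF G s)) :=
    hE.hasSum.tendsto_sum_nat
  have h2 : Tendsto (fun N : ℕ => AA G (N + 1) * (((N + 1 : ℕ)) : ℂ) ^ (-s)) atTop (𝓝 0) := by
    rw [tendsto_zero_iff_norm_tendsto_zero]
    have h3 : Tendsto (fun N : ℕ => B * ((N + 1 : ℕ) : ℝ) ^ (-(s.re - 1))) atTop (𝓝 (B * 0)) := by
      apply Tendsto.const_mul
      exact (tendsto_rpow_neg_atTop (by linarith)).comp
        (tendsto_natCast_atTop_atTop.comp (tendsto_add_atTop_nat 1))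
    rw [mul_zero] at h3
    refine squeeze_zero (fun _ => norm_nonneg _) (fun N => ?_) h3
    have hn : (0 : ℝ) < ((N + 1 : ℕ) : ℝ) := by positivity
    rw [norm_mul, Complex.norm_natCast_cpow_of_re_ne_zero _ (by rw [Complex.neg_re]; linarith),
      Complex.neg_re]
    calc ‖AA G (N + 1)‖ * ((N + 1 : ℕ) : ℝ) ^ (-s.re)
        ≤ (B * ((N + 1 : ℕ) : ℝ)) * ((N + 1 : ℕ) : ℝ) ^ (-s.re) :=
          mul_le_mul_of_nonneg_right (norm_AA_le hG hB _) (by positivity)
      _ = B * (((N + 1 : ℕ) : ℝ) ^ (-s.re) * ((N + 1 : ℕ) : ℝ) ^ (1 : ℝ)) := by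
          rw [Real.rpow_one]; ring
      _ = B * ((N + 1 : ℕ) : ℝ) ^ (-(s.re - 1)) := by
          rw [← Real.rpow_add hn]; ring_nf
  have h3 := h1.add h2
  rw [add_zero] at h3
  have h4 : Tendsto (fun N : ℕ => ∑ z ∈ disc ((N + 1 : ℕ) : ℝ), T G s z) atTop
      (𝓝 (LL G s)) := by
    have h5 : HasSum (fun z => T G s z) (LL G s) :=
      (summable_norm_T hG hB hs).of_norm.hasSum
    have h6 : Tendsto (fun N : ℕ => insert (0 : Gi K) (disc ((N + 1 : ℕ) : ℝ))) atTop atTop := by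
      apply tendsto_atTop_finset_of_monotone
      · intro a b hab
        apply insert_subset_insert
        apply disc_subset
        push_cast
        have : (a : ℝ) ≤ b := by exact_mod_cast hab
        linarith
      · intro z
        by_cases hz : z = 0
        · exact ⟨0, by rw [hz]; exact mem_insert_self _ _⟩
        · refine ⟨nm z, mem_insert_of_mem (mem_disc.2 ⟨hz, ?_⟩)⟩
          push_cast; linarith
    have h7 := h5.comp h6
    refine h7.congr (fun N => ?_)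
    simp only [Function.comp]
    rw [sum_insert, T_zero hs0, zero_add]
    exact fun h => (mem_disc.1 h).1 rfl
  refine tendsto_nhds_unique h3 (h4.congr (fun N => partial_sum N))

/-! ## bounds for the continuation -/

variable {B Y c : ℝ} (hB : CB K B) (hc : 0 < c) (hc1 : c < 1) (hY : 1 ≤ Y)
  (hyp : ∀ x : ℝ, Y ≤ x → ‖∑ z ∈ disc x, G z‖ ≤ x ^ (1 - c))

include hG hB hc hc1 hY hyp

lemma norm_AA_le' (n : ℕ) : ‖AA G (n + 1)‖ ≤ B * Y * ((n + 1 : ℕ) : ℝ) ^ (1 - c) := by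
  have hn : (0 : ℝ) < ((n + 1 : ℕ) : ℝ) := by positivity
  have hn1 : (1 : ℝ) ≤ ((n + 1 : ℕ) : ℝ) := by push_cast; linarith [Nat.cast_nonneg (α := ℝ) n]
  have hB1 : 1 ≤ B := hB.1
  rcases le_total Y ((n + 1 : ℕ) : ℝ) with h | h
  · have h1 := hyp _ h
    unfold AA
    refine h1.trans ?_
    have h2 : 0 ≤ ((n + 1 : ℕ) : ℝ) ^ (1 - c) := by positivity
    have h3 : 1 ≤ B * Y := one_le_mul_of_one_le_of_one_le hB1 hY
    nlinarith
  · refine (norm_AA_le hG hB _).trans ?_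
    have h2 : ((n + 1 : ℕ) : ℝ) = ((n + 1 : ℕ) : ℝ) ^ c * ((n + 1 : ℕ) : ℝ) ^ (1 - c) := by
      rw [← Real.rpow_add hn]
      have : c + (1 - c) = 1 := by ring
      rw [this, Real.rpow_one]
    have h3 : ((n + 1 : ℕ) : ℝ) ^ c ≤ Y := by
      calc ((n + 1 : ℕ) : ℝ) ^ c ≤ ((n + 1 : ℕ) : ℝ) ^ (1 : ℝ) :=
            Real.rpow_le_rpow_of_exponent_le hn1 hc1.le
        _ = ((n + 1 : ℕ) : ℝ) := Real.rpow_one _
        _ ≤ Y := h
    have h4 : 0 ≤ ((n + 1 : ℕ) : ℝ) ^ (1 - c) := by positivity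
    calc B * ((n + 1 : ℕ) : ℝ) = B * (((n + 1 : ℕ) : ℝ) ^ c * ((n + 1 : ℕ) : ℝ) ^ (1 - c)) := by
          rw [← h2]
      _ ≤ B * (Y * ((n + 1 : ℕ) : ℝ) ^ (1 - c)) := by
          apply mul_le_mul_of_nonneg_left _ (by linarith)
          exact mul_le_mul_of_nonneg_right h3 h4
      _ = B * Y * ((n + 1 : ℕ) : ℝ) ^ (1 - c) := by ring

omit hG hB hc1 hY hyp in
lemma summable_tail : Summable (fun n : ℕ => ((n + 1 : ℕ) : ℝ) ^ (-1 - c / 2)) :=
  (summable_nat_add_iff 1).2 (Real.summable_nat_rpow.2 (by linarith))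

lemma differentiableOn_FF (R : ℝ) :
    DifferentiableOn ℂ (FF G) {s : ℂ | 1 - c / 2 < s.re ∧ ‖s‖ < R} := by
  have hB0 : 0 ≤ B := by linarith [hB.1]
  have hUo : IsOpen {s : ℂ | 1 - c / 2 < s.re ∧ ‖s‖ < R} :=
    (isOpen_lt continuous_const Complex.continuous_re).inter
      (isOpen_lt continuous_norm continuous_const)
  refine Complex.differentiableOn_tsum_of_summable_norm
    (((summable_tail hc).mul_left (B * Y * R))) ?_ hUo ?_
  · intro n s _
    have h1 : ((n + 1 : ℕ) : ℂ) ≠ 0 := by exact_mod_cast Nat.succ_ne_zero n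
    have h2 : ((n + 2 : ℕ) : ℂ) ≠ 0 := by exact_mod_cast Nat.succ_ne_zero (n + 1)
    apply DifferentiableAt.differentiableWithinAt
    unfold EE
    apply DifferentiableAt.const_mul
    apply DifferentiableAt.sub
    · exact (differentiableAt_id.neg).const_cpow (Or.inl h1)
    · exact (differentiableAt_id.neg).const_cpow (Or.inl h2)
  · intro n s hs
    have hn : (0 : ℝ) < ((n + 1 : ℕ) : ℝ) := by positivity
    have hn1 : (1 : ℝ) ≤ ((n + 1 : ℕ) : ℝ) := by
      push_cast; linarith [Nat.cast_nonneg (α := ℝ) n]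
    have hs1 : 1 - c / 2 < s.re := hs.1
    have hs2 : ‖s‖ < R := hs.2
    refine (norm_EE_le n (by linarith)).trans ?_
    have h1 := norm_AA_le' hG hB hc hc1 hY hyp n
    have h2 : ((n + 1 : ℕ) : ℝ) ^ (-s.re - 1) ≤ ((n + 1 : ℕ) : ℝ) ^ (-2 + c / 2) :=
      Real.rpow_le_rpow_of_exponent_le hn1 (by linarith)
    have hR : 0 ≤ R := (norm_nonneg s).trans hs2.le
    calc ‖AA G (n + 1)‖ * (‖s‖ * ((n + 1 : ℕ) : ℝ) ^ (-s.re - 1))
        ≤ (B * Y * ((n + 1 : ℕ) : ℝ) ^ (1 - c)) * (R * ((n + 1 : ℕ) : ℝ) ^ (-2 + c / 2)) := by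
          apply mul_le_mul h1 _ (by positivity) (by positivity)
          exact mul_le_mul hs2.le h2 (by positivity) hR
      _ = B * Y * R * (((n + 1 : ℕ) : ℝ) ^ (1 - c) * ((n + 1 : ℕ) : ℝ) ^ (-2 + c / 2)) := by
          ring
      _ = B * Y * R * ((n + 1 : ℕ) : ℝ) ^ (-1 - c / 2) := by
          rw [← Real.rpow_add hn]
          ring_nf

lemma norm_FF_le {r : ℝ} (hr : 0 < r) (hrc : r ≤ c / 2) {s : ℂ} (hs : 1 - r ≤ s.re) :
    ‖FF G s‖ ≤ ‖s‖ * (B * Y ^ r * (1 + Real.log Y) +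
      ∑' n : ℕ, ((n + 1 : ℕ) : ℝ) ^ (-1 - c / 2)) := by
  have hs0 : 0 < s.re := by linarith
  have hB0 : 0 ≤ B := by linarith [hB.1]
  set N := ⌊Y⌋₊ with hN
  have hterm : ∀ n, ‖EE G n s‖ ≤ ‖s‖ * (B * Y ^ r * (if n ∈ range N then ((n + 1 : ℕ) : ℝ)⁻¹
      else 0) + ((n + 1 : ℕ) : ℝ) ^ (-1 - c / 2)) := by
    intro n
    have hn : (0 : ℝ) < ((n + 1 : ℕ) : ℝ) := by positivity
    have hn1 : (1 : ℝ) ≤ ((n + 1 : ℕ) : ℝ) := by
      push_cast; linarith [Nat.cast_nonneg (α := ℝ) n]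
    refine (norm_EE_le n hs0).trans ?_
    have e : ‖AA G (n + 1)‖ * (‖s‖ * ((n + 1 : ℕ) : ℝ) ^ (-s.re - 1)) =
        ‖s‖ * (‖AA G (n + 1)‖ * ((n + 1 : ℕ) : ℝ) ^ (-s.re - 1)) := by ring
    rw [e]
    apply mul_le_mul_of_nonneg_left _ (norm_nonneg _)
    rcases lt_or_ge n N with h | h
    · rw [if_pos (mem_range.2 h)]
      have hnY : ((n + 1 : ℕ) : ℝ) ≤ Y :=
        le_trans (by exact_mod_cast (Nat.succ_le_of_lt h)) (Nat.floor_le (by linarith))
      have h1 : ‖AA G (n + 1)‖ * ((n + 1 : ℕ) : ℝ) ^ (-s.re - 1) ≤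
          B * Y ^ r * ((n + 1 : ℕ) : ℝ)⁻¹ := by
        calc ‖AA G (n + 1)‖ * ((n + 1 : ℕ) : ℝ) ^ (-s.re - 1)
            ≤ (B * ((n + 1 : ℕ) : ℝ)) * ((n + 1 : ℕ) : ℝ) ^ (r - 2) := by
              apply mul_le_mul (norm_AA_le hG hB _) _ (by positivity) (by positivity)
              exact Real.rpow_le_rpow_of_exponent_le hn1 (by linarith)
          _ = B * (((n + 1 : ℕ) : ℝ) ^ (1 : ℝ) * ((n + 1 : ℕ) : ℝ) ^ (r - 2)) := by
              rw [Real.rpow_one]; ring
          _ = B * (((n + 1 : ℕ) : ℝ) ^ r * ((n + 1 : ℕ) : ℝ) ^ (-1 : ℝ)) := by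
              rw [← Real.rpow_add hn, ← Real.rpow_add hn]
              ring_nf
          _ = B * ((n + 1 : ℕ) : ℝ) ^ r * ((n + 1 : ℕ) : ℝ)⁻¹ := by
              rw [Real.rpow_neg_one]; ring
          _ ≤ B * Y ^ r * ((n + 1 : ℕ) : ℝ)⁻¹ := by
              apply mul_le_mul_of_nonneg_right _ (by positivity)
              apply mul_le_mul_of_nonneg_left _ hB0
              exact Real.rpow_le_rpow hn.le hnY hr.le
      have h2 : 0 ≤ ((n + 1 : ℕ) : ℝ) ^ (-1 - c / 2) := by positivity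
      linarith
    · rw [if_neg (by rw [mem_range]; omega), mul_zero, zero_add]
      have hnY : Y ≤ ((n + 1 : ℕ) : ℝ) := by
        have h1 := Nat.lt_floor_add_one Y
        have h2 : ((N : ℕ) : ℝ) ≤ n := by exact_mod_cast h
        push_cast
        rw [hN] at h2
        linarith
      have h1 := hyp _ hnY
      calc ‖AA G (n + 1)‖ * ((n + 1 : ℕ) : ℝ) ^ (-s.re - 1)
          ≤ ((n + 1 : ℕ) : ℝ) ^ (1 - c) * ((n + 1 : ℕ) : ℝ) ^ (r - 2) := by
            apply mul_le_mul h1 _ (by positivity) (by positivity)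
            exact Real.rpow_le_rpow_of_exponent_le hn1 (by linarith)
        _ = ((n + 1 : ℕ) : ℝ) ^ (-1 - c + r) := by
            rw [← Real.rpow_add hn]
            ring_nf
        _ ≤ ((n + 1 : ℕ) : ℝ) ^ (-1 - c / 2) :=
            Real.rpow_le_rpow_of_exponent_le hn1 (by linarith)
  have hfin : HasSum (fun n : ℕ => if n ∈ range N then ((n + 1 : ℕ) : ℝ)⁻¹ else 0)
      (∑ n ∈ range N, ((n + 1 : ℕ) : ℝ)⁻¹) := by
    have h : HasSum (fun n : ℕ => if n ∈ range N then ((n + 1 : ℕ) : ℝ)⁻¹ else 0)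
        (∑ b ∈ range N, (if b ∈ range N then ((b + 1 : ℕ) : ℝ)⁻¹ else 0)) :=
      hasSum_sum_of_ne_finset_zero (fun b hb => if_neg hb)
    have e : ∑ b ∈ range N, (if b ∈ range N then ((b + 1 : ℕ) : ℝ)⁻¹ else 0) =
        ∑ n ∈ range N, ((n + 1 : ℕ) : ℝ)⁻¹ := sum_congr rfl (fun n hn => if_pos hn)
    rw [e] at h
    exact h
  have hS := (((hfin.mul_left (B * Y ^ r)).add (summable_tail hc).hasSum).mul_left ‖s‖)
  have h1 := tsum_of_norm_bounded hS hterm
  refine h1.trans ?_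
  apply mul_le_mul_of_nonneg_left _ (norm_nonneg _)
  have h2 : ∑ n ∈ range N, ((n + 1 : ℕ) : ℝ)⁻¹ ≤ 1 + Real.log Y := by
    have h3 := harmonic_le_one_add_log N
    have h4 : ((harmonic N : ℚ) : ℝ) = ∑ n ∈ range N, ((n + 1 : ℕ) : ℝ)⁻¹ := by
      unfold harmonic
      push_cast
      rfl
    rw [h4] at h3
    have h5 : Real.log N ≤ Real.log Y := by
      apply Real.log_le_log
      · have : 0 < N := Nat.floor_pos.2 hY
        exact_mod_cast this
      · exact Nat.floor_le (by linarith)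
    linarith
  have h3 : B * Y ^ r * ∑ n ∈ range N, ((n + 1 : ℕ) : ℝ)⁻¹ ≤ B * Y ^ r * (1 + Real.log Y) :=
    mul_le_mul_of_nonneg_left h2 (by positivity)
  linarith


end OS

end Pool.Agent.Lib.MP391708.MA
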