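import Pool.Agent.Lib.MP_391708_nt.MA.OSPrime

/-!
# Module OS: sums over ranges of split primes
-/

set_option autoImplicit false
set_option linter.unusedVariables false
set_option linter.unusedSectionVars false

namespace Pool.Agent.Lib.MP391708.MA

open Finset Filter Topology NumberField
open scoped ComplexConjugate Classical

namespace OS

variable {K : Type} [Field K] [NumberField K]

lemma GP_mono {P Q Q' : ℝ} (h : Q ≤ Q') : (GP P Q : Finset (Gi K)) ⊆ GP P Q' := fun z hz => by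
  rw [MA.mem_GP] at hz ⊢
  exact ⟨hz.1, hz.2.1, hz.2.2.1, hz.2.2.2.trans h⟩

lemma GP_split {a b c : ℝ} (h1 : a ≤ b) (h2 : b ≤ c) (f : Gi K → ℝ) :
    ∑ π ∈ GP a c, f π = ∑ π ∈ GP a b, f π + ∑ π ∈ GP b c, f π := by
  have e : (GP a c : Finset (Gi K)) = GP a b ∪ GP b c := by
    ext z
    rw [mem_union, MA.mem_GP, MA.mem_GP, MA.mem_GP]
    constructor
    · rintro ⟨h3, h4, h5, h6⟩
      rcases le_or_gt (nm z : ℝ) b with h | h
      · left; exact ⟨h3, h4, h5, h⟩
      · right; exact ⟨h3, h4, h, h6⟩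
    · rintro (⟨h3, h4, h5, h6⟩ | ⟨h3, h4, h5, h6⟩)
      · exact ⟨h3, h4, h5, h6.trans h2⟩
      · exact ⟨h3, h4, lt_of_le_of_lt h1 h5, h6⟩
  rw [e, sum_union]
  rw [disjoint_left]
  intro z hz hz'
  rw [MA.mem_GP] at hz hz'
  linarith [hz.2.2.2, hz'.2.2.1]

lemma two_le_GP {P Q : ℝ} {z : Gi K} (h : z ∈ GP P Q) : 2 ≤ nm z := (MA.mem_GP.1 h).1.two_le

lemma log_two_pos' : (0.69 : ℝ) < Real.log 2 := by
  have := Real.log_two_gt_d9; linarith

lemma log_two_lt' : Real.log 2 < (0.7 : ℝ) := by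
  have := Real.log_two_lt_d9; linarith

/-- the primes of norm two -/
lemma sum_two [IQ K] : ∑ π ∈ (GP 0 2 : Finset (Gi K)), Real.log (nm π) / nm π ≤ 1 := by
  have h1 : ∀ π ∈ (GP 0 2 : Finset (Gi K)), nm π = 2 := by
    intro π hπ
    have h2 := two_le_GP hπ
    have h3 := (MA.mem_GP.1 hπ).2.2.2
    have h4 : nm π ≤ 2 := by exact_mod_cast h3
    omega
  have h2 : (GP 0 2 : Finset (Gi K)).card ≤ 2 := by
    have h3 := MA.card_GP_nm (K := K) (P := 0) (Q := 2) 2
    rwa [filter_true_of_mem h1] at h3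
  calc ∑ π ∈ (GP 0 2 : Finset (Gi K)), Real.log (nm π) / nm π
      = ∑ π ∈ (GP 0 2 : Finset (Gi K)), Real.log 2 / 2 := by
        apply sum_congr rfl
        intro π hπ
        rw [h1 π hπ]
        norm_num
    _ = (GP 0 2 : Finset (Gi K)).card * (Real.log 2 / 2) := by rw [sum_const, nsmul_eq_mul]
    _ ≤ 2 * (Real.log 2 / 2) := by
        apply mul_le_mul_of_nonneg_right _ (by have := log_two_pos'; linarith)
        exact_mod_cast h2
    _ ≤ 1 := by have := log_two_lt'; linarith

variable {Cg : ℝ} (hCg : 0 < Cg)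
  (hg : ∀ x : ℝ, 2 ≤ x → WW K x (Real.exp 1 * x) ≤ Cg / Real.log x)
include hCg hg

lemma sum_cell_log [IQ K] (j : ℕ) :
    ∑ π ∈ (GP 0 (2 * Real.exp j) : Finset (Gi K)), Real.log (nm π) / nm π ≤ 3 * Cg * j + 1 := by
  induction j with
  | zero =>
    rw [Nat.cast_zero, Real.exp_zero, mul_one, mul_zero, zero_add]
    exact sum_two
  | succ j ih =>
    have hj : (0 : ℝ) ≤ j := Nat.cast_nonneg j
    have e1 : Real.exp ((j + 1 : ℕ) : ℝ) = Real.exp 1 * Real.exp j := by
      push_cast
      rw [add_comm, Real.exp_add]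
    have hpos : 0 < Real.exp (j : ℝ) := Real.exp_pos _
    have hexp1 : 1 ≤ Real.exp (1 : ℝ) := by
      have := Real.add_one_le_exp (1 : ℝ); linarith
    have hle : 2 * Real.exp (j : ℝ) ≤ 2 * Real.exp ((j + 1 : ℕ) : ℝ) := by
      rw [e1]; nlinarith
    rw [GP_split (by positivity) hle]
    have hx : 2 ≤ 2 * Real.exp (j : ℝ) := by
      have := Real.one_le_exp hj
      linarith
    have h1 := hg _ hx
    have h2 : Real.log (2 * Real.exp (j : ℝ)) = Real.log 2 + j := by
      rw [Real.log_mul (by norm_num) hpos.ne', Real.log_exp]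
    have h3 : Real.log (2 * Real.exp ((j + 1 : ℕ) : ℝ)) = Real.log 2 + j + 1 := by
      rw [Real.log_mul (by norm_num) (Real.exp_pos _).ne', Real.log_exp]
      push_cast; ring
    have h4 : Real.exp 1 * (2 * Real.exp (j : ℝ)) = 2 * Real.exp ((j + 1 : ℕ) : ℝ) := by
      rw [e1]; ring
    rw [h4, h2] at h1
    have hl2 := log_two_pos'
    have h5 : ∑ π ∈ (GP (2 * Real.exp (j : ℝ)) (2 * Real.exp ((j + 1 : ℕ) : ℝ)) : Finset (Gi K)),
        Real.log (nm π) / nm π ≤ 3 * Cg := by
      calc ∑ π ∈ (GP (2 * Real.exp (j : ℝ)) (2 * Real.exp ((j + 1 : ℕ) : ℝ)) : Finset (Gi K)),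
            Real.log (nm π) / nm π
          ≤ ∑ π ∈ (GP (2 * Real.exp (j : ℝ)) (2 * Real.exp ((j + 1 : ℕ) : ℝ)) : Finset (Gi K)),
            (Real.log 2 + j + 1) * (1 / nm π) := by
              apply sum_le_sum
              intro π hπ
              have hp := MA.nm_posR (MA.GP_ne_zero hπ)
              rw [div_eq_mul_one_div]
              apply mul_le_mul_of_nonneg_right _ (by positivity)
              rw [← h3]
              exact Real.log_le_log hp (MA.mem_GP.1 hπ).2.2.2
        _ = (Real.log 2 + j + 1) * WW K (2 * Real.exp (j : ℝ)) (2 * Real.exp ((j + 1 : ℕ) : ℝ)) := by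
              rw [← mul_sum]; rfl
        _ ≤ (Real.log 2 + j + 1) * (Cg / (Real.log 2 + j)) :=
              mul_le_mul_of_nonneg_left h1 (by linarith)
        _ ≤ 3 * Cg := by
              rw [mul_div_assoc', div_le_iff₀ (by linarith)]
              nlinarith
    push_cast
    push_cast at h5
    linarith

/-- Mertens -/
lemma sum_log_le [IQ K] {B : ℝ} (hB : CB K B) {x : ℝ} (hx : 2 ≤ x) :
    ∑ π ∈ (GP 0 x : Finset (Gi K)), Real.log (nm π) / nm π ≤ (9 * Cg + 4 * B) * Real.log x := by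
  have hl2 := log_two_pos'
  have hlx : Real.log 2 ≤ Real.log x := Real.log_le_log (by norm_num) hx
  set j := ⌈Real.log x⌉₊ with hj
  have h1 : x ≤ 2 * Real.exp (j : ℝ) := by
    have h2 : Real.log x ≤ j := Nat.le_ceil _
    have h3 : x = Real.exp (Real.log x) := (Real.exp_log (by linarith)).symm
    have h4 : Real.exp (Real.log x) ≤ Real.exp (j : ℝ) := Real.exp_le_exp.2 h2
    have h5 := Real.exp_pos (j : ℝ)
    linarith
  have h2 : ∑ π ∈ (GP 0 x : Finset (Gi K)), Real.log (nm π) / nm π ≤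
      ∑ π ∈ (GP 0 (2 * Real.exp j) : Finset (Gi K)), Real.log (nm π) / nm π := by
    apply sum_le_sum_of_subset_of_nonneg (GP_mono h1)
    intro π _ _
    exact div_nonneg (log_nm_nonneg _) (by positivity)
  have h3 := sum_cell_log hCg hg j
  have h4 : (j : ℝ) ≤ Real.log x + 1 := (Nat.ceil_lt_add_one (by linarith)).le
  have h5 : 3 * Cg * (j : ℝ) ≤ 3 * Cg * (3 * Real.log x) := by
    apply mul_le_mul_of_nonneg_left _ (by positivity)
    linarith
  have h6 : 1 ≤ 4 * B * Real.log x := by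
    have hB1 := hB.1
    nlinarith
  have h7 : (9 * Cg + 4 * B) * Real.log x = 3 * Cg * (3 * Real.log x) + 4 * B * Real.log x := by
    ring
  linarith

lemma sum_cell_tail {x : ℝ} (hx : 2 ≤ x) (J : ℕ) :
    ∑ π ∈ (GP x (x * Real.exp J) : Finset (Gi K)),
        (1 / (nm π : ℝ)) * (nm π : ℝ) ^ (-(1 / Real.log x)) ≤
      ∑ j ∈ range J, Cg / Real.log x * (Real.exp (-(1 / Real.log x))) ^ j := by
  have hl2 := log_two_pos'
  have hlx : Real.log 2 ≤ Real.log x := Real.log_le_log (by norm_num) hx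
  have hx0 : 0 < x := by linarith
  induction J with
  | zero =>
    have : (GP x (x * Real.exp ((0 : ℕ) : ℝ)) : Finset (Gi K)) = ∅ := by
      rw [eq_empty_iff_forall_notMem]
      intro z hz
      rw [MA.mem_GP] at hz
      have h6 := hz.2.2.2
      rw [Nat.cast_zero, Real.exp_zero] at h6
      linarith [hz.2.2.1]
    rw [this, sum_empty]
    simp
  | succ J ih =>
    have hj : (0 : ℝ) ≤ J := Nat.cast_nonneg J
    have e1 : Real.exp ((J + 1 : ℕ) : ℝ) = Real.exp 1 * Real.exp J := by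
      push_cast
      rw [add_comm, Real.exp_add]
    have hexp1 : 1 ≤ Real.exp (1 : ℝ) := by
      have := Real.add_one_le_exp (1 : ℝ); linarith
    have hone : 1 ≤ Real.exp (J : ℝ) := Real.one_le_exp hj
    have hle1 : x ≤ x * Real.exp (J : ℝ) := by nlinarith
    have hle : x * Real.exp (J : ℝ) ≤ x * Real.exp ((J + 1 : ℕ) : ℝ) := by
      rw [e1]
      have : Real.exp (J : ℝ) ≤ Real.exp 1 * Real.exp J := by nlinarith
      exact mul_le_mul_of_nonneg_left this hx0.le
    rw [GP_split hle1 hle, sum_range_succ]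
    have h1 := hg (x * Real.exp (J : ℝ)) (by linarith)
    have h4 : Real.exp 1 * (x * Real.exp (J : ℝ)) = x * Real.exp ((J + 1 : ℕ) : ℝ) := by
      rw [e1]; ring
    rw [h4] at h1
    have hlog : Real.log x ≤ Real.log (x * Real.exp (J : ℝ)) := Real.log_le_log hx0 hle1
    have h5 : WW K (x * Real.exp (J : ℝ)) (x * Real.exp ((J + 1 : ℕ) : ℝ)) ≤ Cg / Real.log x :=
      h1.trans (div_le_div_of_nonneg_left hCg.le (by linarith) hlog)
    have h6 : ∑ π ∈ (GP (x * Real.exp (J : ℝ)) (x * Real.exp ((J + 1 : ℕ) : ℝ)) : Finset (Gi K)),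
        (1 / (nm π : ℝ)) * (nm π : ℝ) ^ (-(1 / Real.log x)) ≤
          Cg / Real.log x * (Real.exp (-(1 / Real.log x))) ^ J := by
      calc ∑ π ∈ (GP (x * Real.exp (J : ℝ)) (x * Real.exp ((J + 1 : ℕ) : ℝ)) : Finset (Gi K)),
            (1 / (nm π : ℝ)) * (nm π : ℝ) ^ (-(1 / Real.log x))
          ≤ ∑ π ∈ (GP (x * Real.exp (J : ℝ)) (x * Real.exp ((J + 1 : ℕ) : ℝ)) : Finset (Gi K)),
            (1 / (nm π : ℝ)) * (Real.exp (-(1 / Real.log x))) ^ J := by
              apply sum_le_sum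
              intro π hπ
              have hp := MA.nm_posR (MA.GP_ne_zero hπ)
              apply mul_le_mul_of_nonneg_left _ (by positivity)
              have h7 : Real.exp (J : ℝ) ≤ nm π := by
                have h8 := (MA.mem_GP.1 hπ).2.2.1
                have h9 : Real.exp (J : ℝ) ≤ x * Real.exp (J : ℝ) := by nlinarith
                linarith
              calc (nm π : ℝ) ^ (-(1 / Real.log x)) ≤ (Real.exp (J : ℝ)) ^ (-(1 / Real.log x)) := by
                    apply Real.rpow_le_rpow_of_nonpos (Real.exp_pos _) h7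
                    rw [neg_nonpos]
                    apply div_nonneg (by norm_num) (by linarith)
                _ = (Real.exp (-(1 / Real.log x))) ^ J := by
                    rw [← Real.exp_mul, ← Real.exp_nat_mul]
        _ = WW K (x * Real.exp (J : ℝ)) (x * Real.exp ((J + 1 : ℕ) : ℝ)) *
              (Real.exp (-(1 / Real.log x))) ^ J := by
              rw [← sum_mul]; rfl
        _ ≤ Cg / Real.log x * (Real.exp (-(1 / Real.log x))) ^ J :=
              mul_le_mul_of_nonneg_right h5 (by positivity)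
    linarith

/-- the tail -/
lemma sum_tail_le {x Z : ℝ} (hx : 2 ≤ x) :
    ∑ π ∈ (GP x Z : Finset (Gi K)), (1 / (nm π : ℝ)) * (nm π : ℝ) ^ (-(1 / Real.log x)) ≤
      3 * Cg := by
  have hl2 := log_two_pos'
  have hlx : Real.log 2 ≤ Real.log x := Real.log_le_log (by norm_num) hx
  have hx0 : 0 < x := by linarith
  set J := ⌈Real.log (max Z 1)⌉₊ with hJ
  have hZ : Z ≤ x * Real.exp (J : ℝ) := by
    have h1 : Real.log (max Z 1) ≤ J := Nat.le_ceil _
    have h2 : (0 : ℝ) < max Z 1 := lt_of_lt_of_le one_pos (le_max_right _ _)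
    have h3 : max Z 1 ≤ Real.exp (J : ℝ) := by
      rw [← Real.exp_log h2]; exact Real.exp_le_exp.2 h1
    have h4 := le_max_left Z 1
    have h5 := Real.exp_pos (J : ℝ)
    nlinarith
  have h1 : ∑ π ∈ (GP x Z : Finset (Gi K)), (1 / (nm π : ℝ)) * (nm π : ℝ) ^ (-(1 / Real.log x)) ≤
      ∑ π ∈ (GP x (x * Real.exp J) : Finset (Gi K)),
        (1 / (nm π : ℝ)) * (nm π : ℝ) ^ (-(1 / Real.log x)) :=
    sum_le_sum_of_subset_of_nonneg (GP_mono hZ) (fun _ _ _ => by positivity)
  refine h1.trans ((sum_cell_tail hCg hg hx J).trans ?_)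
  rw [← mul_sum]
  have hu : 0 < 1 / Real.log x := by
    apply div_pos one_pos; linarith
  have hlt : Real.exp (-(1 / Real.log x)) < 1 := by
    rw [Real.exp_lt_one_iff]; linarith
  have h2 : ∑ j ∈ range J, (Real.exp (-(1 / Real.log x))) ^ j ≤
      (1 - Real.exp (-(1 / Real.log x)))⁻¹ :=
    sum_le_hasSum _ (fun _ _ => by positivity)
      (hasSum_geometric_of_lt_one (Real.exp_pos _).le hlt)
  have h3 : Real.exp (-(1 / Real.log x)) ≤ (1 + 1 / Real.log x)⁻¹ := by
    rw [Real.exp_neg]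
    apply inv_anti₀ (by linarith)
    have := Real.add_one_le_exp (1 / Real.log x)
    linarith
  have h4 : 1 / (1 + Real.log x) ≤ 1 - Real.exp (-(1 / Real.log x)) := by
    have hl0 : 0 < Real.log x := by linarith
    have : (1 + 1 / Real.log x)⁻¹ = 1 - 1 / (1 + Real.log x) := by
      generalize Real.log x = l at hl0
      have h7 : (1 : ℝ) + l ≠ 0 := by positivity
      have h8 : l + 1 ≠ 0 := by positivity
      have h9 : (1 : ℝ) + 1 / l = (l + 1) / l := by field_simp
      rw [h9, inv_div, eq_sub_iff_add_eq, add_comm (1 : ℝ) l, ← add_div, div_self h8]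
    linarith
  have h5 : (1 - Real.exp (-(1 / Real.log x)))⁻¹ ≤ 1 + Real.log x := by
    have h6 : (0 : ℝ) < 1 / (1 + Real.log x) := by
      apply div_pos one_pos; linarith
    calc (1 - Real.exp (-(1 / Real.log x)))⁻¹ ≤ (1 / (1 + Real.log x))⁻¹ := inv_anti₀ h6 h4
      _ = 1 + Real.log x := by rw [one_div, inv_inv]
  have h6 : 0 ≤ Cg / Real.log x := div_nonneg hCg.le (by linarith)
  calc Cg / Real.log x * ∑ j ∈ range J, (Real.exp (-(1 / Real.log x))) ^ j
      ≤ Cg / Real.log x * (1 + Real.log x) := mul_le_mul_of_nonneg_left (h2.trans h5) h6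
    _ = Cg * (1 + Real.log x) / Real.log x := by ring
    _ ≤ 3 * Cg := by
        rw [div_le_iff₀ (by linarith)]
        nlinarith

end OS

end Pool.Agent.Lib.MP391708.MA
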