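import Pool.Agent.Lib.MP_391708_nt.MA.Spec

/-!
# PRIN: from ideals to the principal elements
-/

set_option autoImplicit false

namespace Pool.Agent.Lib.MP391708.MA

open Finset Filter Topology NumberField
open scoped ComplexConjugate Classical

namespace PrinM

variable {K : Type} [Field K] [NumberField K]

/-- the element `x + y ω` -/
def el (ω : 𝓞 K) (p : ℤ × ℤ) : 𝓞 K := (p.1 : 𝓞 K) + (p.2 : 𝓞 K) * ω

theorem sigma_el (σ : K →+* ℂ) (ω : 𝓞 K) (p : ℤ × ℤ) :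
    σ ((el ω p : 𝓞 K) : K) = lt 1 (σ (ω : K)) p := by
  unfold el lt
  simp

theorem mem_disc {z : Gi K} {x : ℝ} : z ∈ disc x ↔ z ≠ 0 ∧ (nm z : ℝ) ≤ x := by
  unfold disc
  rw [mem_filter, Set.Finite.mem_toFinset]
  refine ⟨fun h => h.2, fun h => ⟨?_, h⟩⟩
  exact Nat.le_floor h.2

theorem mem_ann {z : Gi K} {x x' : ℝ} :
    z ∈ ann x x' ↔ z ≠ 0 ∧ x < (nm z : ℝ) ∧ (nm z : ℝ) ≤ x' := by
  unfold ann
  rw [mem_filter, mem_disc]
  tauto

section basis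

variable {ω : 𝓞 K} {b c : ℤ} (σ : K →+* ℂ) (hσ : 0 < (σ (ω : K)).im)

include hσ

theorem el_injective : Function.Injective (el ω) := by
  intro p q h
  have h1 : lt 1 (σ (ω : K)) p = lt 1 (σ (ω : K)) q := by
    rw [← sigma_el, ← sigma_el, h]
  unfold lt at h1
  have him := congrArg Complex.im h1
  have hre := congrArg Complex.re h1
  simp at him hre
  have h2 : (p.2 : ℝ) = q.2 := by
    rcases him with h | h
    · exact_mod_cast h
    · exact absurd h hσ.ne'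
  have h2' : p.2 = q.2 := by exact_mod_cast h2
  rw [h2'] at hre
  have h3 : p.1 = q.1 := by
    have : (p.1 : ℝ) = q.1 := by linarith
    exact_mod_cast this
  exact Prod.ext h3 h2'

/-- the integral basis `1, ω` -/
noncomputable def bas (hsp : ∀ v : 𝓞 K, ∃ x y : ℤ, v = (x : 𝓞 K) + (y : 𝓞 K) * ω) :
    Module.Basis (Fin 2) ℤ (𝓞 K) :=
  Module.Basis.mk (v := ![1, ω]) (by
    rw [LinearIndependent.pair_iff]
    intro s t h
    have h1 : el ω (s, t) = el ω (0, 0) := by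
      unfold el
      rw [zsmul_eq_mul, zsmul_eq_mul, mul_one] at h
      rw [h]
      simp
    have h2 := el_injective σ hσ h1
    exact ⟨congrArg Prod.fst h2, congrArg Prod.snd h2⟩) (by
    intro v _
    obtain ⟨x, y, hv⟩ := hsp v
    rw [Submodule.mem_span_range_iff_exists_fun]
    refine ⟨![x, y], ?_⟩
    rw [Fin.sum_univ_two]
    simp only [Matrix.cons_val_zero, Matrix.cons_val_one, zsmul_eq_mul, mul_one]
    exact hv.symm)

theorem bas_zero (hsp : ∀ v : 𝓞 K, ∃ x y : ℤ, v = (x : 𝓞 K) + (y : 𝓞 K) * ω) :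
    bas σ hσ hsp 0 = 1 := by
  unfold bas
  rw [Module.Basis.mk_apply]
  rfl

theorem bas_one (hsp : ∀ v : 𝓞 K, ∃ x y : ℤ, v = (x : 𝓞 K) + (y : 𝓞 K) * ω) :
    bas σ hσ hsp 1 = ω := by
  unfold bas
  rw [Module.Basis.mk_apply]
  rfl

theorem repr_el (hsp : ∀ v : 𝓞 K, ∃ x y : ℤ, v = (x : 𝓞 K) + (y : 𝓞 K) * ω) (x y : ℤ) :
    (bas σ hσ hsp).repr (el ω (x, y)) 0 = x ∧ (bas σ hσ hsp).repr (el ω (x, y)) 1 = y := by
  have h : el ω (x, y) = x • bas σ hσ hsp 0 + y • bas σ hσ hsp 1 := by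
    rw [bas_zero, bas_one, zsmul_eq_mul, zsmul_eq_mul, mul_one]
    rfl
  rw [h, map_add, map_smul, map_smul, Module.Basis.repr_self, Module.Basis.repr_self]
  constructor <;> simp

theorem norm_el (hω : ω ^ 2 = (b : 𝓞 K) * ω - (c : 𝓞 K))
    (hsp : ∀ v : 𝓞 K, ∃ x y : ℤ, v = (x : 𝓞 K) + (y : 𝓞 K) * ω) (p : ℤ × ℤ) :
    Algebra.norm ℤ (el ω p) = qn b c p := by
  obtain ⟨x, y⟩ := p
  rw [Algebra.norm_eq_matrix_det (bas σ hσ hsp), Matrix.det_fin_two]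
  simp only [Algebra.leftMulMatrix_eq_repr_mul]
  rw [bas_zero, bas_one, mul_one]
  have h2 : el ω (x, y) * ω = el ω (-(c * y), x + b * y) := by
    unfold el
    push_cast
    linear_combination (y : 𝓞 K) * hω
  rw [h2, (repr_el σ hσ hsp _ _).1, (repr_el σ hσ hsp _ _).2, (repr_el σ hσ hsp _ _).1,
    (repr_el σ hσ hsp _ _).2]
  unfold qn
  ring

theorem nm_el (hω : ω ^ 2 = (b : 𝓞 K) * ω - (c : 𝓞 K))
    (hsp : ∀ v : 𝓞 K, ∃ x y : ℤ, v = (x : 𝓞 K) + (y : 𝓞 K) * ω) (p : ℤ × ℤ) :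
    nm (Ideal.span {el ω p} : Gi K) = (qn b c p).natAbs := by
  unfold nm
  rw [Ideal.absNorm_span_singleton, norm_el σ hσ hω hsp]

/-- primitive elements -/
theorem prim_el (hsp : ∀ v : 𝓞 K, ∃ x y : ℤ, v = (x : 𝓞 K) + (y : 𝓞 K) * ω) (p : ℤ × ℤ) :
    prim (Ideal.span {el ω p} : Gi K) ↔ Int.gcd p.1 p.2 = 1 := by
  have hdvd : ∀ n : ℕ, (rt n : Gi K) ∣ Ideal.span {el ω p} ↔ (n : ℤ) ∣ p.1 ∧ (n : ℤ) ∣ p.2 := by
    intro n
    unfold rt
    rw [Ideal.dvd_span_singleton, Ideal.mem_span_singleton]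
    constructor
    · rintro ⟨v, hv⟩
      obtain ⟨x, y, rfl⟩ := hsp v
      have h : el ω p = el ω (n * x, n * y) := by
        rw [hv]
        unfold el
        push_cast
        ring
      have h2 := el_injective σ hσ h
      exact ⟨⟨x, congrArg Prod.fst h2⟩, ⟨y, congrArg Prod.snd h2⟩⟩
    · rintro ⟨⟨x, hx⟩, ⟨y, hy⟩⟩
      refine ⟨el ω (x, y), ?_⟩
      unfold el
      rw [hx, hy]
      push_cast
      ring
  have h0 : (Ideal.span {el ω p} : Gi K) = 0 ↔ p = 0 := by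
    rw [Ideal.zero_eq_bot, Ideal.span_singleton_eq_bot]
    have h1 : el ω (0 : ℤ × ℤ) = 0 := by
      unfold el
      simp
    rw [← h1]
    exact (el_injective σ hσ).eq_iff
  unfold prim
  constructor
  · rintro ⟨h1, h2⟩
    rw [Ne, h0] at h1
    by_contra hg
    have hg0 : Int.gcd p.1 p.2 ≠ 0 := by
      intro h
      rw [Int.gcd_eq_zero_iff] at h
      exact h1 (Prod.ext h.1 h.2)
    refine h2 (Int.gcd p.1 p.2) (by omega) ((hdvd _).2 ⟨Int.gcd_dvd_left _ _, Int.gcd_dvd_right _ _⟩)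
  · intro hg
    refine ⟨?_, fun n hn h => ?_⟩
    · rw [Ne, h0]
      rintro rfl
      simp at hg
    · have h1 := Int.dvd_coe_gcd ((hdvd n).1 h).1 ((hdvd n).1 h).2
      rw [hg] at h1
      have h2 : n ∣ 1 := by exact_mod_cast h1
      have := Nat.le_of_dvd one_pos h2
      omega

end basis

theorem qn_nonneg {b c : ℤ} (hbc : b ^ 2 < 4 * c) (p : ℤ × ℤ) : 0 ≤ qn b c p := by
  unfold qn
  nlinarith [sq_nonneg (2 * p.1 + b * p.2), mul_nonneg (by linarith : (0 : ℤ) ≤ 4 * c - b ^ 2)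
    (sq_nonneg p.2)]

section fibre

variable {ω : 𝓞 K} {b c : ℤ} (σ : K →+* ℂ) (hσ : 0 < (σ (ω : K)).im)
  (hω : ω ^ 2 = (b : 𝓞 K) * ω - (c : 𝓞 K))
  (hsp : ∀ v : 𝓞 K, ∃ x y : ℤ, v = (x : 𝓞 K) + (y : 𝓞 K) * ω) (hbc : b ^ 2 < 4 * c)

include hσ hω hsp hbc

theorem nm_el_real (p : ℤ × ℤ) :
    (nm (Ideal.span {el ω p} : Gi K) : ℝ) = (qn b c p : ℝ) := by
  rw [nm_el σ hσ hω hsp, ← Int.cast_natCast, Int.natAbs_of_nonneg (qn_nonneg hbc p)]

variable {X X' : ℝ} {S : Finset (ℤ × ℤ)}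
  (hS : ∀ p : ℤ × ℤ, p ∈ S ↔ Int.gcd p.1 p.2 = 1 ∧ X < (qn b c p : ℝ) ∧ (qn b c p : ℝ) ≤ X')

include hS

theorem mem_S_iff (p : ℤ × ℤ) :
    p ∈ S ↔ (Ideal.span {el ω p} : Gi K) ∈ (ann X X').filter prim := by
  rw [hS, mem_filter, mem_ann, nm_el_real σ hσ hω hsp hbc, prim_el σ hσ hsp]
  constructor
  · rintro ⟨h1, h2, h3⟩
    exact ⟨⟨((prim_el σ hσ hsp p).2 h1).1, h2, h3⟩, h1⟩
  · rintro ⟨⟨-, h2, h3⟩, h1⟩
    exact ⟨h1, h2, h3⟩

theorem card_fibre {z : Gi K} (hz : z ∈ (ann X X').filter prim) (hc : cls z = 1) :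
    (S.filter (fun p => (Ideal.span {el ω p} : Gi K) = z)).card = Nat.card (𝓞 K)ˣ := by
  have hz0 : z ≠ 0 := (mem_ann.1 (mem_filter.1 hz).1).1
  have hpr : z.IsPrincipal := by
    unfold cls at hc
    rw [dif_pos hz0] at hc
    exact (ClassGroup.mk0_eq_one_iff _).1 hc
  obtain ⟨v, hv⟩ := hpr
  have hv' : z = Ideal.span {v} := hv
  have hv0 : v ≠ 0 := by
    rintro rfl
    apply hz0
    rw [hv', Ideal.zero_eq_bot, Ideal.span_singleton_eq_bot]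
  -- the inverse of `el`
  have hsur : ∀ v : 𝓞 K, ∃ p : ℤ × ℤ, el ω p = v := by
    intro v
    obtain ⟨x, y, h⟩ := hsp v
    exact ⟨(x, y), h.symm⟩
  choose g hg using hsur
  have hinj : Function.Injective (fun u : (𝓞 K)ˣ => g (v * (u : 𝓞 K))) := by
    intro u u' h
    have h1 : v * (u : 𝓞 K) = v * (u' : 𝓞 K) := by
      rw [← hg (v * (u : 𝓞 K)), ← hg (v * (u' : 𝓞 K))]
      exact congrArg (el ω) h
    exact Units.ext (mul_left_cancel₀ hv0 h1)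
  have hran : ((S.filter (fun p => (Ideal.span {el ω p} : Gi K) = z) : Finset (ℤ × ℤ)) :
      Set (ℤ × ℤ)) = Set.range (fun u : (𝓞 K)ˣ => g (v * (u : 𝓞 K))) := by
    ext p
    rw [mem_coe, mem_filter, Set.mem_range]
    constructor
    · rintro ⟨-, h⟩
      rw [hv', Ideal.span_singleton_eq_span_singleton] at h
      obtain ⟨u, hu⟩ := h.symm
      refine ⟨u, el_injective σ hσ ?_⟩
      rw [hg, hu]
    · rintro ⟨u, rfl⟩
      have h1 : (Ideal.span {el ω (g (v * (u : 𝓞 K)))} : Gi K) = z := by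
        rw [hg, hv', Ideal.span_singleton_eq_span_singleton]
        exact (associated_mul_unit_left v (u : 𝓞 K) u.isUnit)
      refine ⟨?_, h1⟩
      rw [mem_S_iff σ hσ hω hsp hbc hS, h1]
      exact hz
  rw [← Set.ncard_coe_finset, hran, ← Nat.card_coe_set_eq,
    Nat.card_congr (Equiv.ofInjective _ hinj).symm]

theorem cls_el (p : ℤ × ℤ) (hp : p ∈ S) : cls (Ideal.span {el ω p} : Gi K) = 1 := by
  have h0 : (Ideal.span {el ω p} : Gi K) ≠ 0 :=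
    (mem_ann.1 (mem_filter.1 ((mem_S_iff σ hσ hω hsp hbc hS p).1 hp)).1).1
  unfold cls
  rw [dif_pos h0, ClassGroup.mk0_eq_one_iff]
  exact ⟨⟨el ω p, rfl⟩⟩

theorem sum_S (F : Gi K → ℂ) : ∑ p ∈ S, F (Ideal.span {el ω p}) =
    (Nat.card (𝓞 K)ˣ : ℂ) * ∑ z ∈ ((ann X X').filter prim).filter (fun z => cls z = 1), F z := by
  have hm : ∀ p ∈ S, (Ideal.span {el ω p} : Gi K) ∈
      ((ann X X').filter prim).filter (fun z => cls z = 1) := fun p hp =>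
    mem_filter.2 ⟨(mem_S_iff σ hσ hω hsp hbc hS p).1 hp, cls_el σ hσ hω hsp hbc hS p hp⟩
  rw [← Finset.sum_fiberwise_of_maps_to hm, Finset.mul_sum]
  refine Finset.sum_congr rfl fun z hz => ?_
  have h1 : ∀ p ∈ S.filter (fun p => (Ideal.span {el ω p} : Gi K) = z),
      F (Ideal.span {el ω p}) = F z := fun p hp => by rw [(mem_filter.1 hp).2]
  rw [Finset.sum_congr rfl h1, Finset.sum_const,
    card_fibre σ hσ hω hsp hbc hS (mem_filter.1 hz).1 (mem_filter.1 hz).2, nsmul_eq_mul]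

end fibre

/-- detection of the principal class -/
theorem sum_MM [Sg] (D : Dir K) (Y Y' : ℝ) (j : ℤ) :
    ∑ χ : AddChar (Additive (Cl K)) ℂ, MM D Y Y' (χ, j) = (Fintype.card (Cl K) : ℂ) *
      ∑ z ∈ ((ann Y Y').filter prim).filter (fun z => cls z = 1), (lam z : ℂ) * D.f z ^ j := by
  unfold MM
  rw [Finset.sum_comm, Finset.mul_sum, Finset.sum_filter (s := (ann Y Y').filter prim)]
  refine Finset.sum_congr rfl fun z _ => ?_
  have h1 : ∀ χ : AddChar (Additive (Cl K)) ℂ, (lam z : ℂ) * xi D (χ, j) z =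
      ((lam z : ℂ) * D.f z ^ j) * χ (Additive.ofMul (cls z)) := by
    intro χ
    unfold xi
    ring
  simp only [h1]
  rw [← Finset.mul_sum, AddChar.sum_apply_eq_ite]
  have h2 : Additive.ofMul (cls z) = 0 ↔ cls z = 1 := by
    rw [ofMul_eq_zero]
  have h3 : Fintype.card (Additive (Cl K)) = Fintype.card (Cl K) := Fintype.card_congr Additive.toMul
  by_cases h : cls z = 1
  · rw [if_pos (h2.2 h), if_pos h, h3]
    ring
  · rw [if_neg (fun h' => h (h2.1 h')), if_neg h, mul_zero]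

theorem sq_le [Sg] (D : Dir K) (Y Y' : ℝ) (j : ℤ) :
    ‖∑ z ∈ ((ann Y Y').filter prim).filter (fun z => cls z = 1), (lam z : ℂ) * D.f z ^ j‖ ^ 2 ≤
      ∑ χ : AddChar (Additive (Cl K)) ℂ, ‖MM D Y Y' (χ, j)‖ ^ 2 := by
  set A := ∑ z ∈ ((ann Y Y').filter prim).filter (fun z => cls z = 1), (lam z : ℂ) * D.f z ^ j
    with hA
  have h := sum_MM D Y Y' j
  rw [← hA] at h
  have hc : (1 : ℝ) ≤ Fintype.card (Cl K) := by
    exact_mod_cast Fintype.card_pos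
  have hcard : (Fintype.card (AddChar (Additive (Cl K)) ℂ) : ℝ) = Fintype.card (Cl K) := by
    rw [AddChar.card_eq]
    exact_mod_cast Fintype.card_congr Additive.toMul
  have h1 : ‖∑ χ : AddChar (Additive (Cl K)) ℂ, MM D Y Y' (χ, j)‖ ^ 2 ≤
      (Fintype.card (Cl K) : ℝ) * ∑ χ : AddChar (Additive (Cl K)) ℂ, ‖MM D Y Y' (χ, j)‖ ^ 2 := by
    have h2 := sq_sum_le_card_mul_sum_sq (s := (univ : Finset (AddChar (Additive (Cl K)) ℂ)))
      (f := fun χ => ‖MM D Y Y' (χ, j)‖)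
    rw [Finset.card_univ, hcard] at h2
    refine le_trans ?_ h2
    exact pow_le_pow_left₀ (norm_nonneg _) (norm_sum_le _ _) 2
  rw [h, norm_mul, mul_pow, Complex.norm_natCast] at h1
  have h3 : (Fintype.card (Cl K) : ℝ) * ‖A‖ ^ 2 ≤ ∑ χ : AddChar (Additive (Cl K)) ℂ,
      ‖MM D Y Y' (χ, j)‖ ^ 2 := by
    have h4 : (Fintype.card (Cl K) : ℝ) * ((Fintype.card (Cl K) : ℝ) * ‖A‖ ^ 2) ≤
        (Fintype.card (Cl K) : ℝ) * ∑ χ : AddChar (Additive (Cl K)) ℂ, ‖MM D Y Y' (χ, j)‖ ^ 2 := by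
      calc _ = (Fintype.card (Cl K) : ℝ) ^ 2 * ‖A‖ ^ 2 := by ring
        _ ≤ _ := h1
    exact le_of_mul_le_mul_left h4 (by linarith)
  refine le_trans ?_ h3
  nlinarith [sq_nonneg ‖A‖]

end PrinM

open PrinM

/-- the multiples of the number `w` of roots of unity -/
def PrinW [Sg] (b c : ℤ) (w : ℕ) (τ : ℂ) : Prop := ∀ B ε : ℝ, 1 < B → 0 < ε →
  ∃ H₀ : ℝ, ∀ H : ℝ, H₀ ≤ H → ∀ᶠ X : ℝ in atTop, ∀ S : Finset (ℤ × ℤ),
    (∀ p : ℤ × ℤ, p ∈ S ↔ Int.gcd p.1 p.2 = 1 ∧ X < (qn b c p : ℝ) ∧ (qn b c p : ℝ) ≤ B * X) →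
    ∑ j ∈ (Icc (-(⌊X / H⌋₊ : ℤ)) ⌊X / H⌋₊).filter (fun j => j ≠ 0),
      ‖∑ p ∈ S, ((gs (qn b c p).natAbs : ℤ) : ℂ) *
        (lt 1 τ p / ((‖lt 1 τ p‖ : ℝ) : ℂ)) ^ ((w : ℤ) * j)‖ ^ 2 ≤ ε * X ^ 2

theorem prinW [Sg] (K : Type) [Field K] [NumberField K] (ω : 𝓞 K) (b c : ℤ) (D : Dir K)
    (hM : SpecMRC K D) (hω : ω ^ 2 = (b : 𝓞 K) * ω - (c : 𝓞 K))
    (hsp : ∀ v : 𝓞 K, ∃ x y : ℤ, v = (x : 𝓞 K) + (y : 𝓞 K) * ω) (hbc : b ^ 2 < 4 * c)
    (hσ : 0 < (D.σ (ω : K)).im) :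
    PrinW b c (NumberField.Units.torsionOrder K) (D.σ (ω : K)) := by
  intro B ε hB hε
  set u : ℝ := (Nat.card (𝓞 K)ˣ : ℝ) with hu
  obtain ⟨H₀, hH₀⟩ := hM B (ε / (u ^ 2 + 1)) hB (by positivity)
  refine ⟨H₀, fun H hH => ?_⟩
  filter_upwards [hH₀ H hH] with X hX S hS
  set Z := ⌊X / H⌋₊ with hZ
  -- one frequency
  have h1 : ∀ j : ℤ, ∑ p ∈ S, ((gs (qn b c p).natAbs : ℤ) : ℂ) *
      (lt 1 (D.σ (ω : K)) p / ((‖lt 1 (D.σ (ω : K)) p‖ : ℝ) : ℂ)) ^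
        ((NumberField.Units.torsionOrder K : ℤ) * j) =
      (Nat.card (𝓞 K)ˣ : ℂ) * ∑ z ∈ ((ann X (B * X)).filter prim).filter (fun z => cls z = 1),
        (lam z : ℂ) * D.f z ^ j := by
    intro j
    rw [← sum_S D.σ hσ hω hsp hbc hS (fun z => (lam z : ℂ) * D.f z ^ j)]
    refine Finset.sum_congr rfl fun p hp => ?_
    have h0 : (Ideal.span {el ω p} : Gi K) ≠ 0 :=
      (mem_ann.1 (mem_filter.1 ((mem_S_iff D.σ hσ hω hsp hbc hS p).1 hp)).1).1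
    have h0' : el ω p ≠ 0 := by
      intro h
      apply h0
      rw [Ideal.zero_eq_bot, Ideal.span_singleton_eq_bot]
      exact h
    congr 1
    · unfold lam
      rw [nm_el D.σ hσ hω hsp]
      push_cast
      rfl
    · rw [D.prin _ h0']
      unfold dr
      rw [sigma_el, ← zpow_natCast, ← zpow_mul]
  have h2 : ∀ j : ℤ, ‖∑ p ∈ S, ((gs (qn b c p).natAbs : ℤ) : ℂ) *
      (lt 1 (D.σ (ω : K)) p / ((‖lt 1 (D.σ (ω : K)) p‖ : ℝ) : ℂ)) ^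
        ((NumberField.Units.torsionOrder K : ℤ) * j)‖ ^ 2 ≤
      u ^ 2 * ∑ χ : AddChar (Additive (Cl K)) ℂ, ‖MM D X (B * X) (χ, j)‖ ^ 2 := by
    intro j
    rw [h1 j, norm_mul, mul_pow, Complex.norm_natCast]
    exact mul_le_mul_of_nonneg_left (sq_le D X (B * X) j) (sq_nonneg _)
  refine (Finset.sum_le_sum fun j _ => h2 j).trans ?_
  rw [← Finset.mul_sum]
  have h3 : ∑ j ∈ (Icc (-(Z : ℤ)) Z).filter (fun j => j ≠ 0),
      ∑ χ : AddChar (Additive (Cl K)) ℂ, ‖MM D X (B * X) (χ, j)‖ ^ 2 =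
      ∑ κ ∈ (IK K Z).filter (fun κ => κ.2 ≠ 0), ‖MM D X (B * X) κ‖ ^ 2 := by
    unfold IK
    rw [Finset.sum_filter, Finset.sum_filter, Finset.sum_product_right]
    refine Finset.sum_congr rfl fun j _ => ?_
    by_cases hj : j = 0
    · simp [hj]
    · simp [hj]
  rw [h3]
  have h4 : u ^ 2 * (ε / (u ^ 2 + 1) * X ^ 2) ≤ ε * X ^ 2 := by
    have h5 : u ^ 2 * (ε / (u ^ 2 + 1)) ≤ ε := by
      rw [mul_div_assoc', div_le_iff₀ (by positivity)]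
      nlinarith [sq_nonneg u]
    calc u ^ 2 * (ε / (u ^ 2 + 1) * X ^ 2) = (u ^ 2 * (ε / (u ^ 2 + 1))) * X ^ 2 := by ring
      _ ≤ ε * X ^ 2 := mul_le_mul_of_nonneg_right h5 (sq_nonneg X)
  exact (mul_le_mul_of_nonneg_left hX (sq_nonneg u)).trans h4

end Pool.Agent.Lib.MP391708.MA
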