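import Pool.Agent.Lib.MP_391708_nt.MA.Prin

/-!
# PRIN for all nonzero frequencies: the rotation by a root of unity
-/

set_option autoImplicit false

namespace Pool.Agent.Lib.MP391708.MA

open Finset Filter Topology NumberField
open scoped ComplexConjugate Classical

namespace PrinM

variable {K : Type} [Field K] [NumberField K]

/-- a unit of order `w` -/
theorem exists_unit (σ : K →+* ℂ) : ∃ ζ : (𝓞 K)ˣ, ‖σ ((ζ : 𝓞 K) : K)‖ = 1 ∧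
    ∀ k : ℤ, σ ((ζ : 𝓞 K) : K) ^ k = 1 → (NumberField.Units.torsionOrder K : ℤ) ∣ k := by
  obtain ⟨g, hg⟩ := IsCyclic.exists_ofOrder_eq_natCard (α := NumberField.Units.torsion K)
  set ζ : (𝓞 K)ˣ := (g : (𝓞 K)ˣ) with hζ
  have h1 : orderOf ζ = NumberField.Units.torsionOrder K := by
    rw [hζ, Subgroup.orderOf_coe, hg]
    rfl
  set z := NumberField.Units.complexEmbedding σ ζ with hz
  have h2 : orderOf z = NumberField.Units.torsionOrder K := by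
    rw [hz, orderOf_injective _ (NumberField.Units.complexEmbedding_injective σ), h1]
  have h3 : (z : ℂ) = σ ((ζ : 𝓞 K) : K) := by
    rw [hz, NumberField.Units.complexEmbedding_apply]
  refine ⟨ζ, ?_, fun k hk => ?_⟩
  · rw [← h3]
    have h4 : (z : ℂ) ^ NumberField.Units.torsionOrder K = 1 := by
      rw [← h2, ← Units.val_pow_eq_pow_val, pow_orderOf_eq_one, Units.val_one]
    exact Complex.norm_eq_one_of_pow_eq_one h4 (NumberField.Units.torsionOrder_ne_zero K)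
  · rw [← h2, orderOf_dvd_iff_zpow_eq_one]
    apply Units.ext
    rw [Units.val_zpow_eq_zpow_val, h3, hk, Units.val_one]

section rot

variable {ω : 𝓞 K} {b c : ℤ} (σ : K →+* ℂ) (hσ : 0 < (σ (ω : K)).im)
  (hω : ω ^ 2 = (b : 𝓞 K) * ω - (c : 𝓞 K))
  (hsp : ∀ v : 𝓞 K, ∃ x y : ℤ, v = (x : 𝓞 K) + (y : 𝓞 K) * ω) (hbc : b ^ 2 < 4 * c)
  {X X' : ℝ} {S : Finset (ℤ × ℤ)}
  (hS : ∀ p : ℤ × ℤ, p ∈ S ↔ Int.gcd p.1 p.2 = 1 ∧ X < (qn b c p : ℝ) ∧ (qn b c p : ℝ) ≤ X')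

include hσ hω hsp hbc hS

theorem sum_rot (ζ : (𝓞 K)ˣ) (G : ℕ → ℂ → ℂ) :
    ∑ p ∈ S, G (qn b c p).natAbs (lt 1 (σ (ω : K)) p) =
      ∑ p ∈ S, G (qn b c p).natAbs (σ ((ζ : 𝓞 K) : K) * lt 1 (σ (ω : K)) p) := by
  have hsur : ∀ v : 𝓞 K, ∃ p : ℤ × ℤ, el ω p = v := by
    intro v
    obtain ⟨x, y, h⟩ := hsp v
    exact ⟨(x, y), h.symm⟩
  choose g hg using hsur
  have hspan : ∀ (u : (𝓞 K)ˣ) (p : ℤ × ℤ),
      (Ideal.span {el ω (g ((u : 𝓞 K) * el ω p))} : Gi K) = Ideal.span {el ω p} := by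
    intro u p
    rw [hg, Ideal.span_singleton_eq_span_singleton]
    exact associated_unit_mul_left _ _ u.isUnit
  have hmem : ∀ (u : (𝓞 K)ˣ), ∀ p ∈ S, g ((u : 𝓞 K) * el ω p) ∈ S := by
    intro u p hp
    rw [mem_S_iff σ hσ hω hsp hbc hS] at hp ⊢
    rwa [hspan]
  have hinv : ∀ (u u' : (𝓞 K)ˣ) (p : ℤ × ℤ), (u : 𝓞 K) * (u' : 𝓞 K) = 1 →
      g ((u : 𝓞 K) * el ω (g ((u' : 𝓞 K) * el ω p))) = p := by
    intro u u' p h
    apply el_injective σ hσ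
    rw [hg, hg, ← mul_assoc, h, one_mul]
  symm
  refine Finset.sum_nbij' (fun p => g ((ζ : 𝓞 K) * el ω p))
    (fun p => g (((ζ⁻¹ : (𝓞 K)ˣ) : 𝓞 K) * el ω p)) (hmem ζ) (hmem ζ⁻¹) ?_ ?_ ?_
  · intro p _
    exact hinv ζ⁻¹ ζ p (Units.inv_mul ζ)
  · intro p _
    exact hinv ζ ζ⁻¹ p (Units.mul_inv ζ)
  · intro p _
    have h1 : (qn b c (g ((ζ : 𝓞 K) * el ω p))).natAbs = (qn b c p).natAbs := by
      rw [← nm_el σ hσ hω hsp, ← nm_el σ hσ hω hsp, hspan]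
    have h2 : lt 1 (σ (ω : K)) (g ((ζ : 𝓞 K) * el ω p)) =
        σ ((ζ : 𝓞 K) : K) * lt 1 (σ (ω : K)) p := by
      rw [← sigma_el, ← sigma_el, hg]
      simp
    rw [h1, h2]

theorem sum_eq_zero [Sg] (k : ℤ) (hk : ¬ (NumberField.Units.torsionOrder K : ℤ) ∣ k) :
    ∑ p ∈ S, ((gs (qn b c p).natAbs : ℤ) : ℂ) *
      (lt 1 (σ (ω : K)) p / ((‖lt 1 (σ (ω : K)) p‖ : ℝ) : ℂ)) ^ k = 0 := by
  obtain ⟨ζ, h1, h2⟩ := exists_unit (K := K) σ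
  have h := sum_rot σ hσ hω hsp hbc hS ζ
    (fun n z => ((gs n : ℤ) : ℂ) * (z / ((‖z‖ : ℝ) : ℂ)) ^ k)
  beta_reduce at h
  set A := ∑ p ∈ S, ((gs (qn b c p).natAbs : ℤ) : ℂ) *
      (lt 1 (σ (ω : K)) p / ((‖lt 1 (σ (ω : K)) p‖ : ℝ) : ℂ)) ^ k with hA
  have h3 : ∑ p ∈ S, ((gs (qn b c p).natAbs : ℤ) : ℂ) *
      (σ ((ζ : 𝓞 K) : K) * lt 1 (σ (ω : K)) p /
        ((‖σ ((ζ : 𝓞 K) : K) * lt 1 (σ (ω : K)) p‖ : ℝ) : ℂ)) ^ k =
      σ ((ζ : 𝓞 K) : K) ^ k * A := by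
    rw [hA, Finset.mul_sum]
    refine Finset.sum_congr rfl fun p _ => ?_
    rw [norm_mul, h1, one_mul, mul_div_assoc, mul_zpow]
    ring
  rw [h3] at h
  have h4 : (1 - σ ((ζ : 𝓞 K) : K) ^ k) * A = 0 := by
    rw [sub_mul, one_mul, ← h, sub_self]
  rcases mul_eq_zero.1 h4 with h5 | h5
  · exact absurd (h2 k (sub_eq_zero.1 h5).symm) hk
  · exact h5

end rot

end PrinM

open PrinM

/-- PRIN -/
theorem specPrin [Sg] (K : Type) [Field K] [NumberField K] : SpecPrin K := by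
  intro ω b c D hM hω hsp hbc hσ B ε hB hε
  obtain ⟨H₀, hH₀⟩ := prinW K ω b c D hM hω hsp hbc hσ B ε hB hε
  refine ⟨H₀, fun H hH => ?_⟩
  filter_upwards [hH₀ H hH] with X hX S hS
  refine le_trans ?_ (hX S hS)
  set Z := ⌊X / H⌋₊ with hZ
  set w := NumberField.Units.torsionOrder K with hw
  have hw0 : 0 < w := NumberField.Units.torsionOrder_pos K
  set T : ℤ → ℝ := fun k => ‖∑ p ∈ S,
    ((gs (qn b c p).natAbs : ℤ) : ℂ) *
      (lt 1 (D.σ (ω : K)) p / ((‖lt 1 (D.σ (ω : K)) p‖ : ℝ) : ℂ)) ^ k‖ ^ 2 with hT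
  have h0 : ∀ k : ℤ, ¬ (w : ℤ) ∣ k → T k = 0 := by
    intro k hk
    rw [hT]
    beta_reduce
    rw [sum_eq_zero D.σ hσ hω hsp hbc hS k hk, norm_zero, zero_pow two_ne_zero]
  change ∑ k ∈ (Icc (-(Z : ℤ)) Z).filter (fun k => k ≠ 0), T k ≤
    ∑ j ∈ (Icc (-(Z : ℤ)) Z).filter (fun j => j ≠ 0), T ((w : ℤ) * j)
  have hinj : Function.Injective (fun j : ℤ => (w : ℤ) * j) := by
    intro i j h
    exact mul_left_cancel₀ (by exact_mod_cast hw0.ne') h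
  rw [← Finset.sum_image (f := T) (g := fun j : ℤ => (w : ℤ) * j) (fun i _ j _ h => hinj h)]
  rw [← Finset.sum_filter_add_sum_filter_not ((Icc (-(Z : ℤ)) Z).filter (fun k => k ≠ 0))
    (fun k => (w : ℤ) ∣ k)]
  have h1 : ∑ k ∈ ((Icc (-(Z : ℤ)) Z).filter (fun k => k ≠ 0)).filter (fun k => ¬ (w : ℤ) ∣ k),
      T k = 0 := Finset.sum_eq_zero fun k hk => h0 k (mem_filter.1 hk).2
  rw [h1, add_zero]
  refine Finset.sum_le_sum_of_subset_of_nonneg ?_ fun k _ _ => by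
    rw [hT]
    positivity
  intro k hk
  rw [mem_filter, mem_filter, mem_Icc] at hk
  obtain ⟨⟨⟨hk1, hk2⟩, hk0⟩, j, rfl⟩ := hk
  rw [mem_image]
  refine ⟨j, ?_, rfl⟩
  have hw1 : (1 : ℤ) ≤ w := by exact_mod_cast hw0
  rw [mem_filter, mem_Icc]
  have hj0 : j ≠ 0 := by
    rintro rfl
    exact hk0 (mul_zero _)
  refine ⟨⟨?_, ?_⟩, hj0⟩
  · rcases le_or_gt 0 j with h | h
    · have : (0 : ℤ) ≤ Z := Int.natCast_nonneg _
      linarith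
    · nlinarith
  · rcases le_or_gt 0 j with h | h
    · nlinarith
    · have : (0 : ℤ) ≤ Z := Int.natCast_nonneg _
      linarith

end Pool.Agent.Lib.MP391708.MA
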