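import Pool.Agent.Lib.MP_391708_nt.Inf.Defs

/-!
# Completely multiplicative sign functions as an instance argument
-/

set_option autoImplicit false

namespace Pool.Agent.Lib.MP391708.MA

open Pool.Agent.Lib.MP192724 (IsSign)

/-- a completely multiplicative function on the positive integers with values `1`, `-1` -/
class Sg where
  g : ℕ → ℤ
  sgn : IsSign g

variable [Sg]

/-- the sign function, with value `1` at `0` -/
def gs (n : ℕ) : ℤ := if n = 0 then 1 else Sg.g n

lemma gs_zero : gs 0 = 1 := if_pos rfl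

lemma gs_of_pos {n : ℕ} (hn : 0 < n) : gs n = Sg.g n := if_neg hn.ne'

lemma gs_eq_or (n : ℕ) : gs n = 1 ∨ gs n = -1 := by
  unfold gs
  split_ifs with h
  · left; rfl
  · exact Sg.sgn.val n (Nat.pos_of_ne_zero h)

lemma gs_mul {m n : ℕ} (hm : m ≠ 0) (hn : n ≠ 0) : gs (m * n) = gs m * gs n := by
  unfold gs
  rw [if_neg hm, if_neg hn, if_neg (mul_ne_zero hm hn)]
  exact Sg.sgn.mul m n (Nat.pos_of_ne_zero hm) (Nat.pos_of_ne_zero hn)

lemma gs_one : gs 1 = 1 := by
  have h := gs_mul one_ne_zero one_ne_zero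
  rw [one_mul] at h
  rcases gs_eq_or 1 with h1 | h1
  · exact h1
  · rw [h1] at h; norm_num at h

lemma gs_sq (n : ℕ) : gs n ^ 2 = 1 := by
  rcases gs_eq_or n with h | h <;> rw [h] <;> norm_num

lemma gs_mul_self (n : ℕ) : gs n * gs n = 1 := by rw [← sq, gs_sq]

lemma gs_pow_two {n : ℕ} (hn : n ≠ 0) : gs (n ^ 2) = 1 := by
  rw [sq, gs_mul hn hn, gs_mul_self]

/-- the Liouville function -/
lemma isSign_liouville : IsSign (fun n => (-1 : ℤ) ^ ArithmeticFunction.cardFactors n) := by
  constructor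
  · intro n _
    exact neg_one_pow_eq_or ℤ _
  · intro m n hm hn
    rw [ArithmeticFunction.cardFactors_mul hm.ne' hn.ne', pow_add]

end Pool.Agent.Lib.MP391708.MA
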